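import Pool.Agent.EG.TM.Pnt
import Pool.Agent.H62.EF.PrA

/-!
# EG TM BaseF: the base locus is finite

`P = {x | ‖x‖ = 1 ∧ OnV Q x ∧ F₁ x = 0 ∧ F₂ x = 0}` is compact.  `base_finite`: `pr '' P` is finite: it is compact (`continuousAt_pr`), and every point `b₀ ∈ P` has a neighbourhood `U` such that all `x ∈ P ∩ U` have `pr x = pr b₀`: with `ℓ`, `Ψ` as in `ChI`
(`ℓ b₀ = 1`, `Phi Q ℓ b₀ = pnt 1 0 0`) for `x ∈ P` near `b₀` the point `(ℓ x)⁻¹ • x` is near `b₀` and `Phi Q ℓ ((ℓ x)⁻¹ • x) = pnt 1 0 0`, so `(ℓ x)⁻¹ • x = b₀` (`Phi_inv`), `pr x = pr b₀` (`pr_smul`).  A finite subcover of `P` gives the claim.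

-/

set_option autoImplicit false

open Topology Filter Metric Set

namespace Pool.Agent.EG.TM

open Pool.Agent.TC (ev grad OnV nv cross dt)
open Pool.Agent.H36.BP (EN)
open Pool.Agent.H62.EF (pr)

variable {n : ℕ} {Q : Fin (n + 2) → MvPolynomial (Fin (n + 3)) ℂ} {e : Fin (n + 2) → ℕ}

private theorem baseF_loc (h : LS Q e) {b₀ : EN (n + 2)} (hb1 : ‖b₀‖ = 1) (hb : OnV Q b₀) (h0 : ev (Q 0) b₀ = 0) (h1 : ev (Q 1) b₀ = 0) :
    ∀ᶠ x in 𝓝 b₀, OnV Q x → ev (Q 0) x = 0 → ev (Q 1) x = 0 → pr x = pr b₀ := by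
  have hb0 : b₀ ≠ 0 := by
    intro hz
    rw [hz, norm_zero] at hb1
    exact zero_ne_one hb1
  obtain ⟨i, hi⟩ : ∃ i, b₀ i ≠ 0 := by
    by_contra hcon
    push Not at hcon
    apply hb0
    ext i
    exact hcon i
  obtain ⟨a, ha, hnv⟩ := nv_base h hb0 hb h0 h1
  obtain ⟨ℓ, hℓ⟩ : ∃ ℓ : Fin (n + 3) → ℂ, ℓ = fun k => if k = i then (b₀ i)⁻¹ else 0 := ⟨_, rfl⟩
  have hdt : ∀ v : Fin (n + 3) → ℂ, dt ℓ v = (b₀ i)⁻¹ * v i := by
    intro v
    unfold dt
    rw [hℓ, Finset.sum_eq_single i]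
    · simp only [if_true]
    · intro k _ hk
      simp only [if_neg hk, zero_mul]
    · intro hn
      exact absurd (Finset.mem_univ i) hn
  have hnvi : nv Q b₀ i = a * b₀ i := by
    rw [hnv]
    rfl
  have hne : dt ℓ (fun k => nv Q b₀ k) ≠ 0 := by
    rw [hdt]
    show (b₀ i)⁻¹ * nv Q b₀ i ≠ 0
    rw [hnvi]
    exact mul_ne_zero (inv_ne_zero hi) (mul_ne_zero ha hi)
  obtain ⟨Ψ, -, hΨ, -, hΨ0⟩ := Phi_inv Q ℓ hne
  -- the normalised point
  have hcont : ContinuousAt (fun x : EN (n + 2) => ((b₀ i)⁻¹ * x i)⁻¹ • x) b₀ := by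
    have h2 : ContinuousAt (fun x : EN (n + 2) => (b₀ i)⁻¹ * x i) b₀ :=
      continuousAt_const.mul (PiLp.continuous_apply 2 _ i).continuousAt
    have h3 : (fun x : EN (n + 2) => (b₀ i)⁻¹ * x i) b₀ ≠ 0 := mul_ne_zero (inv_ne_zero hi) hi
    exact (h2.inv₀ h3).smul continuousAt_id
  have hval : ((b₀ i)⁻¹ * b₀ i)⁻¹ • b₀ = b₀ := by
    rw [inv_mul_cancel₀ hi, inv_one, one_smul]
  have hlim : Tendsto (fun x : EN (n + 2) => ((b₀ i)⁻¹ * x i)⁻¹ • x) (𝓝 b₀) (𝓝 b₀) := by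
    have h2 := hcont.tendsto
    simp only at h2
    rwa [hval] at h2
  have hxi : ∀ᶠ x : EN (n + 2) in 𝓝 b₀, x i ≠ 0 :=
    (PiLp.continuous_apply 2 _ i).continuousAt.eventually_ne hi
  filter_upwards [hlim.eventually hΨ, hxi] with x hx hxi hV hx0 hx1
  have hc : (b₀ i)⁻¹ * x i ≠ 0 := mul_ne_zero (inv_ne_zero hi) hxi
  have hPhi : Phi Q ℓ (((b₀ i)⁻¹ * x i)⁻¹ • x) = Phi Q ℓ b₀ := by
    have e1 : dt ℓ (fun k => (((b₀ i)⁻¹ * x i)⁻¹ • x) k) = dt ℓ (fun k => b₀ k) := by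
      rw [hdt, hdt]
      show (b₀ i)⁻¹ * (((b₀ i)⁻¹ * x i)⁻¹ * x i) = (b₀ i)⁻¹ * b₀ i
      field_simp
    have e2 : ∀ j, ev (Q j) (((b₀ i)⁻¹ * x i)⁻¹ • x) = ev (Q j) b₀ := by
      intro j
      have e3 : ev (Q j) x = 0 := by
        rcases Nat.lt_or_ge (j : ℕ) 2 with hj | hj
        · have : j = 0 ∨ j = 1 := by
            rcases Nat.lt_or_ge (j : ℕ) 1 with hj' | hj'
            · left
              apply Fin.ext
              simp only [Fin.val_zero]
              omega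
            · right
              apply Fin.ext
              simp only [Fin.val_one]
              omega
          rcases this with rfl | rfl
          · exact hx0
          · exact hx1
        · exact hV j hj
      have e4 : ev (Q j) b₀ = 0 := by
        rcases Nat.lt_or_ge (j : ℕ) 2 with hj | hj
        · have : j = 0 ∨ j = 1 := by
            rcases Nat.lt_or_ge (j : ℕ) 1 with hj' | hj'
            · left
              apply Fin.ext
              simp only [Fin.val_zero]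
              omega
            · right
              apply Fin.ext
              simp only [Fin.val_one]
              omega
          rcases this with rfl | rfl
          · exact h0
          · exact h1
        · exact hb j hj
      rw [Pool.Agent.TC.ev_smul (h.hom j), e3, e4, mul_zero]
    unfold Phi
    rw [e1]
    simp only [e2]
  rw [hPhi, hΨ0] at hx
  have hx' : ((b₀ i)⁻¹ * x i) • b₀ = x := by
    have h5 := congrArg (fun y => ((b₀ i)⁻¹ * x i) • y) hx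
    simp only at h5
    rw [smul_smul, mul_inv_cancel₀ hc, one_smul] at h5
    exact h5
  rw [← hx']
  exact Pool.Agent.H62.EF.pr_smul b₀ hc

theorem base_finite (h : LS Q e) : (pr '' {x : EN (n + 2) | ‖x‖ = 1 ∧ OnV Q x ∧ ev (Q 0) x = 0 ∧ ev (Q 1) x = 0}).Finite := by
  obtain ⟨P, hP⟩ : ∃ P : Set (EN (n + 2)), P = {x : EN (n + 2) | ‖x‖ = 1 ∧ OnV Q x ∧ ev (Q 0) x = 0 ∧ ev (Q 1) x = 0} := ⟨_, rfl⟩
  have hc : IsCompact P := by
    have h1 : P = sphere (0 : EN (n + 2)) 1 ∩ ({x | OnV Q x} ∩ ({x | ev (Q 0) x = 0} ∩ {x | ev (Q 1) x = 0})) := by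
      rw [hP]
      ext x
      simp only [mem_ofPred_eq, mem_inter_iff, mem_sphere_iff_norm, sub_zero]
    rw [h1]
    refine (isCompact_sphere (0 : EN (n + 2)) 1).inter_right (IsClosed.inter ?_ (IsClosed.inter ?_ ?_))
    · have h2 : {x : EN (n + 2) | OnV Q x} = ⋂ j : Fin (n + 2), ⋂ _ : 2 ≤ (j : ℕ), {x | ev (Q j) x = 0} := by
        ext x
        simp only [mem_ofPred_eq, mem_iInter]
        rfl
      rw [h2]
      exact isClosed_iInter fun j => isClosed_iInter fun _ => isClosed_eq (Pool.Agent.TC.continuous_ev (Q j)) continuous_const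
    · exact isClosed_eq (Pool.Agent.TC.continuous_ev (Q 0)) continuous_const
    · exact isClosed_eq (Pool.Agent.TC.continuous_ev (Q 1)) continuous_const
  have hloc : ∀ b ∈ P, {x | OnV Q x → ev (Q 0) x = 0 → ev (Q 1) x = 0 → pr x = pr b} ∈ 𝓝 b := by
    intro b hb
    rw [hP] at hb
    exact baseF_loc h hb.1 hb.2.1 hb.2.2.1 hb.2.2.2
  obtain ⟨t, -, ht⟩ := hc.elim_nhds_subcover (fun b => {x | OnV Q x → ev (Q 0) x = 0 → ev (Q 1) x = 0 → pr x = pr b}) hloc
  rw [← hP]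
  refine (t.finite_toSet.image pr).subset ?_
  rintro _ ⟨x, hx, rfl⟩
  obtain ⟨b, hb, hxb⟩ := mem_iUnion₂.1 (ht hx)
  rw [hP] at hx
  exact ⟨b, hb, (hxb hx.2.1 hx.2.2.1 hx.2.2.2).symm⟩

end Pool.Agent.EG.TM
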