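import Pool.Agent.EG.TM.Eul
import Pool.Agent.H62.EF.LimL
import Pool.Agent.H62.Log.Hurwitz

/-!
# EG TM LimB: limits of sections (`TC/LimAlt.lean` for the hypotheses `LS`)

`F k` is a curve in the cone of the surface over `ball 0 (ρ k)`, `ρ k → ∞` along the ultrafilter, with `fs ≤ L`, `F₁ (F k z) = α k z`, `F₂ (F k z) = β k z`
without zeros, and `α k → a`, `β k → b` locally uniformly (in the form of continuous convergence).  Either the limit is a constant curve in the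
base locus (`F₁ = F₂ = 0`), and `‖F k z‖ → ∞`, or `F k` converges to an entire curve `G` with `F₁ (G z) = a z`, `F₂ (G z) = b z`.

PROOF.  `limit_curves` (`X = {x ≠ 0 ∧ OnV Q x}`, `isCone`; `F k z ≠ 0` because `F₁ (F k z) ≠ 0` and `e 0 ≥ 1`) gives `G₀` entire, and for every `z₀` a disc `ball z₀ r` and local lifts
`φ k z = c • F k z` (`c = c k z ≠ 0`), `ψ z = c • G₀ z`, `φ → ψ` locally uniformly on `ball z₀ r`.
(1) `F_i (φ k z) = c ^ e i * F_i (F k z) ≠ 0` on `ball z₀ r` for almost all `k` (`ball z₀ r ⊆ ball 0 (ρ k)`), so by `Pool.Agent.H62.Log.hurwitz` `F_i (ψ z)` is identically zero or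
without zeros on `ball z₀ r`; so (identity theorem for the entire function `F_i (G₀ z)`) `F_i (G₀ z)` is identically zero or has no zeros at all (`i = 0, 1`).
(2) If both are identically zero: `h.base_fs` gives `fs (G₀ z) (G₀' z) = 0`, which is the limit of `fs (F k z) (F k)' z`.  Let `w k → z`; `φ k (w k) → ψ z ≠ 0`, `F_i (φ k (w k)) = c k ^ e i * α k (w k) → F_i (ψ z) = 0`;
if `a z ≠ 0` (`i = 0`) or `b z ≠ 0` (`i = 1`) this gives `c k → 0`, and `‖φ k (w k)‖ = ‖c k‖ ‖F k (w k)‖ → ‖ψ z‖ > 0`, so `‖F k (w k)‖ → ∞`: first alternative.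
(3) Otherwise let `F_i (G₀ z)` be without zeros (`i = 0` or `1`).  Every `z₀` has a closed disc `B` around it with `B ⊆ ball z₀ r`, a number `m > 0` with `m ≤ ‖F_i (φ k z)‖` on `B` for almost
all `k` and a number `A` with `‖α k z‖ ≤ A` (resp. `‖β k z‖ ≤ A`) on `B` for almost all `k` (if not: choose `z k ∈ B` with `‖α k (z k)‖ > A`, which converges along `𝒰` by compactness, contradiction to `ha` with
`A = sup_B ‖a‖ + 1`, or `A` one more than a bound of the continuous limit; the function `a` is continuous on `B` because of continuous convergence, or avoid its continuity: if for every `A ∈ ℕ` the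
estimate fails for almost all `k`, choose for every `k` a point `z k ∈ B` with `‖α k (z k)‖ ≥ (sup over B) / 2`, which exists since `α k z = F₁ (F k z)` is continuous and `B` compact, it converges to `z'`, and `α k (z k) → a z'` is bounded).
So `‖c k z‖ ^ e i ≥ m / A` and `‖F k z‖ = ‖φ k z‖ / ‖c k z‖` is bounded on `B` for almost all `k`.  By `Pool.Agent.H17.montel_ultrafilter` `F k → G_{z₀}` locally uniformly on the
interior of `B`.  `G z := G_z z` (`= lim F k z`, so `G = G_{z₀}` on the interior of `B`): `G` is entire, and `F k (z k) → G z₀` if `z k → z₀` (locally uniform convergence).  By continuity of the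
polynomials `F₁ (G z) = a z`, `F₂ (G z) = b z`, `OnV Q (G z)`.  `G z ≠ 0` because `a z ≠ 0` or `b z ≠ 0` (`ev_smul` with `c = 0`: a form of positive degree vanishes at `0`), and `fs (F k z) (F k)' z → fs (G z) (G' z)`
(`TendstoLocallyUniformlyOn.deriv`; `wd_cont`).
-/

set_option autoImplicit false

open Topology Filter Metric

namespace Pool.Agent.EG.TM

open Pool.Agent.H36.BP (EN fs wd Sub)
open Pool.Agent.TC (ev grad OnV IsSec nv ev_smul isClosed_onV continuous_ev differentiable_ev)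
open Pool.Agent.H62.EF (pr limit_curves)

variable {n : ℕ} {Q : Fin (n + 2) → MvPolynomial (Fin (n + 3)) ℂ} {e : Fin (n + 2) → ℕ}

private lemma LA_conv {E : Type*} [NormedAddCommGroup E] [NormedSpace ℂ E] {𝒰 : Ultrafilter ℕ} {φ : ℕ → ℂ → E} {ψ : ℂ → E} {z₀ : ℂ} {r : ℝ}
    (hψ : DifferentiableOn ℂ ψ (ball z₀ r)) (hc : TendstoLocallyUniformlyOn φ ψ 𝒰 (ball z₀ r)) {w : ℕ → ℂ} {z : ℂ} (hz : z ∈ ball z₀ r)
    (hw : Tendsto w 𝒰 (𝓝 z)) : Tendsto (fun k => φ k (w k)) 𝒰 (𝓝 (ψ z)) := by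
  refine hc.tendsto_comp (hψ.continuousOn z hz) hz ?_
  exact tendsto_nhdsWithin_iff.mpr ⟨hw, hw.eventually (isOpen_ball.mem_nhds hz)⟩

private lemma LA_ball {𝒰 : Ultrafilter ℕ} {ρ : ℕ → ℝ} (hρ : Tendsto ρ 𝒰 atTop) (z₀ : ℂ) (r : ℝ) :
    ∀ᶠ k in (𝒰 : Filter ℕ), ball z₀ r ⊆ ball 0 (ρ k) := by
  filter_upwards [hρ.eventually_ge_atTop (‖z₀‖ + r)] with k hk
  apply ball_subset_ball'
  rw [dist_zero_right]
  linarith

/-- the local statement of `limit_curves` -/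
private def LA_Loc (𝒰 : Ultrafilter ℕ) (F : ℕ → ℂ → EN (n + 2)) (G : ℂ → EN (n + 2)) : Prop :=
  ∀ z₀, ∃ (r : ℝ) (φ : ℕ → ℂ → EN (n + 2)) (ψ : ℂ → EN (n + 2)), 0 < r ∧
    (∀ᶠ k in (𝒰 : Filter ℕ), DifferentiableOn ℂ (φ k) (ball z₀ r) ∧ ∀ z ∈ ball z₀ r, ∃ c : ℂ, c ≠ 0 ∧ φ k z = c • F k z) ∧
    DifferentiableOn ℂ ψ (ball z₀ r) ∧ (∀ z ∈ ball z₀ r, ∃ c : ℂ, c ≠ 0 ∧ ψ z = c • G z) ∧
    TendstoLocallyUniformlyOn φ ψ 𝒰 (ball z₀ r)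

private lemma LA_dich {P : MvPolynomial (Fin (n + 3)) ℂ} {d : ℕ} (hP : P.IsHomogeneous d) {𝒰 : Ultrafilter ℕ} {F : ℕ → ℂ → EN (n + 2)} {ρ : ℕ → ℝ}
    (hρ : Tendsto ρ 𝒰 atTop) (hne : ∀ᶠ k in (𝒰 : Filter ℕ), ∀ z ∈ ball (0 : ℂ) (ρ k), ev P (F k z) ≠ 0) {G : ℂ → EN (n + 2)}
    (hG : Differentiable ℂ G) (hloc : LA_Loc 𝒰 F G) : (∀ z, ev P (G z) = 0) ∨ ∀ z, ev P (G z) ≠ 0 := by
  have hl : ∀ z₀, ∃ r > 0, (∀ z ∈ ball z₀ r, ev P (G z) = 0) ∨ ∀ z ∈ ball z₀ r, ev P (G z) ≠ 0 := by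
    intro z₀
    obtain ⟨r, φ, ψ, hr, h1, h2, h3, h4⟩ := hloc z₀
    refine ⟨r, hr, ?_⟩
    have h5 : (∀ z ∈ ball z₀ r, ev P (ψ z) = 0) ∨ ∀ z ∈ ball z₀ r, ev P (ψ z) ≠ 0 := by
      refine Pool.Agent.H62.Log.hurwitz 𝒰 (φ := fun k z => ev P (φ k z)) (ψ := fun z => ev P (ψ z)) (a := z₀) (r := r) ?_ ?_ ?_ ?_
      · filter_upwards [h1] with k hk
        exact (differentiable_ev P).comp_differentiableOn hk.1
      · filter_upwards [h1, hne, LA_ball hρ z₀ r] with k hk1 hk2 hk3 z hz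
        obtain ⟨c, hc, h6⟩ := hk1.2 z hz
        rw [h6, ev_smul hP]
        exact mul_ne_zero (pow_ne_zero _ hc) (hk2 z (hk3 hz))
      · exact (differentiable_ev P).comp_differentiableOn h2
      · intro w z hz hw
        exact ((continuous_ev P).tendsto _).comp (LA_conv h2 h4 hz hw)
    rcases h5 with h5 | h5
    · left
      intro z hz
      obtain ⟨c, hc, h6⟩ := h3 z hz
      have h7 := h5 z hz
      rw [h6, ev_smul hP] at h7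
      exact (mul_eq_zero.mp h7).resolve_left (pow_ne_zero _ hc)
    · right
      intro z hz h8
      obtain ⟨c, hc, h6⟩ := h3 z hz
      apply h5 z hz
      rw [h6, ev_smul hP, h8, mul_zero]
  have hcont : Continuous fun z => ev P (G z) := (continuous_ev P).comp hG.continuous
  have hclosed : IsClosed {z | ev P (G z) = 0} := isClosed_eq hcont continuous_const
  have hopen : IsOpen {z | ev P (G z) = 0} := by
    rw [Metric.isOpen_iff]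
    intro z hz
    obtain ⟨r, hr, h1⟩ := hl z
    rcases h1 with h1 | h1
    · exact ⟨r, hr, h1⟩
    · exact absurd hz (h1 z (mem_ball_self hr))
  rcases isClopen_iff.mp ⟨hclosed, hopen⟩ with h | h
  · right
    intro z hz
    have : z ∈ ({z | ev P (G z) = 0} : Set ℂ) := hz
    rw [h] at this
    exact this
  · left
    intro z
    have : z ∈ ({z | ev P (G z) = 0} : Set ℂ) := by rw [h]; trivial
    exact this

private lemma LA_G_ne {G : ℂ → EN (n + 2)} {ψ : ℂ → EN (n + 2)} {z : ℂ} (hG : G z ≠ 0) (h : ∃ c : ℂ, c ≠ 0 ∧ ψ z = c • G z) : ψ z ≠ 0 := by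
  obtain ⟨c, hc, h⟩ := h
  rw [h]
  exact smul_ne_zero hc hG

private lemma LA_blow {P : MvPolynomial (Fin (n + 3)) ℂ} {d : ℕ} (hP : P.IsHomogeneous d) (hd : 1 ≤ d) {𝒰 : Ultrafilter ℕ} {F : ℕ → ℂ → EN (n + 2)}
    {ρ : ℕ → ℝ} (hρ : Tendsto ρ 𝒰 atTop) {γ : ℕ → ℂ → ℂ} {g : ℂ → ℂ}
    (hev : ∀ᶠ k in (𝒰 : Filter ℕ), ∀ z ∈ ball (0 : ℂ) (ρ k), ev P (F k z) = γ k z)
    (hg : ∀ (z : ℕ → ℂ) (z₀ : ℂ), Tendsto z 𝒰 (𝓝 z₀) → Tendsto (fun k => γ k (z k)) 𝒰 (𝓝 (g z₀)))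
    {G : ℂ → EN (n + 2)} (hG0 : ∀ z, G z ≠ 0) (hloc : LA_Loc 𝒰 F G) {z : ℂ} (hz : g z ≠ 0) (hGz : ev P (G z) = 0) (w : ℕ → ℂ)
    (hw : Tendsto w 𝒰 (𝓝 z)) : Tendsto (fun k => ‖F k (w k)‖) 𝒰 atTop := by
  obtain ⟨r, φ, ψ, hr, h1, h2, h3, h4⟩ := hloc z
  have hzb : z ∈ ball z r := mem_ball_self hr
  choose! c hc using fun (k : ℕ) (z : ℂ) (h : ∃ c : ℂ, c ≠ 0 ∧ φ k z = c • F k z) => h
  have hwb : ∀ᶠ k in (𝒰 : Filter ℕ), w k ∈ ball z r := hw.eventually (isOpen_ball.mem_nhds hzb)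
  have hck : ∀ᶠ k in (𝒰 : Filter ℕ), c k (w k) ≠ 0 ∧ φ k (w k) = c k (w k) • F k (w k) := by
    filter_upwards [h1, hwb] with k hk1 hk2
    exact hc k (w k) (hk1.2 (w k) hk2)
  have hφ : Tendsto (fun k => φ k (w k)) 𝒰 (𝓝 (ψ z)) := LA_conv h2 h4 hzb hw
  have hψ0 : ψ z ≠ 0 := LA_G_ne (hG0 z) (h3 z hzb)
  have hψz : ev P (ψ z) = 0 := by
    obtain ⟨c', -, h6⟩ := h3 z hzb
    rw [h6, ev_smul hP, hGz, mul_zero]
  have h5 : Tendsto (fun k => ev P (φ k (w k))) 𝒰 (𝓝 0) := by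
    rw [← hψz]
    exact ((continuous_ev P).tendsto _).comp hφ
  have h6 : Tendsto (fun k => ev P (φ k (w k)) / γ k (w k)) 𝒰 (𝓝 0) := by
    have := h5.div (hg w z hw) hz
    rwa [zero_div] at this
  have h7 : Tendsto (fun k => c k (w k) ^ d) 𝒰 (𝓝 0) := by
    refine h6.congr' ?_
    filter_upwards [hck, hev, LA_ball hρ z r, hwb, (hg w z hw).eventually_ne hz] with k hk1 hk2 hk3 hk4 hk5
    rw [hk1.2, ev_smul hP, hk2 _ (hk3 hk4), mul_div_assoc, div_self hk5, mul_one]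
  have h8 : Tendsto (fun k => ‖c k (w k)‖) 𝒰 (𝓝 0) := by
    have h9 : Tendsto (fun k => ‖c k (w k)‖ ^ d) 𝒰 (𝓝 0) := by
      have := h7.norm
      simpa only [norm_pow, norm_zero] using this
    rw [Metric.tendsto_nhds] at h9 ⊢
    intro ε hε
    filter_upwards [h9 (ε ^ d) (pow_pos hε d)] with k hk
    rw [Real.dist_eq, sub_zero, abs_of_nonneg (by positivity)] at hk ⊢
    exact lt_of_pow_lt_pow_left₀ d hε.le hk
  have h9 : Tendsto (fun k => ‖c k (w k)‖⁻¹) 𝒰 atTop := by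
    refine Tendsto.inv_tendsto_nhdsGT_zero ?_
    refine tendsto_nhdsWithin_iff.mpr ⟨h8, ?_⟩
    filter_upwards [hck] with k hk
    exact norm_pos_iff.mpr hk.1
  have h10 : Tendsto (fun k => ‖φ k (w k)‖ * ‖c k (w k)‖⁻¹) 𝒰 atTop :=
    Tendsto.pos_mul_atTop (norm_pos_iff.mpr hψ0) hφ.norm h9
  refine h10.congr' ?_
  filter_upwards [hck] with k hk
  have h11 : 0 < ‖c k (w k)‖ := norm_pos_iff.mpr hk.1
  rw [hk.2, norm_smul]
  field_simp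

private lemma LA_bdd {P : MvPolynomial (Fin (n + 3)) ℂ} {d : ℕ} (hP : P.IsHomogeneous d) (hd : 1 ≤ d) {𝒰 : Ultrafilter ℕ} {F : ℕ → ℂ → EN (n + 2)}
    {ρ : ℕ → ℝ} (hρ : Tendsto ρ 𝒰 atTop) {γ : ℕ → ℂ → ℂ} {g : ℂ → ℂ}
    (hdiff : ∀ᶠ k in (𝒰 : Filter ℕ), DifferentiableOn ℂ (F k) (ball 0 (ρ k)))
    (hev : ∀ᶠ k in (𝒰 : Filter ℕ), ∀ z ∈ ball (0 : ℂ) (ρ k), ev P (F k z) = γ k z)
    (hg : ∀ (z : ℕ → ℂ) (z₀ : ℂ), Tendsto z 𝒰 (𝓝 z₀) → Tendsto (fun k => γ k (z k)) 𝒰 (𝓝 (g z₀)))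
    {G : ℂ → EN (n + 2)} (hloc : LA_Loc 𝒰 F G) (hG : ∀ z, ev P (G z) ≠ 0) (z₀ : ℂ) :
    ∃ s B : ℝ, 0 < s ∧ ∀ᶠ k in (𝒰 : Filter ℕ), ∀ z ∈ ball z₀ s, ‖F k z‖ ≤ B := by
  obtain ⟨r, φ, ψ, hr, h1, h2, h3, h4⟩ := hloc z₀
  choose! c hc using fun (k : ℕ) (z : ℂ) (h : ∃ c : ℂ, c ≠ 0 ∧ φ k z = c • F k z) => h
  have hsub : closedBall z₀ (r / 2) ⊆ ball z₀ r := closedBall_subset_ball (by linarith)
  have hmax : ∀ᶠ k in (𝒰 : Filter ℕ), ∃ w ∈ closedBall z₀ (r / 2), ∀ z ∈ closedBall z₀ (r / 2), ‖F k z‖ ≤ ‖F k w‖ := by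
    filter_upwards [hdiff, LA_ball hρ z₀ r] with k hk1 hk2
    obtain ⟨w, hw, h5⟩ := (isCompact_closedBall z₀ (r / 2)).exists_isMaxOn ⟨z₀, mem_closedBall_self (by linarith)⟩
      ((hk1.continuousOn.mono (hsub.trans hk2)).norm)
    exact ⟨w, hw, fun z hz => h5 hz⟩
  choose! w hw using fun (k : ℕ) (h : ∃ w ∈ closedBall z₀ (r / 2), ∀ z ∈ closedBall z₀ (r / 2), ‖F k z‖ ≤ ‖F k w‖) => h
  obtain ⟨z', hz', hwz⟩ : ∃ z' ∈ closedBall z₀ (r / 2), Tendsto w (𝒰 : Filter ℕ) (𝓝 z') := by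
    obtain ⟨l, hl1, hl2⟩ := (isCompact_closedBall z₀ (r / 2)).ultrafilter_le_nhds (𝒰.map w) (by
      rw [le_principal_iff]
      exact hmax.mono fun k hk => (hw k hk).1)
    exact ⟨l, hl1, hl2⟩
  have hzb : z' ∈ ball z₀ r := hsub hz'
  have hφ : Tendsto (fun k => φ k (w k)) 𝒰 (𝓝 (ψ z')) := LA_conv h2 h4 hzb hwz
  have hψz : ev P (ψ z') ≠ 0 := by
    obtain ⟨c', hc', h6⟩ := h3 z' hzb
    rw [h6, ev_smul hP]
    exact mul_ne_zero (pow_ne_zero _ hc') (hG z')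
  have h5 : Tendsto (fun k => ‖ev P (φ k (w k))‖) 𝒰 (𝓝 ‖ev P (ψ z')‖) := (((continuous_ev P).tendsto _).comp hφ).norm
  set m : ℝ := ‖ev P (ψ z')‖ with hm
  have hm0 : 0 < m := norm_pos_iff.mpr hψz
  set A : ℝ := ‖g z'‖ + 1 with hA
  have hA0 : 0 < A := by positivity
  have h6 : ∀ᶠ k in (𝒰 : Filter ℕ), m / 2 < ‖ev P (φ k (w k))‖ := h5.eventually_const_lt (by linarith)
  have h7 : ∀ᶠ k in (𝒰 : Filter ℕ), ‖γ k (w k)‖ < A := (hg w z' hwz).norm.eventually_lt_const (by linarith)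
  have h8 : ∀ᶠ k in (𝒰 : Filter ℕ), ‖φ k (w k)‖ < ‖ψ z'‖ + 1 := hφ.norm.eventually_lt_const (by linarith)
  set δ : ℝ := min 1 (m / 2 / A) with hδ
  have hδ0 : 0 < δ := by positivity
  refine ⟨r / 2, (‖ψ z'‖ + 1) / δ, by linarith, ?_⟩
  filter_upwards [h1, hmax, h6, h7, h8, hev, LA_ball hρ z₀ r] with k hk1 hk2 hk3 hk4 hk5 hk6 hk7 z hz
  obtain ⟨hwk, hwmax⟩ := hw k hk2
  obtain ⟨hc0, hck⟩ := hc k (w k) (hk1.2 (w k) (hsub hwk))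
  have h9 : ‖F k z‖ ≤ ‖F k (w k)‖ := hwmax z (ball_subset_closedBall hz)
  have hcp : 0 < ‖c k (w k)‖ := norm_pos_iff.mpr hc0
  have h10 : m / 2 < ‖c k (w k)‖ ^ d * A := by
    calc m / 2 < ‖ev P (φ k (w k))‖ := hk3
      _ = ‖c k (w k)‖ ^ d * ‖γ k (w k)‖ := by
        rw [hck, ev_smul hP, hk6 _ (hk7 (hsub hwk)), norm_mul, norm_pow]
      _ ≤ ‖c k (w k)‖ ^ d * A := by gcongr
  have h11 : δ ≤ ‖c k (w k)‖ := by
    by_contra hcon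
    push Not at hcon
    have h12 : ‖c k (w k)‖ < 1 := lt_of_lt_of_le hcon (min_le_left _ _)
    have h13 : ‖c k (w k)‖ < m / 2 / A := lt_of_lt_of_le hcon (min_le_right _ _)
    have h14 : ‖c k (w k)‖ ^ d ≤ ‖c k (w k)‖ := pow_le_of_le_one hcp.le h12.le (by omega)
    have h15 : ‖c k (w k)‖ * A < m / 2 := (lt_div_iff₀ hA0).mp h13
    have h16 : ‖c k (w k)‖ ^ d * A ≤ ‖c k (w k)‖ * A := by gcongr
    linarith
  have h12 : ‖c k (w k)‖ * ‖F k (w k)‖ < ‖ψ z'‖ + 1 := by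
    rw [← norm_smul, ← hck]
    exact hk5
  rw [le_div_iff₀ hδ0]
  calc ‖F k z‖ * δ ≤ ‖F k (w k)‖ * ‖c k (w k)‖ := by gcongr
    _ ≤ ‖ψ z'‖ + 1 := by
      rw [mul_comm]
      exact h12.le

private lemma LA_fs_cont {N : ℕ} {x v : EN N} (hx : x ≠ 0) : ContinuousAt (fun p : EN N × EN N => fs p.1 p.2) (x, v) := by
  unfold fs
  have h1 : ContinuousAt (fun p : EN N × EN N => wd p.1 p.2) (x, v) := Pool.Agent.H36.BP.wd_cont.continuousAt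
  have h2 : ContinuousAt (fun p : EN N × EN N => ‖p.1‖ ^ 2) (x, v) := (continuous_fst.norm.pow 2).continuousAt
  exact h1.div h2 (pow_ne_zero 2 (norm_ne_zero_iff.mpr hx))

private lemma LA_fs_tendsto {N : ℕ} {x v : EN N} (hx : x ≠ 0) {a b : ℕ → EN N} {l : Filter ℕ} (ha : Tendsto a l (𝓝 x))
    (hb : Tendsto b l (𝓝 v)) : Tendsto (fun k => fs (a k) (b k)) l (𝓝 (fs x v)) := by
  have h1 := ha.prodMk_nhds hb
  have h2 := (LA_fs_cont (v := v) hx).tendsto.comp h1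
  exact h2

private lemma LA_ev_zero {P : MvPolynomial (Fin (n + 3)) ℂ} {d : ℕ} (hP : P.IsHomogeneous d) (hd : 1 ≤ d) : ev P (0 : EN (n + 2)) = 0 := by
  have h1 := ev_smul hP 0 (0 : EN (n + 2))
  rw [smul_zero, zero_pow (by omega), zero_mul] at h1
  exact h1

private lemma LA_second (h : LS Q e) (𝒰 : Ultrafilter ℕ) (F : ℕ → ℂ → EN (n + 2)) (ρ : ℕ → ℝ) (hρ : Tendsto ρ 𝒰 atTop)
    (α β : ℕ → ℂ → ℂ) (a b : ℂ → ℂ)
    (hF : ∀ᶠ k in (𝒰 : Filter ℕ), DifferentiableOn ℂ (F k) (ball 0 (ρ k)) ∧ ∀ z ∈ ball (0 : ℂ) (ρ k),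
      OnV Q (F k z) ∧ ev (Q 0) (F k z) = α k z ∧ ev (Q 1) (F k z) = β k z)
    (ha : ∀ (z : ℕ → ℂ) (z₀ : ℂ), Tendsto z 𝒰 (𝓝 z₀) → Tendsto (fun k => α k (z k)) 𝒰 (𝓝 (a z₀)))
    (hb : ∀ (z : ℕ → ℂ) (z₀ : ℂ), Tendsto z 𝒰 (𝓝 z₀) → Tendsto (fun k => β k (z k)) 𝒰 (𝓝 (b z₀)))
    (hab : ∀ z, a z ≠ 0 ∨ b z ≠ 0)
    (hbdd : ∀ z₀ : ℂ, ∃ s B : ℝ, 0 < s ∧ ∀ᶠ k in (𝒰 : Filter ℕ), ∀ z ∈ ball z₀ s, ‖F k z‖ ≤ B) :
    ∃ G : ℂ → EN (n + 2), Differentiable ℂ G ∧ (∀ z, OnV Q (G z) ∧ ev (Q 0) (G z) = a z ∧ ev (Q 1) (G z) = b z) ∧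
      (∀ (z : ℕ → ℂ) (z₀ : ℂ), Tendsto z 𝒰 (𝓝 z₀) → Tendsto (fun k => F k (z k)) 𝒰 (𝓝 (G z₀))) ∧
      ∀ z, Tendsto (fun k => fs (F k z) (deriv (F k) z)) 𝒰 (𝓝 (fs (G z) (deriv G z))) := by
  choose s B hs hB using hbdd
  have hd : ∀ z₀, ∀ᶠ k in (𝒰 : Filter ℕ), DifferentiableOn ℂ (F k) (ball z₀ (s z₀)) := by
    intro z₀
    filter_upwards [hF, LA_ball hρ z₀ (s z₀)] with k hk1 hk2
    exact hk1.1.mono hk2
  choose H hHd hHc using fun z₀ => Pool.Agent.H17.montel_ultrafilter 𝒰 (F := F) (a := z₀) (r := s z₀) (B := B z₀) (hd z₀) (hB z₀)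
  have hself : ∀ z, z ∈ ball z (s z) := fun z => mem_ball_self (hs z)
  have heq : ∀ z₀, ∀ z ∈ ball z₀ (s z₀), H z z = H z₀ z := fun z₀ z hz =>
    tendsto_nhds_unique ((hHc z).tendsto_at (hself z)) ((hHc z₀).tendsto_at hz)
  have heq' : ∀ z₀, (fun z => H z z) =ᶠ[𝓝 z₀] H z₀ := fun z₀ => by
    filter_upwards [isOpen_ball.mem_nhds (hself z₀)] with z hz
    exact heq z₀ z hz
  have hHdz : ∀ z₀, DifferentiableAt ℂ (H z₀) z₀ := fun z₀ =>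
    (hHd z₀).differentiableAt (isOpen_ball.mem_nhds (hself z₀))
  have hlim : ∀ (z : ℕ → ℂ) (z₀ : ℂ), Tendsto z 𝒰 (𝓝 z₀) → Tendsto (fun k => F k (z k)) 𝒰 (𝓝 (H z₀ z₀)) := fun z z₀ hz =>
    LA_conv (hHd z₀) (hHc z₀) (hself z₀) hz
  have hval : ∀ z, OnV Q (H z z) ∧ ev (Q 0) (H z z) = a z ∧ ev (Q 1) (H z z) = b z := by
    intro z
    have h1 := hlim (fun _ => z) z tendsto_const_nhds
    have h2 : ∀ᶠ k in (𝒰 : Filter ℕ), OnV Q (F k z) ∧ ev (Q 0) (F k z) = α k z ∧ ev (Q 1) (F k z) = β k z := by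
      filter_upwards [hF, LA_ball hρ z 1] with k hk1 hk2
      exact hk1.2 z (hk2 (mem_ball_self one_pos))
    refine ⟨(isClosed_onV Q).mem_of_tendsto h1 (h2.mono fun k hk => hk.1), ?_, ?_⟩
    · have h3 : Tendsto (fun k => ev (Q 0) (F k z)) 𝒰 (𝓝 (ev (Q 0) (H z z))) := ((continuous_ev (Q 0)).tendsto _).comp h1
      refine tendsto_nhds_unique h3 ((ha (fun _ => z) z tendsto_const_nhds).congr' ?_)
      filter_upwards [h2] with k hk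
      exact hk.2.1.symm
    · have h3 : Tendsto (fun k => ev (Q 1) (F k z)) 𝒰 (𝓝 (ev (Q 1) (H z z))) := ((continuous_ev (Q 1)).tendsto _).comp h1
      refine tendsto_nhds_unique h3 ((hb (fun _ => z) z tendsto_const_nhds).congr' ?_)
      filter_upwards [h2] with k hk
      exact hk.2.2.symm
  refine ⟨fun z => H z z, ?_, hval, hlim, ?_⟩
  · intro z₀
    exact (heq' z₀).differentiableAt_iff.mpr (hHdz z₀)
  · intro z
    have h0 : H z z ≠ 0 := by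
      intro h1
      obtain ⟨-, h2, h3⟩ := hval z
      rw [h1, LA_ev_zero (h.hom 0) (h.pos 0)] at h2
      rw [h1, LA_ev_zero (h.hom 1) (h.pos 1)] at h3
      rcases hab z with h4 | h4
      · exact h4 h2.symm
      · exact h4 h3.symm
    have h1 : deriv (fun z => H z z) z = deriv (H z) z := (heq' z).deriv_eq
    have h2 : Tendsto (fun k => deriv (F k) z) 𝒰 (𝓝 (deriv (H z) z)) := by
      have h3 : TendstoLocallyUniformlyOn (deriv ∘ F) (deriv (H z)) 𝒰 (ball z (s z)) :=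
        (hHc z).deriv (hd z) isOpen_ball
      exact h3.tendsto_at (hself z)
    change Tendsto (fun k => fs (F k z) (deriv (F k) z)) 𝒰 (𝓝 (fs (H z z) (deriv (fun z => H z z) z)))
    rw [h1]
    exact LA_fs_tendsto h0 (hlim (fun _ => z) z tendsto_const_nhds) h2

theorem lim_alt_strong (h : LS Q e) (𝒰 : Ultrafilter ℕ) (F : ℕ → ℂ → EN (n + 2)) (ρ : ℕ → ℝ) (hρ : Tendsto ρ 𝒰 atTop) {L : ℝ} (hL : 0 < L)
    (α β : ℕ → ℂ → ℂ) (a b : ℂ → ℂ)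
    (hF : ∀ᶠ k in (𝒰 : Filter ℕ), DifferentiableOn ℂ (F k) (ball 0 (ρ k)) ∧ ∀ z ∈ ball (0 : ℂ) (ρ k),
      OnV Q (F k z) ∧ ev (Q 0) (F k z) = α k z ∧ ev (Q 1) (F k z) = β k z ∧ α k z ≠ 0 ∧ β k z ≠ 0 ∧
        fs (F k z) (deriv (F k) z) ≤ L)
    (ha : ∀ (z : ℕ → ℂ) (z₀ : ℂ), Tendsto z 𝒰 (𝓝 z₀) → Tendsto (fun k => α k (z k)) 𝒰 (𝓝 (a z₀)))
    (hb : ∀ (z : ℕ → ℂ) (z₀ : ℂ), Tendsto z 𝒰 (𝓝 z₀) → Tendsto (fun k => β k (z k)) 𝒰 (𝓝 (b z₀)))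
    (hab : ∀ z, a z ≠ 0 ∨ b z ≠ 0) :
    (∀ z, Tendsto (fun k => fs (F k z) (deriv (F k) z)) 𝒰 (𝓝 0) ∧
      ∀ (w : ℕ → ℂ), Tendsto w 𝒰 (𝓝 z) → Tendsto (fun k => ‖F k (w k)‖) 𝒰 atTop) ∨
    ∃ G : ℂ → EN (n + 2), Differentiable ℂ G ∧ (∀ z, OnV Q (G z) ∧ ev (Q 0) (G z) = a z ∧ ev (Q 1) (G z) = b z) ∧
      (∀ (z : ℕ → ℂ) (z₀ : ℂ), Tendsto z 𝒰 (𝓝 z₀) → Tendsto (fun k => F k (z k)) 𝒰 (𝓝 (G z₀))) ∧
      ∀ z, Tendsto (fun k => fs (F k z) (deriv (F k) z)) 𝒰 (𝓝 (fs (G z) (deriv G z))) := by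
  classical
  have hne : ∀ᶠ k in (𝒰 : Filter ℕ), DifferentiableOn ℂ (F k) (ball 0 (ρ k)) ∧ ∀ z ∈ ball (0 : ℂ) (ρ k),
      F k z ∈ {x : EN (n + 2) | x ≠ 0 ∧ OnV Q x} ∧ fs (F k z) (deriv (F k) z) ≤ L := by
    filter_upwards [hF] with k hk
    refine ⟨hk.1, fun z hz => ?_⟩
    obtain ⟨h1, h2, h3, h4, h5, h6⟩ := hk.2 z hz
    refine ⟨⟨?_, h1⟩, h6⟩
    intro h7
    rw [h7, LA_ev_zero (h.hom 0) (h.pos 0)] at h2
    exact h4 h2.symm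
  obtain ⟨G₀, hGd, hGX, -, hfs, hloc⟩ := limit_curves h.isCone hL 𝒰 F ρ hρ hne
  have hG0 : ∀ z, G₀ z ≠ 0 := fun z => (hGX z).1
  have hL' : LA_Loc 𝒰 F G₀ := hloc
  have hdiff : ∀ᶠ k in (𝒰 : Filter ℕ), DifferentiableOn ℂ (F k) (ball 0 (ρ k)) := hF.mono fun k hk => hk.1
  have he0 : ∀ᶠ k in (𝒰 : Filter ℕ), ∀ z ∈ ball (0 : ℂ) (ρ k), ev (Q 0) (F k z) = α k z :=
    hF.mono fun k hk z hz => (hk.2 z hz).2.1
  have he1 : ∀ᶠ k in (𝒰 : Filter ℕ), ∀ z ∈ ball (0 : ℂ) (ρ k), ev (Q 1) (F k z) = β k z :=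
    hF.mono fun k hk z hz => (hk.2 z hz).2.2.1
  have hn0 : ∀ᶠ k in (𝒰 : Filter ℕ), ∀ z ∈ ball (0 : ℂ) (ρ k), ev (Q 0) (F k z) ≠ 0 := by
    filter_upwards [hF] with k hk z hz
    rw [(hk.2 z hz).2.1]
    exact (hk.2 z hz).2.2.2.1
  have hn1 : ∀ᶠ k in (𝒰 : Filter ℕ), ∀ z ∈ ball (0 : ℂ) (ρ k), ev (Q 1) (F k z) ≠ 0 := by
    filter_upwards [hF] with k hk z hz
    rw [(hk.2 z hz).2.2.1]
    exact (hk.2 z hz).2.2.2.2.1
  have hF' : ∀ᶠ k in (𝒰 : Filter ℕ), DifferentiableOn ℂ (F k) (ball 0 (ρ k)) ∧ ∀ z ∈ ball (0 : ℂ) (ρ k),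
      OnV Q (F k z) ∧ ev (Q 0) (F k z) = α k z ∧ ev (Q 1) (F k z) = β k z := by
    filter_upwards [hF] with k hk
    exact ⟨hk.1, fun z hz => ⟨(hk.2 z hz).1, (hk.2 z hz).2.1, (hk.2 z hz).2.2.1⟩⟩
  rcases LA_dich (h.hom 0) hρ hn0 hGd hL' with h0 | h0
  · rcases LA_dich (h.hom 1) hρ hn1 hGd hL' with h1 | h1
    · left
      intro z
      refine ⟨?_, ?_⟩
      · have h2 := hfs z
        rwa [h.base_fs (hGd z) (hG0 z) (Eventually.of_forall fun w => (hGX w).2) (Eventually.of_forall h0)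
          (Eventually.of_forall h1)] at h2
      · intro w hw
        rcases hab z with h3 | h3
        · exact LA_blow (h.hom 0) (h.pos 0) hρ he0 ha hG0 hL' h3 (h0 z) w hw
        · exact LA_blow (h.hom 1) (h.pos 1) hρ he1 hb hG0 hL' h3 (h1 z) w hw
    · right
      exact LA_second h 𝒰 F ρ hρ α β a b hF' ha hb hab
        (LA_bdd (h.hom 1) (h.pos 1) hρ hdiff he1 hb hL' h1)
  · right
    exact LA_second h 𝒰 F ρ hρ α β a b hF' ha hb hab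
      (LA_bdd (h.hom 0) (h.pos 0) hρ hdiff he0 ha hL' h0)

end Pool.Agent.EG.TM
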