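import Pool.Agent.EG.TM.Eul

/-!
# EG TM XiB: the normalised curve

`xi_sec`: `t = κ z`; `(e 0 + e 1) ≠ 0`.  `F₂ (xi t) = exp (e 1 * t / (e 0 + e 1)) * exp (- zt t) = 1`, `F₁ (xi t) = exp (e 0 * t / (e 0 + e 1)) * exp (zt t) = exp t` (`ev_smul`), `OnV` (`LS.onV_smul`).
`fs_xi`: `deriv (xi e f) t = c • (e 1 / (e 0 + e 1)) • f' (zt t) + (c / (e 0 + e 1)) • f (zt t)`, `c = exp (t / (e 0 + e 1)) ≠ 0`; `fs_inv`, `fs_smul_right`.

-/

set_option autoImplicit false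

open Topology Filter Metric Set

namespace Pool.Agent.EG.TM

open Pool.Agent.TC (ev grad OnV IsSec nv ev_smul isClosed_onV euler hasDerivAt_ev')
open Pool.Agent.H36.BP (EN fs wd fs_inv fs_smul_right)

variable {n : ℕ} {Q : Fin (n + 2) → MvPolynomial (Fin (n + 3)) ℂ} {e : Fin (n + 2) → ℕ} {κ : Type}

private theorem den_ne (h : LS Q e) : ((e 0 : ℂ) + (e 1 : ℂ)) ≠ 0 := by
  have h0 := h.pos 0
  have h1 : ((e 0 + e 1 : ℕ) : ℂ) ≠ 0 := by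
    rw [Nat.cast_ne_zero]
    omega
  simpa using h1

private theorem norm_frac : ‖(e 1 : ℂ) / ((e 0 : ℂ) + (e 1 : ℂ))‖ = (e 1 : ℝ) / ((e 0 : ℝ) + (e 1 : ℝ)) := by
  have h1 : (e 1 : ℂ) / ((e 0 : ℂ) + (e 1 : ℂ)) = (((e 1 : ℝ) / ((e 0 : ℝ) + (e 1 : ℝ)) : ℝ) : ℂ) := by
    push_cast
    ring
  rw [h1, Complex.norm_real, Real.norm_of_nonneg (by positivity)]

theorem norm_zt_le (h : LS Q e) (t t₁ : ℂ) : ‖zt e t - zt e t₁‖ ≤ ‖t - t₁‖ := by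
  have h1 : zt e t - zt e t₁ = (e 1 : ℂ) / ((e 0 : ℂ) + (e 1 : ℂ)) * (t - t₁) := by
    unfold zt
    ring
  rw [h1, norm_mul, norm_frac]
  have h0 := h.pos 0
  have h2 : (1 : ℝ) ≤ e 0 := by exact_mod_cast h0
  have h3 : (e 1 : ℝ) / ((e 0 : ℝ) + (e 1 : ℝ)) ≤ 1 := by
    rw [div_le_one (by positivity)]
    linarith
  calc (e 1 : ℝ) / ((e 0 : ℝ) + (e 1 : ℝ)) * ‖t - t₁‖ ≤ 1 * ‖t - t₁‖ := by gcongr
    _ = ‖t - t₁‖ := one_mul _

theorem xi_sec (h : LS Q e) {f : ℂ → EN (n + 2)} {V U : Set ℂ} (hf : IsSec Q f V) (hU : ∀ t ∈ U, zt e t ∈ V) :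
    DifferentiableOn ℂ (xi e f) U ∧ ∀ t ∈ U, xi e f t ∈ Sf Q ∧ ev (Q 0) (xi e f t) = Complex.exp t := by
  have hd := den_ne h
  have hz : Differentiable ℂ (zt e) := by
    unfold zt
    fun_prop
  have he : Differentiable ℂ fun t : ℂ => Complex.exp (t / ((e 0 : ℂ) + (e 1 : ℂ))) := by
    fun_prop
  refine ⟨?_, fun t ht => ?_⟩
  · have h1 : DifferentiableOn ℂ (fun t => f (zt e t)) U := hf.1.comp hz.differentiableOn hU
    exact he.differentiableOn.smul h1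
  · obtain ⟨h1, h2, h3⟩ := hf.2 (zt e t) (hU t ht)
    refine ⟨⟨h.onV_smul h3 _, ?_⟩, ?_⟩
    · unfold xi
      rw [ev_smul (h.hom 1), h2, ← Complex.exp_nat_mul, ← Complex.exp_add]
      have h4 : (e 1 : ℂ) * (t / ((e 0 : ℂ) + (e 1 : ℂ))) + -zt e t = 0 := by
        unfold zt
        ring
      rw [h4, Complex.exp_zero]
    · unfold xi
      rw [ev_smul (h.hom 0), h1, ← Complex.exp_nat_mul, ← Complex.exp_add]
      have h4 : (e 0 : ℂ) * (t / ((e 0 : ℂ) + (e 1 : ℂ))) + zt e t = t := by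
        unfold zt
        field_simp
      rw [h4]

theorem fs_xi (h : LS Q e) {f : ℂ → EN (n + 2)} {t : ℂ} (hf : DifferentiableAt ℂ f (zt e t)) (hne : f (zt e t) ≠ 0) :
    fs (xi e f t) (deriv (xi e f) t) = (e 1 : ℝ) / ((e 0 : ℝ) + (e 1 : ℝ)) * fs (f (zt e t)) (deriv f (zt e t)) := by
  have hd := den_ne h
  set A : ℂ := (e 1 : ℂ) / ((e 0 : ℂ) + (e 1 : ℂ)) with hA
  set c : ℂ := Complex.exp (t / ((e 0 : ℂ) + (e 1 : ℂ))) with hc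
  have hc0 : c ≠ 0 := Complex.exp_ne_zero _
  have hz : HasDerivAt (zt e) A t := by
    have h1 := ((hasDerivAt_id t).mul_const (e 1 : ℂ)).div_const ((e 0 : ℂ) + (e 1 : ℂ))
    simp only [one_mul] at h1
    exact h1
  have he : HasDerivAt (fun t : ℂ => Complex.exp (t / ((e 0 : ℂ) + (e 1 : ℂ)))) (c * (1 / ((e 0 : ℂ) + (e 1 : ℂ)))) t :=
    ((hasDerivAt_id t).div_const ((e 0 : ℂ) + (e 1 : ℂ))).cexp
  have hf' : HasDerivAt (fun t => f (zt e t)) (A • deriv f (zt e t)) t := hf.hasDerivAt.scomp t hz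
  have h1 : HasDerivAt (xi e f) (c • (A • deriv f (zt e t)) + (c * (1 / ((e 0 : ℂ) + (e 1 : ℂ)))) • f (zt e t)) t :=
    he.smul hf'
  rw [h1.deriv]
  unfold xi
  rw [fs_inv hne _ hc0, fs_smul_right, hA, norm_frac]

end Pool.Agent.EG.TM
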