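import Pool.Agent.EG.TM.Mod
import Pool.Agent.EG.TM.LimB
import Pool.Agent.EG.TM.XiB

/-!
# EG TM Cell: a section is in one chart over every ball of a given size which is far enough to the left

`cell_chart`.  The first two conclusions: `‖zt t - zt t₁‖ ≤ ‖t - t₁‖ < r₀ ≤ r₁`, `xi_sec`.  Suppose the statement is false: for every `k : ℕ` (with `r₁ = k + 1 + |r₀|`, `T₁ = - (k + 1 + |r₀|) ^ 2 * (e 0 + e 1)`) there
are `t k`, `f k` with the hypotheses such that no `i` works.  `𝒰 = hyperfilter ℕ`, `G k s = xi e (f k) (t k + s)` on `ball 0 (ρ k)`, `ρ k = k + 1 + |r₀|`; `‖zt (t k + s) - zt (t k)‖ ≤ ‖s‖`.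
`F₁ (G k s) = exp (t k + s) =: α k s → 0` (continuous convergence: `Re (t k) → - ∞`), `F₂ (G k s) = 1`, `fs (G k s) (deriv (G k) s) ≤ C / |Re z|`, `z = zt (t k + s)`, `|Re z| ≥ (k + 1 + |r₀|) ^ 2 - (k + 1 + |r₀|) → ∞`: so
`fs → 0`, in particular `≤ 1` for almost all `k`.  `lim_alt_strong` (`a = 0`, `b = 1`, `L = 1`).
(1) `‖G k (w k)‖ → ∞` whenever `w k → z`.  With `R`, `ρ'` from `F.cov_inf`: for almost all `k` and ALL `s ∈ closedBall 0 |r₀|`: `R < ‖G k s‖` (otherwise choose `w k ∈ closedBall 0 |r₀|` with `‖G k (w k)‖ ≤ R`, which converges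
along `𝒰` by compactness) and `‖F₁ (G k s)‖ < ρ'`.  So for such a `k` every `s ∈ ball 0 r₀` has a chart `m s` at infinity with `G k s ∈ D_(m s)`, `CenS`.  The sets `A m = {s ∈ ball 0 r₀ | G k s ∈ D m}` (`m` at infinity) are open, pairwise
disjoint (`F.disj`) and cover the connected set `ball 0 r₀` (`r₀ > 0`, otherwise the statement is empty), so one of them is everything (`IsPreconnected`: fix `s₀`, `m = m s₀`, the set `A m` and the union of the others), and `CenS` holds there since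
`m s = m` by disjointness.  The index `i = ⟨(m, false), _⟩` (`F.ch i = F.c m`) works: contradiction.
(2) `G k (w k) → H z` whenever `w k → z`, `H` entire, `OnV (H z)`, `F₁ (H z) = 0`, `F₂ (H z) = 1`, `fs (G k z) (deriv (G k) z) → fs (H z) (deriv H z)`, so `fs (H z) (deriv H z) = 0`, `H z ≠ 0` (`F₂ (H z) = 1`), `deriv H z = a • H z`
(`wd_eq_zero`); the derivative of `F₂ (H z) = 1` is `a * e 1 * F₂ (H z) = 0` (`hasDerivAt_ev'`, `euler`), so `a = 0`, `deriv H = 0`, `H = x₀` is constant, `x₀ ∈ Sf Q`, `F₁ x₀ = 0`.  `F.cov`: an index `i : Ix F` with `x₀ ∈ (F.ch i).D`,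
`CenS ((F.ch i).q x₀)` (`(m, false)` or, for `CenS (q x₀).swap`, `(m, true)` with `Ch.sw_spec`).  `V = {x ∈ D | CenS (q x)}` is a neighbourhood of `x₀` (`isOpen_D`, `q_an`).  For almost all `k` all `s ∈ closedBall 0 |r₀|` satisfy `G k s ∈ V`
(otherwise `w k ∈ closedBall 0 |r₀|` with `G k (w k) ∉ V`, `w k → w`, `G k (w k) → x₀`): contradiction.
-/

set_option autoImplicit false

open Topology Filter Metric Set

namespace Pool.Agent.EG.TM

open Pool.Agent.TC (ev grad OnV IsSec nv ev_smul isClosed_onV euler hasDerivAt_ev')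
open Pool.Agent.H36.BP (EN fs wd)

variable {n : ℕ} {Q : Fin (n + 2) → MvPolynomial (Fin (n + 3)) ℂ} {e : Fin (n + 2) → ℕ} {κ : Type}

private lemma cc_compact {K : Set ℂ} (hK : IsCompact K) (𝒰 : Ultrafilter ℕ) (P : ℕ → ℂ → Prop)
    (h : ∀ (w : ℕ → ℂ) (z : ℂ), Tendsto w 𝒰 (𝓝 z) → ∀ᶠ k in (𝒰 : Filter ℕ), P k (w k)) :
    ∀ᶠ k in (𝒰 : Filter ℕ), ∀ s ∈ K, P k s := by
  by_contra hcon
  rw [← Ultrafilter.eventually_not] at hcon
  have h1 : ∀ᶠ k in (𝒰 : Filter ℕ), ∃ s ∈ K, ¬ P k s := by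
    filter_upwards [hcon] with k hk
    push Not at hk
    exact hk
  choose! w hw using fun (k : ℕ) (h : ∃ s ∈ K, ¬ P k s) => h
  obtain ⟨l, hl1, hl2⟩ := hK.ultrafilter_le_nhds (𝒰.map w) (by
      rw [le_principal_iff]
      exact h1.mono fun k hk => (hw k hk).1)
  have h2 := h w l hl2
  obtain ⟨k, hk1, hk2⟩ := (h1.and h2).exists
  exact (hw k hk1).2 hk2

private lemma cc_re (h : LS Q e) {t s : ℂ} {R : ℝ} (hR : 1 < R) (ht : t.re ≤ -R ^ 2 * ((e 0 : ℝ) + (e 1 : ℝ))) (hs : ‖s‖ < R) :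
    R * (R - 1) ≤ |(zt e (t + s)).re| := by
  have he1 : (1 : ℝ) ≤ e 1 := by exact_mod_cast h.pos 1
  have he0 : (1 : ℝ) ≤ e 0 := by exact_mod_cast h.pos 0
  obtain ⟨κ, hκ⟩ : ∃ κ : ℝ, κ = (e 1 : ℝ) / ((e 0 : ℝ) + (e 1 : ℝ)) := ⟨_, rfl⟩
  have hz : zt e (t + s) = (κ : ℂ) * (t + s) := by
    unfold zt
    rw [hκ]
    push_cast
    ring
  have hre : (zt e (t + s)).re = κ * (t.re + s.re) := by rw [hz, Complex.re_ofReal_mul, Complex.add_re]
  have hκ0 : 0 ≤ κ := by rw [hκ]; positivity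
  have hκ1 : κ ≤ 1 := by
    rw [hκ, div_le_one (by positivity)]
    linarith
  have hκ2 : κ * ((e 0 : ℝ) + (e 1 : ℝ)) = e 1 := by
    rw [hκ]
    field_simp
  have h1 : κ * t.re ≤ -R ^ 2 * e 1 := by
    calc κ * t.re ≤ κ * (-R ^ 2 * ((e 0 : ℝ) + (e 1 : ℝ))) := by gcongr
      _ = -R ^ 2 * (κ * ((e 0 : ℝ) + (e 1 : ℝ))) := by ring
      _ = _ := by rw [hκ2]
  have h2 : s.re ≤ ‖s‖ := Complex.re_le_norm s
  have h3 : κ * s.re ≤ R := by
    calc κ * s.re ≤ κ * R := by gcongr; linarith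
      _ ≤ 1 * R := by gcongr
      _ = R := one_mul R
  have h4 : -R ^ 2 * (e 1 : ℝ) ≤ -R ^ 2 := by nlinarith [sq_nonneg R]
  have h5 : κ * (t.re + s.re) ≤ -(R * (R - 1)) := by nlinarith
  have h6 : 0 ≤ R * (R - 1) := mul_nonneg (by linarith) (by linarith)
  rw [hre, abs_of_nonpos (by linarith)]
  linarith

private lemma cc_ne (h : LS Q e) {x : EN (n + 2)} (hx : ev (Q 1) x = 1) : x ≠ 0 := by
  rintro rfl
  have h1 := ev_smul (h.hom 1) 0 (0 : EN (n + 2))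
  have hp := h.pos 1
  rw [smul_zero, zero_pow (by omega), zero_mul, hx] at h1
  exact one_ne_zero h1

private lemma cc_const (h : LS Q e) {H : ℂ → EN (n + 2)} (hH : Differentiable ℂ H) (h1 : ∀ z, ev (Q 1) (H z) = 1)
    (hfs : ∀ z, fs (H z) (deriv H z) = 0) : ∀ z, H z = H 0 := by
  have hd : ∀ z, deriv H z = 0 := by
    intro z
    have hne : H z ≠ 0 := cc_ne h (h1 z)
    have hw : wd (H z) (deriv H z) = 0 := by
      have h2 := hfs z
      unfold fs at h2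
      rcases div_eq_zero_iff.mp h2 with h3 | h3
      · exact h3
      · exact absurd h3 (pow_ne_zero 2 (norm_ne_zero_iff.mpr hne))
    obtain ⟨a, ha⟩ := (Pool.Agent.H36.BP.wd_eq_zero hne).mp hw
    have h2 := hasDerivAt_ev' (Q 1) (hH z).hasDerivAt
    have h3 : HasDerivAt (fun w => ev (Q 1) (H w)) 0 z := by
      have h4 : (fun w => ev (Q 1) (H w)) = fun _ => (1 : ℂ) := funext h1
      rw [h4]
      exact hasDerivAt_const z (1 : ℂ)
    have h4 := h2.unique h3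
    have h5 : ∑ i, (deriv H z) i * grad (Q 1) (H z) i = a * ∑ i, (H z) i * grad (Q 1) (H z) i := by
      rw [ha, Finset.mul_sum]
      refine Finset.sum_congr rfl fun i _ => ?_
      rw [PiLp.smul_apply, smul_eq_mul, mul_assoc]
    rw [h5, euler (h.hom 1), h1 z, mul_one] at h4
    have h6 : (e 1 : ℂ) ≠ 0 := by
      have := h.pos 1
      exact_mod_cast (by omega : e 1 ≠ 0)
    have h7 : a = 0 := (mul_eq_zero.mp h4).resolve_right h6
    rw [ha, h7, zero_smul]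
  intro z
  exact is_const_of_deriv_eq_zero hH hd z 0

private lemma cc_isOpen_cenS : IsOpen {p : ℂ × ℂ | CenS p} := by
  unfold CenS
  exact (isOpen_lt continuous_fst.norm continuous_const).inter (isOpen_lt continuous_snd.norm continuous_const)

private lemma cc_nhds {N : ℕ} {S : Set (EN N)} {u : EN N → ℂ} {v : EN N → EN N} (c : Ch S u v) {x : EN N} (hx : x ∈ c.D) (hc : CenS (c.q x)) :
    ∀ᶠ y in 𝓝 x, y ∈ c.D ∧ CenS (c.q y) := by
  have h1 : ∀ᶠ y in 𝓝 x, y ∈ c.D := c.isOpen_D.mem_nhds hx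
  have h2 : ∀ᶠ y in 𝓝 x, CenS (c.q y) := (c.q_an x hx).continuousAt.eventually (cc_isOpen_cenS.mem_nhds hc)
  exact h1.and h2

private lemma cc_ch_false (F : Fam (Sf Q) (ev (Q 0)) (nv Q) κ) (m : κ) :
    ∃ i : Ix F, F.ch i = F.c m := by
  refine ⟨⟨(m, false), fun h => absurd h (by simp)⟩, ?_⟩
  unfold Fam.ch
  rw [dif_neg (by simp)]

private lemma cc_cov (F : Fam (Sf Q) (ev (Q 0)) (nv Q) κ) {x : EN (n + 2)} (hx : x ∈ Sf Q) (h0 : ev (Q 0) x = 0) :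
    ∃ i : Ix F, x ∈ (F.ch i).D ∧ CenS ((F.ch i).q x) := by
  obtain ⟨m, hm, hc | ⟨hb, hc⟩⟩ := F.cov x hx h0
  · obtain ⟨i, hi⟩ := cc_ch_false F m
    exact ⟨i, by rw [hi]; exact hm, by rw [hi]; exact hc⟩
  · have hi : F.ch ⟨(m, true), fun _ => hb⟩ = (F.c m).sw hb := by
      unfold Fam.ch
      rw [dif_pos rfl]
    obtain ⟨-, -, -, h1, h2, -⟩ := Ch.sw_spec (F.c m) hb
    refine ⟨⟨(m, true), fun _ => hb⟩, ?_, ?_⟩
    · rw [hi, h2]
      exact hm
    · rw [hi, h1]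
      exact hc

private lemma cc_inf (F : Fam (Sf Q) (ev (Q 0)) (nv Q) κ) {g : ℂ → EN (n + 2)} {r₀ : ℝ} (hg : ContinuousOn g (ball 0 r₀))
    (h0 : ∃ m, (F.c m).inf = true ∧ g 0 ∈ (F.c m).D ∧ CenS ((F.c m).q (g 0)))
    (h : ∀ s ∈ ball (0 : ℂ) r₀, ∃ m, (F.c m).inf = true ∧ g s ∈ (F.c m).D ∧ CenS ((F.c m).q (g s))) :
    ∃ i : Ix F, ∀ s ∈ ball (0 : ℂ) r₀, g s ∈ (F.ch i).D ∧ CenS ((F.ch i).q (g s)) := by
  obtain ⟨m₀, hm1, hm2, hm3⟩ := h0
  obtain ⟨i, hi⟩ := cc_ch_false F m₀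
  refine ⟨i, ?_⟩
  rw [hi]
  intro s hs
  have hr : 0 < r₀ := by
    rw [mem_ball_zero_iff] at hs
    exact lt_of_le_of_lt (norm_nonneg s) hs
  have hu : IsOpen (ball (0 : ℂ) r₀ ∩ g ⁻¹' (F.c m₀).D) := hg.isOpen_inter_preimage isOpen_ball (F.c m₀).isOpen_D
  have hv : IsOpen (ball (0 : ℂ) r₀ ∩ g ⁻¹' ⋃ (m : κ) (_ : m ≠ m₀ ∧ (F.c m).inf = true), (F.c m).D) :=
    hg.isOpen_inter_preimage isOpen_ball (isOpen_iUnion fun m => isOpen_iUnion fun _ => (F.c m).isOpen_D)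
  have hsub : ball (0 : ℂ) r₀ ⊆ ball (0 : ℂ) r₀ ∩ g ⁻¹' (F.c m₀).D := by
    refine IsPreconnected.subset_left_of_subset_union hu hv ?_ ?_ ?_ (convex_ball (0 : ℂ) r₀).isPreconnected
    · rw [Set.disjoint_left]
      rintro w ⟨-, hw1⟩ ⟨-, hw2⟩
      rw [mem_preimage, mem_iUnion₂] at hw2
      obtain ⟨m, ⟨hm, hinf⟩, hw3⟩ := hw2
      exact Set.disjoint_left.mp (F.disj m m₀ hm hinf hm1) hw3 hw1
    · intro w hw
      obtain ⟨m, h1, h2, h3⟩ := h w hw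
      by_cases hm : m = m₀
      · left
        rw [hm] at h2
        exact ⟨hw, h2⟩
      · right
        refine ⟨hw, ?_⟩
        rw [mem_preimage, mem_iUnion₂]
        exact ⟨m, ⟨hm, h1⟩, h2⟩
    · exact ⟨0, mem_ball_self hr, mem_ball_self hr, hm2⟩
  have h1 := (hsub hs).2
  obtain ⟨m, h2, h3, h4⟩ := h s hs
  have hm : m = m₀ := by
    by_contra hne
    exact Set.disjoint_left.mp (F.disj m m₀ hne h2 hm1) h3 h1
  rw [hm] at h4
  exact ⟨h1, h4⟩

theorem cell_chart (h : LS Q e) (F : Fam (Sf Q) (ev (Q 0)) (nv Q) κ) (C r₀ : ℝ) : ∃ r₁ T₁ : ℝ, 0 < r₁ ∧ ∀ (t₁ : ℂ) (f : ℂ → EN (n + 2)),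
    t₁.re ≤ T₁ → IsSec Q f (ball (zt e t₁) r₁) → (∀ z ∈ ball (zt e t₁) r₁, |z.re| * fs (f z) (deriv f z) ≤ C) →
    DifferentiableOn ℂ (xi e f) (ball t₁ r₀) ∧ (∀ t ∈ ball t₁ r₀, xi e f t ∈ Sf Q ∧ ev (Q 0) (xi e f t) = Complex.exp t) ∧
      ∃ i : Ix F, ∀ t ∈ ball t₁ r₀, xi e f t ∈ (F.ch i).D ∧ CenS ((F.ch i).q (xi e f t)) := by
  classical
  have he1 : (1 : ℝ) ≤ e 1 := by exact_mod_cast h.pos 1
  have he0 : (1 : ℝ) ≤ e 0 := by exact_mod_cast h.pos 0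
  by_contra hcon
  push Not at hcon
  have hRpos : ∀ k : ℕ, 0 < (k : ℝ) + 1 + |r₀| := fun k => by positivity
  have hneg : ∀ k : ℕ, ∃ (t : ℂ) (f : ℂ → EN (n + 2)), t.re ≤ -((k : ℝ) + 1 + |r₀|) ^ 2 * ((e 0 : ℝ) + (e 1 : ℝ)) ∧
      IsSec Q f (ball (zt e t) ((k : ℝ) + 1 + |r₀|)) ∧ (∀ z ∈ ball (zt e t) ((k : ℝ) + 1 + |r₀|), |z.re| * fs (f z) (deriv f z) ≤ C) ∧
      ¬ ∃ i : Ix F, ∀ s ∈ ball (0 : ℂ) r₀, xi e f (t + s) ∈ (F.ch i).D ∧ CenS ((F.ch i).q (xi e f (t + s))) := by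
    intro k
    obtain ⟨t, f, h1, h2, h3, h4⟩ := hcon ((k : ℝ) + 1 + |r₀|) (-((k : ℝ) + 1 + |r₀|) ^ 2 * ((e 0 : ℝ) + (e 1 : ℝ))) (hRpos k)
    refine ⟨t, f, h1, h2, h3, ?_⟩
    rintro ⟨i, hi⟩
    have hU : ∀ w ∈ ball t r₀, zt e w ∈ ball (zt e t) ((k : ℝ) + 1 + |r₀|) := by
      intro w hw
      rw [mem_ball, dist_eq_norm] at hw ⊢
      have h5 := norm_zt_le h w t
      have h6 := le_abs_self r₀
      have h7 : (0 : ℝ) ≤ k := k.cast_nonneg
      linarith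
    obtain ⟨h5, h6⟩ := xi_sec h h2 hU
    obtain ⟨w, hw, h7⟩ := h4 h5 (fun w hw => h6 w hw) i
    have h8 := hi (w - t) (by
      rw [mem_ball, dist_eq_norm] at hw
      rw [mem_ball_zero_iff]
      exact hw)
    rw [add_sub_cancel] at h8
    exact h7 h8.1 h8.2
  choose t f ht hf hfs hno using hneg
  obtain ⟨R, hR⟩ : ∃ R : ℕ → ℝ, ∀ k : ℕ, R k = (k : ℝ) + 1 + |r₀| := ⟨fun k => (k : ℝ) + 1 + |r₀|, fun k => rfl⟩
  simp only [← hR] at ht hf hfs hRpos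
  have hR1 : ∀ k : ℕ, (k : ℝ) + 1 ≤ R k := fun k => by
    rw [hR]
    linarith [abs_nonneg r₀]
  have hRk : ∀ k : ℕ, |r₀| < R k := fun k => by
    rw [hR]
    have : (0 : ℝ) ≤ k := k.cast_nonneg
    linarith
  have hRtop : Tendsto R atTop atTop :=
    tendsto_atTop_mono hR1 (tendsto_atTop_add_const_right _ _ tendsto_natCast_atTop_atTop)
  obtain ⟨𝒰, h𝒰⟩ : ∃ 𝒰 : Ultrafilter ℕ, (𝒰 : Filter ℕ) ≤ atTop := by
    obtain ⟨𝒰, h⟩ := Ultrafilter.exists_le (atTop : Filter ℕ)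
    exact ⟨𝒰, h⟩
  have hRU : Tendsto R 𝒰 atTop := hRtop.mono_left h𝒰
  have hU : ∀ k, ∀ w ∈ ball (t k) (R k), zt e w ∈ ball (zt e (t k)) (R k) := by
    intro k w hw
    rw [mem_ball, dist_eq_norm] at hw ⊢
    exact lt_of_le_of_lt (norm_zt_le h w (t k)) hw
  have hxi := fun k => xi_sec h (hf k) (hU k)
  have hadd : ∀ k, ∀ s ∈ ball (0 : ℂ) (R k), t k + s ∈ ball (t k) (R k) := by
    intro k s hs
    rw [mem_ball_zero_iff] at hs
    rw [mem_ball, dist_eq_norm, add_sub_cancel_left]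
    exact hs
  have hGd : ∀ k, DifferentiableOn ℂ (fun s => xi e (f k) (t k + s)) (ball 0 (R k)) := by
    intro k
    exact (hxi k).1.comp ((differentiable_id.const_add (t k)).differentiableOn) (hadd k)
  have hGS : ∀ k, ∀ s ∈ ball (0 : ℂ) (R k), xi e (f k) (t k + s) ∈ Sf Q ∧ ev (Q 0) (xi e (f k) (t k + s)) = Complex.exp (t k + s) :=
    fun k s hs => (hxi k).2 (t k + s) (hadd k s hs)
  have hGfs : ∀ k : ℕ, 1 < R k → ∀ s ∈ ball (0 : ℂ) (R k),
      fs (xi e (f k) (t k + s)) (deriv (fun s => xi e (f k) (t k + s)) s) ≤ |C| / (R k * (R k - 1)) := by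
    intro k hk s hs
    have hd : deriv (fun s => xi e (f k) (t k + s)) s = deriv (xi e (f k)) (t k + s) := deriv_comp_const_add (xi e (f k)) (t k) s
    have hz : zt e (t k + s) ∈ ball (zt e (t k)) (R k) := hU k _ (hadd k s hs)
    have hdz : DifferentiableAt ℂ (f k) (zt e (t k + s)) := (hf k).1.differentiableAt (isOpen_ball.mem_nhds hz)
    have hne : f k (zt e (t k + s)) ≠ 0 := by
      intro h0
      have h1 := (hGS k s hs).1.2
      unfold xi at h1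
      rw [h0, smul_zero] at h1
      exact cc_ne h h1 rfl
    rw [hd, fs_xi h hdz hne]
    have h1 := hfs k _ hz
    rw [mem_ball_zero_iff] at hs
    have h2 := cc_re h hk (ht k) hs
    have h3 : 0 < R k * (R k - 1) := mul_pos (by linarith) (by linarith)
    have h4 := Pool.Agent.H36.BP.fs_nonneg (f k (zt e (t k + s))) (deriv (f k) (zt e (t k + s)))
    have h5 : (e 1 : ℝ) / ((e 0 : ℝ) + (e 1 : ℝ)) ≤ 1 := by
      rw [div_le_one (by positivity)]
      linarith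
    rw [le_div_iff₀ h3]
    calc (e 1 : ℝ) / ((e 0 : ℝ) + (e 1 : ℝ)) * fs (f k (zt e (t k + s))) (deriv (f k) (zt e (t k + s))) * (R k * (R k - 1))
        ≤ 1 * fs (f k (zt e (t k + s))) (deriv (f k) (zt e (t k + s))) * |(zt e (t k + s)).re| := by gcongr
      _ = |(zt e (t k + s)).re| * fs (f k (zt e (t k + s))) (deriv (f k) (zt e (t k + s))) := by ring
      _ ≤ C := h1
      _ ≤ |C| := le_abs_self C
  have hA : Tendsto (fun k => |C| / (R k * (R k - 1))) 𝒰 (𝓝 0) := by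
    refine Tendsto.div_atTop tendsto_const_nhds ?_
    have h1 : Tendsto (fun k => R k - 1) 𝒰 atTop := tendsto_atTop_add_const_right _ _ hRU
    exact hRU.atTop_mul_atTop₀ h1
  have hgt : ∀ᶠ k in (𝒰 : Filter ℕ), 1 < R k := hRU.eventually_gt_atTop 1
  have hexp : ∀ (w : ℕ → ℂ) (z : ℂ), Tendsto w 𝒰 (𝓝 z) → Tendsto (fun k => Complex.exp (t k + w k)) 𝒰 (𝓝 0) := by
    intro w z hw
    rw [tendsto_zero_iff_norm_tendsto_zero]
    have h1 : Tendsto (fun k => -R k + (w k).re) 𝒰 atBot := by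
      have h2 : Tendsto (fun k => (w k).re) 𝒰 (𝓝 z.re) := (Complex.continuous_re.tendsto z).comp hw
      exact (tendsto_neg_atTop_atBot.comp hRU).atBot_add h2
    have h3 : Tendsto (fun k => Real.exp (-R k + (w k).re)) 𝒰 (𝓝 0) := Real.tendsto_exp_atBot.comp h1
    refine squeeze_zero (fun k => norm_nonneg _) (fun k => ?_) h3
    rw [Complex.norm_exp, Complex.add_re]
    have h4 := ht k
    have h5 : (k : ℝ) + 1 ≤ R k := hR1 k
    have h6 : (0 : ℝ) ≤ k := k.cast_nonneg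
    have h7 : R k ≤ R k ^ 2 * ((e 0 : ℝ) + (e 1 : ℝ)) := by nlinarith
    exact Real.exp_le_exp.mpr (by linarith)
  have hK : IsCompact (closedBall (0 : ℂ) |r₀|) := isCompact_closedBall 0 |r₀|
  have hsubK : ball (0 : ℂ) r₀ ⊆ closedBall (0 : ℂ) |r₀| := fun s hs =>
    closedBall_subset_closedBall (le_abs_self r₀) (ball_subset_closedBall hs)
  have hKR : ∀ k, closedBall (0 : ℂ) |r₀| ⊆ ball (0 : ℂ) (R k) := fun k => closedBall_subset_ball (hRk k)
  rcases lim_alt_strong h 𝒰 (fun k s => xi e (f k) (t k + s)) R hRU (L := 1) one_pos (fun k s => Complex.exp (t k + s)) (fun _ _ => 1)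
    (fun _ => 0) (fun _ => 1) (by
      filter_upwards [hgt, hA.eventually_le_const (one_pos)] with k hk1 hk2
      refine ⟨hGd k, fun s hs => ⟨(hGS k s hs).1.1, (hGS k s hs).2, (hGS k s hs).1.2, Complex.exp_ne_zero _, one_ne_zero, ?_⟩⟩
      exact (hGfs k hk1 s hs).trans hk2)
    (fun w z hw => hexp w z hw) (fun w z hw => tendsto_const_nhds) (fun z => Or.inr one_ne_zero) with hinf | ⟨H, hH, hHv, hHlim, hHfs⟩
  · obtain ⟨R', ρ', hρ', hcov⟩ := F.cov_inf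
    have hev := cc_compact hK 𝒰 (fun k s => R' < ‖xi e (f k) (t k + s)‖ ∧ ‖Complex.exp (t k + s)‖ < ρ') (by
      intro w z hw
      have h1 := (hinf z).2 w hw
      have h2 := (hexp w z hw).norm
      rw [norm_zero] at h2
      exact (h1.eventually_gt_atTop R').and (h2.eventually_lt_const hρ'))
    obtain ⟨k, hk⟩ := hev.exists
    have hex : ∀ s ∈ closedBall (0 : ℂ) |r₀|, ∃ m, (F.c m).inf = true ∧ xi e (f k) (t k + s) ∈ (F.c m).D ∧ CenS ((F.c m).q (xi e (f k) (t k + s))) := by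
      intro s hs
      obtain ⟨h1, h2⟩ := hGS k s (hKR k hs)
      exact hcov _ h1 (hk s hs).1 (by rw [h2]; exact (hk s hs).2)
    exact hno k (cc_inf F (g := fun s => xi e (f k) (t k + s)) ((hGd k).continuousOn.mono (hsubK.trans (hKR k)))
      (hex 0 (mem_closedBall_self (abs_nonneg r₀))) fun s hs => hex s (hsubK hs))
  · have hH1 : ∀ z, ev (Q 1) (H z) = 1 := fun z => (hHv z).2.2
    have hHfs0 : ∀ z, fs (H z) (deriv H z) = 0 := by
      intro z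
      refine tendsto_nhds_unique (hHfs z) ?_
      refine squeeze_zero' (Eventually.of_forall fun k => Pool.Agent.H36.BP.fs_nonneg _ _) ?_ hA
      filter_upwards [hgt, hRU.eventually_gt_atTop ‖z‖] with k hk1 hk2
      exact hGfs k hk1 z (by rw [mem_ball_zero_iff]; exact hk2)
    have hconst := cc_const h hH hH1 hHfs0
    obtain ⟨i, hi1, hi2⟩ := cc_cov F (x := H 0) ⟨(hHv 0).1, hH1 0⟩ (hHv 0).2.1
    have hnh := cc_nhds (F.ch i) hi1 hi2
    have hev := cc_compact hK 𝒰 (fun k s => xi e (f k) (t k + s) ∈ (F.ch i).D ∧ CenS ((F.ch i).q (xi e (f k) (t k + s)))) (by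
      intro w z hw
      have h1 := hHlim w z hw
      rw [hconst z] at h1
      exact h1.eventually hnh)
    obtain ⟨k, hk⟩ := hev.exists
    exact hno k ⟨i, fun s hs => hk s (hsubK hs)⟩

end Pool.Agent.EG.TM
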