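import Pool.Agent.EG.TM.Mod

/-!
# EG TM CellS: a curve in a chart is in a cell

`Fp i p` is `(F.ch i).inf = true → p.2 ≠ 0`.  By `X_eq`: `M.X i μ t h = (μ exp (t - b h), yb b h)`, `yb 0 h = h`, `yb 1 h = exp h`, `b ≤ 1` (`b_le`), `M.a i = 1`, `M.k i = (F.ch i).k`.

`exists_cell`.  `p t = q (ξ t) ∈ ball 0 3`, `s (p t) = ξ t`, finite (`q_mem`), `k (p t).1 (p t).2 ^ b = exp t` (`u_eq`), `p` is holomorphic on `U` (`q_an`).  `μ = 1 / k`.
`b = 0`: `h t = (p t).2`, `(p t).1 = exp t / k`.  `b = 1`: `(p t).2 ≠ 0`; a nonvanishing holomorphic function on the ball has a holomorphic logarithm `h`, `(p t).2 = exp (h t)` and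
`(p t).1 = exp t / (k exp (h t)) = μ exp (t - h t)`.

-/

set_option autoImplicit false

open Topology Filter Metric Set

namespace Pool.Agent.EG.TM

open Pool.Agent.H36.BP (EN)
open Pool.Agent.EG.RS (Model Atl Cen yb yb')

variable {N : ℕ} {S : Set (EN N)} {u : EN N → ℂ} {nv : EN N → EN N} {κ : Type}

/-- a holomorphic logarithm on a ball -/
private theorem cellS_log {f : ℂ → ℂ} {t₁ : ℂ} {r₀ : ℝ} (hf : DifferentiableOn ℂ f (ball t₁ r₀)) (h0 : ∀ t ∈ ball t₁ r₀, f t ≠ 0) :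
    ∃ g : ℂ → ℂ, DifferentiableOn ℂ g (ball t₁ r₀) ∧ ∀ t ∈ ball t₁ r₀, f t = Complex.exp (g t) := by
  rcases le_or_gt r₀ 0 with hr | hr
  · refine ⟨fun _ => 0, ?_, ?_⟩
    · rw [ball_eq_empty.2 hr]
      exact differentiableOn_empty
    · rw [ball_eq_empty.2 hr]
      intro t ht
      exact absurd ht (notMem_empty t)
  have hd : DifferentiableOn ℂ (fun t => deriv f t / f t) (ball t₁ r₀) := (hf.deriv isOpen_ball).div hf h0
  obtain ⟨G, hG⟩ := hd.isExactOn_ball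
  have ht₁ : t₁ ∈ ball t₁ r₀ := mem_ball_self hr
  set c : ℂ := Complex.log (f t₁) - G t₁ with hc
  refine ⟨fun t => G t + c, fun t ht => ((hG t ht).differentiableAt.add_const c).differentiableWithinAt, fun t ht => ?_⟩
  have hd2 : DifferentiableOn ℂ (fun t => f t * Complex.exp (-(G t + c))) (ball t₁ r₀) := by
    refine hf.mul (DifferentiableOn.cexp ?_)
    intro t ht
    exact ((hG t ht).differentiableAt.add_const c).neg.differentiableWithinAt
  have hderiv : ∀ t ∈ ball t₁ r₀, HasDerivAt (fun t => f t * Complex.exp (-(G t + c))) 0 t := by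
    intro t ht
    have h1 : HasDerivAt f (deriv f t) t := (hf.differentiableAt (isOpen_ball.mem_nhds ht)).hasDerivAt
    have h2 : HasDerivAt (fun t => Complex.exp (-(G t + c))) (Complex.exp (-(G t + c)) * (-(deriv f t / f t))) t :=
      ((hG t ht).add_const c).neg.cexp
    have h3 := h1.mul h2
    refine h3.congr_deriv ?_
    have h4 := h0 t ht
    field_simp
    ring
  have hconst := (convex_ball t₁ r₀).is_const_of_fderivWithin_eq_zero (𝕜 := ℂ) hd2 (fun t ht => by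
    rw [fderivWithin_of_isOpen isOpen_ball ht]
    have h1 := (hderiv t ht).hasFDerivAt.fderiv
    rw [h1]
    ext
    simp) ht ht₁
  have h5 : f t₁ * Complex.exp (-(G t₁ + c)) = 1 := by
    rw [hc, add_sub_cancel, Complex.exp_neg, Complex.exp_log (h0 t₁ ht₁), mul_inv_cancel₀ (h0 t₁ ht₁)]
  rw [h5, Complex.exp_neg, mul_inv_eq_iff_eq_mul₀ (Complex.exp_ne_zero _), one_mul] at hconst
  exact hconst

theorem exists_cell {F : Fam S u nv κ} {M : Model (Ix F) (EN N ⊕ (κ × ℂ))} (hM : M.toAtl = F.atl) {i : Ix F} {ξ : ℂ → EN N} {t₁ : ℂ} {r₀ : ℝ}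
    (hd : DifferentiableOn ℂ ξ (ball t₁ r₀)) (hS : ∀ t ∈ ball t₁ r₀, ξ t ∈ S ∧ u (ξ t) = Complex.exp t)
    (hc : ∀ t ∈ ball t₁ r₀, ξ t ∈ (F.ch i).D ∧ CenS ((F.ch i).q (ξ t))) :
    ∃ (μ : ℂ) (h : ℂ → ℂ), M.k i * μ ^ M.a i = 1 ∧ DifferentiableOn ℂ h (ball t₁ r₀) ∧
      ∀ t ∈ ball t₁ r₀, CenS (M.X i μ t (h t)) ∧ ((F.ch i).inf = true → (M.X i μ t (h t)).2 ≠ 0) ∧ ξ t = (F.ch i).s (M.X i μ t (h t)) := by
  have hka : M.k i = (F.ch i).k := by
    have h1 : M.k i = F.atl.k i := by rw [hM]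
    rw [h1]
    rfl
  have haa : M.a i = 1 := by
    have h1 : M.a i = F.atl.a i := by rw [hM]
    rw [h1]
    rfl
  have hk := (F.ch i).k_ne
  have hp : ∀ t ∈ ball t₁ r₀, (F.ch i).q (ξ t) ∈ ball (0 : ℂ × ℂ) 3 ∧ ((F.ch i).inf = true → ((F.ch i).q (ξ t)).2 ≠ 0) ∧
      (F.ch i).s ((F.ch i).q (ξ t)) = ξ t := fun t ht => (F.ch i).q_mem _ (hc t ht).1 (hS t ht).1
  have hu : ∀ t ∈ ball t₁ r₀, (F.ch i).k * ((F.ch i).q (ξ t)).1 * ((F.ch i).q (ξ t)).2 ^ (F.ch i).b = Complex.exp t := by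
    intro t ht
    obtain ⟨h1, h2, h3⟩ := hp t ht
    rw [← (F.ch i).u_eq _ h1 h2, h3]
    exact (hS t ht).2
  have hqd : DifferentiableOn ℂ (fun t => (F.ch i).q (ξ t)) (ball t₁ r₀) := by
    intro t ht
    have h1 := ((F.ch i).q_an _ (hc t ht).1).differentiableAt
    have h2 := hd.differentiableAt (isOpen_ball.mem_nhds ht)
    exact (DifferentiableAt.comp (g := (F.ch i).q) t h1 h2).differentiableWithinAt
  have hq2 : DifferentiableOn ℂ (fun t => ((F.ch i).q (ξ t)).2) (ball t₁ r₀) := fun t ht => (hqd t ht).snd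
  obtain ⟨h, hh, hX⟩ : ∃ h : ℂ → ℂ, DifferentiableOn ℂ h (ball t₁ r₀) ∧ ∀ t ∈ ball t₁ r₀,
      M.X i (F.ch i).k⁻¹ t (h t) = (F.ch i).q (ξ t) := by
    rcases Nat.eq_zero_or_pos (F.ch i).b with hb | hb
    · refine ⟨fun t => ((F.ch i).q (ξ t)).2, hq2, fun t ht => ?_⟩
      have h1 := hu t ht
      rw [X_eq hM, hb]
      rw [hb, pow_zero, mul_one] at h1
      ext
      · simp only [Nat.cast_zero, zero_mul, sub_zero]
        rw [← h1]
        field_simp
      · simp [yb]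
    · have hb1 : (F.ch i).b = 1 := le_antisymm (F.ch i).b_le hb
      have hne : ∀ t ∈ ball t₁ r₀, ((F.ch i).q (ξ t)).2 ≠ 0 := by
        intro t ht h0
        have h1 := hu t ht
        rw [hb1, pow_one, h0, mul_zero] at h1
        exact Complex.exp_ne_zero t h1.symm
      obtain ⟨g, hg, hge⟩ := cellS_log hq2 hne
      refine ⟨g, hg, fun t ht => ?_⟩
      have h1 := hu t ht
      have h2 := hge t ht
      rw [hb1, pow_one] at h1
      rw [X_eq hM, hb1]
      ext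
      · simp only [Nat.cast_one, one_mul]
        rw [Complex.exp_sub, ← h2, ← h1]
        have h3 := hne t ht
        field_simp
      · simp only [yb, one_ne_zero, if_false]
        exact h2.symm
  refine ⟨(F.ch i).k⁻¹, h, ?_, hh, fun t ht => ?_⟩
  · rw [hka, haa, pow_one, mul_inv_cancel₀ hk]
  · rw [hX t ht]
    exact ⟨(hc t ht).2, (hp t ht).2.1, (hp t ht).2.2.symm⟩

end Pool.Agent.EG.TM
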