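import Pool.Agent.EG.TM.Defs

/-!
# EG TM ChB: elementary properties of the charts

`exists_swap`: the chart with the coordinates exchanged (`b = 1`, so `inf = false` by `b_inf`).  `fderiv (fun p => c.s p.swap) p v = fderiv c.s p.swap v.swap` (chain rule,
`c.s` is analytic at `p.swap ∈ ball 0 3`; the norm on `ℂ × ℂ` is the maximum, so `ball 0 3`, `closedBall 0 1` are invariant under `Prod.swap`).
`form` for the new chart at `p = (p₁, p₂)`, with `p' = p.swap`: `k p₂ • ∂₁ s p' - k p₁ • ∂₂ s p' = - (k p'₂ • ∂₂ s p' - k p'₁ • ∂₁ s p') = - w p' • nv`.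

`tr_an`: `d.s x ∈ S`, `q_mem`, `u_eq` for both charts (the same point `c.s (c.q (d.s x)) = d.s x`).

`tr_w`: let `τ y = c.q (d.s y)`.  Near `x` the points `y` satisfy the hypotheses of `tr_an` (all are open conditions: `ball 0 3`, `y.2 ≠ 0` if `d.inf = true`, `d.s y ∈ c.D`), so
`d.s = c.s ∘ τ` and `U_d = U_c ∘ τ` near `x`, `U_c p = c.k * p.1 * p.2 ^ c.b`, `U_d p = d.k * p.1 * p.2 ^ d.b`.  Let `T = fderiv τ x`, `A = fderiv c.s (τ x)`, `α = fderiv U_c (τ x)`: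
`α (v₁, v₂) = c.k * p.2 ^ b * v₁ + c.k * b * p.1 * v₂` at `p = τ x` (`b = 0` or `b = 1`, `b_le`).  The chain rule gives `fderiv d.s x = A ∘ T`, `fderiv U_d x = α ∘ T`.
`form` for `d` at `x`: `d.w x • nv (d.s x) = (α T e₁) • A T e₂ - (α T e₂) • A T e₁ = det T • ((α e₁) • A e₂ - (α e₂) • A e₁) = det T • c.w (τ x) • nv (c.s (τ x))`, with
`det T = jac τ x` (write `T e₁ = a e₁ + b e₂`, `T e₂ = c e₁ + d e₂`).  `c.s (τ x) = d.s x` and `nv (d.s x) ≠ 0` (`nv_ne`).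
-/

set_option autoImplicit false

open Topology Filter Metric Set

namespace Pool.Agent.EG.TM

open Pool.Agent.H36.BP (EN)
open Pool.Agent.H14.PP (jac)

variable {N : ℕ} {S : Set (EN N)} {u : EN N → ℂ} {nv : EN N → EN N}

private theorem chB_swap_ball {p : ℂ × ℂ} (hp : p ∈ ball (0 : ℂ × ℂ) 3) : p.swap ∈ ball (0 : ℂ × ℂ) 3 := by
  rw [mem_ball_zero_iff, Prod.norm_def] at hp ⊢
  simpa [max_comm] using hp

private theorem chB_swap_norm (p : ℂ × ℂ) : ‖p.swap‖ = ‖p‖ := by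
  rw [Prod.norm_def, Prod.norm_def]
  simp [max_comm]

private theorem chB_swap_an (p : ℂ × ℂ) : AnalyticAt ℂ (fun q : ℂ × ℂ => q.swap) p :=
  analyticAt_snd.prod analyticAt_fst

private theorem chB_swap_fd (p v : ℂ × ℂ) : fderiv ℂ (fun q : ℂ × ℂ => q.swap) p v = v.swap := by
  have h : (fun q : ℂ × ℂ => q.swap) = ((ContinuousLinearMap.snd ℂ ℂ ℂ).prod (ContinuousLinearMap.fst ℂ ℂ ℂ) : ℂ × ℂ → ℂ × ℂ) := by
    funext q
    rfl
  rw [h, ContinuousLinearMap.fderiv]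
  rfl

private theorem chB_swap_comp {N : ℕ} (s : ℂ × ℂ → EN N) (p v : ℂ × ℂ) (hs : AnalyticAt ℂ s p.swap) :
    fderiv ℂ (fun q : ℂ × ℂ => s q.swap) p v = fderiv ℂ s p.swap v.swap := by
  have h1 : HasFDerivAt (fun q : ℂ × ℂ => s q.swap) ((fderiv ℂ s p.swap).comp (fderiv ℂ (fun q : ℂ × ℂ => q.swap) p)) p :=
    HasFDerivAt.comp (g := s) (f := fun q : ℂ × ℂ => q.swap) p hs.differentiableAt.hasFDerivAt
      (chB_swap_an p).differentiableAt.hasFDerivAt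
  rw [h1.fderiv, ContinuousLinearMap.comp_apply, chB_swap_fd]

theorem exists_swap (c : Ch S u nv) (hb : c.b = 1) : ∃ d : Ch S u nv, d.inf = false ∧ d.b = 1 ∧ (∀ p, d.s p = c.s p.swap) ∧
    (∀ x, d.q x = (c.q x).swap) ∧ d.D = c.D ∧ d.k = c.k ∧ ∀ p, d.w p = -c.w p.swap := by
  have hinf : c.inf = true → False := fun h => by
    have := c.b_inf h
    omega
  refine ⟨{ inf := false, b := 1, s := fun p => c.s p.swap, q := fun x => (c.q x).swap, D := c.D, k := c.k,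
            w := fun p => -c.w p.swap, b_le := le_refl 1, b_inf := fun h => absurd h (by decide), k_ne := c.k_ne,
            isOpen_D := c.isOpen_D, s_an := ?_, s_mem := ?_, q_an := ?_, q_mem := ?_, u_eq := ?_, w_an := ?_, form := ?_,
            nv_ne := ?_, big := fun h => absurd h (by decide), close := ?_ }, rfl, rfl, fun _ => rfl, fun _ => rfl, rfl, rfl, fun _ => rfl⟩
  · intro p hp _
    exact (c.s_an p.swap (chB_swap_ball hp) (fun h => (hinf h).elim)).comp_of_eq (chB_swap_an p) rfl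
  · intro p hp _
    obtain ⟨h1, h2, h3⟩ := c.s_mem p.swap (chB_swap_ball hp) (fun h => (hinf h).elim)
    exact ⟨h1, h2, by rw [h3, Prod.swap_swap]⟩
  · intro x hx
    exact (chB_swap_an (c.q x)).comp_of_eq (c.q_an x hx) rfl
  · intro x hx hS
    obtain ⟨h1, _, h3⟩ := c.q_mem x hx hS
    exact ⟨chB_swap_ball h1, fun h => absurd h (by decide), by rw [Prod.swap_swap]; exact h3⟩
  · intro p hp _
    have := c.u_eq p.swap (chB_swap_ball hp) (fun h => (hinf h).elim)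
    rw [hb] at this
    rw [this]
    simp only [Prod.fst_swap, Prod.snd_swap, pow_one]
    ring
  · intro p hp
    exact ((c.w_an p.swap (chB_swap_ball hp)).comp_of_eq (chB_swap_an p) rfl).neg
  · intro p hp _
    have hf := c.form p.swap (chB_swap_ball hp) (fun h => (hinf h).elim)
    rw [hb] at hf
    have ha := c.s_an p.swap (chB_swap_ball hp) (fun h => (hinf h).elim)
    rw [chB_swap_comp c.s p (0, 1) ha, chB_swap_comp c.s p (1, 0) ha]
    simp only [Prod.fst_swap, Prod.snd_swap, pow_one, Nat.cast_one, mul_one, Prod.swap_prod_mk] at hf ⊢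
    rw [neg_smul, ← hf, neg_sub]
  · intro p hp _ hne
    refine c.nv_ne p.swap (chB_swap_ball hp) (fun h => (hinf h).elim) (fun _ h0 => hne rfl ?_)
    have := congrArg Prod.swap h0
    rwa [Prod.swap_swap] at this
  · intro ε hε
    obtain ⟨δ, hδ, h⟩ := c.close ε hε
    refine ⟨δ, hδ, fun p hp _ x hx hu hn => ?_⟩
    have hp' : p.swap ∈ closedBall (0 : ℂ × ℂ) 1 := by
      rw [mem_closedBall_zero_iff] at hp ⊢
      rwa [chB_swap_norm]
    obtain ⟨h1, h2⟩ := h p.swap hp' (fun h => (hinf h).elim) x hx hu hn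
    refine ⟨h1, ?_⟩
    have h3 : (c.q x).swap - p = (c.q x - p.swap).swap := rfl
    rw [h3, chB_swap_norm]
    exact h2

theorem tr_an (c d : Ch S u nv) {x : ℂ × ℂ} (hx : x ∈ ball (0 : ℂ × ℂ) 3) (hf : d.inf = true → x.2 ≠ 0) (hD : d.s x ∈ c.D) :
    AnalyticAt ℂ (fun y => c.q (d.s y)) x ∧ c.q (d.s x) ∈ ball (0 : ℂ × ℂ) 3 ∧ (c.inf = true → (c.q (d.s x)).2 ≠ 0) ∧
      c.s (c.q (d.s x)) = d.s x ∧ c.k * (c.q (d.s x)).1 * (c.q (d.s x)).2 ^ c.b = d.k * x.1 * x.2 ^ d.b := by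
  obtain ⟨h1, h2, h3⟩ := c.q_mem (d.s x) hD (d.s_mem x hx hf).1
  refine ⟨(c.q_an (d.s x) hD).comp_of_eq (d.s_an x hx hf) rfl, h1, h2, h3, ?_⟩
  rw [← c.u_eq (c.q (d.s x)) h1 h2, h3, d.u_eq x hx hf]

private theorem chB_U (k : ℂ) (b : ℕ) (hb : b ≤ 1) (p : ℂ × ℂ) :
    HasFDerivAt (fun q : ℂ × ℂ => k * q.1 * q.2 ^ b)
      ((k * p.2 ^ b) • ContinuousLinearMap.fst ℂ ℂ ℂ + (k * b * p.1) • ContinuousLinearMap.snd ℂ ℂ ℂ) p := by
  have h1 : HasFDerivAt (fun q : ℂ × ℂ => q.1) (ContinuousLinearMap.fst ℂ ℂ ℂ) p := hasFDerivAt_fst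
  have h2 : HasFDerivAt (fun q : ℂ × ℂ => q.2) (ContinuousLinearMap.snd ℂ ℂ ℂ) p := hasFDerivAt_snd
  rcases Nat.le_one_iff_eq_zero_or_eq_one.1 hb with rfl | rfl
  · have h3 := h1.const_mul k
    refine (h3.congr_fderiv ?_).congr_of_eventuallyEq (Eventually.of_forall fun q => by simp)
    ext <;> simp
  · have h3 := (h1.const_mul k).mul h2
    refine (h3.congr_fderiv ?_).congr_of_eventuallyEq (Eventually.of_forall fun q => by simp)
    ext <;> simp [mul_comm]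

private theorem chB_ev (c d : Ch S u nv) {x : ℂ × ℂ} (hx : x ∈ ball (0 : ℂ × ℂ) 3) (hf : d.inf = true → x.2 ≠ 0) (hD : d.s x ∈ c.D) :
    ∀ᶠ y in 𝓝 x, y ∈ ball (0 : ℂ × ℂ) 3 ∧ (d.inf = true → y.2 ≠ 0) ∧ d.s y ∈ c.D := by
  have h1 : ∀ᶠ y in 𝓝 x, y ∈ ball (0 : ℂ × ℂ) 3 := isOpen_ball.mem_nhds hx
  have h2 : ∀ᶠ y in 𝓝 x, d.inf = true → y.2 ≠ 0 := by
    by_cases h : d.inf = true
    · have h3 : ∀ᶠ y : ℂ × ℂ in 𝓝 x, y.2 ≠ 0 := (continuous_snd.continuousAt (x := x)).eventually_ne (hf h)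
      exact h3.mono fun y hy _ => hy
    · exact Eventually.of_forall fun y h' => absurd h' h
  have h3 : ∀ᶠ y in 𝓝 x, d.s y ∈ c.D := (d.s_an x hx hf).continuousAt.eventually_mem (c.isOpen_D.mem_nhds hD)
  filter_upwards [h1, h2, h3] with y a1 a2 a3
  exact ⟨a1, a2, a3⟩

private theorem chB_lin {V : Type*} [AddCommGroup V] [Module ℂ V] (A : ℂ × ℂ →ₗ[ℂ] V) (v : ℂ × ℂ) :
    A v = v.1 • A (1, 0) + v.2 • A (0, 1) := by
  rw [← map_smul, ← map_smul, ← map_add]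
  congr 1
  ext <;> simp

theorem tr_w (c d : Ch S u nv) {x : ℂ × ℂ} (hx : x ∈ ball (0 : ℂ × ℂ) 3) (hf : d.inf = true → x.2 ≠ 0) (hD : d.s x ∈ c.D)
    (hne : d.b = 1 → x ≠ 0) : d.w x = c.w (c.q (d.s x)) * jac (fun y => c.q (d.s y)) x := by
  obtain ⟨hτ, hτb, hτf, hτs, _⟩ := tr_an c d hx hf hD
  set τ : ℂ × ℂ → ℂ × ℂ := fun y => c.q (d.s y) with hτdef
  have hev := chB_ev c d hx hf hD
  have e1 : (fun y => c.s (τ y)) =ᶠ[𝓝 x] d.s := hev.mono fun y hy => (tr_an c d hy.1 hy.2.1 hy.2.2).2.2.2.1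
  have e2 : (fun y => c.k * (τ y).1 * (τ y).2 ^ c.b) =ᶠ[𝓝 x] fun y => d.k * y.1 * y.2 ^ d.b :=
    hev.mono fun y hy => (tr_an c d hy.1 hy.2.1 hy.2.2).2.2.2.2
  have hT : HasFDerivAt τ (fderiv ℂ τ x) x := hτ.differentiableAt.hasFDerivAt
  have hA : HasFDerivAt c.s (fderiv ℂ c.s (τ x)) (τ x) := (c.s_an (τ x) hτb hτf).differentiableAt.hasFDerivAt
  have d1 : fderiv ℂ d.s x = (fderiv ℂ c.s (τ x)).comp (fderiv ℂ τ x) := by
    rw [← e1.fderiv_eq]
    exact (HasFDerivAt.comp (g := c.s) (f := τ) x hA hT).fderiv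
  have hU := chB_U c.k c.b c.b_le (τ x)
  have hV := chB_U d.k d.b d.b_le x
  have d2 := (HasFDerivAt.comp (g := fun q : ℂ × ℂ => c.k * q.1 * q.2 ^ c.b) (f := τ) x hU hT)
  have d3 : HasFDerivAt (fun y : ℂ × ℂ => d.k * y.1 * y.2 ^ d.b)
      ((((c.k * (τ x).2 ^ c.b) • ContinuousLinearMap.fst ℂ ℂ ℂ + (c.k * c.b * (τ x).1) • ContinuousLinearMap.snd ℂ ℂ ℂ)).comp
        (fderiv ℂ τ x)) x := d2.congr_of_eventuallyEq e2.symm
  have d4 := hV.unique d3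
  have f1 := congrArg (fun L : ℂ × ℂ →L[ℂ] ℂ => L (1, 0)) d4
  have f2 := congrArg (fun L : ℂ × ℂ →L[ℂ] ℂ => L (0, 1)) d4
  simp only [_root_.add_apply, _root_.smul_apply, ContinuousLinearMap.coe_fst', ContinuousLinearMap.coe_snd',
    ContinuousLinearMap.comp_apply, smul_eq_mul, mul_one, mul_zero, add_zero, zero_add] at f1 f2
  have fc := c.form (τ x) hτb hτf
  have fd := d.form x hx hf
  rw [d1] at fd
  simp only [ContinuousLinearMap.comp_apply] at fd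
  have l1 := chB_lin ((fderiv ℂ c.s (τ x)) : ℂ × ℂ →ₗ[ℂ] EN N) (fderiv ℂ τ x (1, 0))
  have l2 := chB_lin ((fderiv ℂ c.s (τ x)) : ℂ × ℂ →ₗ[ℂ] EN N) (fderiv ℂ τ x (0, 1))
  simp only [ContinuousLinearMap.coe_coe] at l1 l2
  rw [l1, l2, f1, f2] at fd
  have hs : c.s (τ x) = d.s x := hτs
  rw [hs] at fc
  have key : d.w x • nv (d.s x) = (c.w (τ x) * jac τ x) • nv (d.s x) := by
    rw [← fd, mul_comm (c.w (τ x)), mul_smul, ← fc]
    unfold jac
    module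
  exact smul_left_injective ℂ (d.nv_ne x hx hf hne) key

end Pool.Agent.EG.TM
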