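import Pool.Agent.EG.TM.Defs

/-!
# EG TM Close: points near a chart

`close_of_compact`: the set `A = s '' closedBall 0 1` is compact (`s` is continuous on `ball 0 3`) and contained in the open set `D`, `‖s p‖ ≤ B` for `p ∈ closedBall 0 1`.  Suppose the statement is false for `ε`: there are
`p n ∈ closedBall 0 1`, `x n` with `‖x n - s (p n)‖ ≤ ‖s (p n)‖ / (n + 1) ≤ B / (n + 1)` and (`x n ∉ D` or `ε < ‖q (x n) - p n‖`).  A subsequence of `p n` converges to `p ∈ closedBall 0 1`, so `s (p n) → s p ∈ D`, `x n → s p`, `x n ∈ D` for large `n`,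
and `q (x n) → q (s p) = p`: contradiction.

-/

set_option autoImplicit false

open Topology Filter Metric Set

namespace Pool.Agent.EG.TM

open Pool.Agent.H36.BP (EN)

variable {N : ℕ}

theorem close_of_compact {s : ℂ × ℂ → EN N} {q : EN N → ℂ × ℂ} {D : Set (EN N)} (hD : IsOpen D) (hs : ContinuousOn s (ball (0 : ℂ × ℂ) 3))
    (hm : ∀ p ∈ ball (0 : ℂ × ℂ) 3, s p ∈ D ∧ q (s p) = p) (hq : ContinuousOn q D) {ε : ℝ} (hε : 0 < ε) :
    ∃ δ : ℝ, 0 < δ ∧ ∀ p ∈ closedBall (0 : ℂ × ℂ) 1, ∀ x : EN N, ‖x - s p‖ ≤ δ * ‖s p‖ → x ∈ D ∧ ‖q x - p‖ ≤ ε := by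
  refine (isCompact_closedBall (0 : ℂ × ℂ) 1).induction_on
    (p := fun t => ∃ δ : ℝ, 0 < δ ∧ ∀ p ∈ t, ∀ x : EN N, ‖x - s p‖ ≤ δ * ‖s p‖ → x ∈ D ∧ ‖q x - p‖ ≤ ε) ?_ ?_ ?_ ?_
  · exact ⟨1, one_pos, fun p hp => absurd hp (Set.notMem_empty p)⟩
  · rintro t t' htt ⟨δ, hδ, h⟩
    exact ⟨δ, hδ, fun p hp => h p (htt hp)⟩
  · rintro t t' ⟨δ, hδ, h⟩ ⟨δ', hδ', h'⟩
    refine ⟨min δ δ', lt_min hδ hδ', ?_⟩
    rintro p (hp | hp) x hx
    · exact h p hp x (hx.trans (mul_le_mul_of_nonneg_right (min_le_left _ _) (norm_nonneg _)))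
    · exact h' p hp x (hx.trans (mul_le_mul_of_nonneg_right (min_le_right _ _) (norm_nonneg _)))
  · intro a ha
    have haB : a ∈ ball (0 : ℂ × ℂ) 3 := closedBall_subset_ball (by norm_num) ha
    obtain ⟨haD, haq⟩ := hm a haB
    have hqa : ContinuousAt q (s a) := hq.continuousAt (hD.mem_nhds haD)
    have hsa : ContinuousAt s a := hs.continuousAt (isOpen_ball.mem_nhds haB)
    have h1 : ∀ᶠ x in 𝓝 (s a), x ∈ D ∧ dist (q x) (q (s a)) < ε / 2 :=
      Filter.Eventually.and (hD.mem_nhds haD) (hqa.eventually_mem (ball_mem_nhds _ (half_pos hε)))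
    obtain ⟨r, hr, hball⟩ := Metric.eventually_nhds_iff.1 h1
    have h2 : ∀ᶠ p in 𝓝 a, dist (s p) (s a) < r / 2 := hsa.eventually_mem (ball_mem_nhds _ (half_pos hr))
    have h3 : ∀ᶠ p in 𝓝 a, dist p a < ε / 2 := ball_mem_nhds _ (half_pos hε)
    have hB : 0 < ‖s a‖ + r := by positivity
    refine ⟨{p | dist (s p) (s a) < r / 2 ∧ dist p a < ε / 2}, mem_nhdsWithin_of_mem_nhds (h2.and h3),
      r / 2 / (‖s a‖ + r), by positivity, ?_⟩
    rintro p ⟨hp1, hp2⟩ x hx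
    have h4 : ‖s p‖ ≤ ‖s a‖ + r := by
      have h5 : ‖s p‖ ≤ ‖s p - s a‖ + ‖s a‖ := by
        have := norm_add_le (s p - s a) (s a)
        rwa [sub_add_cancel] at this
      rw [← dist_eq_norm] at h5
      linarith
    have h5 : dist x (s p) ≤ r / 2 := by
      rw [dist_eq_norm]
      refine hx.trans ?_
      rw [div_mul_eq_mul_div, div_le_iff₀ hB]
      exact mul_le_mul_of_nonneg_left h4 (half_pos hr).le
    have h6 : dist x (s a) < r := by
      have := dist_triangle x (s p) (s a)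
      linarith
    obtain ⟨h7, h8⟩ := hball h6
    rw [haq] at h8
    refine ⟨h7, ?_⟩
    have h9 := dist_triangle (q x) a p
    rw [dist_comm a p] at h9
    rw [← dist_eq_norm]
    linarith

end Pool.Agent.EG.TM
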