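import Pool.Agent.EG.TM.InfG
import Pool.Agent.EG.TM.Close
import Pool.Agent.H62.EF.PrA

/-!
# EG TM ChI: charts at the points at infinity

`b₀ ≠ 0`, `OnV Q b₀`, `F₁ b₀ = F₂ b₀ = 0`.  `nv Q b₀ = a • b₀`, `a ≠ 0` (`nv_base`).  Choose a coordinate `i` with `b₀ i ≠ 0` and `ℓ = (b₀ i)⁻¹ • Pi.single i 1`, so `ℓ b₀ = 1` and `dt ℓ (nv Q b₀) = a ≠ 0`.
`Ψ` from `Phi_inv`, `Phi Q ℓ b₀ = pnt 1 0 0`, `Ψ (pnt 1 0 0) = b₀`.  Let `V` be an open neighbourhood of `b₀` such that for `x ∈ V`: `Ψ (Phi Q ℓ x) = x`, `dt ℓ (nv Q x) ≠ 0`, `‖b₀‖ / 2 ≤ ‖x‖ ≤ 2 ‖b₀‖`, `ℓ x ≠ 0` and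
`‖pr x - pr b₀‖ < ε` (`continuousAt_pr`).

`chart_inf` (part 2): `r` with moreover `‖b₀‖ / (6 r) > R`.  The chart: `k = r`, `b = 0`, `inf = true`, `s p = (r p.2)⁻¹ • ζ p`, `q x = (F₁ x / r, 1 / (r ℓ x))`, `D = {x | ℓ x ≠ 0 ∧ (ℓ x)⁻¹ • x ∈ V ∧ ‖F₁ x / r‖ < 3 ∧ ‖1 / (r ℓ x)‖ < 3}` (open),
`w p = - r ^ 2 (r p.2) ^ (K - 2) / dt ℓ (nv Q (ζ p))`, `K = ∑ (e j - 1) ≥ 2`.
`s_mem`: `F_j (s p) = (r p.2) ^ (- e j) F_j (ζ p)` (`ev_smul`): `F₂ (s p) = 1`, `F₁ (s p) = r p.1`, `OnV`; `ℓ (s p) = 1 / (r p.2)`, `(ℓ (s p))⁻¹ • s p = ζ p ∈ V`, `q (s p) = p`.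
`q_mem`: `x ∈ D ∩ Sf Q`, `p = q x`: `r p.2 = 1 / ℓ x`, `r p.1 = F₁ x`; `y = (ℓ x)⁻¹ • x ∈ V`, `Phi Q ℓ y = pnt 1 (F₁ x / (ℓ x) ^ e 0) (1 / (ℓ x) ^ e 1)` (`Phi_eq_pnt`, `ev_smul`) `= pnt 1 (r p.1 (r p.2) ^ e 0) ((r p.2) ^ e 1)`, so
`ζ p = Ψ (Phi Q ℓ y) = y` and `s p = ℓ x • y = x`.
`form` (`b = 0`): `v = fderiv s p (0, 1)`: `Q j (s p)` does not depend on `p.2`, so `dt (grad (Q j) (s p)) v = 0` (`hasFDerivAt_ev`), and `ℓ (s p) = 1 / (r p.2)` gives `dt ℓ v = - 1 / (r p.2 ^ 2)`.  `tangent_eq`: `v = (dt ℓ v / dt ℓ (nv Q (s p))) • nv Q (s p)`,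
`nv Q (s p) = (r p.2) ^ (- K) • nv Q (ζ p)` (`nv_hom`).  `k • v = w p • nv Q (s p)` because `r * (- 1 / (r p.2 ^ 2)) * (r p.2) ^ K / dt ℓ (nv Q (ζ p)) = - r ^ 2 (r p.2) ^ (K - 2) / dt ℓ (nv Q (ζ p))`.
`nv_ne`: `dt ℓ (nv Q (ζ p)) ≠ 0`.  `big`: `‖s p‖ ‖p.2‖ = ‖ζ p‖ / r ≥ ‖b₀‖ / (2 r)`.  On `D`: `‖x‖ = ‖ℓ x‖ ‖(ℓ x)⁻¹ • x‖ ≥ (1 / (3 r)) (‖b₀‖ / 2) > R`, `pr x = pr ((ℓ x)⁻¹ • x)` (`pr_smul`), so `‖pr x - pr b₀‖ < ε`.
`close`: `A = ζ '' closedBall 0 1` is compact and contained in the open set `V`.  Let `x ∈ Sf Q`, `F₁ x = F₁ (s p)`, `‖x - s p‖ ≤ δ ‖s p‖`.  `s p = ℓ (s p) • ζ p`, so `‖s p‖ ≤ 2 ‖b₀‖ ‖ℓ (s p)‖` and `‖ℓ x - ℓ (s p)‖ ≤ C δ ‖ℓ (s p)‖`, so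
`‖(q x).2 - p.2‖ ≤ 2 C δ ‖p.2‖`, `(q x).1 = F₁ x / r = p.1`, and `‖(ℓ x)⁻¹ • x - ζ p‖ ≤ C' δ`, so `(ℓ x)⁻¹ • x ∈ V` for small `δ` (a `δ₀`-neighbourhood of the compact set `A` is contained in `V`).  So `x ∈ D`.
The covering: `x ∈ Sf Q`, `R' < ‖x‖`, `‖F₁ x‖ < ρ`, `‖pr x - pr b₀‖ < ε'`: if `ε'` is small then `x = c • y` with `y` near `b₀` (`near_of_pr` or `nm_close`), so `ℓ x ≠ 0`, `(ℓ x)⁻¹ • x ∈ V`; `‖F₁ x / r‖ < 3/8` if `ρ ≤ 3 r / 8`;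
`‖1 / (r ℓ x)‖ = ‖(ℓ x)⁻¹ • x‖ / (r ‖x‖) ≤ 2 ‖b₀‖ / (r R') < 7/8` if `R'` is large.  So `x ∈ D` and `CenS (q x)`.
-/

set_option autoImplicit false

open Topology Filter Metric Set

namespace Pool.Agent.EG.TM

open Pool.Agent.TC (ev grad OnV nv cross dt)
open Pool.Agent.H36.BP (EN)
open Pool.Agent.H62.EF (pr)

variable {n : ℕ} {Q : Fin (n + 2) → MvPolynomial (Fin (n + 3)) ℂ} {e : Fin (n + 2) → ℕ}

private theorem ChI_dt (ℓ : Fin (n + 3) → ℂ) :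
    ∃ L : EN (n + 2) →L[ℂ] ℂ, ∀ x : EN (n + 2), L x = dt ℓ (fun i => x i) := by
  refine ⟨∑ i, ℓ i • (EuclideanSpace.proj (𝕜 := ℂ) i : EN (n + 2) →L[ℂ] ℂ), fun x => ?_⟩
  simp [dt]

/-- The data of a chart at infinity. -/
private structure ChI_G (Q : Fin (n + 2) → MvPolynomial (Fin (n + 3)) ℂ) (e : Fin (n + 2) → ℕ) (L : EN (n + 2) →L[ℂ] ℂ) (r : ℝ)
    (ζ : ℂ × ℂ → EN (n + 2)) (V' : Set (EN (n + 2))) (B : ℝ) : Prop where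
  r0 : 0 < r
  op : IsOpen V'
  nz : ∀ x ∈ V', L (nv Q x) ≠ 0
  an : ∀ p ∈ ball (0 : ℂ × ℂ) 3, AnalyticAt ℂ ζ p
  mem : ∀ p ∈ ball (0 : ℂ × ℂ) 3, ζ p ∈ V'
  L1 : ∀ p ∈ ball (0 : ℂ × ℂ) 3, L (ζ p) = 1
  F1 : ∀ p ∈ ball (0 : ℂ × ℂ) 3, ev (Q 0) (ζ p) = r * p.1 * (r * p.2) ^ e 0
  F2 : ∀ p ∈ ball (0 : ℂ × ℂ) 3, ev (Q 1) (ζ p) = (r * p.2) ^ e 1
  on : ∀ p ∈ ball (0 : ℂ × ℂ) 3, OnV Q (ζ p)
  uniq : ∀ x ∈ V', ∀ p ∈ ball (0 : ℂ × ℂ) 3, L x = 1 → ev (Q 0) x = r * p.1 * (r * p.2) ^ e 0 → ev (Q 1) x = (r * p.2) ^ e 1 → OnV Q x → x = ζ p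
  nb : ∀ x ∈ V', B / 2 < ‖x‖ ∧ ‖x‖ < 2 * B

private noncomputable def ChI_s (r : ℝ) (ζ : ℂ × ℂ → EN (n + 2)) (p : ℂ × ℂ) : EN (n + 2) := ((r : ℂ) * p.2)⁻¹ • ζ p

private noncomputable def ChI_q (Q : Fin (n + 2) → MvPolynomial (Fin (n + 3)) ℂ) (L : EN (n + 2) →L[ℂ] ℂ) (r : ℝ) (x : EN (n + 2)) : ℂ × ℂ :=
  (ev (Q 0) x / r, 1 / (r * L x))

private def ChI_D (Q : Fin (n + 2) → MvPolynomial (Fin (n + 3)) ℂ) (L : EN (n + 2) →L[ℂ] ℂ) (r : ℝ) (V' : Set (EN (n + 2))) : Set (EN (n + 2)) :=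
  {x | L x ≠ 0 ∧ (L x)⁻¹ • x ∈ V' ∧ ‖(ChI_q Q L r x).1‖ < 3 ∧ ‖(ChI_q Q L r x).2‖ < 3}

private noncomputable def ChI_w (Q : Fin (n + 2) → MvPolynomial (Fin (n + 3)) ℂ) (e : Fin (n + 2) → ℕ) (L : EN (n + 2) →L[ℂ] ℂ) (r : ℝ)
    (ζ : ℂ × ℂ → EN (n + 2)) (p : ℂ × ℂ) : ℂ :=
  -(r : ℂ) ^ 2 * ((r : ℂ) * p.2) ^ (∑ j, (e j - 1) - 2) / L (nv Q (ζ p))

private theorem ChI_ball {p : ℂ × ℂ} {R : ℝ} : p ∈ ball (0 : ℂ × ℂ) R ↔ ‖p.1‖ < R ∧ ‖p.2‖ < R := by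
  rw [mem_ball_zero_iff, Prod.norm_def, max_lt_iff]

private theorem ChI_onV (h : LS Q e) {x : EN (n + 2)} (hx : OnV Q x) (c : ℂ) : OnV Q (c • x) := by
  intro j hj
  rw [Pool.Agent.TC.ev_smul (h.hom j), hx j hj, mul_zero]

section

variable {L : EN (n + 2) →L[ℂ] ℂ} {r : ℝ} {ζ : ℂ × ℂ → EN (n + 2)} {V' : Set (EN (n + 2))} {B : ℝ}

private theorem ChI_vals (h : LS Q e) (G : ChI_G Q e L r ζ V' B) {p : ℂ × ℂ} (hp : p ∈ ball (0 : ℂ × ℂ) 3) (hp2 : p.2 ≠ 0) :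
    L (ChI_s r ζ p) = ((r : ℂ) * p.2)⁻¹ ∧ ev (Q 0) (ChI_s r ζ p) = r * p.1 ∧ ev (Q 1) (ChI_s r ζ p) = 1 ∧ OnV Q (ChI_s r ζ p) := by
  have hr : (r : ℂ) ≠ 0 := by exact_mod_cast G.r0.ne'
  have hrp : (r : ℂ) * p.2 ≠ 0 := mul_ne_zero hr hp2
  refine ⟨?_, ?_, ?_, ChI_onV h (G.on p hp) _⟩
  · rw [ChI_s, map_smul, G.L1 p hp, smul_eq_mul, mul_one]
  · rw [ChI_s, Pool.Agent.TC.ev_smul (h.hom 0), G.F1 p hp, inv_pow, mul_comm, mul_assoc, mul_inv_cancel₀ (pow_ne_zero _ hrp), mul_one]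
  · rw [ChI_s, Pool.Agent.TC.ev_smul (h.hom 1), G.F2 p hp, inv_pow, inv_mul_cancel₀ (pow_ne_zero _ hrp)]

private theorem ChI_qs (h : LS Q e) (G : ChI_G Q e L r ζ V' B) {p : ℂ × ℂ} (hp : p ∈ ball (0 : ℂ × ℂ) 3) (hp2 : p.2 ≠ 0) :
    ChI_q Q L r (ChI_s r ζ p) = p := by
  have hr : (r : ℂ) ≠ 0 := by exact_mod_cast G.r0.ne'
  obtain ⟨h1, h2, -, -⟩ := ChI_vals h G hp hp2
  refine Prod.ext ?_ ?_
  · simp only [ChI_q]
    rw [h2]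
    field_simp
  · simp only [ChI_q]
    rw [h1]
    field_simp

private theorem ChI_mem (h : LS Q e) (G : ChI_G Q e L r ζ V' B) {p : ℂ × ℂ} (hp : p ∈ ball (0 : ℂ × ℂ) 3) (hp2 : p.2 ≠ 0) :
    ChI_s r ζ p ∈ Sf Q ∧ ChI_s r ζ p ∈ ChI_D Q L r V' ∧ ChI_q Q L r (ChI_s r ζ p) = p := by
  have hr : (r : ℂ) ≠ 0 := by exact_mod_cast G.r0.ne'
  have hrp : (r : ℂ) * p.2 ≠ 0 := mul_ne_zero hr hp2
  obtain ⟨h1, h2, h3, h4⟩ := ChI_vals h G hp hp2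
  have h5 := ChI_qs h G hp hp2
  refine ⟨⟨h4, h3⟩, ⟨?_, ?_, ?_, ?_⟩, h5⟩
  · rw [h1]
    exact inv_ne_zero hrp
  · rw [h1, inv_inv, ChI_s, smul_smul, mul_inv_cancel₀ hrp, one_smul]
    exact G.mem p hp
  · rw [h5]
    exact (ChI_ball.1 hp).1
  · rw [h5]
    exact (ChI_ball.1 hp).2

private theorem ChI_q_mem (h : LS Q e) (G : ChI_G Q e L r ζ V' B) {x : EN (n + 2)} (hx : x ∈ ChI_D Q L r V') (hS : x ∈ Sf Q) :
    ChI_q Q L r x ∈ ball (0 : ℂ × ℂ) 3 ∧ (ChI_q Q L r x).2 ≠ 0 ∧ ChI_s r ζ (ChI_q Q L r x) = x := by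
  have hr : (r : ℂ) ≠ 0 := by exact_mod_cast G.r0.ne'
  obtain ⟨h1, h2, h3, h4⟩ := hx
  have hb : ChI_q Q L r x ∈ ball (0 : ℂ × ℂ) 3 := ChI_ball.2 ⟨h3, h4⟩
  have e2 : (r : ℂ) * (ChI_q Q L r x).2 = (L x)⁻¹ := by
    simp only [ChI_q]
    field_simp
  have e1 : (r : ℂ) * (ChI_q Q L r x).1 = ev (Q 0) x := by
    simp only [ChI_q]
    field_simp
  have hne : (ChI_q Q L r x).2 ≠ 0 := by
    intro h0
    rw [h0, mul_zero] at e2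
    exact inv_ne_zero h1 e2.symm
  refine ⟨hb, hne, ?_⟩
  have h5 : (L x)⁻¹ • x = ζ (ChI_q Q L r x) := by
    refine G.uniq _ h2 _ hb ?_ ?_ ?_ (ChI_onV h hS.1 _)
    · rw [map_smul, smul_eq_mul, inv_mul_cancel₀ h1]
    · rw [Pool.Agent.TC.ev_smul (h.hom 0), e2, e1, mul_comm]
    · rw [Pool.Agent.TC.ev_smul (h.hom 1), e2, hS.2, mul_one]
  rw [ChI_s, e2, inv_inv, ← h5, smul_smul, mul_inv_cancel₀ h1, one_smul]

private theorem ChI_open (G : ChI_G Q e L r ζ V' B) : IsOpen (ChI_D Q L r V') := by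
  have hr : (r : ℂ) ≠ 0 := by exact_mod_cast G.r0.ne'
  have h1 : IsOpen {x : EN (n + 2) | L x ≠ 0} := isOpen_ne_fun L.continuous continuous_const
  have h2 : ContinuousOn (fun x : EN (n + 2) => (L x)⁻¹ • x) {x : EN (n + 2) | L x ≠ 0} :=
    (L.continuous.continuousOn.inv₀ fun x hx => hx).smul continuousOn_id
  have h3 : ContinuousOn (fun x : EN (n + 2) => ‖(ChI_q Q L r x).1‖) {x : EN (n + 2) | L x ≠ 0} := by
    simp only [ChI_q]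
    exact ((Pool.Agent.TC.continuous_ev (Q 0)).div_const _).norm.continuousOn
  have h4 : ContinuousOn (fun x : EN (n + 2) => ‖(ChI_q Q L r x).2‖) {x : EN (n + 2) | L x ≠ 0} := by
    simp only [ChI_q]
    exact (continuousOn_const.div (continuousOn_const.mul L.continuous.continuousOn) fun x hx => mul_ne_zero hr hx).norm
  have e1 : ChI_D Q L r V' = ({x : EN (n + 2) | L x ≠ 0} ∩ (fun x : EN (n + 2) => (L x)⁻¹ • x) ⁻¹' V') ∩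
      (({x : EN (n + 2) | L x ≠ 0} ∩ (fun x : EN (n + 2) => ‖(ChI_q Q L r x).1‖) ⁻¹' Iio 3) ∩
      ({x : EN (n + 2) | L x ≠ 0} ∩ (fun x : EN (n + 2) => ‖(ChI_q Q L r x).2‖) ⁻¹' Iio 3)) := by
    ext x
    constructor
    · rintro ⟨a, b, c, d⟩
      exact ⟨⟨a, b⟩, ⟨a, c⟩, ⟨a, d⟩⟩
    · rintro ⟨⟨a, b⟩, ⟨_, c⟩, ⟨_, d⟩⟩
      exact ⟨a, b, c, d⟩
  rw [e1]
  exact (h2.isOpen_inter_preimage h1 G.op).inter
    ((h3.isOpen_inter_preimage h1 isOpen_Iio).inter (h4.isOpen_inter_preimage h1 isOpen_Iio))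

private theorem ChI_s_an (G : ChI_G Q e L r ζ V' B) {p : ℂ × ℂ} (hp : p ∈ ball (0 : ℂ × ℂ) 3) (hp2 : p.2 ≠ 0) :
    AnalyticAt ℂ (ChI_s r ζ) p := by
  have hr : (r : ℂ) ≠ 0 := by exact_mod_cast G.r0.ne'
  have h1 : AnalyticAt ℂ (fun p : ℂ × ℂ => (r : ℂ) * p.2) p := analyticAt_const.mul analyticAt_snd
  exact (h1.inv (mul_ne_zero hr hp2)).smul (G.an p hp)

private theorem ChI_q_an (G : ChI_G Q e L r ζ V' B) {x : EN (n + 2)} (hx : L x ≠ 0) : AnalyticAt ℂ (ChI_q Q L r) x := by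
  have hr : (r : ℂ) ≠ 0 := by exact_mod_cast G.r0.ne'
  have h1 : AnalyticAt ℂ (fun x : EN (n + 2) => ev (Q 0) x / (r : ℂ)) x :=
    (Pool.Agent.TC.analyticAt_ev (Q 0) (F := fun x : EN (n + 2) => x) analyticAt_id).div analyticAt_const hr
  have h2 : AnalyticAt ℂ (fun x : EN (n + 2) => (1 : ℂ) / ((r : ℂ) * L x)) x :=
    analyticAt_const.div (analyticAt_const.mul (L.analyticAt x)) (mul_ne_zero hr hx)
  exact h1.prod h2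

private theorem ChI_nv (h : LS Q e) (r : ℝ) (ζ : ℂ × ℂ → EN (n + 2)) (p : ℂ × ℂ) :
    nv Q (ChI_s r ζ p) = (((r : ℂ) * p.2)⁻¹) ^ (∑ j, (e j - 1)) • nv Q (ζ p) := nv_hom h _ _

private theorem ChI_form (h : LS Q e) (G : ChI_G Q e L r ζ V' B) {ℓ : Fin (n + 3) → ℂ} (hL : ∀ x : EN (n + 2), L x = dt ℓ (fun i => x i))
    {p : ℂ × ℂ} (hp : p ∈ ball (0 : ℂ × ℂ) 3) (hp2 : p.2 ≠ 0) :
    (r : ℂ) • fderiv ℂ (ChI_s r ζ) p (0, 1) = ChI_w Q e L r ζ p • nv Q (ChI_s r ζ p) := by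
  have hr : (r : ℂ) ≠ 0 := by exact_mod_cast G.r0.ne'
  have hrp : (r : ℂ) * p.2 ≠ 0 := mul_ne_zero hr hp2
  set v : EN (n + 2) := fderiv ℂ (ChI_s r ζ) p (0, 1) with hv
  -- the curve
  have hc : HasDerivAt (fun t : ℂ => (p.1, t)) ((0 : ℂ), (1 : ℂ)) p.2 := (hasDerivAt_const p.2 p.1).prodMk (hasDerivAt_id p.2)
  have hs : HasDerivAt (fun t : ℂ => ChI_s r ζ (p.1, t)) v p.2 := by
    have h1 : HasFDerivAt (ChI_s r ζ) (fderiv ℂ (ChI_s r ζ) p) (p.1, p.2) := (ChI_s_an G hp hp2).differentiableAt.hasFDerivAt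
    exact h1.comp_hasDerivAt p.2 hc
  have hev : ∀ᶠ t in 𝓝 p.2, (p.1, t) ∈ ball (0 : ℂ × ℂ) 3 ∧ t ≠ 0 := by
    refine (Filter.Eventually.and ?_ (isOpen_ne.mem_nhds hp2))
    have h1 : ContinuousAt (fun t : ℂ => (p.1, t)) p.2 := hc.continuousAt
    exact h1.eventually (isOpen_ball.mem_nhds hp)
  have hgr : ∀ j, dt (grad (Q j) (ChI_s r ζ p)) (fun i => v i) = 0 := by
    intro j
    have h1 := Pool.Agent.TC.hasDerivAt_ev (Q j) hs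
    rw [Pool.Agent.TC.dt_comm]
    have h2 : ∃ c : ℂ, (fun t : ℂ => ev (Q j) (ChI_s r ζ (p.1, t))) =ᶠ[𝓝 p.2] fun _ => c := by
      by_cases hj : 2 ≤ (j : ℕ)
      · exact ⟨0, hev.mono fun t ht => (ChI_vals h G ht.1 ht.2).2.2.2 j hj⟩
      · have : j = 0 ∨ j = 1 := by
          rcases j with ⟨j, hj'⟩
          simp only [Fin.ext_iff, Fin.val_zero, Fin.val_one] at hj ⊢
          omega
        rcases this with rfl | rfl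
        · exact ⟨r * p.1, hev.mono fun t ht => (ChI_vals h G ht.1 ht.2).2.1⟩
        · exact ⟨1, hev.mono fun t ht => (ChI_vals h G ht.1 ht.2).2.2.1⟩
    obtain ⟨c, hc⟩ := h2
    exact h1.unique ((hasDerivAt_const p.2 c).congr_of_eventuallyEq hc)
  have hLv : L v = -(r : ℂ) / ((r : ℂ) * p.2) ^ 2 := by
    have h1 : HasDerivAt (fun t : ℂ => L (ChI_s r ζ (p.1, t))) (L v) p.2 := L.hasFDerivAt.comp_hasDerivAt p.2 hs
    have h2 : HasDerivAt (fun t : ℂ => ((r : ℂ) * t)⁻¹) (-((r : ℂ) * 1) / ((r : ℂ) * p.2) ^ 2) p.2 :=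
      ((hasDerivAt_id p.2).const_mul (r : ℂ)).inv hrp
    rw [mul_one] at h2
    refine h1.unique (h2.congr_of_eventuallyEq ?_)
    exact hev.mono fun t ht => (ChI_vals h G ht.1 ht.2).1
  have hnz := G.nz _ (G.mem p hp)
  have hnv := ChI_nv h r ζ p
  have hnz' : dt ℓ (fun i => nv Q (ChI_s r ζ p) i) ≠ 0 := by
    rw [← hL, hnv, map_smul, smul_eq_mul]
    exact mul_ne_zero (pow_ne_zero _ (inv_ne_zero hrp)) hnz
  have h3 := tangent_eq hnz' hgr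
  rw [← hL, ← hL, hLv] at h3
  rw [h3, smul_smul]
  congr 1
  rw [hnv, map_smul, smul_eq_mul, ChI_w]
  have hK := two_le h
  obtain ⟨K, hK'⟩ := Nat.exists_eq_add_of_le hK
  rw [hK', Nat.add_sub_cancel_left, inv_pow, pow_add]
  field_simp

private theorem ChI_big (G : ChI_G Q e L r ζ V' B) {p : ℂ × ℂ} (hp : p ∈ ball (0 : ℂ × ℂ) 3) (hp2 : p.2 ≠ 0) :
    B / (2 * r) ≤ ‖ChI_s r ζ p‖ * ‖p.2‖ := by
  have hr := G.r0
  have h2 : 0 < ‖p.2‖ := norm_pos_iff.2 hp2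
  have h1 : ‖ChI_s r ζ p‖ * ‖p.2‖ = ‖ζ p‖ / r := by
    rw [ChI_s, norm_smul, norm_inv, norm_mul, Complex.norm_real, Real.norm_of_nonneg hr.le]
    field_simp
  rw [h1, div_mul_eq_div_div]
  exact (div_le_div_iff_of_pos_right hr).2 (G.nb _ (G.mem p hp)).1.le

private theorem ChI_far (G : ChI_G Q e L r ζ V' B) {x : EN (n + 2)} (hx : x ∈ ChI_D Q L r V') (hB : 0 < B) :
    B / (6 * r) < ‖x‖ ∧ pr x = pr ((L x)⁻¹ • x) := by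
  have hr := G.r0
  obtain ⟨h1, h2, h3, h4⟩ := hx
  refine ⟨?_, (Pool.Agent.H62.EF.pr_smul x (inv_ne_zero h1)).symm⟩
  have h5 : 0 < ‖L x‖ := norm_pos_iff.2 h1
  have h6 := (G.nb _ h2).1
  rw [norm_smul, norm_inv] at h6
  simp only [ChI_q] at h4
  rw [norm_div, norm_mul, norm_one, Complex.norm_real, Real.norm_of_nonneg hr.le, div_lt_iff₀ (by positivity)] at h4
  rw [inv_mul_eq_div, lt_div_iff₀ h5] at h6
  rw [div_lt_iff₀ (by positivity)]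
  have h7 : B / 2 * ‖L x‖ * (6 * r) < ‖x‖ * (6 * r) := mul_lt_mul_of_pos_right h6 (by positivity)
  have h8 : B * 1 < B * (3 * (r * ‖L x‖)) := mul_lt_mul_of_pos_left h4 hB
  nlinarith

private theorem ChI_close (h : LS Q e) (G : ChI_G Q e L r ζ V' B) (hB : 0 < B) {ε : ℝ} (hε : 0 < ε) :
    ∃ δ : ℝ, 0 < δ ∧ ∀ p ∈ closedBall (0 : ℂ × ℂ) 1, p.2 ≠ 0 → ∀ x ∈ Sf Q, ev (Q 0) x = ev (Q 0) (ChI_s r ζ p) →
      ‖x - ChI_s r ζ p‖ ≤ δ * ‖ChI_s r ζ p‖ → x ∈ ChI_D Q L r V' ∧ ‖ChI_q Q L r x - p‖ ≤ ε := by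
  have hr := G.r0
  have hrC : (r : ℂ) ≠ 0 := by exact_mod_cast G.r0.ne'
  have hsub : closedBall (0 : ℂ × ℂ) 1 ⊆ ball (0 : ℂ × ℂ) 3 := closedBall_subset_ball (by norm_num)
  have hcpt : IsCompact (ζ '' closedBall (0 : ℂ × ℂ) 1) :=
    (isCompact_closedBall _ _).image_of_continuousOn fun p hp => (G.an p (hsub hp)).continuousAt.continuousWithinAt
  have hAV : ζ '' closedBall (0 : ℂ × ℂ) 1 ⊆ V' := by
    rintro _ ⟨p, hp, rfl⟩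
    exact G.mem p (hsub hp)
  obtain ⟨δ₀, hδ₀, hth⟩ := hcpt.exists_thickening_subset_open G.op hAV
  set C : ℝ := 2 * (‖L‖ + 1) * B with hC
  have hC0 : 0 < C := by positivity
  refine ⟨min (1 / (2 * C)) (min (ε / (2 * C)) (δ₀ / (5 * B * (1 + C)))), by positivity, fun p hp hp2 x hx hu hd => ?_⟩
  set δ : ℝ := min (1 / (2 * C)) (min (ε / (2 * C)) (δ₀ / (5 * B * (1 + C)))) with hδ
  have hδ0 : 0 < δ := by positivity
  have d1 : C * δ ≤ 1 / 2 := by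
    have := min_le_left (1 / (2 * C)) (min (ε / (2 * C)) (δ₀ / (5 * B * (1 + C))))
    rw [← hδ, le_div_iff₀ (by positivity)] at this
    linarith
  have d2 : 2 * (C * δ) ≤ ε := by
    have := (min_le_right (1 / (2 * C)) (min (ε / (2 * C)) (δ₀ / (5 * B * (1 + C))))).trans (min_le_left _ _)
    rw [← hδ, le_div_iff₀ (by positivity)] at this
    linarith
  have d3 : 5 * B * (1 + C) * δ ≤ δ₀ := by
    have := (min_le_right (1 / (2 * C)) (min (ε / (2 * C)) (δ₀ / (5 * B * (1 + C))))).trans (min_le_right _ _)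
    rw [← hδ, le_div_iff₀ (by positivity)] at this
    linarith
  have hpb := hsub hp
  have hpn : ‖p.1‖ ≤ 1 ∧ ‖p.2‖ ≤ 1 := by
    rw [mem_closedBall_zero_iff, Prod.norm_def, max_le_iff] at hp
    exact hp
  obtain ⟨v1, v2, v3, v4⟩ := ChI_vals h G hpb hp2
  have hsp : ChI_s r ζ p = ((r : ℂ) * p.2)⁻¹ • ζ p := rfl
  set s : EN (n + 2) := ChI_s r ζ p with hs
  set l : ℂ := L s with hl
  set m : ℂ := L x with hm
  have hrp : (r : ℂ) * p.2 ≠ 0 := mul_ne_zero hrC hp2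
  have hl0 : l ≠ 0 := by
    rw [v1]
    exact inv_ne_zero hrp
  have hln : 0 < ‖l‖ := norm_pos_iff.2 hl0
  have hζn := G.nb _ (G.mem p hpb)
  have hsn : ‖s‖ ≤ ‖l‖ * (2 * B) := by
    rw [hsp, ← v1, norm_smul]
    exact mul_le_mul_of_nonneg_left hζn.2.le (norm_nonneg _)
  have hml : ‖m - l‖ ≤ C * δ * ‖l‖ := by
    have e1 : m - l = L (x - s) := by rw [map_sub]
    rw [e1]
    calc ‖L (x - s)‖ ≤ ‖L‖ * ‖x - s‖ := L.le_opNorm _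
      _ ≤ (‖L‖ + 1) * (δ * (‖l‖ * (2 * B))) := by
          have := norm_nonneg L
          gcongr
          · linarith
          · exact hd.trans (mul_le_mul_of_nonneg_left hsn hδ0.le)
      _ = C * δ * ‖l‖ := by
          rw [hC]
          ring
  have hmn : ‖l‖ / 2 ≤ ‖m‖ := by
    have e1 : ‖l‖ ≤ ‖m‖ + ‖m - l‖ := by
      have := norm_sub_le m (m - l)
      rw [sub_sub_cancel] at this
      exact this
    nlinarith
  have hm0 : m ≠ 0 := by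
    intro h0
    rw [h0, norm_zero] at hmn
    linarith
  have hmn0 : 0 < ‖m‖ := norm_pos_iff.2 hm0
  have hy : m⁻¹ • x - ζ p = m⁻¹ • (x - s) + (m⁻¹ * (l - m)) • ζ p := by
    have e1 : s = l • ζ p := by rw [hsp, v1]
    rw [smul_sub, e1, smul_smul, mul_sub, inv_mul_cancel₀ hm0, sub_smul, one_smul]
    abel
  have hyn : ‖m⁻¹ • x - ζ p‖ < δ₀ := by
    rw [hy]
    calc ‖m⁻¹ • (x - s) + (m⁻¹ * (l - m)) • ζ p‖ ≤ ‖m‖⁻¹ * ‖x - s‖ + ‖m‖⁻¹ * ‖l - m‖ * ‖ζ p‖ := by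
          refine (norm_add_le _ _).trans (le_of_eq ?_)
          rw [norm_smul, norm_smul, norm_mul, norm_inv]
      _ ≤ ‖m‖⁻¹ * (δ * (‖l‖ * (2 * B))) + ‖m‖⁻¹ * (C * δ * ‖l‖) * (2 * B) := by
          rw [norm_sub_rev l m]
          have := hζn.2.le
          gcongr
          exact hd.trans (mul_le_mul_of_nonneg_left hsn hδ0.le)
      _ = (2 * B * (1 + C) * δ) * (‖l‖ * ‖m‖⁻¹) := by ring
      _ ≤ (2 * B * (1 + C) * δ) * 2 := by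
          refine mul_le_mul_of_nonneg_left ?_ (by positivity)
          rw [← div_eq_mul_inv, div_le_iff₀ hmn0]
          linarith
      _ < 5 * B * (1 + C) * δ := by
          have : 0 < B * (1 + C) * δ := by positivity
          linarith
      _ ≤ δ₀ := d3
  have hyV : m⁻¹ • x ∈ V' := by
    refine hth (mem_thickening_iff.2 ⟨ζ p, mem_image_of_mem ζ hp, ?_⟩)
    rw [dist_eq_norm]
    exact hyn
  have q1 : (ChI_q Q L r x).1 = p.1 := by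
    simp only [ChI_q]
    rw [hu, v2]
    field_simp
  have q2 : (ChI_q Q L r x).2 - p.2 = p.2 * ((l - m) / m) := by
    simp only [ChI_q]
    rw [← hm]
    have e1 : p.2 = 1 / ((r : ℂ) * l) := by
      rw [v1]
      field_simp
    rw [e1]
    field_simp
  have q3 : ‖(ChI_q Q L r x).2 - p.2‖ ≤ 2 * (C * δ) := by
    rw [q2, norm_mul, norm_div]
    have e1 : ‖l - m‖ / ‖m‖ ≤ 2 * (C * δ) := by
      rw [div_le_iff₀ hmn0, norm_sub_rev]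
      have : C * δ * ‖l‖ ≤ C * δ * (2 * ‖m‖) := mul_le_mul_of_nonneg_left (by linarith) (by positivity)
      linarith
    have e2 : 0 ≤ ‖l - m‖ / ‖m‖ := by positivity
    calc ‖p.2‖ * (‖l - m‖ / ‖m‖) ≤ 1 * (‖l - m‖ / ‖m‖) := mul_le_mul_of_nonneg_right hpn.2 e2
      _ ≤ _ := by linarith
  refine ⟨⟨hm0, hyV, ?_, ?_⟩, ?_⟩
  · rw [q1]
    linarith [hpn.1]
  · have := norm_le_norm_sub_add (ChI_q Q L r x).2 p.2
    linarith [hpn.2]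
  · rw [Prod.norm_def, max_le_iff]
    refine ⟨?_, q3.trans d2⟩
    rw [Prod.fst_sub, q1, sub_self, norm_zero]
    exact hε.le

end

theorem chart_inf (h : LS Q e) {b₀ : EN (n + 2)} (hb : b₀ ≠ 0) (hV : OnV Q b₀) (h0 : ev (Q 0) b₀ = 0) (h1 : ev (Q 1) b₀ = 0) (R : ℝ) {ε : ℝ} (hε : 0 < ε) :
    ∃ c : Ch (Sf Q) (ev (Q 0)) (nv Q), c.inf = true ∧ (∀ x ∈ c.D, R < ‖x‖ ∧ ‖pr x - pr b₀‖ < ε) ∧
      ∃ ε' ρ R' : ℝ, 0 < ε' ∧ 0 < ρ ∧ ∀ x ∈ Sf Q, R' < ‖x‖ → ‖ev (Q 0) x‖ < ρ → ‖pr x - pr b₀‖ < ε' → x ∈ c.D ∧ CenS (c.q x) := by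
  obtain ⟨a, ha, hnv⟩ := nv_base h hb hV h0 h1
  have hB : 0 < ‖b₀‖ := norm_pos_iff.2 hb
  obtain ⟨i, hi⟩ : ∃ i, b₀ i ≠ 0 := by
    by_contra hc
    push Not at hc
    apply hb
    ext i
    exact hc i
  obtain ⟨L, hL⟩ := ChI_dt (n := n) (Pi.single i (b₀ i)⁻¹)
  have hL' : ∀ x : EN (n + 2), L x = (b₀ i)⁻¹ * x i := by
    intro x
    rw [hL, dt]
    rw [Finset.sum_eq_single i]
    · rw [Pi.single_eq_same]
    · intro j _ hj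
      rw [Pi.single_eq_of_ne hj, zero_mul]
    · intro hi
      exact absurd (Finset.mem_univ i) hi
  have hLb : L b₀ = 1 := by rw [hL', inv_mul_cancel₀ hi]
  have hLn : L (nv Q b₀) ≠ 0 := by
    rw [hnv, map_smul, hLb, smul_eq_mul, mul_one]
    exact ha
  have hPhi : Phi Q (Pi.single i (b₀ i)⁻¹) b₀ = pnt n 1 0 0 := Phi_eq_pnt.2 ⟨by rw [← hL, hLb], h0, h1, hV⟩
  have hcnv : Continuous (nv Q) := by
    have e1 : Continuous (fun x : EN (n + 2) => fun j => grad (Q j) x) := continuous_pi fun j => Pool.Agent.TC.continuous_grad (Q j)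
    exact (PiLp.continuous_toLp 2 _).comp (Pool.Agent.TC.continuous_cross.comp e1)
  have hVn : {x : EN (n + 2) | L (nv Q x) ≠ 0 ∧ ‖b₀‖ / 2 < ‖x‖ ∧ ‖x‖ < 2 * ‖b₀‖ ∧ ‖pr x - pr b₀‖ < ε} ∈ 𝓝 b₀ := by
    have e1 : ∀ᶠ x in 𝓝 b₀, L (nv Q x) ≠ 0 := (L.continuous.comp hcnv).continuousAt.eventually_ne hLn
    have e2 : ∀ᶠ x in 𝓝 b₀, ‖b₀‖ / 2 < ‖x‖ := continuous_norm.continuousAt.eventually (lt_mem_nhds (by linarith))
    have e3 : ∀ᶠ x in 𝓝 b₀, ‖x‖ < 2 * ‖b₀‖ := continuous_norm.continuousAt.eventually (gt_mem_nhds (by linarith))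
    have e4 : ∀ᶠ x in 𝓝 b₀, ‖pr x - pr b₀‖ < ε := by
      have := (Pool.Agent.H62.EF.continuousAt_pr hb).eventually (ball_mem_nhds (pr b₀) hε)
      exact this.mono fun x hx => by
        rw [← dist_eq_norm]
        exact hx
    exact e1.and (e2.and (e3.and e4))
  have hr₁ : 0 < ‖b₀‖ / (6 * (|R| + 1)) := by positivity
  obtain ⟨r, ζ, V', hr0, hr1, hVo, hVV, hbV, hζ, hζu⟩ := inf_germ h hPhi (by rw [← hL]; exact hLn) hVn hr₁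
  have hrC : (r : ℂ) ≠ 0 := by exact_mod_cast hr0.ne'
  have G : ChI_G Q e L r ζ V' ‖b₀‖ := by
    have hz : ∀ p ∈ ball (0 : ℂ × ℂ) 3, dt (Pi.single i (b₀ i)⁻¹) (fun i => ζ p i) = 1 ∧ ev (Q 0) (ζ p) = r * p.1 * (r * p.2) ^ e 0 ∧
        ev (Q 1) (ζ p) = (r * p.2) ^ e 1 ∧ OnV Q (ζ p) := fun p hp => Phi_eq_pnt.1 (hζ p hp).2.2
    exact {
      r0 := hr0
      op := hVo
      nz := fun x hx => (hVV hx).1
      an := fun p hp => (hζ p hp).1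
      mem := fun p hp => (hζ p hp).2.1
      L1 := fun p hp => by rw [hL]; exact (hz p hp).1
      F1 := fun p hp => (hz p hp).2.1
      F2 := fun p hp => (hz p hp).2.2.1
      on := fun p hp => (hz p hp).2.2.2
      uniq := fun x hx p hp a1 a2 a3 a4 => hζu x hx p hp (Phi_eq_pnt.2 ⟨by rw [← hL]; exact a1, a2, a3, a4⟩)
      nb := fun x hx => ⟨(hVV hx).2.1, (hVV hx).2.2.1⟩ }
  let c : Ch (Sf Q) (ev (Q 0)) (nv Q) := {
    inf := true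
    b := 0
    s := ChI_s r ζ
    q := ChI_q Q L r
    D := ChI_D Q L r V'
    k := r
    w := ChI_w Q e L r ζ
    b_le := Nat.zero_le 1
    b_inf := fun _ => rfl
    k_ne := hrC
    isOpen_D := ChI_open G
    s_an := fun p hp hp2 => ChI_s_an G hp (hp2 rfl)
    s_mem := fun p hp hp2 => ChI_mem h G hp (hp2 rfl)
    q_an := fun x hx => ChI_q_an G hx.1
    q_mem := fun x hx hS => by
      obtain ⟨a1, a2, a3⟩ := ChI_q_mem h G hx hS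
      exact ⟨a1, fun _ => a2, a3⟩
    u_eq := fun p hp hp2 => by
      rw [(ChI_vals h G hp (hp2 rfl)).2.1, pow_zero, mul_one]
    w_an := fun p hp => by
      have e1 : AnalyticAt ℂ (fun p : ℂ × ℂ => (r : ℂ) * p.2) p := analyticAt_const.mul analyticAt_snd
      have e2 : AnalyticAt ℂ (fun p : ℂ × ℂ => L (nv Q (ζ p))) p := by
        have e3 := analyticAt_dt_nv Q (Pi.single i (b₀ i)⁻¹) (G.an p hp)
        have e4 : (fun p : ℂ × ℂ => L (nv Q (ζ p))) = fun p : ℂ × ℂ => dt (Pi.single i (b₀ i)⁻¹) (fun i => nv Q (ζ p) i) := by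
          funext p
          exact hL _
        rw [e4]
        exact e3
      exact (analyticAt_const.mul (e1.pow _)).div e2 (G.nz _ (G.mem p hp))
    form := fun p hp hp2 => by
      have e1 := ChI_form h G hL hp (hp2 rfl)
      rw [pow_zero, mul_one, Nat.cast_zero, mul_zero, zero_mul, zero_smul, sub_zero]
      exact e1
    nv_ne := fun p hp hp2 _ => by
      rw [ChI_nv h]
      refine smul_ne_zero (pow_ne_zero _ (inv_ne_zero (mul_ne_zero hrC (hp2 rfl)))) ?_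
      intro e1
      have e2 := G.nz _ (G.mem p hp)
      rw [e1, map_zero] at e2
      exact e2 rfl
    big := fun _ => ⟨‖b₀‖ / (2 * r), by positivity, fun p hp hp2 => ChI_big G hp hp2⟩
    close := fun ε' hε' => by
      obtain ⟨δ, hδ, e1⟩ := ChI_close h G hB hε'
      exact ⟨δ, hδ, fun p hp hp2 => e1 p hp (hp2 rfl)⟩ }
  refine ⟨c, rfl, ?_, ?_⟩
  · intro x hx
    have hx' : x ∈ ChI_D Q L r V' := hx
    obtain ⟨a1, a2⟩ := ChI_far G hx' hB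
    refine ⟨lt_trans ?_ a1, ?_⟩
    · rw [lt_div_iff₀ (by positivity)] at hr1 ⊢
      have e1 : R ≤ |R| := le_abs_self R
      nlinarith
    · rw [a2]
      exact (hVV hx'.2.1).2.2.2
  · have hU : {y : EN (n + 2) | L y ≠ 0 ∧ (L y)⁻¹ • y ∈ V'} ∈ 𝓝 b₀ := by
      have e1 : ∀ᶠ y in 𝓝 b₀, L y ≠ 0 := L.continuous.continuousAt.eventually_ne (by rw [hLb]; exact one_ne_zero)
      have e2 : ∀ᶠ y in 𝓝 b₀, (L y)⁻¹ • y ∈ V' := by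
        have e3 : ContinuousAt (fun y : EN (n + 2) => (L y)⁻¹ • y) b₀ :=
          (L.continuous.continuousAt.inv₀ (by rw [hLb]; exact one_ne_zero)).smul continuousAt_id
        refine e3.eventually (hVo.mem_nhds ?_)
        have e4 : (L b₀)⁻¹ • b₀ = b₀ := by rw [hLb, inv_one, one_smul]
        simp only [e4]
        exact hbV
      exact e1.and e2
    obtain ⟨δ, hδ, hnear⟩ := Pool.Agent.H62.EF.near_of_pr hb hU
    refine ⟨δ, 3 * r / 8, 3 * ‖b₀‖ / r, hδ, by positivity, fun x hx hx1 hx2 hx3 => ?_⟩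
    have hxn : 0 < ‖x‖ := lt_trans (by positivity) hx1
    have hx0 : x ≠ 0 := norm_pos_iff.1 hxn
    obtain ⟨c', hc', hcx⟩ := hnear x hx0 (by rw [dist_eq_norm]; exact hx3)
    obtain ⟨b1, b2⟩ := hcx
    rw [map_smul, smul_eq_mul] at b1 b2
    have hLx : L x ≠ 0 := right_ne_zero_of_mul b1
    have hLxn : 0 < ‖L x‖ := norm_pos_iff.2 hLx
    rw [smul_smul, mul_inv, mul_comm c'⁻¹, mul_assoc, inv_mul_cancel₀ hc', mul_one] at b2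
    have c1 : ‖(ChI_q Q L r x).1‖ < 3 / 8 := by
      simp only [ChI_q]
      rw [norm_div, Complex.norm_real, Real.norm_of_nonneg hr0.le, div_lt_iff₀ hr0]
      linarith
    have c2 : ‖(ChI_q Q L r x).2‖ < 7 / 8 := by
      simp only [ChI_q]
      have e1 := (G.nb _ b2).2
      rw [norm_smul, norm_inv, inv_mul_eq_div, div_lt_iff₀ hLxn] at e1
      rw [div_lt_iff₀ hr0] at hx1
      rw [norm_div, norm_mul, norm_one, Complex.norm_real, Real.norm_of_nonneg hr0.le, div_lt_iff₀ (by positivity)]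
      have e2 : 3 * ‖b₀‖ < 2 * ‖b₀‖ * ‖L x‖ * r := hx1.trans (mul_lt_mul_of_pos_right e1 hr0)
      have e3 : 3 < 2 * (r * ‖L x‖) := by
        have e4 : ‖b₀‖ * 3 < ‖b₀‖ * (2 * (r * ‖L x‖)) := by linarith
        exact lt_of_mul_lt_mul_left e4 hB.le
      linarith
    refine ⟨⟨hLx, b2, ?_, ?_⟩, c1, c2⟩
    · linarith
    · linarith

end Pool.Agent.EG.TM
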