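import Pool.Agent.EG.TM.Pnt

/-!
# EG TM NodeF: the density of the form at a node

`Q'`, `ℓ₁`, `ℓ₂` as follows: `exists_forms` for `r j = grad (Q j.succ) x₀` (`indep_sf`), `Q' = Fin.cons (lin ℓ₂) (fun j => Q j.succ)`, `nv Q' x = cross (Fin.cons ℓ₂ (grad (Q j.succ) x))` (`grad_lin`, `grad_eq_cons`), so `dt ℓ₁ (nv Q' x₀) ≠ 0`.

`node_form`: `W p = - (dt ℓ₁ s₁ * dt ℓ₂ s₂ - dt ℓ₁ s₂ * dt ℓ₂ s₁) / dt ℓ₁ (nv Q' (s p))`, `s₁ = fderiv s p (1, 0)`, `s₂ = fderiv s p (0, 1)`.  `wedge_identity` with `a = grad (Q 0) (s p)`, `v₁ = s₁`, `v₂ = s₂`, `r j = grad (Q j.succ) (s p)` (`dt (r j) v = 0` because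
`Q j (s p)` is constant, `j ≥ 1`); `dt a s₁ = ∂₁ (p.1 p.2) = p.2`, `dt a s₂ = p.1` (`hasFDerivAt_ev`): `M₀ • (p.2 • s₂ - p.1 • s₁) = M₀ W • nv Q (s p)`.
`nv Q (s p) ≠ 0` for `p ≠ 0` near `0`: otherwise `p.2 • s₂ = p.1 • s₁`, and `s₁, s₂` are linearly independent near `0` (an open condition).

-/

set_option autoImplicit false

open Topology Filter Metric Set

namespace Pool.Agent.EG.TM

open Pool.Agent.TC (ev grad OnV nv cross dt)
open Pool.Agent.H36.BP (EN)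

variable {n : ℕ} {Q : Fin (n + 2) → MvPolynomial (Fin (n + 3)) ℂ} {e : Fin (n + 2) → ℕ}

private theorem nodeF_dt_an (ℓ : Fin (n + 3) → ℂ) {F : ℂ × ℂ → EN (n + 2)} {p : ℂ × ℂ} (hF : AnalyticAt ℂ F p) :
    AnalyticAt ℂ (fun p => dt ℓ (fun i => F p i)) p := by
  unfold dt
  refine Finset.analyticAt_fun_sum _ fun i _ => ?_
  exact analyticAt_const.mul (Pool.Agent.TC.analyticAt_apply hF i)

private theorem nodeF_fd_an {s : ℂ × ℂ → EN (n + 2)} {p : ℂ × ℂ} (hs : AnalyticAt ℂ s p) (v : ℂ × ℂ) :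
    AnalyticAt ℂ (fun p => fderiv ℂ s p v) p := by
  have h1 := hs.fderiv
  exact ((ContinuousLinearMap.apply ℂ (EN (n + 2)) v).analyticAt _).comp h1

private theorem nodeF_ev_an (P : MvPolynomial (Fin (n + 3)) ℂ) (x : EN (n + 2)) : AnalyticAt ℂ (ev P) x := by
  have h : AnalyticAt ℂ (fun z : EN (n + 2) => z) x := analyticAt_id
  exact Pool.Agent.TC.analyticAt_eval (fun i => Pool.Agent.TC.analyticAt_apply h i) P

private theorem nodeF_chain (P : MvPolynomial (Fin (n + 3)) ℂ) {s : ℂ × ℂ → EN (n + 2)} {p : ℂ × ℂ} (hs : AnalyticAt ℂ s p)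
    {F : ℂ × ℂ → ℂ} {L : ℂ × ℂ →L[ℂ] ℂ} (hF : HasFDerivAt F L p) (he : (fun p => ev P (s p)) =ᶠ[𝓝 p] F) (v : ℂ × ℂ) :
    dt (grad P (s p)) (fun i => fderiv ℂ s p v i) = L v := by
  rw [← hasFDerivAt_ev P (s p) (fderiv ℂ s p v)]
  have h1 : HasFDerivAt (fun p => ev P (s p)) ((fderiv ℂ (ev P) (s p)).comp (fderiv ℂ s p)) p :=
    (nodeF_ev_an P (s p)).differentiableAt.hasFDerivAt.comp p hs.differentiableAt.hasFDerivAt
  have h2 : HasFDerivAt (fun p => ev P (s p)) L p := hF.congr_of_eventuallyEq he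
  rw [← h1.unique h2]
  rfl

private theorem nodeF_nv (Q : Fin (n + 2) → MvPolynomial (Fin (n + 3)) ℂ) (ℓ : Fin (n + 3) → ℂ) (x : EN (n + 2)) :
    (fun i => nv (Fin.cons (lin ℓ) (fun j : Fin (n + 1) => Q j.succ) : Fin (n + 2) → MvPolynomial (Fin (n + 3)) ℂ) x i) =
      cross (Fin.cons ℓ (fun j : Fin (n + 1) => grad (Q j.succ) x) : Fin (n + 2) → Fin (n + 3) → ℂ) := by
  have h : (fun j => grad ((Fin.cons (lin ℓ) (fun j : Fin (n + 1) => Q j.succ) : Fin (n + 2) → MvPolynomial (Fin (n + 3)) ℂ) j) x) =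
      (Fin.cons ℓ (fun j : Fin (n + 1) => grad (Q j.succ) x) : Fin (n + 2) → Fin (n + 3) → ℂ) := by
    funext j
    refine Fin.cases ?_ (fun j => ?_) j
    · simp [grad_lin]
    · simp
  rw [← h]
  rfl

theorem node_form (h : LS Q e) {x₀ : EN (n + 2)} (hx : x₀ ∈ Sf Q) {s : ℂ × ℂ → EN (n + 2)} (hs : AnalyticAt ℂ s 0) (hs0 : s 0 = x₀)
    (hm : ∀ᶠ p in 𝓝 (0 : ℂ × ℂ), s p ∈ Sf Q ∧ ev (Q 0) (s p) = p.1 * p.2) (hi : LinearIndependent ℂ ![fderiv ℂ s 0 (1, 0), fderiv ℂ s 0 (0, 1)]) :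
    ∃ W : ℂ × ℂ → ℂ, AnalyticAt ℂ W 0 ∧ ∀ᶠ p in 𝓝 (0 : ℂ × ℂ), p.2 • fderiv ℂ s p (0, 1) - p.1 • fderiv ℂ s p (1, 0) = W p • nv Q (s p) ∧
      (p ≠ 0 → nv Q (s p) ≠ 0) := by
  obtain ⟨ℓ₁, ℓ₂, hℓ⟩ := exists_forms (fun j : Fin (n + 1) => grad (Q j.succ) x₀) (indep_sf h hx)
  set Q' : Fin (n + 2) → MvPolynomial (Fin (n + 3)) ℂ := Fin.cons (lin ℓ₂) (fun j : Fin (n + 1) => Q j.succ) with hQ'
  have hnv : ∀ x : EN (n + 2), (fun i => nv Q' x i) =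
      cross (Fin.cons ℓ₂ (fun j : Fin (n + 1) => grad (Q j.succ) x) : Fin (n + 2) → Fin (n + 3) → ℂ) := fun x => nodeF_nv Q ℓ₂ x
  have hMan : AnalyticAt ℂ (fun p => dt ℓ₁ (fun i => nv Q' (s p) i)) 0 := analyticAt_dt_nv Q' ℓ₁ hs
  have hM0 : dt ℓ₁ (fun i => nv Q' (s 0) i) ≠ 0 := by
    rw [hnv, hs0]
    exact hℓ
  have h1an := nodeF_fd_an hs (1, 0)
  have h2an := nodeF_fd_an hs (0, 1)
  refine ⟨fun p => -(dt ℓ₁ (fun i => fderiv ℂ s p (1, 0) i) * dt ℓ₂ (fun i => fderiv ℂ s p (0, 1) i) -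
    dt ℓ₁ (fun i => fderiv ℂ s p (0, 1) i) * dt ℓ₂ (fun i => fderiv ℂ s p (1, 0) i)) / dt ℓ₁ (fun i => nv Q' (s p) i), ?_, ?_⟩
  · refine AnalyticAt.fun_div (AnalyticAt.fun_neg ?_) hMan hM0
    exact ((nodeF_dt_an ℓ₁ h1an).fun_mul (nodeF_dt_an ℓ₂ h2an)).fun_sub ((nodeF_dt_an ℓ₁ h2an).fun_mul (nodeF_dt_an ℓ₂ h1an))
  · have hMe : ∀ᶠ p in 𝓝 (0 : ℂ × ℂ), dt ℓ₁ (fun i => nv Q' (s p) i) ≠ 0 := hMan.continuousAt.eventually_ne hM0
    have hie : ∀ᶠ p in 𝓝 (0 : ℂ × ℂ), LinearIndependent ℂ ![fderiv ℂ s p (1, 0), fderiv ℂ s p (0, 1)] := by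
      have hc : ContinuousAt (fun p : ℂ × ℂ => ![fderiv ℂ s p (1, 0), fderiv ℂ s p (0, 1)]) 0 := by
        refine continuousAt_pi.2 fun i => ?_
        fin_cases i
        · exact h1an.continuousAt
        · exact h2an.continuousAt
      exact hc.eventually ((isOpen_setOfPred_linearIndependent (𝕜 := ℂ) (ι := Fin 2) (E := EN (n + 2))).mem_nhds hi)
    filter_upwards [hs.eventually_analyticAt, hm.eventually_nhds, hMe, hie] with p hsp hmp hMp hip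
    have hQj : ∀ (j : Fin (n + 1)) (v : ℂ × ℂ), dt (grad (Q j.succ) (s p)) (fun i => fderiv ℂ s p v i) = 0 := by
      intro j v
      by_cases hj : j = 0
      · subst hj
        have := nodeF_chain (Q 1) hsp (hasFDerivAt_const (1 : ℂ) p) (hmp.mono fun q hq => hq.1.2) v
        simpa using this
      · have hj2 : 2 ≤ ((j.succ : Fin (n + 2)) : ℕ) := by
          rw [Fin.val_succ]
          have : (j : ℕ) ≠ 0 := fun h0 => hj (Fin.ext h0)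
          omega
        have := nodeF_chain (Q j.succ) hsp (hasFDerivAt_const (0 : ℂ) p) (hmp.mono fun q hq => hq.1.1 j.succ hj2) v
        simpa using this
    have hQ0 : ∀ v : ℂ × ℂ, dt (grad (Q 0) (s p)) (fun i => fderiv ℂ s p v i) = p.1 * v.2 + p.2 * v.1 := by
      intro v
      have h1 : HasFDerivAt (fun q : ℂ × ℂ => q.1 * q.2) (p.1 • ContinuousLinearMap.snd ℂ ℂ ℂ + p.2 • ContinuousLinearMap.fst ℂ ℂ ℂ) p :=
        (hasFDerivAt_fst (𝕜 := ℂ) (E := ℂ) (F := ℂ) (p := p)).mul (hasFDerivAt_snd (𝕜 := ℂ) (E := ℂ) (F := ℂ) (p := p))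
      have := nodeF_chain (Q 0) hsp h1 (hmp.mono fun q hq => hq.2) v
      simpa using this
    have hw := wedge_identity (grad (Q 0) (s p)) ℓ₁ ℓ₂ (fun i => fderiv ℂ s p (1, 0) i) (fun i => fderiv ℂ s p (0, 1) i)
      (fun j : Fin (n + 1) => grad (Q j.succ) (s p)) (fun j => hQj j _) (fun j => hQj j _) (by rw [← hnv]; exact hMp)
    rw [← hnv, hQ0, hQ0, ← grad_eq_cons] at hw
    simp only [mul_zero, mul_one, zero_add, add_zero] at hw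
    have hmain : p.2 • fderiv ℂ s p (0, 1) - p.1 • fderiv ℂ s p (1, 0) =
        (-(dt ℓ₁ (fun i => fderiv ℂ s p (1, 0) i) * dt ℓ₂ (fun i => fderiv ℂ s p (0, 1) i) -
    dt ℓ₁ (fun i => fderiv ℂ s p (0, 1) i) * dt ℓ₂ (fun i => fderiv ℂ s p (1, 0) i)) / dt ℓ₁ (fun i => nv Q' (s p) i)) • nv Q (s p) := by
      ext i
      have hwi := congrFun hw i
      simp only [Pi.smul_apply, Pi.sub_apply, smul_eq_mul] at hwi
      have hnvi : nv Q (s p) i = cross (fun j => grad (Q j) (s p)) i := rfl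
      simp only [PiLp.sub_apply, PiLp.smul_apply, smul_eq_mul, hnvi]
      rw [div_mul_eq_mul_div, eq_div_iff hMp]
      linear_combination hwi
    refine ⟨hmain, fun hp h0 => hp ?_⟩
    rw [h0, smul_zero] at hmain
    have hpair := LinearIndependent.pair_iff.1 hip (-p.1) p.2 (by rw [neg_smul, ← hmain]; abel)
    exact Prod.ext (neg_eq_zero.1 hpair.1) hpair.2

end Pool.Agent.EG.TM
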