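import Pool.Agent.EG.TM.Pnt

/-!
# EG TM NodeI: the inverse of the parametrization at a node

`node_inv`: `ℓ₁, ℓ₂` from `exists_forms` for `r j = grad (Q j.succ) x₀` (`indep_sf`).  Let `Q' = Fin.cons (lin ℓ₂) (fun j => Q j.succ)`; `nv Q' x = cross (Fin.cons ℓ₂ (grad (Q j.succ) x))` (`grad_lin`, `grad_eq_cons`), so `dt ℓ₁ (nv Q' x₀) ≠ 0`, and `Phi_inv` for `Q'`, `ℓ₁`: the map
`Phi Q' ℓ₁ x = (ℓ₁ x, ℓ₂ x, Q 1 x, …, Q (n + 1) x)` is injective near `x₀`.  `κ p = (ℓ₁ (s p), ℓ₂ (s p))` is analytic near `0` and its derivative at `0` is injective: if `ℓ₁ v = ℓ₂ v = 0` for `v = fderiv s 0 w` then, as `Q j (s p)` is constant near `0` for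
`j ≥ 1`, `dt (grad (Q j) x₀) v = 0`, so `v = 0` (`v` is killed by all rows; `exists_smul_cross` for `Fin.cons ℓ₂ r` and `ℓ₁`), and `w = 0` by linear independence.  Let `κ'` be the local inverse of `κ` at `κ 0`, `q x = κ' (ℓ₁ x, ℓ₂ x)`.  Near `0`: `q (s p) = p`.
Near `x₀`, for `x ∈ Sf Q`: `x' = s (q x)` has `(ℓ₁ x', ℓ₂ x') = κ (q x) = (ℓ₁ x, ℓ₂ x)` and `Q 1 x' = 1 = Q 1 x`, `Q j x' = 0 = Q j x`: `Phi Q' ℓ₁ x' = Phi Q' ℓ₁ x`, both near `x₀`, so `x' = x`.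

-/

set_option autoImplicit false

open Topology Filter Metric Set

namespace Pool.Agent.EG.TM

open Pool.Agent.TC (ev grad OnV nv cross dt)
open Pool.Agent.H36.BP (EN)

variable {n : ℕ} {Q : Fin (n + 2) → MvPolynomial (Fin (n + 3)) ℂ} {e : Fin (n + 2) → ℕ}

/-- the values of the forms `Q 1, Q 2, …` on the surface -/
private theorem ev_succ_sf {x : EN (n + 2)} (hx : x ∈ Sf Q) (j : Fin (n + 1)) : ev (Q j.succ) x = if j = 0 then 1 else 0 := by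
  by_cases hj : j = 0
  · subst hj
    rw [if_pos rfl, Fin.succ_zero_eq_one]
    exact hx.2
  · rw [if_neg hj]
    refine hx.1 _ ?_
    rw [Fin.val_succ]
    have : (j : ℕ) ≠ 0 := fun h => hj (Fin.ext h)
    omega

/-- the linear map of two forms -/
private noncomputable def L2 (ℓ₁ ℓ₂ : Fin (n + 3) → ℂ) : EN (n + 2) →L[ℂ] ℂ × ℂ :=
  (∑ i, ℓ₁ i • (EuclideanSpace.proj i : EN (n + 2) →L[ℂ] ℂ)).prod (∑ i, ℓ₂ i • (EuclideanSpace.proj i : EN (n + 2) →L[ℂ] ℂ))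

private theorem L2_apply (ℓ₁ ℓ₂ : Fin (n + 3) → ℂ) (x : EN (n + 2)) :
    L2 ℓ₁ ℓ₂ x = (dt ℓ₁ (fun i => x i), dt ℓ₂ (fun i => x i)) := by
  simp [L2, dt]

theorem node_inv (h : LS Q e) {x₀ : EN (n + 2)} (hx : x₀ ∈ Sf Q) {s : ℂ × ℂ → EN (n + 2)} (hs : AnalyticAt ℂ s 0) (hs0 : s 0 = x₀)
    (hm : ∀ᶠ p in 𝓝 (0 : ℂ × ℂ), s p ∈ Sf Q) (hi : LinearIndependent ℂ ![fderiv ℂ s 0 (1, 0), fderiv ℂ s 0 (0, 1)]) :
    ∃ q : EN (n + 2) → ℂ × ℂ, AnalyticAt ℂ q x₀ ∧ (∀ᶠ p in 𝓝 (0 : ℂ × ℂ), q (s p) = p) ∧ ∀ᶠ x in 𝓝 x₀, x ∈ Sf Q → s (q x) = x := by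
  classical
  obtain ⟨ℓ₁, ℓ₂, hne⟩ := exists_forms (fun j : Fin (n + 1) => grad (Q j.succ) x₀) (indep_sf h hx)
  have hgrad : (fun j => grad ((Fin.cons (lin ℓ₂) (fun j : Fin (n + 1) => Q j.succ) : Fin (n + 2) → MvPolynomial (Fin (n + 3)) ℂ) j) x₀) =
      (Fin.cons ℓ₂ (fun j : Fin (n + 1) => grad (Q j.succ) x₀) : Fin (n + 2) → Fin (n + 3) → ℂ) := by
    funext j
    refine Fin.cases ?_ (fun j => ?_) j
    · rw [Fin.cons_zero, Fin.cons_zero, grad_lin]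
    · rw [Fin.cons_succ, Fin.cons_succ]
  have hne' : dt ℓ₁ (fun i => nv (Fin.cons (lin ℓ₂) (fun j : Fin (n + 1) => Q j.succ) : Fin (n + 2) → MvPolynomial (Fin (n + 3)) ℂ) x₀ i) ≠ 0 := by
    have h1 : (fun i => nv (Fin.cons (lin ℓ₂) (fun j : Fin (n + 1) => Q j.succ) : Fin (n + 2) → MvPolynomial (Fin (n + 3)) ℂ) x₀ i) =
        cross (Fin.cons ℓ₂ (fun j : Fin (n + 1) => grad (Q j.succ) x₀) : Fin (n + 2) → Fin (n + 3) → ℂ) := by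
      rw [← hgrad]
      rfl
    rw [h1]
    exact hne
  obtain ⟨Ψ, -, hΨ, -, -⟩ := Phi_inv (Fin.cons (lin ℓ₂) (fun j : Fin (n + 1) => Q j.succ)) ℓ₁ hne'
  -- the map of the two forms
  have hκa : AnalyticAt ℂ (fun p => L2 ℓ₁ ℓ₂ (s p)) 0 := ((L2 ℓ₁ ℓ₂).analyticAt (s 0)).comp hs
  have hκi : ∀ w, fderiv ℂ (fun p => L2 ℓ₁ ℓ₂ (s p)) 0 w = 0 → w = 0 := by
    intro w hw
    have h1 : fderiv ℂ (fun p => L2 ℓ₁ ℓ₂ (s p)) 0 = (L2 ℓ₁ ℓ₂).comp (fderiv ℂ s 0) :=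
      ((L2 ℓ₁ ℓ₂).hasFDerivAt.comp (0 : ℂ × ℂ) hs.differentiableAt.hasFDerivAt).fderiv
    rw [h1, ContinuousLinearMap.comp_apply, L2_apply, Prod.mk_eq_zero] at hw
    have h2 : ∀ j : Fin (n + 1), dt (grad (Q j.succ) x₀) (fun i => fderiv ℂ s 0 w i) = 0 := by
      intro j
      rw [← hasFDerivAt_ev]
      have h3 : HasFDerivAt (fun p => ev (Q j.succ) (s p)) ((fderiv ℂ (ev (Q j.succ)) x₀).comp (fderiv ℂ s 0)) 0 := by
        have h4 : HasFDerivAt (ev (Q j.succ)) (fderiv ℂ (ev (Q j.succ)) x₀) (s 0) := by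
          rw [hs0]
          exact (Pool.Agent.TC.differentiable_ev (Q j.succ) x₀).hasFDerivAt
        exact h4.comp (0 : ℂ × ℂ) hs.differentiableAt.hasFDerivAt
      have h5 : HasFDerivAt (fun p => ev (Q j.succ) (s p)) (0 : ℂ × ℂ →L[ℂ] ℂ) 0 := by
        refine (hasFDerivAt_const (if j = 0 then (1 : ℂ) else 0) (0 : ℂ × ℂ)).congr_of_eventuallyEq ?_
        filter_upwards [hm] with p hp
        exact ev_succ_sf hp j
      have h6 := congrArg (fun F : ℂ × ℂ →L[ℂ] ℂ => F w) (h3.unique h5)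
      simpa using h6
    have h3 : ∀ j, dt ((Fin.cons ℓ₂ (fun j : Fin (n + 1) => grad (Q j.succ) x₀) : Fin (n + 2) → Fin (n + 3) → ℂ) j) (fun i => fderiv ℂ s 0 w i) = 0 := by
      intro j
      refine Fin.cases ?_ (fun j => ?_) j
      · rw [Fin.cons_zero]
        exact hw.2
      · rw [Fin.cons_succ]
        exact h2 j
    have h4 : cross (Fin.cons ℓ₂ (fun j : Fin (n + 1) => grad (Q j.succ) x₀) : Fin (n + 2) → Fin (n + 3) → ℂ) ≠ 0 := by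
      intro h0
      exact hne (by rw [h0, Pool.Agent.TC.dt_zero_right])
    obtain ⟨c, hc⟩ := Pool.Agent.TC.exists_smul_cross h3 h4
    have h5 : c = 0 := by
      have h6 := hw.1
      rw [hc, Pool.Agent.TC.dt_smul_right] at h6
      rcases mul_eq_zero.1 h6 with h7 | h7
      · exact h7
      · exact absurd h7 hne
    have h6 : fderiv ℂ s 0 w = 0 := by
      ext i
      have := congrFun hc i
      rw [h5, zero_smul] at this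
      simpa using this
    have h7 : w.1 • fderiv ℂ s 0 (1, 0) + w.2 • fderiv ℂ s 0 (0, 1) = 0 := by
      rw [← map_smul, ← map_smul, ← map_add, ← h6]
      congr 1
      ext <;> simp
    obtain ⟨h8, h9⟩ := LinearIndependent.pair_iff.1 hi _ _ h7
    exact Prod.ext h8 h9
  obtain ⟨κ', hκ'a, hκ'1, hκ'2, hκ'3⟩ := Pool.Agent.H62.BU.local_inverse hκa hκi
  have hL0 : L2 ℓ₁ ℓ₂ x₀ = L2 ℓ₁ ℓ₂ (s 0) := by rw [hs0]
  have hqa : AnalyticAt ℂ (fun x => κ' (L2 ℓ₁ ℓ₂ x)) x₀ := by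
    have h1 : AnalyticAt ℂ κ' (L2 ℓ₁ ℓ₂ x₀) := by
      rw [hL0]
      exact hκ'a
    exact h1.comp ((L2 ℓ₁ ℓ₂).analyticAt x₀)
  have hq0 : κ' (L2 ℓ₁ ℓ₂ x₀) = 0 := by
    rw [hL0]
    exact hκ'3
  refine ⟨fun x => κ' (L2 ℓ₁ ℓ₂ x), hqa, hκ'1, ?_⟩
  have hqt : Tendsto (fun x => κ' (L2 ℓ₁ ℓ₂ x)) (𝓝 x₀) (𝓝 0) := by
    have := hqa.continuousAt.tendsto
    rwa [hq0] at this
  have hLt : Tendsto (fun x => L2 ℓ₁ ℓ₂ x) (𝓝 x₀) (𝓝 (L2 ℓ₁ ℓ₂ (s 0))) := by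
    rw [← hL0]
    exact (L2 ℓ₁ ℓ₂).continuous.continuousAt.tendsto
  have hst : Tendsto s (𝓝 0) (𝓝 x₀) := by
    have := hs.continuousAt.tendsto
    rwa [hs0] at this
  filter_upwards [hΨ, hqt.eventually hm, hLt.eventually hκ'2, (hst.comp hqt).eventually hΨ] with x h1 h2 h3 h4 hxS
  have h5 : Phi (Fin.cons (lin ℓ₂) (fun j : Fin (n + 1) => Q j.succ)) ℓ₁ (s (κ' (L2 ℓ₁ ℓ₂ x))) =
      Phi (Fin.cons (lin ℓ₂) (fun j : Fin (n + 1) => Q j.succ)) ℓ₁ x := by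
    rw [L2_apply, L2_apply, Prod.mk.injEq] at h3
    unfold Phi
    congr 1
    funext j
    refine Fin.cases ?_ (fun j => ?_) j
    · rw [Fin.cons_zero, Fin.cons_zero]
      rw [L2_apply]
      exact h3.1
    · rw [Fin.cons_succ, Fin.cons_succ]
      refine Fin.cases ?_ (fun j => ?_) j
      · rw [Fin.cons_zero, ev_lin, ev_lin]
        rw [L2_apply]
        exact h3.2
      · rw [Fin.cons_succ, ev_succ_sf h2 j, ev_succ_sf hxS j]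
  have h4' : Ψ (Phi (Fin.cons (lin ℓ₂) (fun j : Fin (n + 1) => Q j.succ)) ℓ₁ (s (κ' (L2 ℓ₁ ℓ₂ x)))) = s (κ' (L2 ℓ₁ ℓ₂ x)) := h4
  rw [← h4', h5, h1]

end Pool.Agent.EG.TM
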