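import Pool.Agent.EG.TM.Pnt

/-!
# EG TM NodeN: the normalised parametrization at a node

`node_norm`: the parametrization in `Sf Q`.  `σ` from `NodeAt`, `F₂ (σ 0) = F₂ x₀ = 1`.  Let `g` be analytic near `0` with `g 0 = 1`, `g p ^ e 1 = F₂ (σ p)` (`g = exp (log (F₂ (σ p)) / e 1)`, principal logarithm near `1`), `σ₁ p = (g p)⁻¹ • σ p`:
`F₂ (σ₁ p) = 1`, `OnV`, `F₁ (σ₁ p) = g p ^ (- e 0) * p.1 * p.2`.  `θ p = (g p ^ (- e 0) * p.1, p.2)`: `θ 0 = 0`, the derivative at `0` is the identity (`g 0 = 1`), so it has an analytic local inverse `χ` at `0` (`Pool.Agent.H62.BU.local_inverse` with `E = ℂ × ℂ`),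
`χ 0 = 0`, `fderiv χ 0 = id`.  `s = σ₁ ∘ χ`: with `p' = χ p`: `F₁ (s p) = g p' ^ (- e 0) * p'.1 * p'.2 = (θ p').1 * (θ p').2 = p.1 * p.2`.  The derivatives at `0`: `fderiv s 0 v = fderiv σ₁ 0 v = fderiv σ 0 v - (fderiv g 0 v) • x₀`, so
`![fderiv s 0 (1, 0), fderiv s 0 (0, 1)]` is linearly independent because `x₀, fderiv σ 0 (1, 0), fderiv σ 0 (0, 1)` are.

-/

set_option autoImplicit false

open Topology Filter Metric Set

namespace Pool.Agent.EG.TM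

open Pool.Agent.TC (ev grad OnV nv cross dt)
open Pool.Agent.H36.BP (EN)

variable {n : ℕ} {Q : Fin (n + 2) → MvPolynomial (Fin (n + 3)) ℂ} {e : Fin (n + 2) → ℕ}

private theorem NN_indep {V : Type*} [AddCommGroup V] [Module ℂ V] {x u v : V} (h : LinearIndependent ℂ ![x, u, v]) (c d : ℂ) :
    LinearIndependent ℂ ![u + c • x, v + d • x] := by
  rw [LinearIndependent.pair_iff]
  intro a b hab
  rw [Fintype.linearIndependent_iff] at h
  have h1 := h ![a * c + b * d, a, b] (by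
    rw [Fin.sum_univ_three]
    simp only [Matrix.cons_val_zero, Matrix.cons_val_one, Matrix.cons_val]
    rw [← hab]
    module)
  have h2 := h1 1
  have h3 := h1 2
  simp only [Matrix.cons_val_one, Matrix.cons_val] at h2 h3
  exact ⟨h2, h3⟩

/-- the root of a function near a point where it is `1` -/
private theorem NN_root {F : ℂ × ℂ → ℂ} (hF : AnalyticAt ℂ F 0) (h1 : F 0 = 1) {d : ℕ} (hd : 1 ≤ d) :
    ∃ g : ℂ × ℂ → ℂ, AnalyticAt ℂ g 0 ∧ g 0 = 1 ∧ (∀ p, g p ≠ 0) ∧ ∀ᶠ p in 𝓝 (0 : ℂ × ℂ), g p ^ d = F p := by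
  have hd' : (d : ℂ) ≠ 0 := by
    have : d ≠ 0 := by omega
    exact_mod_cast this
  refine ⟨fun p => Complex.exp (Complex.log (F p) / d), ?_, ?_, fun p => Complex.exp_ne_zero _, ?_⟩
  · have h2 : AnalyticAt ℂ (fun p => Complex.log (F p)) 0 := hF.clog (by rw [h1]; exact Complex.one_mem_slitPlane)
    exact (h2.div analyticAt_const hd').cexp
  · simp only [h1, Complex.log_one, zero_div, Complex.exp_zero]
  · have h3 : ∀ᶠ p in 𝓝 (0 : ℂ × ℂ), F p ≠ 0 := hF.continuousAt.eventually_ne (by rw [h1]; exact one_ne_zero)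
    filter_upwards [h3] with p hp
    rw [← Complex.exp_nat_mul, mul_div_cancel₀ _ hd', Complex.exp_log hp]

theorem node_norm (h : LS Q e) {x₀ : EN (n + 2)} (hx : x₀ ∈ Sf Q) (hn : NodeAt Q x₀) :
    ∃ s : ℂ × ℂ → EN (n + 2), AnalyticAt ℂ s 0 ∧ s 0 = x₀ ∧ (∀ᶠ p in 𝓝 (0 : ℂ × ℂ), s p ∈ Sf Q ∧ ev (Q 0) (s p) = p.1 * p.2) ∧
      LinearIndependent ℂ ![fderiv ℂ s 0 (1, 0), fderiv ℂ s 0 (0, 1)] := by
  obtain ⟨σ, hσ, hσ0, hσe, hσi⟩ := hn
  obtain ⟨g, hg, hg0, hgne, hge⟩ := NN_root (F := fun p => ev (Q 1) (σ p)) (Pool.Agent.TC.analyticAt_ev (Q 1) hσ)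
    (by rw [hσ0]; exact hx.2) (h.pos 1)
  -- the inverse of `g`
  have hc : AnalyticAt ℂ (fun p => (g p)⁻¹) 0 := hg.inv (hgne 0)
  have hc0 : (g 0)⁻¹ = 1 := by rw [hg0, inv_one]
  have ha : AnalyticAt ℂ (fun p => ((g p)⁻¹) ^ e 0) 0 := hc.pow (e 0)
  have ha0 : ((g 0)⁻¹) ^ e 0 = 1 := by rw [hc0, one_pow]
  -- the map `θ`
  obtain ⟨θ, hθdef⟩ : ∃ θ : ℂ × ℂ → ℂ × ℂ, θ = fun p => (((g p)⁻¹) ^ e 0 * p.1, p.2) := ⟨_, rfl⟩
  have hθ : AnalyticAt ℂ θ 0 := by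
    rw [hθdef]
    exact (ha.mul analyticAt_fst).prod analyticAt_snd
  have hθ0 : θ 0 = 0 := by
    rw [hθdef]
    simp
  have hθ' : HasFDerivAt θ (ContinuousLinearMap.id ℂ (ℂ × ℂ)) 0 := by
    have h1 : HasFDerivAt (fun p : ℂ × ℂ => ((g p)⁻¹) ^ e 0 * p.1) _ 0 :=
      ha.differentiableAt.hasFDerivAt.mul (ContinuousLinearMap.fst ℂ ℂ ℂ).hasFDerivAt
    have h2 := h1.prodMk (ContinuousLinearMap.snd ℂ ℂ ℂ).hasFDerivAt
    rw [hθdef]
    refine h2.congr_fderiv ?_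
    ext
    · simp [ha0]
    · simp
    · simp [ha0]
    · simp
  obtain ⟨χ, hχ, -, hχe, hχ0⟩ := Pool.Agent.H62.BU.local_inverse (f := θ) (x₀ := 0) hθ (by
    intro v hv
    rw [hθ'.fderiv] at hv
    simpa using hv)
  rw [hθ0] at hχ hχe hχ0
  have hχ' : fderiv ℂ χ 0 = ContinuousLinearMap.id ℂ (ℂ × ℂ) := by
    have h1 : HasFDerivAt (fun p => θ (χ p)) ((ContinuousLinearMap.id ℂ (ℂ × ℂ)).comp (fderiv ℂ χ 0)) 0 := by
      refine HasFDerivAt.comp (g := θ) 0 ?_ hχ.differentiableAt.hasFDerivAt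
      rw [hχ0]
      exact hθ'
    have h2 : HasFDerivAt (fun p => θ (χ p)) (ContinuousLinearMap.id ℂ (ℂ × ℂ)) 0 :=
      (hasFDerivAt_id (0 : ℂ × ℂ)).congr_of_eventuallyEq hχe
    have h3 := h1.unique h2
    rwa [ContinuousLinearMap.id_comp] at h3
  -- the normalised parametrization
  have hσ₁ : AnalyticAt ℂ (fun p => (g p)⁻¹ • σ p) 0 := hc.smul hσ
  have hs : AnalyticAt ℂ (fun p => (g (χ p))⁻¹ • σ (χ p)) 0 := by
    have h1 : AnalyticAt ℂ (fun p => (g p)⁻¹ • σ p) (χ 0) := by rw [hχ0]; exact hσ₁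
    exact h1.comp hχ
  refine ⟨fun p => (g (χ p))⁻¹ • σ (χ p), hs, ?_, ?_, ?_⟩
  · simp only [hχ0, hc0, one_smul, hσ0]
  · have hct : Tendsto χ (𝓝 0) (𝓝 0) := by
      have := hχ.continuousAt.tendsto
      rwa [hχ0] at this
    filter_upwards [hct.eventually hσe, hct.eventually hge, hχe] with p h1 h2 h3
    refine ⟨⟨h.onV_smul h1.1 _, ?_⟩, ?_⟩
    · rw [Pool.Agent.TC.ev_smul (h.hom 1), ← h2, ← mul_pow, inv_mul_cancel₀ (hgne _), one_pow]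
    · rw [Pool.Agent.TC.ev_smul (h.hom 0), h1.2]
      have h4 : p = (((g (χ p))⁻¹) ^ e 0 * (χ p).1, (χ p).2) := by
        conv_lhs => rw [← h3, hθdef]
      conv_rhs => rw [h4]
      ring
  · have h1 : HasFDerivAt (fun p => (g p)⁻¹ • σ p) ((g 0)⁻¹ • fderiv ℂ σ 0 + (fderiv ℂ (fun p => (g p)⁻¹) 0).smulRight (σ 0)) 0 :=
      hc.differentiableAt.hasFDerivAt.smul hσ.differentiableAt.hasFDerivAt
    have h2 : HasFDerivAt (fun p => (g (χ p))⁻¹ • σ (χ p))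
        (((g 0)⁻¹ • fderiv ℂ σ 0 + (fderiv ℂ (fun p => (g p)⁻¹) 0).smulRight (σ 0)).comp (fderiv ℂ χ 0)) 0 := by
      refine HasFDerivAt.comp (g := fun p => (g p)⁻¹ • σ p) 0 ?_ hχ.differentiableAt.hasFDerivAt
      rw [hχ0]
      exact h1
    rw [h2.fderiv, hχ', hc0, one_smul, ContinuousLinearMap.comp_id, hσ0]
    exact NN_indep hσi _ _

end Pool.Agent.EG.TM
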