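import Pool.Agent.EG.TM.MkCh
import Pool.Agent.EG.TM.NodeN
import Pool.Agent.EG.TM.NodeI
import Pool.Agent.EG.TM.NodeF

/-!
# EG TM ChN: charts at the nodes of the curve `{F₁ = 0}`
-/

set_option autoImplicit false

open Topology Filter Metric Set

namespace Pool.Agent.EG.TM

open Pool.Agent.TC (ev grad OnV nv cross dt)
open Pool.Agent.H36.BP (EN)

variable {n : ℕ} {Q : Fin (n + 2) → MvPolynomial (Fin (n + 3)) ℂ} {e : Fin (n + 2) → ℕ}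

theorem chart_node (h : LS Q e) {x₀ : EN (n + 2)} (hx : x₀ ∈ Sf Q) (hn : NodeAt Q x₀) {U : Set (EN (n + 2))} (hU : U ∈ 𝓝 x₀) :
    ∃ c : Ch (Sf Q) (ev (Q 0)) (nv Q), c.inf = false ∧ c.b = 1 ∧ c.D ⊆ U ∧ x₀ ∈ c.D ∧ c.q x₀ = 0 := by
  obtain ⟨s, hs, hs0, hm, hi⟩ := node_norm h hx hn
  obtain ⟨q, hq, hq1, hq2⟩ := node_inv h hx hs hs0 (hm.mono fun p hp => hp.1) hi
  obtain ⟨W, hW, hf⟩ := node_form h hx hs hs0 hm hi
  refine mk_ch (b := 1) le_rfl hs0 hs hq hW ?_ hq2 hU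
  filter_upwards [hm, hq1, hf] with p h1 h2 h3
  refine ⟨h1.1, h2, ?_, ?_, fun h4 => h3.2 (h4 rfl)⟩
  · rw [h1.2, pow_one]
  · rw [pow_one, Nat.cast_one, one_mul]
    exact h3.1

end Pool.Agent.EG.TM
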