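import Pool.Agent.TC.Defs
import Pool.Agent.EG.RSQ.QDefs

/-!
# EG TM Defs: the left end of the pencil, with nodes

`Sf Q` is the affine surface `{Q j = 0 (j ≥ 2), F₂ = 1}` in `ℂ^(n+3)`, with the function `F₁ = Q 0`.  For a section `f` (`F₁ (f z) = exp z`, `F₂ (f z) = exp (-z)`) and
`t = κ z`, `κ = (e 0 + e 1) / e 1`, the curve `xi e f t = exp (t / (e 0 + e 1)) • f z` is in `Sf Q` and `F₁ (xi e f t) = exp t`.

`Ch` is a chart of a surface `S` near the fibre `{u = 0}`, on the bidisc of radius `3`, in which `u = k x y ^ b`, `b ≤ 1`.  If `inf = true` then `y = 0` is the curve at infinity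
and `s p` is defined for `p.2 ≠ 0` only.  `Fam` is a finite family of charts which covers the surface near the fibre `{u = 0}`.
-/

set_option autoImplicit false

open Topology Filter Metric Set

namespace Pool.Agent.EG.TM

open Pool.Agent.TC (ev grad OnV IsSec nv)
open Pool.Agent.H36.BP (EN fs wd)
open Pool.Agent.EG.RS (Model Atl Cen Strip yb)
open Pool.Agent.EG.RSQ (Bphi)

variable {n N : ℕ}

/-- in local coordinates of the surface `{Q j = 0, j ≥ 2}` at `x` the form `Q 0` is the product of the coordinates -/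
def NodeAt (Q : Fin (n + 2) → MvPolynomial (Fin (n + 3)) ℂ) (x : EN (n + 2)) : Prop :=
  ∃ σ : ℂ × ℂ → EN (n + 2), AnalyticAt ℂ σ 0 ∧ σ 0 = x ∧ (∀ᶠ p in 𝓝 (0 : ℂ × ℂ), OnV Q (σ p) ∧ ev (Q 0) (σ p) = p.1 * p.2) ∧
    LinearIndependent ℂ ![x, fderiv ℂ σ 0 (1, 0), fderiv ℂ σ 0 (0, 1)]

/-- The hypotheses.  `smooth`: the surface is a smooth complete intersection; `base`: the curves `{Q 0 = 0}` and `{Q 1 = 0}` are smooth and transversal at their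
common points; `node`: the singular points of the curve `{Q 0 = 0}` are nodes. -/
structure LS (Q : Fin (n + 2) → MvPolynomial (Fin (n + 3)) ℂ) (e : Fin (n + 2) → ℕ) : Prop where
  hom : ∀ j, (Q j).IsHomogeneous (e j)
  pos : ∀ j, 1 ≤ e j
  deg : n + 4 ≤ ∑ j, e j
  smooth : ∀ x : EN (n + 2), x ≠ 0 → OnV Q x → ∀ c : Fin (n + 2) → ℂ, c 0 = 0 → c 1 = 0 → ∑ j, c j • grad (Q j) x = 0 → c = 0
  base : ∀ x : EN (n + 2), x ≠ 0 → OnV Q x → ev (Q 0) x = 0 → ev (Q 1) x = 0 → ∀ c : Fin (n + 2) → ℂ, ∑ j, c j • grad (Q j) x = 0 → c = 0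
  node : ∀ x : EN (n + 2), x ≠ 0 → OnV Q x → ev (Q 0) x = 0 → ev (Q 1) x ≠ 0 → nv Q x = 0 → NodeAt Q x

/-- the affine surface -/
def Sf (Q : Fin (n + 2) → MvPolynomial (Fin (n + 3)) ℂ) : Set (EN (n + 2)) := {x | OnV Q x ∧ ev (Q 1) x = 1}

/-- `z = t / κ` -/
noncomputable def zt (e : Fin (n + 2) → ℕ) (t : ℂ) : ℂ := t * (e 1 : ℂ) / ((e 0 : ℂ) + (e 1 : ℂ))

/-- the normalised curve of a section, as a function of `t` -/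
noncomputable def xi (e : Fin (n + 2) → ℕ) (f : ℂ → EN (n + 2)) (t : ℂ) : EN (n + 2) :=
  Complex.exp (t / ((e 0 : ℂ) + (e 1 : ℂ))) • f (zt e t)

/-- the small central part of the bidisc -/
def CenS (p : ℂ × ℂ) : Prop := ‖p.1‖ < 3 / 8 ∧ ‖p.2‖ < 7 / 8

/-- a chart of the surface `S` near the fibre of `u` over `0` -/
structure Ch (S : Set (EN N)) (u : EN N → ℂ) (nv : EN N → EN N) where
  /-- the chart is at infinity -/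
  inf : Bool
  /-- the exponent -/
  b : ℕ
  /-- the parametrization -/
  s : ℂ × ℂ → EN N
  /-- its inverse -/
  q : EN N → ℂ × ℂ
  /-- the domain of the inverse -/
  D : Set (EN N)
  /-- the constant -/
  k : ℂ
  /-- the density of the form -/
  w : ℂ × ℂ → ℂ
  b_le : b ≤ 1
  b_inf : inf = true → b = 0
  k_ne : k ≠ 0
  isOpen_D : IsOpen D
  s_an : ∀ p ∈ ball (0 : ℂ × ℂ) 3, (inf = true → p.2 ≠ 0) → AnalyticAt ℂ s p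
  s_mem : ∀ p ∈ ball (0 : ℂ × ℂ) 3, (inf = true → p.2 ≠ 0) → s p ∈ S ∧ s p ∈ D ∧ q (s p) = p
  q_an : ∀ x ∈ D, AnalyticAt ℂ q x
  q_mem : ∀ x ∈ D, x ∈ S → q x ∈ ball (0 : ℂ × ℂ) 3 ∧ (inf = true → (q x).2 ≠ 0) ∧ s (q x) = x
  u_eq : ∀ p ∈ ball (0 : ℂ × ℂ) 3, (inf = true → p.2 ≠ 0) → u (s p) = k * p.1 * p.2 ^ b
  w_an : ∀ p ∈ ball (0 : ℂ × ℂ) 3, AnalyticAt ℂ w p
  form : ∀ p ∈ ball (0 : ℂ × ℂ) 3, (inf = true → p.2 ≠ 0) →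
    (k * p.2 ^ b) • fderiv ℂ s p (0, 1) - (k * b * p.1) • fderiv ℂ s p (1, 0) = w p • nv (s p)
  nv_ne : ∀ p ∈ ball (0 : ℂ × ℂ) 3, (inf = true → p.2 ≠ 0) → (b = 1 → p ≠ 0) → nv (s p) ≠ 0
  big : inf = true → ∃ c : ℝ, 0 < c ∧ ∀ p ∈ ball (0 : ℂ × ℂ) 3, p.2 ≠ 0 → c ≤ ‖s p‖ * ‖p.2‖
  close : ∀ ε : ℝ, 0 < ε → ∃ δ : ℝ, 0 < δ ∧ ∀ p ∈ closedBall (0 : ℂ × ℂ) 1, (inf = true → p.2 ≠ 0) → ∀ x ∈ S, u x = u (s p) →
    ‖x - s p‖ ≤ δ * ‖s p‖ → x ∈ D ∧ ‖q x - p‖ ≤ ε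

/-- a finite family of charts which covers the surface near the fibre -/
structure Fam (S : Set (EN N)) (u : EN N → ℂ) (nv : EN N → EN N) (κ : Type) where
  /-- the charts -/
  c : κ → Ch S u nv
  fin : Finite κ
  disj : ∀ i j, i ≠ j → (c i).inf = true → (c j).inf = true → Disjoint (c i).D (c j).D
  sep : ∀ i j, i ≠ j → (c i).b = 1 → ∀ p : ℂ × ℂ, ‖p.1‖ ≤ 1 / 2 → ‖p.2‖ ≤ 1 / 2 → (c i).s p ∉ (c j).D
  cov : ∀ x ∈ S, u x = 0 → ∃ i, x ∈ (c i).D ∧ (CenS ((c i).q x) ∨ (c i).b = 1 ∧ CenS ((c i).q x).swap)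
  cov_inf : ∃ R ρ : ℝ, 0 < ρ ∧ ∀ x ∈ S, R < ‖x‖ → ‖u x‖ < ρ → ∃ i, (c i).inf = true ∧ x ∈ (c i).D ∧ CenS ((c i).q x)

/-- The left end of the pencil: a model with bounded densities and finitely many charts `Xi i`, the points at infinity are described by `Fp` (`Fp i p`: the point `p` is finite).
`cell`: a section is in one cell over every ball of radius `r₀` (in the variable `t`) which is far enough to the left. -/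
structure LeftEnd (Q : Fin (n + 2) → MvPolynomial (Fin (n + 3)) ℂ) (e : Fin (n + 2) → ℕ) where
  /-- the charts -/
  ι : Type
  /-- the points -/
  Y : Type
  fin : Finite ι
  /-- the model -/
  M : Model ι Y
  /-- the bound for the densities -/
  C₀ : ℝ
  bphi : Bphi M C₀
  /-- the parametrizations -/
  Xi : ι → ℂ × ℂ → EN (n + 2)
  /-- the finite points -/
  Fp : ι → ℂ × ℂ → Prop
  a_eq : ∀ i, M.a i = 1
  b_le : ∀ i, M.b i ≤ 1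
  eqv : ∀ (i j : ι) (p q : ℂ × ℂ), p ∈ ball (0 : ℂ × ℂ) 2 → q ∈ ball (0 : ℂ × ℂ) 2 → Fp i p → Fp j q → Xi i p = Xi j q → M.s i p = M.s j q
  mem : ∀ (i : ι) (p : ℂ × ℂ), p ∈ ball (0 : ℂ × ℂ) 2 → Fp i p → Xi i p ∈ Sf Q ∧ ev (Q 0) (Xi i p) = M.u i p ∧ AnalyticAt ℂ (Xi i) p
  der : ∀ (i : ι) (μ t h : ℂ), M.k i * μ ^ M.a i = 1 → ‖Complex.exp t‖ < M.ρ → M.X i μ t h ∈ ball (0 : ℂ × ℂ) 2 → Fp i (M.X i μ t h) →
    HasDerivAt (fun h' => Xi i (M.X i μ t h')) (M.phi i μ t h • nv Q (Xi i (M.X i μ t h))) h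
  cell : ∀ C r₀ : ℝ, ∃ r₁ T₁ : ℝ, 0 < r₁ ∧ ∀ (t₁ : ℂ) (f : ℂ → EN (n + 2)), t₁.re ≤ T₁ → IsSec Q f (ball (zt e t₁) r₁) →
    (∀ z ∈ ball (zt e t₁) r₁, |z.re| * fs (f z) (deriv f z) ≤ C) →
    ∃ (i : ι) (μ : ℂ) (h : ℂ → ℂ), M.k i * μ ^ M.a i = 1 ∧ DifferentiableOn ℂ h (ball t₁ r₀) ∧
      ∀ t ∈ ball t₁ r₀, ‖Complex.exp t‖ ≤ M.ρ / 2 ∧ CenS (M.X i μ t (h t)) ∧ Fp i (M.X i μ t (h t)) ∧ xi e f t = Xi i (M.X i μ t (h t))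
  seam : ∀ T₀ ε' : ℝ, 0 < ε' → ∃ ε : ℝ, 0 < ε ∧ ∀ (i : ι) (μ : ℂ) (U : Set ℂ) (h : ℂ → ℂ) (η : ℂ → EN (n + 2)), IsOpen U →
    (∀ t ∈ U, T₀ ≤ t.re ∧ ‖Complex.exp t‖ < M.ρ) → M.k i * μ ^ M.a i = 1 → DifferentiableOn ℂ h U → DifferentiableOn ℂ η U →
    (∀ t ∈ U, CenS (M.X i μ t (h t)) ∧ Fp i (M.X i μ t (h t)) ∧ η t ∈ Sf Q ∧ ev (Q 0) (η t) = Complex.exp t ∧
      ‖η t - Xi i (M.X i μ t (h t))‖ ≤ ε * ‖Xi i (M.X i μ t (h t))‖) →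
    ∃ h' : ℂ → ℂ, DifferentiableOn ℂ h' U ∧ ∀ t ∈ U, ‖h' t - h t‖ ≤ ε' ∧ Cen (M.X i μ t (h' t)) ∧ Fp i (M.X i μ t (h' t)) ∧
      η t = Xi i (M.X i μ t (h' t))
  unif : ∀ B : ℝ, ∃ δ C : ℝ, 0 < δ ∧ ∀ (i : ι) (μ t h h' : ℂ), M.k i * μ ^ M.a i = 1 → ‖Complex.exp t‖ < M.ρ → Cen (M.X i μ t h) →
    Fp i (M.X i μ t h) → ‖Xi i (M.X i μ t h)‖ ≤ B → ‖h' - h‖ ≤ δ →
    M.X i μ t h' ∈ ball (0 : ℂ × ℂ) 2 ∧ Fp i (M.X i μ t h') ∧ ‖Xi i (M.X i μ t h') - Xi i (M.X i μ t h)‖ ≤ C * ‖h' - h‖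

end Pool.Agent.EG.TM
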