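import Pool.Agent.TC.Eul
import Pool.Agent.EG.TM.Defs

/-!
# EG TM Eul: the cone of the surface; curves in the base locus are constant

As `TC/Eul.lean`, for the hypotheses `LS`.
-/

set_option autoImplicit false

open Topology Filter Metric

namespace Pool.Agent.EG.TM

open Pool.Agent.TC (ev grad OnV IsSec nv ev_smul isClosed_onV kernel_line euler hasDerivAt_ev')
open Pool.Agent.H36.BP (EN fs wd)

variable {n : ℕ} {Q : Fin (n + 2) → MvPolynomial (Fin (n + 3)) ℂ} {e : Fin (n + 2) → ℕ}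

theorem LS.onV_smul (h : LS Q e) {x : EN (n + 2)} (hx : OnV Q x) (c : ℂ) : OnV Q (c • x) := by
  intro j hj
  rw [ev_smul (h.hom j), hx j hj, mul_zero]

/-- the cone over the surface -/
theorem LS.isCone (h : LS Q e) : Pool.Agent.H14.PP.IsCone {x : EN (n + 2) | x ≠ 0 ∧ OnV Q x} := by
  refine ⟨fun h0 => h0.1 rfl, fun x hx c hc => ⟨smul_ne_zero hc hx.1, h.onV_smul hx.2 c⟩, ?_⟩
  have h0 : OnV Q (0 : EN (n + 2)) := by
    intro j hj
    have h1 := ev_smul (h.hom j) 0 0
    rw [smul_zero, zero_pow (by have := h.pos j; omega), zero_mul] at h1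
    exact h1
  have : insert 0 {x : EN (n + 2) | x ≠ 0 ∧ OnV Q x} = {x | OnV Q x} := by
    ext x
    constructor
    · rintro (rfl | hx)
      · exact h0
      · exact hx.2
    · intro hx
      by_cases hx0 : x = 0
      · exact Or.inl hx0
      · exact Or.inr ⟨hx0, hx⟩
  rw [this]
  exact isClosed_onV Q

/-- the conditions on the gradients on the boundary curves -/
theorem LS.base_tangent (h : LS Q e) {x v : EN (n + 2)} (hx : x ≠ 0) (hV : OnV Q x) (h0 : ev (Q 0) x = 0) (h1 : ev (Q 1) x = 0)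
    (hvk : ∀ j, ∑ i, v i * grad (Q j) x i = 0) : ∃ a : ℂ, v = a • x := by
  refine kernel_line hx (h.base x hx hV h0 h1) (fun j => ?_) hvk
  rw [euler (h.hom j)]
  have : ev (Q j) x = 0 := by
    by_cases hj : 2 ≤ (j : ℕ)
    · exact hV j hj
    · have : j = 0 ∨ j = 1 := by
        rcases j with ⟨j, hj'⟩
        simp only [Fin.ext_iff, Fin.val_zero, Fin.val_one] at hj ⊢
        omega
      rcases this with rfl | rfl
      · exact h0
      · exact h1
  rw [this, mul_zero]

/-- a curve in the base locus is constant -/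
theorem LS.base_fs (h : LS Q e) {G : ℂ → EN (n + 2)} {z : ℂ} (hG : DifferentiableAt ℂ G z) (hG0 : G z ≠ 0)
    (hV : ∀ᶠ w in 𝓝 z, OnV Q (G w)) (h0 : ∀ᶠ w in 𝓝 z, ev (Q 0) (G w) = 0) (h1 : ∀ᶠ w in 𝓝 z, ev (Q 1) (G w) = 0) :
    fs (G z) (deriv G z) = 0 := by
  have hz : ∀ j, ∀ᶠ w in 𝓝 z, ev (Q j) (G w) = 0 := by
    intro j
    by_cases hj : 2 ≤ (j : ℕ)
    · exact hV.mono fun w hw => hw j hj
    · have : j = 0 ∨ j = 1 := by
        rcases j with ⟨j, hj'⟩
        simp only [Fin.ext_iff, Fin.val_zero, Fin.val_one] at hj ⊢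
        omega
      rcases this with rfl | rfl
      · exact h0
      · exact h1
  obtain ⟨a, ha⟩ := h.base_tangent hG0 hV.self_of_nhds h0.self_of_nhds h1.self_of_nhds (v := deriv G z) (fun j => by
    have h2 := hasDerivAt_ev' (Q j) hG.hasDerivAt
    have h3 : HasDerivAt (fun w => ev (Q j) (G w)) 0 z :=
      (hasDerivAt_const z (0 : ℂ)).congr_of_eventuallyEq (hz j)
    exact h2.unique h3)
  rw [ha, Pool.Agent.H36.BP.fs_smul_right]
  have h2 := Pool.Agent.H36.BP.fs_inv hG0 (0 : EN (n + 2)) (one_ne_zero (α := ℂ)) 1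
  have h3 := Pool.Agent.H36.BP.fs_smul_right (G z) (0 : EN (n + 2)) (0 : ℂ)
  rw [one_smul, smul_zero, zero_add] at h2
  rw [zero_smul, norm_zero, zero_mul] at h3
  rw [h2, h3, mul_zero]

end Pool.Agent.EG.TM
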