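import Pool.Agent.TC.Cross
import Pool.Agent.EG.TM.Eul

/-!
# EG TM Lin: linear algebra of the normal vector

`cross_cons`: pair with an arbitrary `v`: `dt v (cross (Fin.cons a r)) = det (consMat v (Fin.cons a r))` (`dt_cross`) is alternating in `(v, a)`.

`wedge_identity`.  `M₀ = dt ℓ₁ (cross (Fin.cons ℓ₂ r)) ≠ 0`, so the rows `ℓ₁, ℓ₂, r 0, …` are a basis of `ℂ^(m+2)`.  A vector `z` with `dt ℓ₁ z = 0`, `dt ℓ₂ z = 0`, `dt (r j) z = 0` is `0`
(the matrix `consMat ℓ₁ (Fin.cons ℓ₂ r)` is invertible, `Matrix.mulVec`; or `exists_smul_cross` / `eq_smul_cross` for the family `Fin.cons ℓ₂ r`: `z = c • cross (Fin.cons ℓ₂ r)` and `dt ℓ₁ z = c M₀ = 0`).  So it is enough to compare the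
products of both sides with `ℓ₁`, `ℓ₂`, `r j`.  `r j`: both are `0` (`dt_cross_self`).  Write `a = α₁ ℓ₁ + α₂ ℓ₂ + ∑ β_j r j` (basis; for example `α₁ = dt a (cross (Fin.cons ℓ₂ r)) / M₀`: then
`a - α₁ ℓ₁` is killed by `cross (Fin.cons ℓ₂ r)`, hence in the span of `ℓ₂`, `r`).  With `W = dt ℓ₁ v₁ * dt ℓ₂ v₂ - dt ℓ₁ v₂ * dt ℓ₂ v₁`:
`dt ℓ₁`: left `M₀ (dt a v₁ dt ℓ₁ v₂ - dt a v₂ dt ℓ₁ v₁) = - M₀ α₂ W`, right `- W dt ℓ₁ (cross (Fin.cons a r)) = - W α₂ M₀`.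
`dt ℓ₂`: left `M₀ (dt a v₁ dt ℓ₂ v₂ - dt a v₂ dt ℓ₂ v₁) = M₀ α₁ W`, right `- W dt ℓ₂ (cross (Fin.cons a r)) = - W α₁ dt ℓ₂ (cross (Fin.cons ℓ₁ r)) = W α₁ M₀`.
(ALTERNATIVE without a basis: the identity `M₀ * dt a z = …` follows from Cramer's rule for the `m + 3` covectors; any proof is fine.)

`exists_forms`: the span of the `m` independent vectors `r j` in `ℂ^(m+2)` is not everything: choose `ℓ₂` outside of the span; `Fin.cons ℓ₂ r` is linearly independent (`linearIndependent_finCons`), so `cross (Fin.cons ℓ₂ r) ≠ 0`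
(`cross_ne_zero_iff`), and some coordinate form `ℓ₁ = Pi.single i 1` is not `0` on it (`single_dt`).

`grad_eq_cons`: `Fin.cases`.   `indep_sf`: let `∑_{j ≥ 1} c j grad (Q j) x = 0`; the product with `x` is `c 1 * e 1 * F₂ x` (`euler`; `Q j x = 0` for `j ≥ 2`, `F₂ x = 1`), so `c 1 = 0`; then `h.smooth` (`x ≠ 0` because `F₂ x = 1`
and `e 1 ≥ 1`).
-/

set_option autoImplicit false

open Topology Filter Metric Set

namespace Pool.Agent.EG.TM

open Pool.Agent.TC (ev grad OnV nv cross dt dt_cross dt_cross_self cross_ne_zero_iff single_dt euler)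
open Pool.Agent.H36.BP (EN)

theorem cross_cons {m : ℕ} (a b : Fin (m + 2) → ℂ) (r : Fin m → Fin (m + 2) → ℂ) :
    dt a (cross (Fin.cons b r : Fin (m + 1) → Fin (m + 2) → ℂ)) = -dt b (cross (Fin.cons a r : Fin (m + 1) → Fin (m + 2) → ℂ)) := by
  rw [dt_cross, dt_cross]
  have h1 : Pool.Agent.TC.consMat b (Fin.cons a r : Fin (m + 1) → Fin (m + 2) → ℂ) =
      (Pool.Agent.TC.consMat a (Fin.cons b r : Fin (m + 1) → Fin (m + 2) → ℂ)).submatrix (Equiv.swap (0 : Fin (m + 2)) 1) id := by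
    ext i k
    refine Fin.cases ?_ (fun i => ?_) i
    · have h2 : Equiv.swap (0 : Fin (m + 2)) 1 0 = (0 : Fin (m + 1)).succ := by
        rw [Equiv.swap_apply_left]; rfl
      simp only [Pool.Agent.TC.consMat, Matrix.of_apply, Matrix.submatrix_apply, id_eq, Fin.cons_zero, h2, Fin.cons_succ]
    · refine Fin.cases ?_ (fun i => ?_) i
      · have h2 : Equiv.swap (0 : Fin (m + 2)) 1 (0 : Fin (m + 1)).succ = 0 := by
          have h3 : ((0 : Fin (m + 1)).succ : Fin (m + 2)) = 1 := rfl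
          rw [h3, Equiv.swap_apply_right]
        simp only [Pool.Agent.TC.consMat, Matrix.of_apply, Matrix.submatrix_apply, id_eq, Fin.cons_zero, h2, Fin.cons_succ]
      · have h2 : Equiv.swap (0 : Fin (m + 2)) 1 i.succ.succ = i.succ.succ := by
          refine Equiv.swap_apply_of_ne_of_ne (Fin.succ_ne_zero _) fun h => ?_
          have h3 : ((0 : Fin (m + 1)).succ : Fin (m + 2)) = 1 := rfl
          rw [← h3, Fin.succ_inj] at h
          exact Fin.succ_ne_zero _ h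
        simp only [Pool.Agent.TC.consMat, Matrix.of_apply, Matrix.submatrix_apply, id_eq, h2, Fin.cons_succ]
  rw [h1, Matrix.det_permute, Equiv.Perm.sign_swap (by simp)]
  simp

private theorem lin_zero {m : ℕ} {ℓ₁ ℓ₂ z : Fin (m + 2) → ℂ} {r : Fin m → Fin (m + 2) → ℂ}
    (h : dt ℓ₁ (cross (Fin.cons ℓ₂ r : Fin (m + 1) → Fin (m + 2) → ℂ)) ≠ 0) (h1 : dt ℓ₁ z = 0) (h2 : dt ℓ₂ z = 0) (hr : ∀ j, dt (r j) z = 0) :
    z = 0 := by
  obtain ⟨l, hl⟩ := Pool.Agent.TC.exists_smul_cross (u := (Fin.cons ℓ₂ r : Fin (m + 1) → Fin (m + 2) → ℂ)) (v := z) (fun j => by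
    refine Fin.cases ?_ (fun j => ?_) j
    · rw [Fin.cons_zero]; exact h2
    · rw [Fin.cons_succ]; exact hr j) (fun h0 => h (by rw [h0, Pool.Agent.TC.dt_zero_right]))
  rw [hl, Pool.Agent.TC.dt_smul_right] at h1
  have : l = 0 := by
    rcases mul_eq_zero.1 h1 with h3 | h3
    · exact h3
    · exact absurd h3 h
  rw [hl, this, zero_smul]

private theorem lin_expand {m : ℕ} {ℓ₁ ℓ₂ v : Fin (m + 2) → ℂ} {r : Fin m → Fin (m + 2) → ℂ}
    (h : dt ℓ₁ (cross (Fin.cons ℓ₂ r : Fin (m + 1) → Fin (m + 2) → ℂ)) ≠ 0) (hr : ∀ j, dt (r j) v = 0) :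
    dt ℓ₁ (cross (Fin.cons ℓ₂ r : Fin (m + 1) → Fin (m + 2) → ℂ)) • v =
      dt ℓ₁ v • cross (Fin.cons ℓ₂ r : Fin (m + 1) → Fin (m + 2) → ℂ) - dt ℓ₂ v • cross (Fin.cons ℓ₁ r : Fin (m + 1) → Fin (m + 2) → ℂ) := by
  have hself : ∀ b : Fin (m + 2) → ℂ, dt b (cross (Fin.cons b r : Fin (m + 1) → Fin (m + 2) → ℂ)) = 0 := fun b => by
    have := dt_cross_self (Fin.cons b r : Fin (m + 1) → Fin (m + 2) → ℂ) 0
    rwa [Fin.cons_zero] at this
  have hself' : ∀ (b : Fin (m + 2) → ℂ) (j : Fin m), dt (r j) (cross (Fin.cons b r : Fin (m + 1) → Fin (m + 2) → ℂ)) = 0 := fun b j => by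
    have := dt_cross_self (Fin.cons b r : Fin (m + 1) → Fin (m + 2) → ℂ) j.succ
    rwa [Fin.cons_succ] at this
  have hneg := cross_cons ℓ₂ ℓ₁ r
  have hd : ∀ b v w : Fin (m + 2) → ℂ, dt b (v - w) = dt b v - dt b w := fun b v w => by
    rw [Pool.Agent.TC.dt_comm, Pool.Agent.TC.dt_sub_left, Pool.Agent.TC.dt_comm v, Pool.Agent.TC.dt_comm w]
  rw [← sub_eq_zero]
  refine lin_zero h ?_ ?_ fun j => ?_
  · rw [hd, hd, Pool.Agent.TC.dt_smul_right, Pool.Agent.TC.dt_smul_right, Pool.Agent.TC.dt_smul_right, hself ℓ₁]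
    ring
  · rw [hd, hd, Pool.Agent.TC.dt_smul_right, Pool.Agent.TC.dt_smul_right, Pool.Agent.TC.dt_smul_right, hself ℓ₂, hneg]
    ring
  · rw [hd, hd, Pool.Agent.TC.dt_smul_right, Pool.Agent.TC.dt_smul_right, Pool.Agent.TC.dt_smul_right, hself' ℓ₂, hself' ℓ₁, hr j]
    ring

theorem wedge_identity {m : ℕ} (a ℓ₁ ℓ₂ v₁ v₂ : Fin (m + 2) → ℂ) (r : Fin m → Fin (m + 2) → ℂ) (h₁ : ∀ j, dt (r j) v₁ = 0) (h₂ : ∀ j, dt (r j) v₂ = 0)
    (h : dt ℓ₁ (cross (Fin.cons ℓ₂ r : Fin (m + 1) → Fin (m + 2) → ℂ)) ≠ 0) :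
    dt ℓ₁ (cross (Fin.cons ℓ₂ r : Fin (m + 1) → Fin (m + 2) → ℂ)) • (dt a v₁ • v₂ - dt a v₂ • v₁) =
      (-(dt ℓ₁ v₁ * dt ℓ₂ v₂ - dt ℓ₁ v₂ * dt ℓ₂ v₁)) • cross (Fin.cons a r : Fin (m + 1) → Fin (m + 2) → ℂ) := by
  have hself' : ∀ (j : Fin m), dt (r j) (cross (Fin.cons a r : Fin (m + 1) → Fin (m + 2) → ℂ)) = 0 := fun j => by
    have := dt_cross_self (Fin.cons a r : Fin (m + 1) → Fin (m + 2) → ℂ) j.succ
    rwa [Fin.cons_succ] at this
  have e1 := lin_expand h h₁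
  have e2 := lin_expand h h₂
  have e3 := lin_expand h hself'
  rw [cross_cons ℓ₁ a r, cross_cons ℓ₂ a r] at e3
  have hd : ∀ b v w : Fin (m + 2) → ℂ, dt b (v - w) = dt b v - dt b w := fun b v w => by
    rw [Pool.Agent.TC.dt_comm, Pool.Agent.TC.dt_sub_left, Pool.Agent.TC.dt_comm v, Pool.Agent.TC.dt_comm w]
  have a1 := congrArg (dt a) e1
  have a2 := congrArg (dt a) e2
  rw [hd, Pool.Agent.TC.dt_smul_right, Pool.Agent.TC.dt_smul_right, Pool.Agent.TC.dt_smul_right] at a1 a2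
  set N : ℂ := dt ℓ₁ (cross (Fin.cons ℓ₂ r : Fin (m + 1) → Fin (m + 2) → ℂ)) with hN
  set C1 : Fin (m + 2) → ℂ := cross (Fin.cons ℓ₁ r : Fin (m + 1) → Fin (m + 2) → ℂ) with hC1
  set C2 : Fin (m + 2) → ℂ := cross (Fin.cons ℓ₂ r : Fin (m + 1) → Fin (m + 2) → ℂ) with hC2
  set Ca : Fin (m + 2) → ℂ := cross (Fin.cons a r : Fin (m + 1) → Fin (m + 2) → ℂ) with hCa
  funext k
  have f1 := congrFun e1 k
  have f2 := congrFun e2 k
  have f3 := congrFun e3 k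
  simp only [Pi.smul_apply, Pi.sub_apply, smul_eq_mul] at f1 f2 f3 ⊢
  refine mul_left_cancel₀ h ?_
  have g1 : N * (N * (dt a v₁ * v₂ k - dt a v₂ * v₁ k)) = (N * dt a v₁) * (N * v₂ k) - (N * dt a v₂) * (N * v₁ k) := by ring
  have g2 : N * (-(dt ℓ₁ v₁ * dt ℓ₂ v₂ - dt ℓ₁ v₂ * dt ℓ₂ v₁) * Ca k) = -(dt ℓ₁ v₁ * dt ℓ₂ v₂ - dt ℓ₁ v₂ * dt ℓ₂ v₁) * (N * Ca k) := by ring
  rw [g1, g2, a1, a2, f1, f2, f3]
  ring

theorem exists_forms {m : ℕ} (r : Fin m → Fin (m + 2) → ℂ) (hr : LinearIndependent ℂ r) :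
    ∃ ℓ₁ ℓ₂ : Fin (m + 2) → ℂ, dt ℓ₁ (cross (Fin.cons ℓ₂ r : Fin (m + 1) → Fin (m + 2) → ℂ)) ≠ 0 := by
  obtain ⟨v, hv⟩ : ∃ v : Fin (m + 2) → ℂ, v ∉ Submodule.span ℂ (Set.range r) := by
    by_contra h
    push Not at h
    have htop : Submodule.span ℂ (Set.range r) = ⊤ := by
      rw [Submodule.eq_top_iff']
      exact h
    have h1 : Module.finrank ℂ (Submodule.span ℂ (Set.range r)) ≤ m := by
      have := finrank_range_le_card (R := ℂ) r
      simpa [Set.finrank] using this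
    rw [htop, finrank_top] at h1
    simp at h1
  have hc : LinearIndependent ℂ (Fin.cons v r : Fin (m + 1) → Fin (m + 2) → ℂ) := linearIndependent_finCons.2 ⟨hr, hv⟩
  obtain ⟨i, hi⟩ := Pool.Agent.TC.exists_apply_ne ((cross_ne_zero_iff _).2 hc)
  exact ⟨Pi.single i 1, v, by rwa [single_dt]⟩

variable {n : ℕ} {Q : Fin (n + 2) → MvPolynomial (Fin (n + 3)) ℂ} {e : Fin (n + 2) → ℕ}

theorem grad_eq_cons (Q : Fin (n + 2) → MvPolynomial (Fin (n + 3)) ℂ) (x : EN (n + 2)) :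
    (fun j => grad (Q j) x) = (Fin.cons (grad (Q 0) x) (fun j : Fin (n + 1) => grad (Q j.succ) x) : Fin (n + 2) → Fin (n + 3) → ℂ) := by
  funext j
  refine Fin.cases ?_ (fun j => ?_) j
  · rw [Fin.cons_zero]
  · rw [Fin.cons_succ]

private theorem lin_dt_self (h : LS Q e) (x : EN (n + 2)) (j : Fin (n + 2)) : dt (grad (Q j) x) (fun i => x i) = e j * ev (Q j) x := by
  rw [← euler (h.hom j), Pool.Agent.TC.dt_comm]
  rfl

theorem sf_ne_zero (h : LS Q e) {x : EN (n + 2)} (hx : x ∈ Sf Q) : x ≠ 0 := by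
  rintro rfl
  have h1 := Pool.Agent.TC.ev_smul (h.hom 1) 0 0
  rw [smul_zero, zero_pow (by have := h.pos 1; omega), zero_mul] at h1
  exact one_ne_zero (hx.2.symm.trans h1)

theorem indep_sf (h : LS Q e) {x : EN (n + 2)} (hx : x ∈ Sf Q) : LinearIndependent ℂ (fun j : Fin (n + 1) => grad (Q j.succ) x) := by
  rw [Fintype.linearIndependent_iff]
  intro c hc
  have hx0 := sf_ne_zero h hx
  have h1 : dt (∑ j : Fin (n + 1), c j • grad (Q j.succ) x) (fun i => x i) = 0 := by rw [hc, Pool.Agent.TC.dt_zero_left]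
  rw [Pool.Agent.TC.dt_comm, Pool.Agent.TC.dt_sum_right, Fin.sum_univ_succ] at h1
  have h2 : ∀ j : Fin n, dt (fun i => x i) (c j.succ • grad (Q j.succ.succ) x) = 0 := fun j => by
    rw [Pool.Agent.TC.dt_smul_right, Pool.Agent.TC.dt_comm, lin_dt_self h, hx.1 _ (by simp), mul_zero, mul_zero]
  rw [Finset.sum_eq_zero (fun j _ => h2 j), add_zero, Pool.Agent.TC.dt_smul_right, Pool.Agent.TC.dt_comm, lin_dt_self h] at h1
  have h3 : ev (Q (Fin.succ 0)) x = 1 := hx.2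
  rw [h3, mul_one] at h1
  have he : (e (Fin.succ 0) : ℂ) ≠ 0 := by
    have := h.pos (Fin.succ 0)
    exact_mod_cast (by omega : e (Fin.succ 0) ≠ 0)
  have h4 : c 0 = 0 := by
    rcases mul_eq_zero.1 h1 with h5 | h5
    · exact h5
    · exact absurd h5 he
  have h5 := h.smooth x hx0 hx.1 (Fin.cons 0 c) (by rw [Fin.cons_zero]) (by
    have : (1 : Fin (n + 2)) = Fin.succ 0 := rfl
    rw [this, Fin.cons_succ, h4]) (by
    rw [Fin.sum_univ_succ, Fin.cons_zero, zero_smul, zero_add]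
    simpa only [Fin.cons_succ] using hc)
  intro j
  have h6 := congrFun h5 j.succ
  rwa [Fin.cons_succ] at h6

/-- at a point of the base locus the normal vector is a multiple of the point -/
theorem nv_base (h : LS Q e) {x : EN (n + 2)} (hx : x ≠ 0) (hV : OnV Q x) (h0 : ev (Q 0) x = 0) (h1 : ev (Q 1) x = 0) :
    ∃ a : ℂ, a ≠ 0 ∧ nv Q x = a • x := by
  have hz : ∀ j, ev (Q j) x = 0 := by
    intro j
    by_cases hj : 2 ≤ (j : ℕ)
    · exact hV j hj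
    · have : j = 0 ∨ j = 1 := by
        rcases j with ⟨j, hj'⟩
        simp only [Fin.ext_iff, Fin.val_zero, Fin.val_one] at hj ⊢
        omega
      rcases this with rfl | rfl
      · exact h0
      · exact h1
  have hli : LinearIndependent ℂ (fun j => grad (Q j) x) := by
    rw [Fintype.linearIndependent_iff]
    intro c hc j
    exact congrFun (h.base x hx hV h0 h1 c hc) j
  have hc := (cross_ne_zero_iff _).2 hli
  obtain ⟨l, hl⟩ := Pool.Agent.TC.exists_smul_cross (u := fun j => grad (Q j) x) (v := fun i => x i) (fun j => by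
    rw [lin_dt_self h, hz j, mul_zero]) hc
  have hl0 : l ≠ 0 := by
    rintro rfl
    apply hx
    ext i
    have := congrFun hl i
    simpa using this
  refine ⟨l⁻¹, inv_ne_zero hl0, ?_⟩
  ext i
  have h2 := congrFun hl i
  simp only [Pi.smul_apply, smul_eq_mul] at h2
  have h3 : nv Q x i = cross (fun j => grad (Q j) x) i := rfl
  rw [h3, PiLp.smul_apply, smul_eq_mul, h2]
  field_simp

end Pool.Agent.EG.TM
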