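import Pool.Agent.EG.TM.Inv
import Pool.Agent.EG.TM.Lin

/-!
# EG TM Pnt: the values of the forms

`vec α β`: the vector of the values `(Q 0, Q 1, Q 2, …) = (α, β, 0, …)`; `pnt a α β = (a, α, β, 0, …)`.
`Phi_eq_pnt`: compare the coordinates (`Fin.cases`).  `tangent_eq`: `nv Q x ≠ 0`, so `v = c • nv Q x` (`exists_smul_cross`), and `dt ℓ v = c * dt ℓ (nv Q x)`.  `analyticAt_dt_nv`: `analyticAt_cross`, `analyticAt_grad`.
-/

set_option autoImplicit false

open Topology Filter Metric Set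

namespace Pool.Agent.EG.TM

open Pool.Agent.TC (ev grad OnV nv cross dt analyticAt_toLp analyticAt_apply analyticAt_cross analyticAt_grad exists_smul_cross dt_smul_right dt_zero_right)
open Pool.Agent.H36.BP (EN)

variable {n : ℕ} {Q : Fin (n + 2) → MvPolynomial (Fin (n + 3)) ℂ} {e : Fin (n + 2) → ℕ}

/-- the vector `(α, β, 0, …)` -/
def vec (n : ℕ) (α β : ℂ) : Fin (n + 2) → ℂ := fun j => if j = 0 then α else if j = 1 then β else 0

/-- the vector `(a, α, β, 0, …)` -/
noncomputable def pnt (n : ℕ) (a α β : ℂ) : EN (n + 2) := WithLp.toLp 2 (Fin.cons a (vec n α β) : Fin (n + 3) → ℂ)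

theorem analyticAt_pnt {a α β : ℂ × ℂ → ℂ} {p : ℂ × ℂ} (ha : AnalyticAt ℂ a p) (hα : AnalyticAt ℂ α p) (hβ : AnalyticAt ℂ β p) :
    AnalyticAt ℂ (fun p => pnt n (a p) (α p) (β p)) p := by
  unfold pnt
  refine analyticAt_toLp fun i => ?_
  refine Fin.cases ?_ (fun j => ?_) i
  · simpa using ha
  · simp only [Fin.cons_succ, vec]
    split_ifs
    · exact hα
    · exact hβ
    · exact analyticAt_const

theorem pnt_inj {a α β a' α' β' : ℂ} (h : pnt n a α β = pnt n a' α' β') : a = a' ∧ α = α' ∧ β = β' := by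
  have h1 : (Fin.cons a (vec n α β) : Fin (n + 3) → ℂ) = Fin.cons a' (vec n α' β') := by
    have h2 := congrArg (WithLp.ofLp) h
    simpa [pnt] using h2
  rw [Fin.cons_inj] at h1
  refine ⟨h1.1, ?_, ?_⟩
  · have := congrFun h1.2 0
    simpa [vec] using this
  · have := congrFun h1.2 1
    simpa [vec] using this

theorem Phi_eq_pnt {ℓ : Fin (n + 3) → ℂ} {x : EN (n + 2)} {a α β : ℂ} :
    Phi Q ℓ x = pnt n a α β ↔ dt ℓ (fun i => x i) = a ∧ ev (Q 0) x = α ∧ ev (Q 1) x = β ∧ OnV Q x := by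
  have key : Phi Q ℓ x = pnt n a α β ↔ (Fin.cons (dt ℓ (fun i => x i)) (fun j => ev (Q j) x) : Fin (n + 3) → ℂ) = Fin.cons a (vec n α β) := by
    constructor
    · intro h
      have h2 := congrArg (WithLp.ofLp) h
      simpa [pnt, Phi] using h2
    · intro h
      rw [Phi, pnt, h]
  rw [key, Fin.cons_inj]
  constructor
  · rintro ⟨h1, h2⟩
    refine ⟨h1, ?_, ?_, fun j hj => ?_⟩
    · have := congrFun h2 0
      simpa [vec] using this
    · have := congrFun h2 1
      simpa [vec] using this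
    · have h3 := congrFun h2 j
      have hj0 : j ≠ 0 := by
        rintro rfl
        simp at hj
      have hj1 : j ≠ 1 := by
        rintro rfl
        simp at hj
      simpa [vec, hj0, hj1] using h3
  · rintro ⟨h1, h2, h3, h4⟩
    refine ⟨h1, funext fun j => ?_⟩
    by_cases hj0 : j = 0
    · subst hj0
      simpa [vec] using h2
    by_cases hj1 : j = 1
    · subst hj1
      simpa [vec] using h3
    have hj : 2 ≤ (j : ℕ) := by
      have a0 : (j : ℕ) ≠ 0 := fun h => hj0 (Fin.ext (by simpa using h))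
      have a1 : (j : ℕ) ≠ 1 := fun h => hj1 (Fin.ext (by simpa using h))
      omega
    have h5 : vec n α β j = 0 := by simp [vec, hj0, hj1]
    rw [h5]
    exact h4 j hj

/-- a tangent vector of a fibre is a multiple of the normal vector -/
theorem tangent_eq {ℓ : Fin (n + 3) → ℂ} {x v : EN (n + 2)} (h : dt ℓ (fun i => nv Q x i) ≠ 0) (hv : ∀ j, dt (grad (Q j) x) (fun i => v i) = 0) :
    v = (dt ℓ (fun i => v i) / dt ℓ (fun i => nv Q x i)) • nv Q x := by
  have h0 : cross (fun j => grad (Q j) x) ≠ 0 := by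
    intro h1
    apply h
    have h2 : (fun i => nv Q x i) = cross (fun j => grad (Q j) x) := rfl
    rw [h2, h1, dt_zero_right]
  obtain ⟨l, hl⟩ := exists_smul_cross hv h0
  have h3 : dt ℓ (fun i => v i) = l * dt ℓ (fun i => nv Q x i) := by
    rw [hl, dt_smul_right]
    rfl
  rw [h3, mul_div_assoc, div_self h, mul_one]
  ext i
  exact congrFun hl i

theorem analyticAt_dt_nv (Q : Fin (n + 2) → MvPolynomial (Fin (n + 3)) ℂ) (ℓ : Fin (n + 3) → ℂ) {s : ℂ × ℂ → EN (n + 2)} {p : ℂ × ℂ} (hs : AnalyticAt ℂ s p) :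
    AnalyticAt ℂ (fun p => dt ℓ (fun i => nv Q (s p) i)) p := by
  have h1 : ∀ i, AnalyticAt ℂ (fun p => nv Q (s p) i) p := fun i =>
    analyticAt_cross (fun j k => analyticAt_grad (Q j) hs k) i
  unfold dt
  exact Finset.analyticAt_fun_sum _ fun i _ => analyticAt_const.mul (h1 i)

end Pool.Agent.EG.TM
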