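import Pool.Agent.EG.TM.MkCh
import Pool.Agent.EG.TM.Pnt

/-!
# EG TM ChS: charts at the smooth points of the curve `{F₁ = 0}`

Some coordinate `ℓ = Pi.single i 1` has `dt ℓ (nv Q x₀) = nv Q x₀ i ≠ 0`.

`chart_smooth` (`mk_ch` with `b = 0`).  `Ψ` from `Phi_inv`, `Phi Q ℓ x₀ = pnt (ℓ x₀) 0 1`.  `s p = Ψ (pnt (ℓ x₀ + p.2) p.1 1)`, `q x = (F₁ x, ℓ x - ℓ x₀)`, `W p = 1 / dt ℓ (nv Q (s p))`.  Near `p = 0`: `Phi Q ℓ (s p) = pnt (ℓ x₀ + p.2) p.1 1`, so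
`s p ∈ Sf Q`, `F₁ (s p) = p.1`, `ℓ (s p) = ℓ x₀ + p.2`: `q (s p) = p`.  Near `x₀`, `x ∈ Sf Q`: `s (q x) = Ψ (pnt (ℓ x) (F₁ x) 1) = Ψ (Phi Q ℓ x) = x`.  `nv Q (s p) ≠ 0` and `dt ℓ (nv Q (s p)) ≠ 0` near `0` (continuity).
The form: `v = fderiv s p (0, 1)`; differentiating `Phi Q ℓ (s p) = pnt (ℓ x₀ + p.2) p.1 1` (near `p`) in the direction `(0, 1)`: `dt (grad (Q j) (s p)) v = 0` for all `j` (`hasFDerivAt_ev`) and `dt ℓ v = 1`; so `v = c • nv Q (s p)`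
(`exists_smul_cross`), `1 = c * dt ℓ (nv Q (s p))`.  `(p.2 ^ 0) • v - (0 * p.1) • _ = v = W p • nv Q (s p)`.
`W` is analytic at `0` (`analyticAt_cross`, `analyticAt_grad`).
-/

set_option autoImplicit false

open Topology Filter Metric Set

namespace Pool.Agent.EG.TM

open Pool.Agent.TC (ev grad OnV nv cross dt)
open Pool.Agent.H36.BP (EN)

variable {n : ℕ} {Q : Fin (n + 2) → MvPolynomial (Fin (n + 3)) ℂ} {e : Fin (n + 2) → ℕ}

/-- the chain rule for a polynomial on a parametrized surface -/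
theorem dt_grad_fderiv {N : ℕ} (P : MvPolynomial (Fin (N + 1)) ℂ) {s : ℂ × ℂ → EN N} {p : ℂ × ℂ} (hs : DifferentiableAt ℂ s p) {h : ℂ × ℂ → ℂ}
    (he : ∀ᶠ p' in 𝓝 p, ev P (s p') = h p') (w : ℂ × ℂ) : dt (grad P (s p)) (fun i => fderiv ℂ s p w i) = fderiv ℂ h p w := by
  have hP : DifferentiableAt ℂ (ev P) (s p) := (Pool.Agent.TC.analyticAt_ev P analyticAt_id).differentiableAt
  have h1 : fderiv ℂ h p = fderiv ℂ (ev P ∘ s) p := by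
    refine (Filter.EventuallyEq.fderiv_eq ?_).symm
    exact he
  rw [h1, fderiv_comp p hP hs, ← hasFDerivAt_ev]
  rfl

theorem chart_smooth {x₀ : EN (n + 2)} (hx : x₀ ∈ Sf Q) (h0 : ev (Q 0) x₀ = 0) (hn : nv Q x₀ ≠ 0) {U : Set (EN (n + 2))} (hU : U ∈ 𝓝 x₀) :
    ∃ c : Ch (Sf Q) (ev (Q 0)) (nv Q), c.inf = false ∧ c.b = 0 ∧ c.D ⊆ U ∧ x₀ ∈ c.D ∧ c.q x₀ = 0 := by
  classical
  have hn' : (fun i => nv Q x₀ i) ≠ 0 := by
    intro h
    apply hn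
    ext i
    exact congrFun h i
  obtain ⟨i, hi⟩ := Pool.Agent.TC.exists_apply_ne hn'
  obtain ⟨ℓ, hℓ⟩ : ∃ ℓ : Fin (n + 3) → ℂ, ℓ = Pi.single i 1 := ⟨_, rfl⟩
  have hℓ0 : dt ℓ (fun i => nv Q x₀ i) ≠ 0 := by
    rw [hℓ, Pool.Agent.TC.single_dt]
    exact hi
  obtain ⟨Ψ, hΨa, hΨ1, hΨ2, hΨ0⟩ := Phi_inv Q ℓ hℓ0
  obtain ⟨a₀, ha₀⟩ : ∃ a₀ : ℂ, a₀ = dt ℓ (fun i => x₀ i) := ⟨_, rfl⟩
  have hP0 : Phi Q ℓ x₀ = pnt n a₀ 0 1 := Phi_eq_pnt.2 ⟨ha₀.symm, h0, hx.2, hx.1⟩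
  obtain ⟨g, hg⟩ : ∃ g : ℂ × ℂ → EN (n + 2), g = fun p => pnt n (a₀ + p.2) p.1 1 := ⟨_, rfl⟩
  have hga : ∀ p, AnalyticAt ℂ g p := fun p => by
    rw [hg]
    exact analyticAt_pnt (analyticAt_const.add analyticAt_snd) analyticAt_fst analyticAt_const
  have hg0 : g 0 = Phi Q ℓ x₀ := by
    rw [hP0, hg]
    simp
  obtain ⟨s, hs⟩ : ∃ s : ℂ × ℂ → EN (n + 2), s = fun p => Ψ (g p) := ⟨_, rfl⟩
  have hs0 : s 0 = x₀ := by
    rw [hs]
    show Ψ (g 0) = x₀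
    rw [hg0]
    exact hΨ0
  have hsa : AnalyticAt ℂ s 0 := by
    have h1 : AnalyticAt ℂ Ψ (g 0) := by
      rw [hg0]
      exact hΨa
    rw [hs]
    exact h1.comp (hga 0)
  have hℓan : ∀ x : EN (n + 2), AnalyticAt ℂ (fun x : EN (n + 2) => dt ℓ (fun i => x i)) x := fun x => by
    have h1 := Pool.Agent.TC.analyticAt_ev (lin ℓ) (analyticAt_id (𝕜 := ℂ) (z := x))
    refine h1.congr (Filter.Eventually.of_forall fun y => ?_)
    exact ev_lin ℓ y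
  have hqa : AnalyticAt ℂ (fun x : EN (n + 2) => ((ev (Q 0) x, dt ℓ (fun i => x i) - a₀) : ℂ × ℂ)) x₀ :=
    (Pool.Agent.TC.analyticAt_ev (Q 0) analyticAt_id).prod ((hℓan x₀).sub analyticAt_const)
  have hda : AnalyticAt ℂ (fun p => dt ℓ (fun i => nv Q (s p) i)) 0 := analyticAt_dt_nv Q ℓ hsa
  have hd0 : dt ℓ (fun i => nv Q (s 0) i) ≠ 0 := by
    rw [hs0]
    exact hℓ0
  have hWa : AnalyticAt ℂ (fun p => 1 / dt ℓ (fun i => nv Q (s p) i)) 0 := analyticAt_const.div hda hd0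
  have hA : ∀ᶠ p in 𝓝 (0 : ℂ × ℂ), Phi Q ℓ (s p) = pnt n (a₀ + p.2) p.1 1 := by
    have h1 : ∀ᶠ y in 𝓝 (g 0), Phi Q ℓ (Ψ y) = y := by
      rw [hg0]
      exact hΨ2
    have h2 := (hga 0).continuousAt.eventually h1
    refine h2.mono fun p hp => ?_
    rw [hs]
    simp only at hp ⊢
    rw [hp, hg]
  have hB : ∀ᶠ x in 𝓝 x₀, x ∈ Sf Q → s (ev (Q 0) x, dt ℓ (fun i => x i) - a₀) = x := by
    refine hΨ1.mono fun x hx1 hx2 => ?_
    have h1 : Phi Q ℓ x = pnt n (dt ℓ (fun i => x i)) (ev (Q 0) x) 1 := Phi_eq_pnt.2 ⟨rfl, rfl, hx2.2, hx2.1⟩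
    rw [hs, hg]
    simp only [add_sub_cancel]
    rw [← h1]
    exact hx1
  refine mk_ch (b := 0) (s := s) (q := fun x : EN (n + 2) => ((ev (Q 0) x, dt ℓ (fun i => x i) - a₀) : ℂ × ℂ))
    (W := fun p => 1 / dt ℓ (fun i => nv Q (s p) i)) (Nat.zero_le _) hs0 hsa hqa hWa ?_ hB hU
  filter_upwards [hA.eventually_nhds, hsa.eventually_analyticAt, hda.continuousAt.eventually_ne hd0] with p hp1 hp2 hp3
  obtain ⟨e1, e2, e3, e4⟩ := Phi_eq_pnt.1 hp1.self_of_nhds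
  have hnv : nv Q (s p) ≠ 0 := by
    intro h
    apply hp3
    rw [h]
    simp [dt]
  have hj : ∀ j, dt (grad (Q j) (s p)) (fun i => fderiv ℂ s p (0, 1) i) = 0 := by
    intro j
    rcases Nat.lt_or_ge (j : ℕ) 2 with hj | hj
    · rcases Nat.lt_or_ge (j : ℕ) 1 with hj1 | hj1
      · have hj0 : j = 0 := by
          apply Fin.ext
          rw [Fin.val_zero]
          omega
        subst hj0
        rw [dt_grad_fderiv (Q 0) hp2.differentiableAt (h := fun p' => p'.1) (hp1.mono fun p' hp' => (Phi_eq_pnt.1 hp').2.1) (0, 1)]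
        rw [fderiv_fst]
        rfl
      · have hj0 : j = 1 := by
          apply Fin.ext
          rw [Fin.val_one]
          omega
        subst hj0
        rw [dt_grad_fderiv (Q 1) hp2.differentiableAt (h := fun _ => 1) (hp1.mono fun p' hp' => (Phi_eq_pnt.1 hp').2.2.1) (0, 1)]
        simp
    · rw [dt_grad_fderiv (Q j) hp2.differentiableAt (h := fun _ => 0) (hp1.mono fun p' hp' => (Phi_eq_pnt.1 hp').2.2.2 j hj) (0, 1)]
      simp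
  have hl : dt ℓ (fun i => fderiv ℂ s p (0, 1) i) = 1 := by
    have h1 := dt_grad_fderiv (lin ℓ) hp2.differentiableAt (h := fun p' => a₀ + p'.2)
      (hp1.mono fun p' hp' => (ev_lin ℓ (s p')).trans (Phi_eq_pnt.1 hp').1) (0, 1)
    rw [grad_lin] at h1
    rw [h1, fderiv_const_add, fderiv_snd]
    rfl
  have hv := tangent_eq hp3 hj
  rw [hl] at hv
  refine ⟨⟨e4, e3⟩, ?_, ?_, ?_, fun _ => hnv⟩
  · refine Prod.ext e2 ?_
    simp only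
    rw [e1]
    ring
  · rw [e2]
    simp
  · simp only [pow_zero, one_smul, Nat.cast_zero, zero_mul, zero_smul, sub_zero]
    exact hv

end Pool.Agent.EG.TM
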