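import Pool.Agent.EG.TM.Mod

/-!
# EG TM ExM: the family of charts is a model

`exists_model`.  `η` = the minimum of `1/4` and of the numbers of `trans_unif` for all pairs of indices `i`, `j` with different base charts `i.1.1 ≠ j.1.1` (finitely many; the
disjointness is `F.disj`, note that an exchanged chart has `inf = false`), `ρ` = a positive number `≤ η * ‖k i‖ / 8` for all `i` (so `ρ ≤ ‖k i‖`).
`inj`: `s_mem` (`q (s p) = p`) for finite points; for points at infinity `p.2 = p'.2 = 0`, `p.1 = p'.1`.  `w_an`: `w_an`.  `w_bd`: `w` is continuous on the compact set `closedBall 0 2 ⊆ ball 0 3`.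
`trans`: let `Cen p`, `Cen q`, `F.pt i p = F.pt j q`, `u i p ≠ 0`, `‖u i p‖ < ρ`.
(1) `i.1.1 = j.1.1`: if `i ≠ j` then `{i.1.2, j.1.2} = {false, true}`, and the charts are exchanged: `Sw i j` (`Ch.sw_spec`; `a = 1 = b`).
(2) `i.1.1 ≠ j.1.1`: then both points are finite (`inl ≠ inr`, and `inr (i.1.1, _) ≠ inr (j.1.1, _)`), `x = s_i p = s_j q` is in `D_i ∩ D_j` (`s_mem`), `q_i (s_j q) = q_i (s_i p) = p`.  `Rg η i j p q` with
`τ y = q_i (s_j y)`: `trans_unif` and `tr_an`, `tr_w` (all points `y`, `τ y` are finite, `F.pt = inl`).  `F.sep` and its version for the exchanged charts (`‖p.1‖`, `‖p.2‖` are exchanged):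
`s_i p ∉ D_j` if `b_i = 1` and `‖p.1‖, ‖p.2‖ ≤ 1/2`; as `‖p.1‖ < 1/2` (`Cen`) and `s_i p = s_j q ∈ D_j` we have `1/2 ≤ ‖p.2‖`; in the same way `1/2 ≤ ‖q.2‖` if `b_j = 1`; so
`y ≠ 0` for `y ∈ ball q η` if `b_j = 1` (hypothesis `hne` of `tr_w`).  `‖q.1‖ ≤ η / 4`: `‖k_j‖ ‖q.1‖ ‖q.2‖ ^ b_j = ‖u‖ < ρ` (`u_eq` for both charts at the same point),
`‖q.2‖ ^ b_j ≥ 1/2`.
-/

set_option autoImplicit false

open Topology Filter Metric Set

namespace Pool.Agent.EG.TM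

open Pool.Agent.H36.BP (EN)
open Pool.Agent.EG.RS (Model Atl Cen yb yb')

variable {N : ℕ} {S : Set (EN N)} {u : EN N → ℂ} {nv : EN N → EN N} {κ : Type}

private theorem ExM_min {α : Type} [Finite α] (f : α → ℝ) (hf : ∀ a, 0 < f a) :
    ∃ r : ℝ, 0 < r ∧ ∀ a, r ≤ f a := by
  have h : ∀ᶠ r : ℝ in 𝓝[>] 0, ∀ a, r ≤ f a := by
    rw [eventually_all]
    intro a
    exact (eventually_le_nhds (hf a)).filter_mono nhdsWithin_le_nhds
  obtain ⟨r, h1, h2⟩ := (h.and self_mem_nhdsWithin).exists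
  exact ⟨r, h2, h1⟩

private theorem ExM_ch_false (F : Fam S u nv κ) (i : Ix F) (h : i.1.2 = false) : F.ch i = F.c i.1.1 := by
  unfold Fam.ch
  rw [dif_neg]
  rw [h]
  exact Bool.false_ne_true

private theorem ExM_ch_true (F : Fam S u nv κ) (i : Ix F) (h : i.1.2 = true) :
    F.ch i = (F.c i.1.1).sw (i.2 h) := by
  unfold Fam.ch
  rw [dif_pos h]

private theorem ExM_b (F : Fam S u nv κ) (i : Ix F) : (F.ch i).b = (F.c i.1.1).b := by
  cases h : i.1.2 with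
  | false => rw [ExM_ch_false F i h]
  | true => rw [ExM_ch_true F i h, ((F.c i.1.1).sw_spec (i.2 h)).2.1, i.2 h]

private theorem ExM_D (F : Fam S u nv κ) (i : Ix F) : (F.ch i).D = (F.c i.1.1).D := by
  cases h : i.1.2 with
  | false => rw [ExM_ch_false F i h]
  | true => rw [ExM_ch_true F i h, ((F.c i.1.1).sw_spec (i.2 h)).2.2.2.2.1]

private theorem ExM_inf (F : Fam S u nv κ) (i : Ix F) (hi : (F.ch i).inf = true) :
    (F.c i.1.1).inf = true := by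
  cases h : i.1.2 with
  | false =>
    rw [ExM_ch_false F i h] at hi
    exact hi
  | true =>
    rw [ExM_ch_true F i h, ((F.c i.1.1).sw_spec (i.2 h)).1] at hi
    exact absurd hi Bool.false_ne_true

private theorem ExM_disj (F : Fam S u nv κ) (i j : Ix F) (hij : i.1.1 ≠ j.1.1) (hi : (F.ch i).inf = true)
    (hj : (F.ch j).inf = true) : Disjoint (F.ch i).D (F.ch j).D := by
  rw [ExM_D, ExM_D]
  exact F.disj _ _ hij (ExM_inf F i hi) (ExM_inf F j hj)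

private theorem ExM_sep (F : Fam S u nv κ) (i j : Ix F) (hij : i.1.1 ≠ j.1.1) (hb : (F.ch i).b = 1)
    (p : ℂ × ℂ) (h1 : ‖p.1‖ ≤ 1 / 2) (h2 : ‖p.2‖ ≤ 1 / 2) : (F.ch i).s p ∉ (F.ch j).D := by
  rw [ExM_D]
  rw [ExM_b] at hb
  cases h : i.1.2 with
  | false =>
    rw [ExM_ch_false F i h]
    exact F.sep _ _ hij hb p h1 h2
  | true =>
    rw [ExM_ch_true F i h, ((F.c i.1.1).sw_spec (i.2 h)).2.2.1]
    exact F.sep _ _ hij hb p.swap h2 h1

private theorem ExM_noinf (c : Ch S u nv) (hb : c.b = 1) : c.inf = false := by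
  cases h : c.inf with
  | false => rfl
  | true =>
    have := c.b_inf h
    omega

private theorem ExM_pt_fin (F : Fam S u nv κ) (i : Ix F) (p : ℂ × ℂ) (h : (F.ch i).inf = true → p.2 ≠ 0) :
    F.pt i p = Sum.inl ((F.ch i).s p) := by
  classical
  unfold Fam.pt
  rw [if_neg]
  rintro ⟨h1, h2⟩
  exact h h1 h2

private theorem ExM_pt_inf (F : Fam S u nv κ) (i : Ix F) (p : ℂ × ℂ) (h : ¬((F.ch i).inf = true → p.2 ≠ 0)) :
    F.pt i p = Sum.inr (i.1.1, p.1) ∧ p.2 = 0 := by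
  classical
  push Not at h
  unfold Fam.pt
  rw [if_pos h]
  exact ⟨rfl, h.2⟩

private theorem ExM_ball {p : ℂ × ℂ} {r R : ℝ} (hp : p ∈ ball (0 : ℂ × ℂ) r) (h : r ≤ R) :
    p ∈ ball (0 : ℂ × ℂ) R := ball_subset_ball h hp

private theorem ExM_cen {p : ℂ × ℂ} (hp : Cen p) : p ∈ ball (0 : ℂ × ℂ) 1 := by
  rw [mem_ball_zero_iff, Prod.norm_def]
  exact max_lt (by have := hp.1; linarith) hp.2

private theorem ExM_inj (F : Fam S u nv κ) (i : Ix F) : InjOn (F.pt i) (ball 0 2) := by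
  intro p hp p' hp' h
  by_cases h1 : (F.ch i).inf = true → p.2 ≠ 0
  · rw [ExM_pt_fin F i p h1] at h
    by_cases h2 : (F.ch i).inf = true → p'.2 ≠ 0
    · rw [ExM_pt_fin F i p' h2] at h
      have h3 := Sum.inl.inj h
      have e1 := ((F.ch i).s_mem p (ExM_ball hp (by norm_num)) h1).2.2
      have e2 := ((F.ch i).s_mem p' (ExM_ball hp' (by norm_num)) h2).2.2
      rw [← e1, ← e2, h3]
    · rw [(ExM_pt_inf F i p' h2).1] at h
      exact absurd h (by simp)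
  · obtain ⟨e1, e2⟩ := ExM_pt_inf F i p h1
    rw [e1] at h
    by_cases h2 : (F.ch i).inf = true → p'.2 ≠ 0
    · rw [ExM_pt_fin F i p' h2] at h
      exact absurd h (by simp)
    · obtain ⟨e3, e4⟩ := ExM_pt_inf F i p' h2
      rw [e3] at h
      have h3 := Sum.inr.inj h
      exact Prod.ext (Prod.ext_iff.1 h3).2 (e2.trans e4.symm)

/-- the exchanged charts -/
private theorem ExM_sw (F : Fam S u nv κ) (i j : Ix F) (h : i.1.1 = j.1.1) (hi : i.1.2 = false)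
    (hj : j.1.2 = true) : F.atl.Sw i j ∧ F.atl.Sw j i := by
  have hb : (F.c i.1.1).b = 1 := by
    rw [h]
    exact j.2 hj
  have hc : (F.ch i) = F.c i.1.1 := ExM_ch_false F i hi
  have hcc : F.c i.1.1 = F.c j.1.1 := by rw [h]
  have hbi : (F.ch i).b = 1 := by rw [ExM_b, hb]
  have hbj : (F.ch j).b = 1 := by rw [ExM_b, ← hcc, hb]
  obtain ⟨h3, h6, h7⟩ : (∀ p, (F.ch j).s p = (F.ch i).s p.swap) ∧ (F.ch j).k = (F.ch i).k ∧
      ∀ p, (F.ch j).w p = -(F.ch i).w p.swap := by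
    rw [hc, hcc, ExM_ch_true F j hj]
    obtain ⟨_, _, h3, _, _, h6, h7⟩ := (F.c j.1.1).sw_spec (j.2 hj)
    exact ⟨h3, h6, h7⟩
  have hni := ExM_noinf _ hbi
  have hnj := ExM_noinf _ hbj
  have hpi : ∀ p, F.pt i p = Sum.inl ((F.ch i).s p) := fun p =>
    ExM_pt_fin F i p fun h' => absurd (hni.symm.trans h') Bool.false_ne_true
  have hpj : ∀ p, F.pt j p = Sum.inl ((F.ch j).s p) := fun p =>
    ExM_pt_fin F j p fun h' => absurd (hnj.symm.trans h') Bool.false_ne_true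
  constructor
  · refine ⟨?_, ?_, ?_, ?_, fun p _ => ⟨?_, ?_⟩⟩
    · show 1 ≤ (F.ch i).b
      omega
    · show 1 = (F.ch i).b
      omega
    · show (F.ch j).b = 1
      omega
    · exact h6
    · show F.pt j p = F.pt i p.swap
      rw [hpi, hpj, h3]
    · exact h7 p
  · refine ⟨?_, ?_, ?_, ?_, fun p _ => ⟨?_, ?_⟩⟩
    · show 1 ≤ (F.ch j).b
      omega
    · show 1 = (F.ch j).b
      omega
    · show (F.ch i).b = 1
      omega
    · exact h6.symm
    · show F.pt i p = F.pt j p.swap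
      rw [hpi, hpj, h3, Prod.swap_swap]
    · show (F.ch i).w p = -(F.ch j).w p.swap
      rw [h7, Prod.swap_swap, neg_neg]

/-- different base charts -/
private theorem ExM_rg (F : Fam S u nv κ) {η ρ : ℝ} (hη : 0 < η) (hη4 : η ≤ 1 / 4) {i j : Ix F} {p q : ℂ × ℂ}
    (hij : i.1.1 ≠ j.1.1)
    (hun : ∀ x ∈ closedBall (0 : ℂ × ℂ) 1, ((F.ch j).inf = true → x.2 ≠ 0) → (F.ch j).s x ∈ (F.ch i).D →
      (F.ch i).q ((F.ch j).s x) ∈ closedBall (0 : ℂ × ℂ) 1 →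
      ∀ y ∈ ball x η, y ∈ ball (0 : ℂ × ℂ) 2 ∧ ((F.ch j).inf = true → y.2 ≠ 0) ∧ (F.ch j).s y ∈ (F.ch i).D ∧
        ‖(F.ch i).q ((F.ch j).s y) - (F.ch i).q ((F.ch j).s x)‖ < 1 / 4)
    (hρ : ρ ≤ η * ‖(F.ch j).k‖ / 8) (hp : Cen p) (hq : Cen q) (h : F.pt i p = F.pt j q) (hu : ‖F.atl.u i p‖ < ρ) :
    F.atl.Rg η i j p q := by
  have hfi : (F.ch i).inf = true → p.2 ≠ 0 := by
    by_contra hcon
    rw [(ExM_pt_inf F i p hcon).1] at h
    by_cases h2 : (F.ch j).inf = true → q.2 ≠ 0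
    · rw [ExM_pt_fin F j q h2] at h
      exact absurd h (by simp)
    · rw [(ExM_pt_inf F j q h2).1] at h
      exact hij (Prod.ext_iff.1 (Sum.inr.inj h)).1
  have hfj : (F.ch j).inf = true → q.2 ≠ 0 := by
    by_contra hcon
    rw [ExM_pt_fin F i p hfi, (ExM_pt_inf F j q hcon).1] at h
    exact absurd h (by simp)
  rw [ExM_pt_fin F i p hfi, ExM_pt_fin F j q hfj] at h
  have hs := Sum.inl.inj h
  have hp1 := ExM_cen hp
  have hq1 := ExM_cen hq
  have hp3 : p ∈ ball (0 : ℂ × ℂ) 3 := ExM_ball hp1 (by norm_num)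
  have hq3 : q ∈ ball (0 : ℂ × ℂ) 3 := ExM_ball hq1 (by norm_num)
  obtain ⟨mp1, mp2, mp3⟩ := (F.ch i).s_mem p hp3 hfi
  obtain ⟨mq1, mq2, mq3⟩ := (F.ch j).s_mem q hq3 hfj
  have hqp : (F.ch i).q ((F.ch j).s q) = p := by rw [← hs, mp3]
  have hU := hun q (ball_subset_closedBall hq1) hfj (by rw [← hs]; exact mp2)
    (by rw [hqp]; exact ball_subset_closedBall hp1)
  have hbi := (F.ch i).b_le
  have hbj := (F.ch j).b_le
  have hp2 : 1 ≤ (F.ch i).b → 1 / 2 ≤ ‖p.2‖ := by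
    intro hb
    by_contra hcon
    push Not at hcon
    exact ExM_sep F i j hij (by omega) p hp.1.le hcon.le (by rw [hs]; exact mq2)
  have hq2 : 1 ≤ (F.ch j).b → 1 / 2 ≤ ‖q.2‖ := by
    intro hb
    by_contra hcon
    push Not at hcon
    exact ExM_sep F j i (fun h' => hij h'.symm) (by omega) q hq.1.le hcon.le (by rw [← hs]; exact mp2)
  refine ⟨fun y => (F.ch i).q ((F.ch j).s y), hqp, fun y hy => ?_, hp2, hq2, ?_⟩
  · obtain ⟨y2, yf, yD, yn⟩ := hU y hy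
    have y3 : y ∈ ball (0 : ℂ × ℂ) 3 := ExM_ball y2 (by norm_num)
    obtain ⟨t1, t2, t3, t4, t5⟩ := tr_an (F.ch i) (F.ch j) y3 yf yD
    refine ⟨t1, ?_, ?_, ?_, ?_⟩
    · rw [mem_ball_iff_norm]
      rw [hqp] at yn
      exact yn
    · show F.pt j y = F.pt i _
      rw [ExM_pt_fin F j y yf, ExM_pt_fin F i _ t3, t4]
    · show (F.ch i).k * _ ^ 1 * _ ^ (F.ch i).b = (F.ch j).k * _ ^ 1 * _ ^ (F.ch j).b
      rw [pow_one, pow_one]
      exact t5
    · refine tr_w (F.ch i) (F.ch j) y3 yf yD fun hb hy0 => ?_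
      have h1 := hq2 (by omega)
      rw [hy0, mem_ball_iff_norm, zero_sub, norm_neg, Prod.norm_def] at hy
      have h2 := le_max_right ‖q.1‖ ‖q.2‖
      linarith
  · have e1 := (F.ch i).u_eq p hp3 hfi
    have e2 := (F.ch j).u_eq q hq3 hfj
    rw [hs] at e1
    have e3 : F.atl.u i p = (F.ch j).k * q.1 * q.2 ^ (F.ch j).b := by
      show (F.ch i).k * p.1 ^ 1 * p.2 ^ (F.ch i).b = _
      rw [pow_one, ← e1, e2]
    rw [e3, norm_mul, norm_mul, norm_pow] at hu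
    have hk : 0 < ‖(F.ch j).k‖ := norm_pos_iff.2 (F.ch j).k_ne
    have h5 : 1 / 2 ≤ ‖q.2‖ ^ (F.ch j).b := by
      rcases Nat.eq_zero_or_pos (F.ch j).b with hb | hb
      · rw [hb, pow_zero]
        norm_num
      · have hb1 : (F.ch j).b = 1 := by omega
        rw [hb1, pow_one]
        exact hq2 hb
    have h6 : ‖(F.ch j).k‖ * ‖q.1‖ * (1 / 2) ≤ ‖(F.ch j).k‖ * ‖q.1‖ * ‖q.2‖ ^ (F.ch j).b :=
      mul_le_mul_of_nonneg_left h5 (by positivity)
    have h7 : ‖(F.ch j).k‖ * ‖q.1‖ < ‖(F.ch j).k‖ * (η / 4) := by linarith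
    exact (lt_of_mul_lt_mul_left h7 hk.le).le

theorem exists_model (F : Fam S u nv κ) : ∃ M : Model (Ix F) (EN N ⊕ (κ × ℂ)), M.toAtl = F.atl := by
  have hfin := F.finite_ix
  have hpair : ∀ a : Ix F × Ix F, ∃ η : ℝ, 0 < η ∧ η ≤ 1 / 4 ∧ (a.1.1.1 ≠ a.2.1.1 →
      ∀ x ∈ closedBall (0 : ℂ × ℂ) 1, ((F.ch a.2).inf = true → x.2 ≠ 0) → (F.ch a.2).s x ∈ (F.ch a.1).D →
      (F.ch a.1).q ((F.ch a.2).s x) ∈ closedBall (0 : ℂ × ℂ) 1 →
      ∀ y ∈ ball x η, y ∈ ball (0 : ℂ × ℂ) 2 ∧ ((F.ch a.2).inf = true → y.2 ≠ 0) ∧ (F.ch a.2).s y ∈ (F.ch a.1).D ∧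
        ‖(F.ch a.1).q ((F.ch a.2).s y) - (F.ch a.1).q ((F.ch a.2).s x)‖ < 1 / 4) := by
    intro a
    by_cases h : a.1.1.1 = a.2.1.1
    · exact ⟨1 / 4, by norm_num, le_rfl, fun h' => absurd h h'⟩
    · obtain ⟨η, h1, h2, h3⟩ := trans_unif (F.ch a.1) (F.ch a.2) (ExM_disj F _ _ h)
      exact ⟨η, h1, h2, fun _ => h3⟩
  choose f hf1 hf2 hf3 using hpair
  obtain ⟨η₀, hη₀, hη₀'⟩ := ExM_min f hf1
  obtain ⟨η, hη⟩ : ∃ η : ℝ, η = min η₀ (1 / 4) := ⟨_, rfl⟩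
  have hη1 : 0 < η := by
    rw [hη]
    exact lt_min hη₀ (by norm_num)
  have hη2 : η ≤ 1 / 4 := by
    rw [hη]
    exact min_le_right _ _
  have hη3 : ∀ a, η ≤ f a := fun a => by
    rw [hη]
    exact (min_le_left _ _).trans (hη₀' a)
  obtain ⟨ρ, hρ1, hρ2⟩ := ExM_min (fun i : Ix F => η * ‖(F.ch i).k‖ / 8) fun i => by
    have := norm_pos_iff.2 (F.ch i).k_ne
    positivity
  refine ⟨⟨F.atl, ρ, η, hρ1, fun i => ?_, hη1, hη2, fun i => le_rfl, fun i => ExM_inj F i,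
    fun i p hp => (F.ch i).w_an p (ExM_ball hp (by norm_num)), fun i => ?_,
    fun i j p q hp hq h _ hu => ?_⟩, rfl⟩
  · refine (hρ2 i).trans ?_
    show η * ‖(F.ch i).k‖ / 8 ≤ ‖(F.ch i).k‖
    have := norm_nonneg (F.ch i).k
    nlinarith
  · obtain ⟨C, hC⟩ := (isCompact_closedBall (0 : ℂ × ℂ) 2).exists_bound_of_continuousOn (f := (F.ch i).w)
      fun p hp => ((F.ch i).w_an p (by
        rw [mem_ball_zero_iff]
        rw [mem_closedBall_zero_iff] at hp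
        linarith)).continuousAt.continuousWithinAt
    exact ⟨C, fun p hp => hC p (ball_subset_closedBall hp)⟩
  · by_cases hij : i.1.1 = j.1.1
    · cases hi : i.1.2 with
      | false =>
        cases hj : j.1.2 with
        | false => exact Or.inl (Subtype.ext (Prod.ext hij (hi.trans hj.symm)))
        | true => exact Or.inr (Or.inl (ExM_sw F i j hij hi hj).1)
      | true =>
        cases hj : j.1.2 with
        | false => exact Or.inr (Or.inl (ExM_sw F j i hij.symm hj hi).2)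
        | true => exact Or.inl (Subtype.ext (Prod.ext hij (hi.trans hj.symm)))
    · refine Or.inr (Or.inr (ExM_rg F hη1 hη2 hij ?_ (hρ2 j) hp hq h hu))
      intro x h1 h2 h3 h4 y hy
      exact hf3 (i, j) hij x h1 h2 h3 h4 y (ball_subset_ball (hη3 (i, j)) hy)

end Pool.Agent.EG.TM
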