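import Pool.Agent.EG.TM.ChI
import Pool.Agent.EG.TM.BaseF

/-!
# EG TM FamI: finitely many charts at infinity cover the far part of the surface near the fibre

`P = {x | ‖x‖ = 1 ∧ OnV Q x ∧ F₁ x = 0 ∧ F₂ x = 0}` is compact, `pr '' P` is finite (`base_finite`).
`exists_inf`.  Let `κ = pr '' P` (as a type; finite), for `i : κ` choose `b i ∈ P` with `pr (b i) = i`, `ε > 0` with `2 ε ≤ ‖i - j‖` for all `i ≠ j` (finitely many; `ε = 1` if there are no pairs), `c i` = the chart of `chart_inf` for `b i`, `R`, `ε`, with the numbers `ε' i`, `ρ i`, `R' i`.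
Disjoint: `‖pr x - i‖ < ε` and `‖pr x - j‖ < ε` contradict `2 ε ≤ ‖i - j‖`.
Covering: suppose that it is false: for every `k : ℕ` there is `x k ∈ Sf Q` with `k < ‖x k‖`, `‖F₁ (x k)‖ < 1 / (k + 1)` and not covered.  `y k = ‖x k‖⁻¹ • x k`, subsequence `y k → y`, `‖y‖ = 1`; `F₂ (y k) = ‖x k‖ ^ (- e 1) → 0`, `F₁ (y k) = ‖x k‖ ^ (- e 0) F₁ (x k) → 0` (`ev_smul`), `OnV`: `y ∈ P`.
`i = pr y`: `pr (x k) = pr (y k) → pr y = pr (b i)` (`pr_smul`, `continuousAt_pr`), so for large `k` the point `x k` is covered by the chart `i`: contradiction.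
-/

set_option autoImplicit false

open Topology Filter Metric Set

namespace Pool.Agent.EG.TM

open Pool.Agent.TC (ev grad OnV nv cross dt)
open Pool.Agent.H36.BP (EN)
open Pool.Agent.H62.EF (pr)

variable {n : ℕ} {Q : Fin (n + 2) → MvPolynomial (Fin (n + 3)) ℂ} {e : Fin (n + 2) → ℕ}

theorem exists_inf (h : LS Q e) (R : ℝ) : ∃ (κ : Type) (c : κ → Ch (Sf Q) (ev (Q 0)) (nv Q)), Finite κ ∧
    (∀ i, (c i).inf = true ∧ ∀ x ∈ (c i).D, R < ‖x‖) ∧ (∀ i j, i ≠ j → Disjoint (c i).D (c j).D) ∧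
      ∃ R' ρ : ℝ, 0 < ρ ∧ ∀ x ∈ Sf Q, R' < ‖x‖ → ‖ev (Q 0) x‖ < ρ → ∃ i, x ∈ (c i).D ∧ CenS ((c i).q x) := by
  have hfin := base_finite h
  set P : Set (EN (n + 2)) := {x : EN (n + 2) | ‖x‖ = 1 ∧ OnV Q x ∧ ev (Q 0) x = 0 ∧ ev (Q 1) x = 0} with hP
  have hF : Finite (pr '' P : Set _) := hfin
  have hb : ∀ i : (pr '' P : Set _), ∃ b : EN (n + 2), b ∈ P ∧ pr b = i.1 := fun i => i.2
  choose b hbP hbi using hb
  have hbne : ∀ i, b i ≠ 0 := by
    intro i hi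
    have h1 := (hbP i).1
    rw [hi, norm_zero] at h1
    exact zero_ne_one h1
  -- the separation
  obtain ⟨ε, hε, hεs⟩ : ∃ ε : ℝ, 0 < ε ∧ ∀ p : (pr '' P : Set _) × (pr '' P : Set _), p.1 ≠ p.2 →
      2 * ε ≤ ‖(p.1.1 - p.2.1)‖ := by
    have h1 : ∀ p : (pr '' P : Set _) × (pr '' P : Set _), ∀ᶠ ε : ℝ in 𝓝[>] 0, p.1 ≠ p.2 →
        2 * ε ≤ ‖(p.1.1 - p.2.1)‖ := by
      intro p
      by_cases hp : p.1 = p.2
      · exact Eventually.of_forall fun ε hne => absurd hp hne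
      · have h2 : 0 < ‖(p.1.1 - p.2.1)‖ := norm_pos_iff.mpr (sub_ne_zero.mpr fun h => hp (Subtype.ext h))
        have h3 : Tendsto (fun ε : ℝ => 2 * ε) (𝓝[>] 0) (𝓝 (2 * 0)) :=
          ((continuous_const.mul continuous_id).tendsto (0 : ℝ)).mono_left nhdsWithin_le_nhds
        rw [mul_zero] at h3
        filter_upwards [h3.eventually (gt_mem_nhds h2)] with ε hε _
        exact hε.le
    have h4 := eventually_all.mpr h1
    obtain ⟨ε, h5, h6⟩ := (h4.and (self_mem_nhdsWithin : Ioi (0 : ℝ) ∈ 𝓝[>] 0)).exists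
    exact ⟨ε, h6, h5⟩
  have hch := fun i => chart_inf h (hbne i) (hbP i).2.1 (hbP i).2.2.1 (hbP i).2.2.2 R hε
  choose c hcinf hcD ε' ρ R' hε' hρ hcov using hch
  refine ⟨(pr '' P : Set _), c, hF, fun i => ⟨hcinf i, fun x hx => (hcD i x hx).1⟩, ?_, ?_⟩
  · intro i j hij
    rw [Set.disjoint_left]
    intro x hi hj
    have h1 := (hcD i x hi).2
    have h2 := (hcD j x hj).2
    rw [hbi] at h1 h2
    have h3 := hεs (i, j) hij
    have h4 : i.1 - j.1 = (pr x - j.1) - (pr x - i.1) := by abel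
    have h5 : ‖(i.1 - j.1)‖ ≤ ‖pr x - j.1‖ + ‖pr x - i.1‖ := by
      rw [h4]
      exact norm_sub_le _ _
    have h6 : 2 * ε ≤ ‖(i.1 - j.1)‖ := h3
    linarith
  · by_contra hcon
    push Not at hcon
    have hex : ∀ k : ℕ, ∃ x ∈ Sf Q, (k : ℝ) < ‖x‖ ∧ ‖ev (Q 0) x‖ < 1 / ((k : ℝ) + 1) ∧
        ∀ i, x ∈ (c i).D → ¬ CenS ((c i).q x) := by
      intro k
      obtain ⟨x, hx, h1, h2, h3⟩ := hcon k (1 / ((k : ℝ) + 1)) (by positivity)
      exact ⟨x, hx, h1, h2, h3⟩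
    choose x hxS hxk hx0 hxc using hex
    have hxpos : ∀ k, 0 < ‖x k‖ := fun k => lt_of_le_of_lt (Nat.cast_nonneg k) (hxk k)
    have hxinf : Tendsto (fun k => ‖x k‖) atTop atTop :=
      tendsto_atTop_mono (fun k => (hxk k).le) tendsto_natCast_atTop_atTop
    have hxinv : Tendsto (fun k => (((‖x k‖⁻¹ : ℝ)) : ℂ)) atTop (𝓝 0) := by
      have h1 := hxinf.inv_tendsto_atTop
      have h2 := (Complex.continuous_ofReal.tendsto 0).comp h1
      rw [Complex.ofReal_zero] at h2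
      exact h2
    have hF0 : Tendsto (fun k => ev (Q 0) (x k)) atTop (𝓝 0) :=
      squeeze_zero_norm (fun k => (hx0 k).le) tendsto_one_div_add_atTop_nhds_zero_nat
    have hcne : ∀ k, (((‖x k‖⁻¹ : ℝ)) : ℂ) ≠ 0 := fun k =>
      Complex.ofReal_ne_zero.mpr (inv_ne_zero (hxpos k).ne')
    have hys : ∀ k, (((‖x k‖⁻¹ : ℝ)) : ℂ) • x k ∈ sphere (0 : EN (n + 2)) 1 := by
      intro k
      rw [mem_sphere_zero_iff_norm, norm_smul, Complex.norm_real, norm_inv, norm_norm, inv_mul_cancel₀ (hxpos k).ne']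
    obtain ⟨y, hy, φ, hφ, hlim⟩ := (isCompact_sphere (0 : EN (n + 2)) 1).tendsto_subseq hys
    have hlim' : Tendsto (fun k => (((‖x (φ k)‖⁻¹ : ℝ)) : ℂ) • x (φ k)) atTop (𝓝 y) := hlim
    have hφt := hφ.tendsto_atTop
    have hevl : ∀ j, Tendsto (fun k => (((‖x (φ k)‖⁻¹ : ℝ)) : ℂ) ^ e j * ev (Q j) (x (φ k))) atTop (𝓝 (ev (Q j) y)) := by
      intro j
      have h1 := ((Pool.Agent.TC.continuous_ev (Q j)).tendsto y).comp hlim'
      refine h1.congr fun k => ?_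
      exact Pool.Agent.TC.ev_smul (h.hom j) _ _
    have hyne : y ≠ 0 := by
      intro h0
      rw [h0, mem_sphere_zero_iff_norm, norm_zero] at hy
      exact zero_ne_one hy
    have hpow : ∀ j, Tendsto (fun k => (((‖x (φ k)‖⁻¹ : ℝ)) : ℂ) ^ e j) atTop (𝓝 0) := by
      intro j
      have h1 := (hxinv.comp hφt).pow (e j)
      rw [zero_pow (by have := h.pos j; omega)] at h1
      exact h1
    have hyV : OnV Q y := by
      intro j hj
      refine tendsto_nhds_unique (hevl j) ?_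
      have h1 : (fun k => (((‖x (φ k)‖⁻¹ : ℝ)) : ℂ) ^ e j * ev (Q j) (x (φ k))) = fun _ => 0 := by
        funext k
        rw [(hxS (φ k)).1 j hj, mul_zero]
      rw [h1]
      exact tendsto_const_nhds
    have hy0 : ev (Q 0) y = 0 := by
      refine tendsto_nhds_unique (hevl 0) ?_
      have h1 := (hpow 0).mul (hF0.comp hφt)
      rw [mul_zero] at h1
      exact h1
    have hy1 : ev (Q 1) y = 0 := by
      refine tendsto_nhds_unique (hevl 1) ?_
      have h1 : (fun k => (((‖x (φ k)‖⁻¹ : ℝ)) : ℂ) ^ e 1 * ev (Q 1) (x (φ k))) =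
          fun k => (((‖x (φ k)‖⁻¹ : ℝ)) : ℂ) ^ e 1 := by
        funext k
        rw [(hxS (φ k)).2, mul_one]
      rw [h1]
      exact hpow 1
    have hyP : y ∈ P := ⟨mem_sphere_zero_iff_norm.mp hy, hyV, hy0, hy1⟩
    have hprl : Tendsto (fun k => pr (x (φ k))) atTop (𝓝 (pr y)) := by
      have h1 := (Pool.Agent.H62.EF.continuousAt_pr hyne).tendsto.comp hlim'
      refine h1.congr fun k => ?_
      exact Pool.Agent.H62.EF.pr_smul _ (hcne (φ k))
    have hev1 := hprl.eventually (Metric.ball_mem_nhds (pr y) (hε' ⟨pr y, mem_image_of_mem _ hyP⟩))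
    have hev2 := (hxinf.comp hφt).eventually_gt_atTop (R' ⟨pr y, mem_image_of_mem _ hyP⟩)
    have hev3 : ∀ᶠ k in atTop, ‖ev (Q 0) (x (φ k))‖ < ρ ⟨pr y, mem_image_of_mem _ hyP⟩ := by
      have h1 := (hF0.comp hφt).norm
      rw [norm_zero] at h1
      exact h1.eventually (gt_mem_nhds (hρ _))
    obtain ⟨k, hk1, hk2, hk3⟩ := (hev1.and (hev2.and hev3)).exists
    have hk4 : ‖pr (x (φ k)) - pr (b ⟨pr y, mem_image_of_mem _ hyP⟩)‖ < ε' ⟨pr y, mem_image_of_mem _ hyP⟩ := by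
      rw [hbi, ← dist_eq_norm]
      exact hk1
    obtain ⟨h7, h8⟩ := hcov ⟨pr y, mem_image_of_mem _ hyP⟩ (x (φ k)) (hxS (φ k)) hk2 hk3 hk4
    exact hxc (φ k) ⟨pr y, mem_image_of_mem _ hyP⟩ h7 h8

end Pool.Agent.EG.TM
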