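import Pool.Agent.EG.TM.Pnt

/-!
# EG TM InfG: the surface near a point at infinity

`nv_hom`: `grad (Q j) (c • x) = c ^ (e j - 1) • grad (Q j) x` (`grad_smul`), `cross_smul`; compare `nv_smul` in `TC/Cmp.lean`.   `two_le`: from `deg` and `pos`.

`b₀ ≠ 0`, `OnV Q b₀`, `F₁ b₀ = F₂ b₀ = 0`.  `nv Q b₀ = a • b₀`, `a ≠ 0` (`nv_base`).  Choose a coordinate `i` with `b₀ i ≠ 0` and `ℓ = (b₀ i)⁻¹ • Pi.single i 1`, so `ℓ b₀ = 1` and `dt ℓ (nv Q b₀) = a ≠ 0`.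
`Ψ` from `Phi_inv`, `Phi Q ℓ b₀ = pnt 1 0 0`, `Ψ (pnt 1 0 0) = b₀`.  Let `V` be an open neighbourhood of `b₀` such that for `x ∈ V`: `Ψ (Phi Q ℓ x) = x`, `dt ℓ (nv Q x) ≠ 0`, `‖b₀‖ / 2 ≤ ‖x‖ ≤ 2 ‖b₀‖`, `ℓ x ≠ 0` and
`‖pr x - pr b₀‖ < ε` (`continuousAt_pr`).

`inf_germ`: `V'` = an open neighbourhood of `b₀` with `V' ⊆ V` and `Ψ (Phi Q ℓ x) = x` for `x ∈ V'`.  For small `r > 0`, `r < r₁`, the function `ζ p = Ψ (pnt 1 (r p.1 (r p.2) ^ e 0) ((r p.2) ^ e 1))` is analytic on `ball 0 3`,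
`ζ p ∈ V'`, `Phi Q ℓ (ζ p) = pnt 1 (r p.1 (r p.2) ^ e 0) ((r p.2) ^ e 1)`: all of these are conditions on the vector `y = pnt 1 (r p.1 (r p.2) ^ e 0) ((r p.2) ^ e 1)` which hold for `y` near `pnt 1 0 0` (`Ψ` is analytic near `pnt 1 0 0`, `Ψ y ∈ V'`, `Phi Q ℓ (Ψ y) = y`),
and `y → pnt 1 0 0` uniformly for `p ∈ ball 0 3` as `r → 0` because `e 0, e 1 ≥ 1` (`‖r p.i‖ ≤ 3 r`).  The last claim: `x = Ψ (Phi Q ℓ x) = Ψ (pnt …) = ζ p`.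
-/

set_option autoImplicit false

open Topology Filter Metric Set

namespace Pool.Agent.EG.TM

open Pool.Agent.TC (ev grad OnV nv cross dt)
open Pool.Agent.H36.BP (EN)

variable {n : ℕ} {Q : Fin (n + 2) → MvPolynomial (Fin (n + 3)) ℂ} {e : Fin (n + 2) → ℕ}

theorem nv_hom (h : LS Q e) (c : ℂ) (x : EN (n + 2)) : nv Q (c • x) = c ^ (∑ j, (e j - 1)) • nv Q x := by
  have h1 : (fun j => grad (Q j) (c • x)) = fun j => c ^ (e j - 1) • grad (Q j) x :=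
    funext fun j => Pool.Agent.TC.grad_smul (h.pos j) (h.hom j) c x
  rw [nv, nv, h1, Pool.Agent.TC.cross_smul, Finset.prod_pow_eq_pow_sum]
  rfl

theorem two_le (h : LS Q e) : 2 ≤ ∑ j, (e j - 1) := by
  have h1 : ∑ j, (e j - 1) + ∑ _j : Fin (n + 2), 1 = ∑ j, e j := by
    rw [← Finset.sum_add_distrib]
    exact Finset.sum_congr rfl fun j _ => by have := h.pos j; omega
  have h2 : ∑ _j : Fin (n + 2), 1 = n + 2 := by simp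
  have := h.deg
  omega

theorem inf_germ (h : LS Q e) {ℓ : Fin (n + 3) → ℂ} {b₀ : EN (n + 2)} (hb : Phi Q ℓ b₀ = pnt n 1 0 0) (hn : dt ℓ (fun i => nv Q b₀ i) ≠ 0)
    {V : Set (EN (n + 2))} (hV : V ∈ 𝓝 b₀) {r₁ : ℝ} (hr₁ : 0 < r₁) : ∃ (r : ℝ) (ζ : ℂ × ℂ → EN (n + 2)) (V' : Set (EN (n + 2))), 0 < r ∧ r < r₁ ∧ IsOpen V' ∧ V' ⊆ V ∧ b₀ ∈ V' ∧
      (∀ p ∈ ball (0 : ℂ × ℂ) 3, AnalyticAt ℂ ζ p ∧ ζ p ∈ V' ∧ Phi Q ℓ (ζ p) = pnt n 1 (r * p.1 * (r * p.2) ^ e 0) ((r * p.2) ^ e 1)) ∧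
      ∀ x ∈ V', ∀ p ∈ ball (0 : ℂ × ℂ) 3, Phi Q ℓ x = pnt n 1 (r * p.1 * (r * p.2) ^ e 0) ((r * p.2) ^ e 1) → x = ζ p := by
  obtain ⟨Ψ, hΨ, hl, hr, h0⟩ := Phi_inv Q ℓ hn
  rw [hb] at hΨ hr h0
  obtain ⟨V', hV', hV'o, hbV'⟩ := _root_.mem_nhds_iff.1 (Filter.inter_mem hV hl)
  have hC : ∀ᶠ y in 𝓝 (pnt n 1 0 0), AnalyticAt ℂ Ψ y ∧ Ψ y ∈ V' ∧ Phi Q ℓ (Ψ y) = y := by
    refine hΨ.eventually_analyticAt.and (Filter.Eventually.and ?_ hr)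
    refine hΨ.continuousAt.eventually_mem ?_
    rw [h0]
    exact hV'o.mem_nhds hbV'
  have hG : ContinuousAt (fun q : ℂ × ℂ => pnt n 1 q.1 q.2) (0, 0) :=
    (analyticAt_pnt (n := n) (a := fun _ => 1) (α := fun q : ℂ × ℂ => q.1) (β := fun q => q.2) (p := (0, 0))
      analyticAt_const analyticAt_fst analyticAt_snd).continuousAt
  have hC' : ∀ᶠ q in 𝓝 ((0, 0) : ℂ × ℂ), AnalyticAt ℂ Ψ (pnt n 1 q.1 q.2) ∧ Ψ (pnt n 1 q.1 q.2) ∈ V' ∧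
      Phi Q ℓ (Ψ (pnt n 1 q.1 q.2)) = pnt n 1 q.1 q.2 := hG.eventually hC
  obtain ⟨η, hη, hball⟩ := Metric.eventually_nhds_iff.1 hC'
  set r : ℝ := min (r₁ / 2) (min (1 / 6) (η / 6)) with hrdef
  have hr0 : 0 < r := by
    rw [hrdef]
    refine lt_min (by linarith) (lt_min (by norm_num) (by linarith))
  have hr1 : r < r₁ := (min_le_left _ _).trans_lt (by linarith)
  have hr6 : r ≤ 1 / 6 := (min_le_right _ _).trans (min_le_left _ _)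
  have hrη : r ≤ η / 6 := (min_le_right _ _).trans (min_le_right _ _)
  have hsmall : ∀ p ∈ ball (0 : ℂ × ℂ) 3, dist (((r : ℂ) * p.1 * ((r : ℂ) * p.2) ^ e 0, ((r : ℂ) * p.2) ^ e 1) : ℂ × ℂ) (0, 0) < η := by
    intro p hp
    rw [mem_ball_zero_iff] at hp
    have hp1 : ‖p.1‖ ≤ 3 := (norm_fst_le p).trans hp.le
    have hp2 : ‖p.2‖ ≤ 3 := (norm_snd_le p).trans hp.le
    have hrp : ∀ z : ℂ, ‖z‖ ≤ 3 → ‖(r : ℂ) * z‖ ≤ 3 * r := by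
      intro z hz
      rw [norm_mul, Complex.norm_real, Real.norm_eq_abs, abs_of_pos hr0]
      nlinarith
    have h3r : 3 * r ≤ 1 := by linarith
    have hpow : ∀ k : ℕ, 1 ≤ k → ‖((r : ℂ) * p.2) ^ k‖ ≤ 3 * r := by
      intro k hk
      rw [norm_pow]
      have h4 := hrp p.2 hp2
      calc ‖(r : ℂ) * p.2‖ ^ k ≤ ‖(r : ℂ) * p.2‖ ^ 1 := pow_le_pow_of_le_one (norm_nonneg _) (h4.trans h3r) hk
        _ ≤ 3 * r := by rw [pow_one]; exact h4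
    rw [Prod.dist_eq]
    simp only [dist_zero_right]
    refine max_lt ?_ ?_
    · rw [norm_mul]
      have h5 := hrp p.1 hp1
      have h6 := hpow (e 0) (h.pos 0)
      have h7 : ‖(r : ℂ) * p.1‖ * ‖((r : ℂ) * p.2) ^ e 0‖ ≤ (3 * r) * 1 :=
        mul_le_mul h5 (h6.trans h3r) (norm_nonneg _) (by linarith)
      linarith
    · have h6 := hpow (e 1) (h.pos 1)
      linarith
  refine ⟨r, fun p => Ψ (pnt n 1 ((r : ℂ) * p.1 * ((r : ℂ) * p.2) ^ e 0) (((r : ℂ) * p.2) ^ e 1)), V', hr0, hr1, hV'o,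
    fun x hx => (hV' hx).1, hbV', ?_, ?_⟩
  · intro p hp
    obtain ⟨ha, hm, he⟩ := hball (hsmall p hp)
    refine ⟨?_, hm, he⟩
    have hpn : AnalyticAt ℂ (fun p : ℂ × ℂ => pnt n 1 ((r : ℂ) * p.1 * ((r : ℂ) * p.2) ^ e 0) (((r : ℂ) * p.2) ^ e 1)) p :=
      analyticAt_pnt (a := fun _ => 1) analyticAt_const
        ((analyticAt_const.mul analyticAt_fst).mul ((analyticAt_const.mul analyticAt_snd).pow _))
        ((analyticAt_const.mul analyticAt_snd).pow _)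
    exact AnalyticAt.fun_comp ha hpn
  · intro x hx p hp hxp
    have h5 : Ψ (Phi Q ℓ x) = x := (hV' hx).2
    rw [hxp] at h5
    exact h5.symm

end Pool.Agent.EG.TM
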