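import Pool.Agent.TC.Cross
import Pool.Agent.TC.DQ
import Pool.Agent.EG.TM.Defs
import Pool.Agent.H62.BU.Inv

/-!
# EG TM Inv: the local inverse of the map `(ℓ, Q 0, …, Q (n + 1))`

`Phi Q ℓ x = (ℓ x, Q 0 x, …, Q (n + 1) x)`, a polynomial map of `ℂ^(n+3)` to itself.  Its derivative at `x` is `v ↦ (dt ℓ v, dt (grad (Q j) x) v)` (`hasDerivAt_ev` along lines, or the Fréchet derivative of
`MvPolynomial.eval`), it is injective if `dt ℓ (nv Q x) ≠ 0`: if `dt (grad (Q j) x) v = 0` for all `j` then `v = c • nv Q x` (`eq_smul_cross` / `exists_smul_cross`), and `dt ℓ v = c * dt ℓ (nv Q x) = 0` gives `c = 0`.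
`Phi_inv`: `Pool.Agent.H62.BU.local_inverse`.
`Q` is an arbitrary family of polynomials.
`lin P`: the linear polynomial with the coefficients `ℓ`: `ev (lin ℓ) x = dt ℓ x`, `grad (lin ℓ) x = ℓ`.
-/

set_option autoImplicit false

open Topology Filter Metric Set

namespace Pool.Agent.EG.TM

open Pool.Agent.TC (ev grad nv cross dt)
open Pool.Agent.H36.BP (EN)

variable {n N : ℕ}

/-- the map `(ℓ, Q 0, …, Q (n + 1))` -/
noncomputable def Phi (Q : Fin (n + 2) → MvPolynomial (Fin (n + 3)) ℂ) (ℓ : Fin (n + 3) → ℂ) (x : EN (n + 2)) : EN (n + 2) :=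
  WithLp.toLp 2 (Fin.cons (dt ℓ (fun i => x i)) (fun j => ev (Q j) x) : Fin (n + 3) → ℂ)

private theorem Inv_analyticAt_dt (ℓ : Fin (N + 1) → ℂ) (x : EN N) : AnalyticAt ℂ (fun z : EN N => dt ℓ (fun i => z i)) x := by
  unfold dt
  refine Finset.analyticAt_fun_sum _ fun i _ => ?_
  exact analyticAt_const.mul (Pool.Agent.TC.analyticAt_apply (F := fun z : EN N => z) analyticAt_id i)

theorem analyticAt_Phi (Q : Fin (n + 2) → MvPolynomial (Fin (n + 3)) ℂ) (ℓ : Fin (n + 3) → ℂ) (x : EN (n + 2)) : AnalyticAt ℂ (Phi Q ℓ) x := by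
  unfold Phi
  refine Pool.Agent.TC.analyticAt_toLp fun i => ?_
  refine Fin.cases ?_ (fun j => ?_) i
  · simp only [Fin.cons_zero]
    exact Inv_analyticAt_dt ℓ x
  · simp only [Fin.cons_succ]
    exact Pool.Agent.TC.analyticAt_ev (Q j) (F := fun z : EN (n + 2) => z) analyticAt_id

private theorem Inv_line (x v : EN N) : HasDerivAt (fun w : ℂ => x + w • v) v 0 := by
  have h := ((hasDerivAt_id (0 : ℂ)).smul_const v).const_add x
  simpa using h

private theorem Inv_comp {F : Type*} [NormedAddCommGroup F] [NormedSpace ℂ F] {f : EN N → F} {x : EN N} (hf : DifferentiableAt ℂ f x) (v : EN N) :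
    HasDerivAt (fun w : ℂ => f (x + w • v)) (fderiv ℂ f x v) 0 := by
  have h1 : HasFDerivAt f (fderiv ℂ f x) (x + (0 : ℂ) • v) := by
    rw [zero_smul, add_zero]
    exact hf.hasFDerivAt
  exact h1.comp_hasDerivAt 0 (Inv_line x v)

theorem hasFDerivAt_ev (P : MvPolynomial (Fin (N + 1)) ℂ) (x v : EN N) : fderiv ℂ (ev P) x v = dt (grad P x) (fun i => v i) := by
  have h0 : DifferentiableAt ℂ (ev P) x := (Pool.Agent.TC.analyticAt_ev P (F := fun z : EN N => z) analyticAt_id).differentiableAt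
  have h1 := Inv_comp h0 v
  have h2 := Pool.Agent.TC.hasDerivAt_ev P (Inv_line x v)
  rw [zero_smul, add_zero] at h2
  rw [h1.unique h2, Pool.Agent.TC.dt_comm]

theorem Phi_inv (Q : Fin (n + 2) → MvPolynomial (Fin (n + 3)) ℂ) (ℓ : Fin (n + 3) → ℂ) {x₀ : EN (n + 2)} (h : dt ℓ (fun i => nv Q x₀ i) ≠ 0) :
    ∃ Ψ : EN (n + 2) → EN (n + 2), AnalyticAt ℂ Ψ (Phi Q ℓ x₀) ∧ (∀ᶠ x in 𝓝 x₀, Ψ (Phi Q ℓ x) = x) ∧
      (∀ᶠ y in 𝓝 (Phi Q ℓ x₀), Phi Q ℓ (Ψ y) = y) ∧ Ψ (Phi Q ℓ x₀) = x₀ := by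
  refine Pool.Agent.H62.BU.local_inverse (analyticAt_Phi Q ℓ x₀) fun v hv => ?_
  have hd : DifferentiableAt ℂ (Phi Q ℓ) x₀ := (analyticAt_Phi Q ℓ x₀).differentiableAt
  have h1 := Inv_comp hd v
  rw [hv] at h1
  have h2 : ∀ i, HasDerivAt (fun w : ℂ => Phi Q ℓ (x₀ + w • v) i) 0 0 := by
    intro i
    have h3 : HasDerivAt (fun w : ℂ => Phi Q ℓ (x₀ + w • v) i) ((EuclideanSpace.proj (𝕜 := ℂ) i : EN (n + 2) →L[ℂ] ℂ) 0) 0 :=
      (EuclideanSpace.proj (𝕜 := ℂ) i : EN (n + 2) →L[ℂ] ℂ).hasFDerivAt.comp_hasDerivAt (0 : ℂ) h1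
    rw [map_zero] at h3
    exact h3
  have h4 : dt ℓ (fun i => v i) = 0 := by
    have h5 : HasDerivAt (fun w : ℂ => dt ℓ (fun i => (x₀ + w • v) i)) (dt ℓ (fun i => v i)) 0 := by
      have h6 : (fun w : ℂ => dt ℓ (fun i => (x₀ + w • v) i)) = fun w : ℂ => dt ℓ (fun i => x₀ i) + w * dt ℓ (fun i => v i) := by
        funext w
        have h7 : (fun i => (x₀ + w • v) i) = (fun i => x₀ i) + w • (fun i => v i) := by
          funext i
          simp
        rw [h7, Pool.Agent.TC.dt_add_right, Pool.Agent.TC.dt_smul_right]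
      rw [h6]
      have h8 := ((hasDerivAt_id (0 : ℂ)).mul_const (dt ℓ (fun i => v i))).const_add (dt ℓ (fun i => x₀ i))
      simpa using h8
    exact h5.unique (h2 0)
  have h9 : ∀ j, dt (grad (Q j) x₀) (fun i => v i) = 0 := by
    intro j
    have h5 := Pool.Agent.TC.hasDerivAt_ev (Q j) (Inv_line x₀ v)
    rw [zero_smul, add_zero] at h5
    rw [Pool.Agent.TC.dt_comm]
    exact h5.unique (h2 j.succ)
  have hc : cross (fun j => grad (Q j) x₀) ≠ 0 := by
    intro h0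
    apply h
    have : (fun i => nv Q x₀ i) = cross (fun j => grad (Q j) x₀) := rfl
    rw [this, h0, Pool.Agent.TC.dt_zero_right]
  obtain ⟨l, hl⟩ := Pool.Agent.TC.exists_smul_cross h9 hc
  rw [hl, Pool.Agent.TC.dt_smul_right] at h4
  have hl0 : l = 0 := by
    rcases mul_eq_zero.1 h4 with h5 | h5
    · exact h5
    · exact absurd h5 h
  rw [hl0, zero_smul] at hl
  ext i
  exact congrFun hl i

/-- the linear polynomial with the coefficients `ℓ` -/
noncomputable def lin (ℓ : Fin (N + 1) → ℂ) : MvPolynomial (Fin (N + 1)) ℂ := ∑ i, MvPolynomial.C (ℓ i) * MvPolynomial.X i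

theorem ev_lin (ℓ : Fin (N + 1) → ℂ) (x : EN N) : ev (lin ℓ) x = dt ℓ (fun i => x i) := by
  simp [lin, ev, dt]

theorem grad_lin (ℓ : Fin (N + 1) → ℂ) (x : EN N) : grad (lin ℓ) x = ℓ := by
  classical
  funext j
  rw [Pool.Agent.TC.grad_apply, lin, map_sum, map_sum, Finset.sum_eq_single j]
  · simp
  · intro i _ hij
    simp [MvPolynomial.pderiv_X, hij]
  · simp

end Pool.Agent.EG.TM
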