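import Pool.Agent.EG.TM.Mod

/-!
# EG TM Seam: nearby curves are in the same cell

`Fp i p` is `(F.ch i).inf = true → p.2 ≠ 0`.  By `X_eq`: `M.X i μ t h = (μ exp (t - b h), yb b h)`, `yb 0 h = h`, `yb 1 h = exp h`, `b ≤ 1` (`b_le`), `M.a i = 1`, `M.k i = (F.ch i).k`.

`seam`.  Let `p t = M.X i μ t (h t)` (`CenS`), `ξ t = s (p t)`, `p' t = q (η t)`.  `close` (with `δ`): `‖η t - ξ t‖ ≤ δ ‖ξ t‖` gives `η t ∈ D`, `‖p' t - p t‖ ≤ ε₁`; `q_mem`: `s (p' t) = η t`, finite.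
`k (p' t).1 (p' t).2 ^ b = exp t` (`u_eq`).  `b = 0`: `h' t = (p' t).2`; `(p' t).1 = exp t / k = μ exp t` (`k μ = 1`); `ε₁ ≤ ε'`, `ε₁ ≤ 1 / 8`: `Cen (p' t)`.
`b = 1`: `|(p t).1| < 3/8` and `k (p t).1 (p t).2 = exp t` give `|(p t).2| ≥ c := exp T₀ / |k|`, so `w t = (p' t).2 / (p t).2` satisfies `|w t - 1| ≤ ε₁ / c ≤ 1 / 2`; `h' t = h t + log (w t)` is holomorphic,
`|log (w t)| ≤ 2 |w t - 1| ≤ 2 ε₁ / c ≤ ε'` (`Complex.norm_log_one_add_half_le_self` or a similar lemma), `exp (h' t) = (p t).2 w t = (p' t).2`, `μ exp (t - h' t) = exp t / (k (p' t).2) = (p' t).1`.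
There are finitely many charts (`F.finite_ix`): take the minimum of the numbers for all `i`.

-/

set_option autoImplicit false

open Topology Filter Metric Set

namespace Pool.Agent.EG.TM

open Pool.Agent.H36.BP (EN)
open Pool.Agent.EG.RS (Model Atl Cen yb yb')

variable {N : ℕ} {S : Set (EN N)} {u : EN N → ℂ} {nv : EN N → EN N} {κ : Type}

private theorem seam_cb {p : ℂ × ℂ} (hp : CenS p) : p ∈ closedBall (0 : ℂ × ℂ) 1 := by
  rw [mem_closedBall_zero_iff, Prod.norm_def]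
  exact max_le (hp.1.le.trans (by norm_num)) (hp.2.le.trans (by norm_num))

private theorem seam_ball {p : ℂ × ℂ} (hp : CenS p) : p ∈ ball (0 : ℂ × ℂ) 3 := by
  rw [mem_ball_zero_iff, Prod.norm_def]
  exact max_lt (hp.1.trans (by norm_num)) (hp.2.trans (by norm_num))

/-- one chart, one point: the point `q (η t)` -/
private theorem seam_pt (c : Ch S u nv) {δ ε₁ : ℝ} (hε₁ : ε₁ ≤ 1 / 8)
    (hδ : ∀ p ∈ closedBall (0 : ℂ × ℂ) 1, (c.inf = true → p.2 ≠ 0) → ∀ x ∈ S, u x = u (c.s p) →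
      ‖x - c.s p‖ ≤ δ * ‖c.s p‖ → x ∈ c.D ∧ ‖c.q x - p‖ ≤ ε₁) {p : ℂ × ℂ} {x : EN N} {e : ℂ}
    (hp : CenS p) (hp' : c.inf = true → p.2 ≠ 0) (hx : x ∈ S) (hux : u x = e)
    (hup : c.k * p.1 * p.2 ^ c.b = e) (hn : ‖x - c.s p‖ ≤ δ * ‖c.s p‖) :
    x ∈ c.D ∧ ‖(c.q x).1 - p.1‖ ≤ ε₁ ∧ ‖(c.q x).2 - p.2‖ ≤ ε₁ ∧ Cen (c.q x) ∧
      (c.inf = true → (c.q x).2 ≠ 0) ∧ c.s (c.q x) = x ∧ c.k * (c.q x).1 * (c.q x).2 ^ c.b = e := by
  have h1 : u x = u (c.s p) := by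
    rw [hux, c.u_eq p (seam_ball hp) hp', hup]
  obtain ⟨hD, hq⟩ := hδ p (seam_cb hp) hp' x hx h1 hn
  obtain ⟨hq3, hqf, hqs⟩ := c.q_mem x hD hx
  have h2 := c.u_eq _ hq3 hqf
  rw [hqs, hux] at h2
  have h3 : ‖(c.q x).1 - p.1‖ ≤ ε₁ := (norm_fst_le (c.q x - p)).trans hq
  have h4 : ‖(c.q x).2 - p.2‖ ≤ ε₁ := (norm_snd_le (c.q x - p)).trans hq
  refine ⟨hD, h3, h4, ⟨?_, ?_⟩, hqf, hqs, h2.symm⟩
  · have h5 : ‖(c.q x).1‖ ≤ ‖(c.q x).1 - p.1‖ + ‖p.1‖ := norm_le_norm_sub_add _ _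
    have h6 := hp.1
    linarith
  · have h5 : ‖(c.q x).2‖ ≤ ‖(c.q x).2 - p.2‖ + ‖p.2‖ := norm_le_norm_sub_add _ _
    have h6 := hp.2
    linarith

/-- one chart -/
private theorem seam_one {F : Fam S u nv κ} {M : Model (Ix F) (EN N ⊕ (κ × ℂ))} (hM : M.toAtl = F.atl) (T₀ ε' : ℝ) (hε' : 0 < ε')
    (i : Ix F) :
    ∃ ε : ℝ, 0 < ε ∧ ∀ (μ : ℂ) (U : Set ℂ) (h : ℂ → ℂ) (η : ℂ → EN N), IsOpen U →
    (∀ t ∈ U, T₀ ≤ t.re ∧ ‖Complex.exp t‖ < M.ρ) → M.k i * μ ^ M.a i = 1 → DifferentiableOn ℂ h U → DifferentiableOn ℂ η U →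
    (∀ t ∈ U, CenS (M.X i μ t (h t)) ∧ ((F.ch i).inf = true → (M.X i μ t (h t)).2 ≠ 0) ∧ η t ∈ S ∧ u (η t) = Complex.exp t ∧
      ‖η t - (F.ch i).s (M.X i μ t (h t))‖ ≤ ε * ‖(F.ch i).s (M.X i μ t (h t))‖) →
    ∃ h' : ℂ → ℂ, DifferentiableOn ℂ h' U ∧ ∀ t ∈ U, ‖h' t - h t‖ ≤ ε' ∧ Cen (M.X i μ t (h' t)) ∧
      ((F.ch i).inf = true → (M.X i μ t (h' t)).2 ≠ 0) ∧ η t = (F.ch i).s (M.X i μ t (h' t)) := by
  have ha : M.a i = 1 := congrArg (fun A : Atl (Ix F) (EN N ⊕ (κ × ℂ)) => A.a i) hM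
  have hk : M.k i = (F.ch i).k := congrArg (fun A : Atl (Ix F) (EN N ⊕ (κ × ℂ)) => A.k i) hM
  have hX := X_eq hM i
  rw [ha, hk]
  simp only [hX, pow_one]
  generalize F.ch i = c
  have hk0 := c.k_ne
  have hkn : 0 < ‖c.k‖ := norm_pos_iff.2 hk0
  rcases (by have := c.b_le; omega : c.b = 0 ∨ c.b = 1) with hb | hb
  · -- `b = 0`
    have hyb : ∀ g : ℂ, yb c.b g = g := fun g => by rw [yb, if_pos hb]
    have hexp : ∀ t g : ℂ, Complex.exp (t - c.b * g) = Complex.exp t := fun t g => by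
      rw [hb, Nat.cast_zero, zero_mul, sub_zero]
    simp only [hyb, hexp]
    obtain ⟨δ, hδ, hcl⟩ := c.close (min ε' (1 / 8)) (lt_min hε' (by norm_num))
    refine ⟨δ, hδ, fun μ U h η hU ht hμ hh hη hp => ⟨fun t => (c.q (η t)).2, ?_, ?_⟩⟩
    · intro t htU
      obtain ⟨h1, h2, h3, h4, h5⟩ := hp t htU
      have h6 := seam_pt c (min_le_right _ _) hcl h1 h2 h3 h4
        (by rw [hb, pow_zero, mul_one, ← mul_assoc, hμ, one_mul]) h5
      have h7 : DifferentiableAt ℂ (fun t => c.q (η t)) t :=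
        (c.q_an _ h6.1).differentiableAt.comp t ((hη t htU).differentiableAt (hU.mem_nhds htU))
      exact h7.snd.differentiableWithinAt
    · intro t htU
      obtain ⟨h1, h2, h3, h4, h5⟩ := hp t htU
      obtain ⟨g1, g2, g3, g4, g5, g6, g7⟩ := seam_pt c (min_le_right _ _) hcl h1 h2 h3 h4
        (by rw [hb, pow_zero, mul_one, ← mul_assoc, hμ, one_mul]) h5
      have h8 : (μ * Complex.exp t, (c.q (η t)).2) = c.q (η t) := by
        refine Prod.ext ?_ rfl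
        show μ * Complex.exp t = (c.q (η t)).1
        rw [← g7, hb, pow_zero, mul_one, ← mul_assoc, mul_comm μ, hμ, one_mul]
      rw [h8]
      exact ⟨g3.trans (min_le_left _ _), g4, g5, g6.symm⟩
  · -- `b = 1`
    have hyb : ∀ g : ℂ, yb c.b g = Complex.exp g := fun g => by
      rw [yb, if_neg (by rw [hb]; exact one_ne_zero)]
    have hexp : ∀ t g : ℂ, Complex.exp (t - c.b * g) = Complex.exp (t - g) := fun t g => by
      rw [hb, Nat.cast_one, one_mul]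
    simp only [hyb, hexp]
    set c₀ : ℝ := Real.exp T₀ / ‖c.k‖ with hc₀
    have hc₀p : 0 < c₀ := by positivity
    obtain ⟨δ, hδ, hcl⟩ := c.close (min (1 / 8) (min (c₀ / 2) (c₀ * ε' / 2)))
      (lt_min (by norm_num) (lt_min (by positivity) (by positivity)))
    have hup : ∀ μ t g : ℂ, c.k * μ = 1 →
        c.k * (μ * Complex.exp (t - g)) * Complex.exp g ^ c.b = Complex.exp t := by
      intro μ t g hμ
      rw [hb, pow_one, ← mul_assoc, hμ, one_mul, ← Complex.exp_add, sub_add_cancel]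
    -- the quotient
    have key : ∀ (μ t g : ℂ) (x : EN N), c.k * μ = 1 → T₀ ≤ t.re → CenS (μ * Complex.exp (t - g), Complex.exp g) →
        (c.inf = true → Complex.exp g ≠ 0) → x ∈ S → u x = Complex.exp t →
        ‖x - c.s (μ * Complex.exp (t - g), Complex.exp g)‖ ≤ δ * ‖c.s (μ * Complex.exp (t - g), Complex.exp g)‖ →
        x ∈ c.D ∧ ‖(c.q x).2 / Complex.exp g - 1‖ ≤ 1 / 2 ∧ 2 * ‖(c.q x).2 / Complex.exp g - 1‖ ≤ ε' ∧ Cen (c.q x) ∧
        (c.inf = true → (c.q x).2 ≠ 0) ∧ c.s (c.q x) = x ∧ c.k * (c.q x).1 * (c.q x).2 = Complex.exp t := by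
      intro μ t g x hμ ht h1 h2 h3 h4 h5
      obtain ⟨g1, g2, g3, g4, g5, g6, g7⟩ := seam_pt c (min_le_left _ _) hcl h1 h2 h3 h4 (hup μ t g hμ) h5
      rw [hb, pow_one] at g7
      have hg : c₀ ≤ ‖Complex.exp g‖ := by
        have e1 := congrArg norm (hup μ t g hμ)
        rw [hb, pow_one, norm_mul, norm_mul, Complex.norm_exp t] at e1
        have e2 : Real.exp T₀ ≤ Real.exp t.re := Real.exp_le_exp.2 ht
        have e3 : ‖μ * Complex.exp (t - g)‖ < 3 / 8 := h1.1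
        rw [hc₀, div_le_iff₀ hkn]
        have e4 : ‖c.k‖ * ‖μ * Complex.exp (t - g)‖ * ‖Complex.exp g‖ ≤ ‖c.k‖ * 1 * ‖Complex.exp g‖ := by
          gcongr
          linarith
        linarith
      have hg0 : 0 < ‖Complex.exp g‖ := hc₀p.trans_le hg
      have e5 : ‖(c.q x).2 / Complex.exp g - 1‖ = ‖(c.q x).2 - Complex.exp g‖ / ‖Complex.exp g‖ := by
        rw [← norm_div, sub_div, div_self (Complex.exp_ne_zero g)]
      have g3' : ‖(c.q x).2 - Complex.exp g‖ ≤ min (1 / 8) (min (c₀ / 2) (c₀ * ε' / 2)) := g3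
      have e6 : ‖(c.q x).2 - Complex.exp g‖ ≤ c₀ / 2 :=
        g3'.trans ((min_le_right _ _).trans (min_le_left _ _))
      have e7 : ‖(c.q x).2 - Complex.exp g‖ ≤ c₀ * ε' / 2 :=
        g3'.trans ((min_le_right _ _).trans (min_le_right _ _))
      refine ⟨g1, ?_, ?_, g4, g5, g6, g7⟩
      · rw [e5, div_le_iff₀ hg0]
        linarith
      · rw [e5, ← mul_div_assoc, div_le_iff₀ hg0]
        nlinarith
    refine ⟨δ, hδ, fun μ U h η hU ht hμ hh hη hp =>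
      ⟨fun t => h t + Complex.log ((c.q (η t)).2 / Complex.exp (h t)), ?_, ?_⟩⟩
    · intro t htU
      obtain ⟨h1, h2, h3, h4, h5⟩ := hp t htU
      obtain ⟨g1, g2, -⟩ := key μ t (h t) (η t) hμ (ht t htU).1 h1 h2 h3 h4 h5
      have hht : DifferentiableAt ℂ h t := (hh t htU).differentiableAt (hU.mem_nhds htU)
      have h7 : DifferentiableAt ℂ (fun t => c.q (η t)) t :=
        (c.q_an _ g1).differentiableAt.comp t ((hη t htU).differentiableAt (hU.mem_nhds htU))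
      have h8 : (c.q (η t)).2 / Complex.exp (h t) ∈ Complex.slitPlane := by
        have h9 := Complex.mem_slitPlane_of_norm_lt_one
          (z := (c.q (η t)).2 / Complex.exp (h t) - 1) (by linarith)
        rwa [add_sub_cancel] at h9
      exact (hht.add ((h7.snd.div hht.cexp (Complex.exp_ne_zero _)).clog h8)).differentiableWithinAt
    · intro t htU
      obtain ⟨h1, h2, h3, h4, h5⟩ := hp t htU
      obtain ⟨g1, g2, g3, g4, g5, g6, g7⟩ := key μ t (h t) (η t) hμ (ht t htU).1 h1 h2 h3 h4 h5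
      have hq2 : (c.q (η t)).2 ≠ 0 := by
        intro h0
        rw [h0, mul_zero] at g7
        exact Complex.exp_ne_zero t g7.symm
      have hw : (c.q (η t)).2 / Complex.exp (h t) ≠ 0 := div_ne_zero hq2 (Complex.exp_ne_zero _)
      have he : Complex.exp (h t + Complex.log ((c.q (η t)).2 / Complex.exp (h t))) = (c.q (η t)).2 := by
        rw [Complex.exp_add, Complex.exp_log hw, mul_div_cancel₀ _ (Complex.exp_ne_zero _)]
      have h8 : (μ * Complex.exp (t - (h t + Complex.log ((c.q (η t)).2 / Complex.exp (h t)))),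
          Complex.exp (h t + Complex.log ((c.q (η t)).2 / Complex.exp (h t)))) = c.q (η t) := by
        refine Prod.ext ?_ he
        show μ * Complex.exp (t - (h t + Complex.log ((c.q (η t)).2 / Complex.exp (h t)))) = (c.q (η t)).1
        rw [Complex.exp_sub, he, ← g7, ← mul_div_assoc, div_eq_iff hq2]
        linear_combination ((c.q (η t)).1 * (c.q (η t)).2) * hμ
      rw [h8]
      refine ⟨?_, g4, fun _ => Complex.exp_ne_zero _, g6.symm⟩
      rw [add_sub_cancel_left]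
      have h9 := Complex.norm_log_one_add_half_le_self g2
      rw [add_sub_cancel] at h9
      have h10 := norm_nonneg ((c.q (η t)).2 / Complex.exp (h t) - 1)
      linarith

theorem seam {F : Fam S u nv κ} {M : Model (Ix F) (EN N ⊕ (κ × ℂ))} (hM : M.toAtl = F.atl) (T₀ ε' : ℝ) (hε' : 0 < ε') :
    ∃ ε : ℝ, 0 < ε ∧ ∀ (i : Ix F) (μ : ℂ) (U : Set ℂ) (h : ℂ → ℂ) (η : ℂ → EN N), IsOpen U →
    (∀ t ∈ U, T₀ ≤ t.re ∧ ‖Complex.exp t‖ < M.ρ) → M.k i * μ ^ M.a i = 1 → DifferentiableOn ℂ h U → DifferentiableOn ℂ η U →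
    (∀ t ∈ U, CenS (M.X i μ t (h t)) ∧ ((F.ch i).inf = true → (M.X i μ t (h t)).2 ≠ 0) ∧ η t ∈ S ∧ u (η t) = Complex.exp t ∧
      ‖η t - (F.ch i).s (M.X i μ t (h t))‖ ≤ ε * ‖(F.ch i).s (M.X i μ t (h t))‖) →
    ∃ h' : ℂ → ℂ, DifferentiableOn ℂ h' U ∧ ∀ t ∈ U, ‖h' t - h t‖ ≤ ε' ∧ Cen (M.X i μ t (h' t)) ∧
      ((F.ch i).inf = true → (M.X i μ t (h' t)).2 ≠ 0) ∧ η t = (F.ch i).s (M.X i μ t (h' t)) := by
  choose e he hs using fun i => seam_one hM T₀ ε' hε' i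
  have hfin := F.finite_ix
  rcases isEmpty_or_nonempty (Ix F) with hem | hne
  · exact ⟨1, one_pos, fun i => (hem.false i).elim⟩
  · obtain ⟨i₀, hi₀⟩ := Finite.exists_min e
    refine ⟨e i₀, he i₀, fun i μ U h η hU ht hμ hh hη hp => hs i μ U h η hU ht hμ hh hη fun t htU => ?_⟩
    obtain ⟨h1, h2, h3, h4, h5⟩ := hp t htU
    exact ⟨h1, h2, h3, h4, h5.trans (mul_le_mul_of_nonneg_right (hi₀ i) (norm_nonneg _))⟩

end Pool.Agent.EG.TM
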