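import Pool.Agent.EG.TM.Defs

/-!
# EG TM SelB: disjoint charts at the nodes

`exists_nodes`: choose `ε > 0` such that the balls `ball x ε`, `x ∈ Z`, are pairwise disjoint (finite set), charts with `D ⊆ ball x (min ε 1)`; `R₁ = 1 + max ‖x‖`.

-/

set_option autoImplicit false

open Topology Filter Metric Set

namespace Pool.Agent.EG.TM

open Pool.Agent.H36.BP (EN)

variable {N : ℕ} {S : Set (EN N)} {u : EN N → ℂ} {nv : EN N → EN N}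

theorem exists_nodes (hZ : {x | x ∈ S ∧ u x = 0 ∧ nv x = 0}.Finite)
    (h2 : ∀ x ∈ S, u x = 0 → nv x = 0 → ∀ U ∈ 𝓝 x, ∃ c : Ch S u nv, c.inf = false ∧ c.b = 1 ∧ c.D ⊆ U ∧ x ∈ c.D ∧ c.q x = 0) :
    ∃ (R₁ : ℝ) (c : {x : EN N // x ∈ S ∧ u x = 0 ∧ nv x = 0} → Ch S u nv), (∀ i, (c i).inf = false ∧ (c i).b = 1 ∧ i.1 ∈ (c i).D ∧ (c i).q i.1 = 0 ∧ ∀ x ∈ (c i).D, ‖x‖ ≤ R₁) ∧
      ∀ i j, i ≠ j → Disjoint (c i).D (c j).D := by
  classical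
  obtain ⟨U, hU, hd⟩ := hZ.t2_separation
  obtain ⟨R, hR⟩ := hZ.isBounded.exists_norm_le
  have key : ∀ i : {x : EN N // x ∈ S ∧ u x = 0 ∧ nv x = 0}, ∃ c : Ch S u nv, c.inf = false ∧ c.b = 1 ∧
      c.D ⊆ U i.1 ∩ ball i.1 1 ∧ i.1 ∈ c.D ∧ c.q i.1 = 0 := by
    intro i
    obtain ⟨hS, h0, hn⟩ := i.2
    exact h2 i.1 hS h0 hn _ (inter_mem ((hU i.1).2.mem_nhds (hU i.1).1) (ball_mem_nhds _ one_pos))
  choose c hc using key
  refine ⟨R + 1, c, fun i => ⟨(hc i).1, (hc i).2.1, (hc i).2.2.2.1, (hc i).2.2.2.2, fun x hx => ?_⟩, fun i j hij => ?_⟩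
  · have h1 : x ∈ ball i.1 1 := ((hc i).2.2.1 hx).2
    have h3 : ‖i.1‖ ≤ R := hR i.1 i.2
    have h4 : ‖x - i.1‖ < 1 := by rwa [mem_ball, dist_eq_norm] at h1
    have h5 : ‖x‖ ≤ ‖x - i.1‖ + ‖i.1‖ := by
      have := norm_add_le (x - i.1) i.1
      rwa [sub_add_cancel] at this
    linarith
  · have h1 : Disjoint (U i.1) (U j.1) := hd i.2 j.2 (fun h => hij (Subtype.ext h))
    exact h1.mono (fun x hx => ((hc i).2.2.1 hx).1) (fun x hx => ((hc j).2.2.1 hx).1)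

end Pool.Agent.EG.TM
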