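import Pool.Agent.EG.TM.SelA
import Pool.Agent.EG.TM.SelB

/-!
# EG TM Sel: the choice of a finite family of charts

`Z = {x | x ∈ S ∧ u x = 0 ∧ nv x = 0}` is finite (`node_finite`).
`exists_fam`.  The charts `cn x` (`x ∈ Z`) of `exists_nodes`, the charts `ci` of `h3` for `R = R₁`, with `R'`, `ρ`.  The core `core x = (cn x).s '' {p | ‖p.1‖ ≤ 1/2 ∧ ‖p.2‖ ≤ 1/2}` is compact (`s` is continuous on `ball 0 3`), so closed.  `K = {x ∈ S | u x = 0 ∧ ‖x‖ ≤ R'}` is compact.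
Every `x ∈ K` has an open neighbourhood as follows.  (A) There is a node chart `c` with `x ∈ c.D` and `CenS (c.q x) ∨ CenS (c.q x).swap`: the neighbourhood is `{x' ∈ c.D | CenS (c.q x') ∨ CenS (c.q x').swap}` (open: `q` is continuous on the open set `D`).  (B) Otherwise `x` is not in a core: if `x = c.s p`,
`‖p.1‖, ‖p.2‖ ≤ 1/2`, then `x ∈ c.D`, `c.q x = p`, `c.k * p.1 * p.2 = u x = 0` (`u_eq`), so `p.1 = 0` and `CenS p`, or `p.2 = 0` and `CenS p.swap`: contradiction.  In particular `x ∉ Z` (`x ∈ Z` is `(cn x).s 0`), so `nv x ≠ 0` and `h1` with `U` = the complement of the (finitely many) cores gives a chart `c` with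
`c.D ∩ core = ∅`, `x ∈ c.D`, `c.q x = 0`; the neighbourhood is `{x' ∈ c.D | CenS (c.q x')}`.
A finite subcover of `K` gives finitely many smooth charts `cs`.  The family: `κ = Z ⊕ κ_inf ⊕ κ_smooth`.
`disj`: only the charts at infinity have `inf = true`.  `sep`: `(c i).b = 1` only for the node charts (`b_inf`); `(c i).s p` is in the core of `i`, so in `(c i).D` (`s_mem`): the domains of the other node charts are disjoint from `(c i).D`, the domains of the charts at infinity are in `{R₁ < ‖x‖}`,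
`(c i).D ⊆ ball 0 R₁`, and the domains of the smooth charts are disjoint from the cores.
`cov`: `‖x‖ ≤ R'`: the subcover; `R' < ‖x‖`: the charts at infinity (`‖u x‖ = 0 < ρ`).  `cov_inf`: `h3`.
-/

set_option autoImplicit false

open Topology Filter Metric Set

namespace Pool.Agent.EG.TM

open Pool.Agent.H36.BP (EN)

variable {N : ℕ} {S : Set (EN N)} {u : EN N → ℂ} {nv : EN N → EN N}

private theorem sel_isOpen_CenS : IsOpen {p : ℂ × ℂ | CenS p} := by
  have h1 : IsOpen {p : ℂ × ℂ | ‖p.1‖ < 3 / 8} := isOpen_lt continuous_fst.norm continuous_const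
  have h2 : IsOpen {p : ℂ × ℂ | ‖p.2‖ < 7 / 8} := isOpen_lt continuous_snd.norm continuous_const
  exact h1.inter h2

private theorem sel_isOpen_swap : IsOpen {p : ℂ × ℂ | CenS p.swap} :=
  sel_isOpen_CenS.preimage continuous_swap

private theorem sel_CenS_zero : CenS (0 : ℂ × ℂ) := by
  constructor <;> simp <;> norm_num

private theorem sel_mem_ball {p : ℂ × ℂ} (h1 : ‖p.1‖ ≤ 1 / 2) (h2 : ‖p.2‖ ≤ 1 / 2) : p ∈ ball (0 : ℂ × ℂ) 3 := by
  rw [mem_ball_zero_iff, Prod.norm_def]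
  exact lt_of_le_of_lt (max_le h1 h2) (by norm_num)

/-- the core of a chart is compact -/
private theorem sel_core (c : Ch S u nv) (hc : c.inf = false) : IsCompact (c.s '' {p : ℂ × ℂ | ‖p.1‖ ≤ 1 / 2 ∧ ‖p.2‖ ≤ 1 / 2}) := by
  have h0 : IsCompact {p : ℂ × ℂ | ‖p.1‖ ≤ 1 / 2 ∧ ‖p.2‖ ≤ 1 / 2} := by
    have h1 : {p : ℂ × ℂ | ‖p.1‖ ≤ 1 / 2 ∧ ‖p.2‖ ≤ 1 / 2} = closedBall (0 : ℂ × ℂ) (1 / 2) := by
      ext p
      rw [mem_closedBall_zero_iff, Prod.norm_def, max_le_iff]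
      rfl
    rw [h1]
    exact isCompact_closedBall _ _
  refine h0.image_of_continuousOn fun p hp => ?_
  refine (c.s_an p (sel_mem_ball hp.1 hp.2) fun h => ?_).continuousAt.continuousWithinAt
  rw [hc] at h
  exact absurd h (by simp)

theorem exists_fam (hS : IsClosed S) (hu : Continuous u) (hnv : Continuous nv)
    (h1 : ∀ x ∈ S, u x = 0 → nv x ≠ 0 → ∀ U ∈ 𝓝 x, ∃ c : Ch S u nv, c.inf = false ∧ c.b = 0 ∧ c.D ⊆ U ∧ x ∈ c.D ∧ c.q x = 0)
    (h2 : ∀ x ∈ S, u x = 0 → nv x = 0 → ∀ U ∈ 𝓝 x, ∃ c : Ch S u nv, c.inf = false ∧ c.b = 1 ∧ c.D ⊆ U ∧ x ∈ c.D ∧ c.q x = 0)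
    (h3 : ∀ R : ℝ, ∃ (κ : Type) (c : κ → Ch S u nv), Finite κ ∧ (∀ i, (c i).inf = true ∧ ∀ x ∈ (c i).D, R < ‖x‖) ∧ (∀ i j, i ≠ j → Disjoint (c i).D (c j).D) ∧
      ∃ R' ρ : ℝ, 0 < ρ ∧ ∀ x ∈ S, R' < ‖x‖ → ‖u x‖ < ρ → ∃ i, x ∈ (c i).D ∧ CenS ((c i).q x)) :
    ∃ κ : Type, Nonempty (Fam S u nv κ) := by
  have hZ := node_finite hS hu hnv h2 h3
  obtain ⟨R₁, cn, hcn, hdisj⟩ := exists_nodes hZ h2
  obtain ⟨κi, ci, hfi, hi, hidis, R', ρ, hρ, hcov⟩ := h3 R₁
  have hfZ : Finite {x : EN N // x ∈ S ∧ u x = 0 ∧ nv x = 0} := hZ.to_subtype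
  have hK : IsCompact {x : EN N | x ∈ S ∧ u x = 0 ∧ ‖x‖ ≤ R'} := by
    refine (isCompact_closedBall (0 : EN N) R').of_isClosed_subset ?_ ?_
    · exact hS.inter ((isClosed_eq hu continuous_const).inter (isClosed_le continuous_norm continuous_const))
    · intro x hx
      rw [mem_closedBall_zero_iff]
      exact hx.2.2
  have key : ∃ (κs : Type) (cs : κs → Ch S u nv), Finite κs ∧
      (∀ i, (cs i).inf = false ∧ (cs i).b = 0 ∧ ∀ z, Disjoint (cs i).D ((cn z).s '' {p : ℂ × ℂ | ‖p.1‖ ≤ 1 / 2 ∧ ‖p.2‖ ≤ 1 / 2})) ∧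
      ∀ x ∈ {x : EN N | x ∈ S ∧ u x = 0 ∧ ‖x‖ ≤ R'}, (∃ z, x ∈ (cn z).D ∧ (CenS ((cn z).q x) ∨ CenS ((cn z).q x).swap)) ∨
        ∃ i, x ∈ (cs i).D ∧ CenS ((cs i).q x) := by
    refine hK.induction_on (p := fun s : Set (EN N) => ∃ (κs : Type) (cs : κs → Ch S u nv), Finite κs ∧
      (∀ i, (cs i).inf = false ∧ (cs i).b = 0 ∧ ∀ z, Disjoint (cs i).D ((cn z).s '' {p : ℂ × ℂ | ‖p.1‖ ≤ 1 / 2 ∧ ‖p.2‖ ≤ 1 / 2})) ∧
      ∀ x ∈ s, (∃ z, x ∈ (cn z).D ∧ (CenS ((cn z).q x) ∨ CenS ((cn z).q x).swap)) ∨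
        ∃ i, x ∈ (cs i).D ∧ CenS ((cs i).q x)) ?_ ?_ ?_ ?_
    · exact ⟨Empty, fun i => i.elim, inferInstance, fun i => i.elim, fun x hx => absurd hx (notMem_empty x)⟩
    · rintro s t hst ⟨κs, cs, hf, h4, h5⟩
      exact ⟨κs, cs, hf, h4, fun x hx => h5 x (hst hx)⟩
    · rintro s t ⟨κs, cs, hf, h4, h5⟩ ⟨κt, ct, hf', h4', h5'⟩
      refine ⟨κs ⊕ κt, Sum.elim cs ct, inferInstance, ?_, ?_⟩
      · rintro (i | i)
        · exact h4 i
        · exact h4' i
      · rintro x (hx | hx)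
        · rcases h5 x hx with h6 | ⟨i, h6⟩
          · exact Or.inl h6
          · exact Or.inr ⟨Sum.inl i, h6⟩
        · rcases h5' x hx with h6 | ⟨i, h6⟩
          · exact Or.inl h6
          · exact Or.inr ⟨Sum.inr i, h6⟩
    · rintro x ⟨hxS, hux, hxR⟩
      by_cases hA : ∃ z, x ∈ (cn z).D ∧ (CenS ((cn z).q x) ∨ CenS ((cn z).q x).swap)
      · obtain ⟨z, hz, hz'⟩ := hA
        refine ⟨{x' | x' ∈ (cn z).D ∧ (CenS ((cn z).q x') ∨ CenS ((cn z).q x').swap)}, mem_nhdsWithin_of_mem_nhds ?_,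
          Empty, fun i => i.elim, inferInstance, fun i => i.elim, fun x' hx' => Or.inl ⟨z, hx'⟩⟩
        have h6 : {p : ℂ × ℂ | CenS p ∨ CenS p.swap} ∈ 𝓝 ((cn z).q x) :=
          (sel_isOpen_CenS.union sel_isOpen_swap).mem_nhds hz'
        exact Filter.inter_mem ((cn z).isOpen_D.mem_nhds hz) (((cn z).q_an x hz).continuousAt.preimage_mem_nhds h6)
      · have hcore : ∀ z, x ∉ (cn z).s '' {p : ℂ × ℂ | ‖p.1‖ ≤ 1 / 2 ∧ ‖p.2‖ ≤ 1 / 2} := by
          rintro z ⟨p, ⟨hp1, hp2⟩, rfl⟩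
          have hp := sel_mem_ball hp1 hp2
          have hinf : (cn z).inf = true → p.2 ≠ 0 := by
            intro h
            rw [(hcn z).1] at h
            exact absurd h (by simp)
          obtain ⟨-, hD, hq⟩ := (cn z).s_mem p hp hinf
          have h7 := (cn z).u_eq p hp hinf
          rw [hux, (hcn z).2.1, pow_one] at h7
          refine hA ⟨z, hD, ?_⟩
          rw [hq]
          rcases mul_eq_zero.1 h7.symm with h8 | h8
          · rcases mul_eq_zero.1 h8 with h9 | h9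
            · exact absurd h9 (cn z).k_ne
            · left
              refine ⟨?_, lt_of_le_of_lt hp2 (by norm_num)⟩
              rw [h9, norm_zero]
              norm_num
          · right
            refine ⟨?_, lt_of_le_of_lt hp1 (by norm_num)⟩
            show ‖p.2‖ < 3 / 8
            rw [h8, norm_zero]
            norm_num
        have hnx : nv x ≠ 0 := by
          intro h
          refine hA ⟨⟨x, hxS, hux, h⟩, (hcn ⟨x, hxS, hux, h⟩).2.2.1, Or.inl ?_⟩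
          rw [(hcn ⟨x, hxS, hux, h⟩).2.2.2.1]
          exact sel_CenS_zero
        have hU : (⋂ z, ((cn z).s '' {p : ℂ × ℂ | ‖p.1‖ ≤ 1 / 2 ∧ ‖p.2‖ ≤ 1 / 2})ᶜ) ∈ 𝓝 x := by
          refine (isOpen_iInter_of_finite fun z => ?_).mem_nhds (mem_iInter.2 hcore)
          exact (sel_core (cn z) (hcn z).1).isClosed.isOpen_compl
        obtain ⟨c, hc1, hc2, hc3, hc4, hc5⟩ := h1 x hxS hux hnx _ hU
        refine ⟨{x' | x' ∈ c.D ∧ CenS (c.q x')}, mem_nhdsWithin_of_mem_nhds ?_,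
          Unit, fun _ => c, inferInstance, fun _ => ⟨hc1, hc2, fun z => ?_⟩, fun x' hx' => Or.inr ⟨(), hx'⟩⟩
        · have h6 : {p : ℂ × ℂ | CenS p} ∈ 𝓝 (c.q x) := by
            refine sel_isOpen_CenS.mem_nhds ?_
            rw [hc5]
            exact sel_CenS_zero
          exact Filter.inter_mem (c.isOpen_D.mem_nhds hc4) ((c.q_an x hc4).continuousAt.preimage_mem_nhds h6)
        · exact disjoint_compl_left.mono_left (hc3.trans (iInter_subset _ z))
  obtain ⟨κs, cs, hfs, hs, hcs⟩ := key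
  refine ⟨{x : EN N // x ∈ S ∧ u x = 0 ∧ nv x = 0} ⊕ (κi ⊕ κs), ⟨{
    c := Sum.elim cn (Sum.elim ci cs)
    fin := inferInstance
    disj := ?_
    sep := ?_
    cov := ?_
    cov_inf := ?_ }⟩⟩
  · rintro (z | a | b) (z' | a' | b') hne hi1 hj1
    · exact absurd ((hcn z).1.symm.trans hi1) (by simp)
    · exact absurd ((hcn z).1.symm.trans hi1) (by simp)
    · exact absurd ((hcn z).1.symm.trans hi1) (by simp)
    · exact absurd ((hcn z').1.symm.trans hj1) (by simp)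
    · exact hidis a a' fun h => hne (by rw [h])
    · exact absurd ((hs b').1.symm.trans hj1) (by simp)
    · exact absurd ((hs b).1.symm.trans hi1) (by simp)
    · exact absurd ((hs b).1.symm.trans hi1) (by simp)
    · exact absurd ((hs b).1.symm.trans hi1) (by simp)
  · rintro (z | a | b) j hne hb1 p hp1 hp2
    · have hp := sel_mem_ball hp1 hp2
      have hinf : (cn z).inf = true → p.2 ≠ 0 := by
        intro h
        rw [(hcn z).1] at h
        exact absurd h (by simp)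
      have hD : (cn z).s p ∈ (cn z).D := ((cn z).s_mem p hp hinf).2.1
      rcases j with z' | a' | b'
      · exact fun h => disjoint_left.1 (hdisj z z' fun h => hne (by rw [h])) hD h
      · intro h
        have h8 : R₁ < ‖(cn z).s p‖ := (hi a').2 _ h
        exact absurd ((hcn z).2.2.2.2 _ hD) (not_le.2 h8)
      · intro h
        exact disjoint_left.1 ((hs b').2.2 z) h ⟨p, ⟨hp1, hp2⟩, rfl⟩
    · have h8 : (ci a).b = 0 := (ci a).b_inf (hi a).1
      have h9 : (ci a).b = 1 := hb1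
      omega
    · have h8 : (cs b).b = 0 := (hs b).2.1
      have h9 : (cs b).b = 1 := hb1
      omega
  · intro x hxS hux
    rcases le_or_gt ‖x‖ R' with hR | hR
    · rcases hcs x ⟨hxS, hux, hR⟩ with ⟨z, hz, hz' | hz'⟩ | ⟨i, hi', hi''⟩
      · exact ⟨Sum.inl z, hz, Or.inl hz'⟩
      · exact ⟨Sum.inl z, hz, Or.inr ⟨(hcn z).2.1, hz'⟩⟩
      · exact ⟨Sum.inr (Sum.inr i), hi', Or.inl hi''⟩
    · obtain ⟨i, h8, h9⟩ := hcov x hxS hR (by rw [hux, norm_zero]; exact hρ)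
      exact ⟨Sum.inr (Sum.inl i), h8, Or.inl h9⟩
  · refine ⟨R', ρ, hρ, fun x hxS hR hux => ?_⟩
    obtain ⟨i, h8, h9⟩ := hcov x hxS hR hux
    exact ⟨Sum.inr (Sum.inl i), (hi i).1, h8, h9⟩

end Pool.Agent.EG.TM
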