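import Pool.Agent.EG.TM.Mod

/-!
# EG TM Unif: Lipschitz constants in the cells

`Fp i p` is `(F.ch i).inf = true → p.2 ≠ 0`.  By `X_eq`: `M.X i μ t h = (μ exp (t - b h), yb b h)`, `yb 0 h = h`, `yb 1 h = exp h`, `b ≤ 1` (`b_le`), `M.a i = 1`, `M.k i = (F.ch i).k`.

`unif`.  For one chart `i`.  Let `p = M.X i μ t h` (`Cen p`), `p' = M.X i μ t h'`, `‖h' - h‖ ≤ δ ≤ 1 / 8`.  `b = 0`: `p' - p = (0, h' - h)`.  `b = 1`: `p' = (p.1 exp (-(h' - h)), p.2 exp (h' - h))`,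
`‖p' - p‖ ≤ 2 ‖h' - h‖`.  So `p'` and the segment `[p, p']` are in `closedBall 0 (5/4)`.  If `inf = false`: `s` is Lipschitz on the compact convex set `closedBall 0 (5/4)` (`fderiv` is bounded on it, the mean
value inequality `Convex.norm_image_sub_le_of_norm_fderiv_le`).  If `inf = true` (`b = 0`): `big`: `‖p.2‖ ≥ c / ‖s p‖ ≥ c / (|B| + 1) =: 2 c'`, `δ ≤ c'`: the segment is in the compact set
`closedBall 0 (5/4) ∩ {c' ≤ ‖p.2‖}`, where `s` is analytic and `fderiv s` is bounded; use the segment `[p, p']` in the mean value inequality.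
-/

set_option autoImplicit false

open Topology Filter Metric Set

namespace Pool.Agent.EG.TM

open Pool.Agent.H36.BP (EN)
open Pool.Agent.EG.RS (Model Atl Cen yb yb')

variable {N : ℕ} {S : Set (EN N)} {u : EN N → ℂ} {nv : EN N → EN N} {κ : Type}

private theorem cen_norm {p : ℂ × ℂ} (hp : Cen p) : ‖p‖ < 1 := by
  rw [Prod.norm_def]
  exact max_lt (hp.1.trans (by norm_num)) hp.2

/-- the lower bound of the second coordinate -/
private theorem low (c : Ch S u nv) (B : ℝ) : ∃ c' : ℝ, (c.inf ≠ true → c' ≤ 0) ∧ (c.inf = true → 0 < c') ∧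
    ∀ p : ℂ × ℂ, Cen p → (c.inf = true → p.2 ≠ 0) → ‖c.s p‖ ≤ B → 2 * c' ≤ ‖p.2‖ := by
  by_cases hi : c.inf = true
  · obtain ⟨c₀, hc₀, hb⟩ := c.big hi
    have hB : (0 : ℝ) < |B| + 1 := by positivity
    refine ⟨c₀ / (2 * (|B| + 1)), fun h => absurd hi h, fun _ => by positivity, fun p hp h2 hs => ?_⟩
    have h1 := hb p (by
      rw [mem_ball_zero_iff]
      linarith [cen_norm hp]) (h2 hi)
    have h3 : c₀ ≤ (|B| + 1) * ‖p.2‖ := by
      refine h1.trans (mul_le_mul_of_nonneg_right ?_ (norm_nonneg _))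
      linarith [le_abs_self B]
    have h4 : 2 * (c₀ / (2 * (|B| + 1))) = c₀ / (|B| + 1) := by
      field_simp
    rw [h4, div_le_iff₀ hB]
    linarith
  · exact ⟨0, fun _ => le_rfl, fun h => absurd h hi, fun p _ _ _ => by simp⟩

/-- one chart -/
private theorem one (c : Ch S u nv) (B : ℝ) : ∃ δ C : ℝ, 0 < δ ∧ 0 ≤ C ∧ δ ≤ 1 / 8 ∧
    ∀ p p' : ℂ × ℂ, Cen p → (c.inf = true → p.2 ≠ 0) → ‖c.s p‖ ≤ B → ‖p' - p‖ ≤ 2 * δ →
      p' ∈ ball (0 : ℂ × ℂ) 2 ∧ (c.inf = true → p'.2 ≠ 0) ∧ ‖c.s p' - c.s p‖ ≤ C * ‖p' - p‖ := by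
  obtain ⟨c', hc0, hc1, hlow⟩ := low c B
  set K : Set (ℂ × ℂ) := closedBall (0 : ℂ × ℂ) (5 / 4) ∩ {x | c' ≤ ‖x.2‖} with hK
  have hKc : IsCompact K :=
    (isCompact_closedBall (0 : ℂ × ℂ) (5 / 4)).inter_right
      (isClosed_le continuous_const (continuous_snd.norm))
  have hKb : ∀ x ∈ K, x ∈ ball (0 : ℂ × ℂ) 3 := fun x hx => by
    have := hx.1
    rw [mem_closedBall_zero_iff] at this
    rw [mem_ball_zero_iff]
    linarith
  have hK2 : ∀ x ∈ K, c.inf = true → x.2 ≠ 0 := fun x hx hi h0 => by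
    have h1 : c' ≤ ‖x.2‖ := hx.2
    rw [h0, norm_zero] at h1
    linarith [hc1 hi]
  have han : ∀ x ∈ K, AnalyticAt ℂ c.s x := fun x hx => c.s_an x (hKb x hx) (hK2 x hx)
  have hcont : ContinuousOn (fderiv ℂ c.s) K := fun x hx => ((han x hx).fderiv.continuousAt).continuousWithinAt
  obtain ⟨C, hC⟩ := hKc.exists_bound_of_continuousOn hcont
  obtain ⟨δ, hδ, hδ1, hδ2⟩ : ∃ δ : ℝ, 0 < δ ∧ δ ≤ 1 / 8 ∧ (c.inf = true → 2 * δ ≤ c') := by
    by_cases hi : c.inf = true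
    · refine ⟨min (1 / 8) (c' / 2), lt_min (by norm_num) (by linarith [hc1 hi]), min_le_left _ _, fun _ => ?_⟩
      linarith [min_le_right (1 / 8 : ℝ) (c' / 2)]
    · exact ⟨1 / 8, by norm_num, le_rfl, fun h => absurd h hi⟩
  have hseg0 : ∀ p x : ℂ × ℂ, Cen p → (c.inf = true → p.2 ≠ 0) → ‖c.s p‖ ≤ B → ‖x - p‖ ≤ 2 * δ → x ∈ K := by
    intro p x hp h2 hs hx
    refine ⟨?_, ?_⟩
    · rw [mem_closedBall_zero_iff]
      have h3 : ‖x‖ ≤ ‖x - p‖ + ‖p‖ := by
        calc ‖x‖ = ‖(x - p) + p‖ := by rw [sub_add_cancel]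
          _ ≤ _ := norm_add_le _ _
      linarith [cen_norm hp]
    · show c' ≤ ‖x.2‖
      by_cases hi : c.inf = true
      · have h3 := hlow p hp h2 hs
        have h4 : ‖(x - p).2‖ ≤ ‖x - p‖ := by
          rw [Prod.norm_def]
          exact le_max_right _ _
        have h5 : ‖p.2‖ ≤ ‖x.2‖ + ‖(x - p).2‖ := by
          calc ‖p.2‖ = ‖x.2 - (x - p).2‖ := by rw [Prod.snd_sub, sub_sub_cancel]
            _ ≤ _ := norm_sub_le _ _
        linarith [hδ2 hi]
      · exact (hc0 hi).trans (norm_nonneg _)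
  refine ⟨δ, max C 0, hδ, le_max_right _ _, hδ1, fun p p' hp h2 hs hd => ?_⟩
  have hp' : p' ∈ K := hseg0 p p' hp h2 hs hd
  refine ⟨?_, hK2 p' hp', ?_⟩
  · have := hp'.1
    rw [mem_closedBall_zero_iff] at this
    rw [mem_ball_zero_iff]
    linarith
  · have hseg : ∀ x ∈ segment ℝ p p', x ∈ K := by
      intro x hx
      refine hseg0 p x hp h2 hs (le_trans ?_ hd)
      rw [segment_eq_image'] at hx
      obtain ⟨θ, hθ, rfl⟩ := hx
      rw [add_sub_cancel_left, norm_smul, Real.norm_of_nonneg hθ.1]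
      exact mul_le_of_le_one_left (norm_nonneg _) hθ.2
    have := Convex.norm_image_sub_le_of_norm_fderiv_le (𝕜 := ℂ) (f := c.s) (s := segment ℝ p p') (C := max C 0)
      (fun x hx => (han x (hseg x hx)).differentiableAt) (fun x hx => (hC x (hseg x hx)).trans (le_max_left _ _))
      (convex_segment p p') (left_mem_segment ℝ p p') (right_mem_segment ℝ p p')
    exact this

theorem unif {F : Fam S u nv κ} {M : Model (Ix F) (EN N ⊕ (κ × ℂ))} (hM : M.toAtl = F.atl) (B : ℝ) :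
    ∃ δ C : ℝ, 0 < δ ∧ ∀ (i : Ix F) (μ t h h' : ℂ), M.k i * μ ^ M.a i = 1 → ‖Complex.exp t‖ < M.ρ → Cen (M.X i μ t h) →
    ((F.ch i).inf = true → (M.X i μ t h).2 ≠ 0) → ‖(F.ch i).s (M.X i μ t h)‖ ≤ B → ‖h' - h‖ ≤ δ →
    M.X i μ t h' ∈ ball (0 : ℂ × ℂ) 2 ∧ ((F.ch i).inf = true → (M.X i μ t h').2 ≠ 0) ∧
      ‖(F.ch i).s (M.X i μ t h') - (F.ch i).s (M.X i μ t h)‖ ≤ C * ‖h' - h‖ := by
  have hfin : Finite (Ix F) := F.finite_ix
  choose δ C hδ hC hδ1 hH using fun i : Ix F => one (F.ch i) B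
  rcases isEmpty_or_nonempty (Ix F) with hE | hE
  · exact ⟨1, 0, one_pos, fun i => (hE.false i).elim⟩
  obtain ⟨i₀, hi₀⟩ := Finite.exists_min δ
  obtain ⟨j₀, hj₀⟩ := Finite.exists_max C
  refine ⟨δ i₀, 2 * C j₀, hδ i₀, fun i μ t h h' _ _ hcen hfin' hs hh => ?_⟩
  have hd8 : ‖h' - h‖ ≤ 1 / 8 := hh.trans (hδ1 i₀)
  have hdist : ‖M.X i μ t h' - M.X i μ t h‖ ≤ 2 * ‖h' - h‖ := by
    rw [X_eq hM, X_eq hM]
    rw [X_eq hM] at hcen
    have hb := (F.ch i).b_le
    have hcases : (F.ch i).b = 0 ∨ (F.ch i).b = 1 := by omega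
    rcases hcases with hb0 | hb1
    · rw [hb0] at hcen ⊢
      rw [Prod.norm_def]
      refine max_le ?_ ?_
      · simp only [Prod.fst_sub, Nat.cast_zero, zero_mul, sub_zero, sub_self, norm_zero]
        positivity
      · simp only [Prod.snd_sub, yb, if_pos]
        linarith [norm_nonneg (h' - h)]
    · rw [hb1] at hcen ⊢
      simp only [yb, one_ne_zero, if_false, Nat.cast_one, one_mul] at hcen ⊢
      have e1 : μ * Complex.exp (t - h') - μ * Complex.exp (t - h) =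
          (μ * Complex.exp (t - h)) * (Complex.exp (-(h' - h)) - 1) := by
        rw [mul_sub, mul_one, mul_assoc, ← Complex.exp_add]
        congr 3
        ring
      have e2 : Complex.exp h' - Complex.exp h = Complex.exp h * (Complex.exp (h' - h) - 1) := by
        rw [mul_sub, mul_one, ← Complex.exp_add]
        congr 2
        ring
      have n1 : ‖Complex.exp (-(h' - h)) - 1‖ ≤ 2 * ‖h' - h‖ := by
        have := Complex.norm_exp_sub_one_le (x := -(h' - h)) (by rw [norm_neg]; linarith)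
        rwa [norm_neg] at this
      have n2 : ‖Complex.exp (h' - h) - 1‖ ≤ 2 * ‖h' - h‖ :=
        Complex.norm_exp_sub_one_le (by linarith)
      rw [Prod.norm_def]
      refine max_le ?_ ?_
      · simp only [Prod.fst_sub]
        rw [e1, norm_mul]
        have := hcen.1
        simp only at this
        calc _ ≤ 1 * (2 * ‖h' - h‖) :=
              mul_le_mul (by linarith) n1 (norm_nonneg _) zero_le_one
          _ = _ := one_mul _
      · simp only [Prod.snd_sub]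
        rw [e2, norm_mul]
        have := hcen.2
        simp only at this
        calc _ ≤ 1 * (2 * ‖h' - h‖) :=
              mul_le_mul (by linarith) n2 (norm_nonneg _) zero_le_one
          _ = _ := one_mul _
  have h2 : ‖M.X i μ t h' - M.X i μ t h‖ ≤ 2 * δ i :=
    hdist.trans (by linarith [hi₀ i])
  obtain ⟨r1, r2, r3⟩ := hH i _ _ hcen hfin' hs h2
  refine ⟨r1, r2, r3.trans ?_⟩
  calc C i * ‖M.X i μ t h' - M.X i μ t h‖ ≤ C j₀ * (2 * ‖h' - h‖) :=
        mul_le_mul (hj₀ i) hdist (norm_nonneg _) (hC j₀)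
    _ = _ := by ring

end Pool.Agent.EG.TM
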