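import Pool.Agent.EG.TM.ExM
import Pool.Agent.EG.TM.CellS
import Pool.Agent.EG.TM.Seam
import Pool.Agent.EG.TM.Unif
import Pool.Agent.EG.TM.Cell
import Pool.Agent.EG.TM.ChS
import Pool.Agent.EG.TM.ChN
import Pool.Agent.EG.TM.FamI
import Pool.Agent.EG.TM.Sel

/-!
# EG TM Main: the left end exists
-/

set_option autoImplicit false

open Topology Filter Metric Set

namespace Pool.Agent.EG.TM

open Pool.Agent.TC (ev grad OnV IsSec nv continuous_ev)
open Pool.Agent.H36.BP (EN fs wd)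
open Pool.Agent.EG.RS (Model Atl Cen)

variable {n : ℕ} {Q : Fin (n + 2) → MvPolynomial (Fin (n + 3)) ℂ} {e : Fin (n + 2) → ℕ}

theorem isClosed_sf (Q : Fin (n + 2) → MvPolynomial (Fin (n + 3)) ℂ) : IsClosed (Sf Q) := by
  have h1 : Sf Q = {x | OnV Q x} ∩ {x | ev (Q 1) x = 1} := rfl
  rw [h1]
  exact (Pool.Agent.TC.isClosed_onV Q).inter (isClosed_eq (continuous_ev _) continuous_const)

theorem continuous_nv (Q : Fin (n + 2) → MvPolynomial (Fin (n + 3)) ℂ) : Continuous (nv Q) := by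
  unfold nv
  have h1 : Continuous fun x : EN (n + 2) => Pool.Agent.TC.cross fun j => grad (Q j) x :=
    Pool.Agent.TC.continuous_cross.comp (continuous_pi fun j => Pool.Agent.TC.continuous_grad (Q j))
  exact (PiLp.continuous_toLp 2 _).comp h1

theorem exists_family (h : LS Q e) : ∃ κ : Type, Nonempty (Fam (Sf Q) (ev (Q 0)) (nv Q) κ) := by
  refine exists_fam (isClosed_sf Q) (continuous_ev _) (continuous_nv Q) (fun x hx h0 hn U hU => chart_smooth hx h0 hn hU)
    (fun x hx h0 hn U hU => chart_node h hx (h.node x (sf_ne_zero h hx) hx.1 h0 (by rw [hx.2]; exact one_ne_zero) hn) hU) (exists_inf h)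

theorem leftEnd (h : LS Q e) : Nonempty (LeftEnd Q e) := by
  obtain ⟨κ, ⟨F⟩⟩ := exists_family h
  obtain ⟨M, hM⟩ := exists_model F
  obtain ⟨C₀, hB⟩ := bphi hM
  have ha : ∀ i, M.a i = 1 := fun i => by
    have h1 : M.toAtl.a = F.atl.a := by rw [hM]
    exact congrFun h1 i
  have hb : ∀ i, M.b i = (F.ch i).b := fun i => by
    have h1 : M.toAtl.b = F.atl.b := by rw [hM]
    exact congrFun h1 i
  have hk : ∀ i, M.k i = (F.ch i).k := fun i => by
    have h1 : M.toAtl.k = F.atl.k := by rw [hM]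
    exact congrFun h1 i
  have h23 : ∀ p ∈ ball (0 : ℂ × ℂ) 2, p ∈ ball (0 : ℂ × ℂ) 3 := fun p hp => ball_subset_ball (by norm_num) hp
  refine ⟨{ ι := Ix F, Y := EN (n + 2) ⊕ (κ × ℂ), fin := F.finite_ix, M := M, C₀ := C₀, bphi := hB, Xi := fun i => (F.ch i).s,
            Fp := fun i p => (F.ch i).inf = true → p.2 ≠ 0, a_eq := ha, b_le := fun i => by rw [hb]; exact (F.ch i).b_le,
            eqv := fun i j p q _ _ hp hq hpq => eqv hM hp hq hpq,
            mem := ?_, der := ?_, cell := ?_, seam := ?_, unif := ?_ }⟩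
  · intro i p hp hf
    refine ⟨((F.ch i).s_mem p (h23 p hp) hf).1, ?_, (F.ch i).s_an p (h23 p hp) hf⟩
    rw [(F.ch i).u_eq p (h23 p hp) hf]
    unfold Atl.u
    rw [ha, hb, hk, pow_one]
  · intro i μ t h' hμ _ hX hf
    exact der hM hμ (h23 _ hX) hf
  · intro C r₀
    obtain ⟨r₁, T₁, hr₁, hc⟩ := cell_chart h F C r₀
    have hρ := M.ρ_pos
    refine ⟨r₁, min T₁ (Real.log (M.ρ / 2) - |r₀|), hr₁, fun t₁ f ht₁ hf hfs => ?_⟩
    obtain ⟨h1, h2, i, h3⟩ := hc t₁ f (ht₁.trans (min_le_left _ _)) hf hfs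
    obtain ⟨μ, h', hμ, hd, h4⟩ := exists_cell hM h1 h2 h3
    refine ⟨i, μ, h', hμ, hd, fun t ht => ⟨?_, (h4 t ht).1, (h4 t ht).2.1, (h4 t ht).2.2⟩⟩
    rw [Complex.norm_exp]
    have h5 : t.re ≤ Real.log (M.ρ / 2) := by
      have h6 : t.re - t₁.re ≤ r₀ := by
        have h7 := Complex.abs_re_le_norm (t - t₁)
        rw [mem_ball, dist_eq_norm] at ht
        have h8 := le_abs_self (t - t₁).re
        rw [Complex.sub_re] at h8
        rw [Complex.sub_re] at h7
        linarith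
      have h7 := ht₁.trans (min_le_right _ _)
      have h8 := le_abs_self r₀
      linarith
    calc Real.exp t.re ≤ Real.exp (Real.log (M.ρ / 2)) := Real.exp_le_exp.mpr h5
      _ = M.ρ / 2 := Real.exp_log (by positivity)
  · intro T₀ ε' hε'
    obtain ⟨ε, hε, h1⟩ := seam hM T₀ ε' hε'
    exact ⟨ε, hε, fun i μ U h' η hU hT hμ hd hη hh => h1 i μ U h' η hU hT hμ hd hη hh⟩
  · intro B
    exact unif hM B

end Pool.Agent.EG.TM
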