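import Pool.Agent.EG.TM.Close

/-!
# EG TM MkCh: charts from germs

`mk_ch`.  Choose `R > 0` such that the conditions `hs`, `AnalyticAt ℂ s p`, `AnalyticAt ℂ W p` hold for `p ∈ ball 0 R` and an open neighbourhood `V ⊆ U` of `x₀` on which `q` is analytic and `x ∈ S → s (q x) = x` holds; make `R` smaller such that
`s p ∈ V` for `p ∈ ball 0 R` (`s 0 = x₀`).  `r = R / 3`.  The chart: `s' p = s (r • p)`, `q' x = (r⁻¹) • q x`, `D = {x ∈ V | ‖q x‖ < R}` (open: `q` is continuous on the open set `V`), `k = r ^ (1 + b)`, `w p = r ^ 2 * W (r • p)`, `inf = false`.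
`q (s p) = p` for `p ∈ ball 0 R`, `q x₀ = q (s 0) = 0`.  `q_mem`: for `x ∈ D ∩ S`: `‖q' x‖ < 3`, `s' (q' x) = s (q x) = x`.  `form`: `fderiv s' p v = r • fderiv s (r • p) v`; for `b = 0`: `k • ∂₂ s' = r • r • ∂₂ s = r ^ 2 W nv`; for `b = 1`:
`k p₂ • ∂₂ s' p - k p₁ • ∂₁ s' p = r ^ 2 • (r p₂ • ∂₂ s - r p₁ • ∂₁ s) = r ^ 2 W nv`.  `u (s' p) = (r p₁) (r p₂) ^ b = k p₁ p₂ ^ b`.  `close`: `close_of_compact`.
-/

set_option autoImplicit false

open Topology Filter Metric Set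

namespace Pool.Agent.EG.TM

open Pool.Agent.H36.BP (EN)

variable {N : ℕ} {S : Set (EN N)} {u : EN N → ℂ} {nv : EN N → EN N}

theorem mk_ch {s : ℂ × ℂ → EN N} {q : EN N → ℂ × ℂ} {W : ℂ × ℂ → ℂ} {b : ℕ} (hb : b ≤ 1) {x₀ : EN N} (h0 : s 0 = x₀) (hsa : AnalyticAt ℂ s 0)
    (hqa : AnalyticAt ℂ q x₀) (hWa : AnalyticAt ℂ W 0)
    (hs : ∀ᶠ p in 𝓝 (0 : ℂ × ℂ), s p ∈ S ∧ q (s p) = p ∧ u (s p) = p.1 * p.2 ^ b ∧
      (p.2 ^ b) • fderiv ℂ s p (0, 1) - (b * p.1) • fderiv ℂ s p (1, 0) = W p • nv (s p) ∧ ((b = 1 → p ≠ 0) → nv (s p) ≠ 0))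
    (hq : ∀ᶠ x in 𝓝 x₀, x ∈ S → s (q x) = x) {U : Set (EN N)} (hU : U ∈ 𝓝 x₀) :
    ∃ c : Ch S u nv, c.inf = false ∧ c.b = b ∧ c.D ⊆ U ∧ x₀ ∈ c.D ∧ c.q x₀ = 0 := by
  -- the open set
  have hV0 : ∀ᶠ x in 𝓝 x₀, x ∈ U ∧ AnalyticAt ℂ q x ∧ (x ∈ S → s (q x) = x) :=
    (show ∀ᶠ x in 𝓝 x₀, x ∈ U from hU).and (hqa.eventually_analyticAt.and hq)
  obtain ⟨V, hV, hVo, hxV⟩ := _root_.eventually_nhds_iff.mp hV0
  have hsV : ∀ᶠ p in 𝓝 (0 : ℂ × ℂ), s p ∈ V := by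
    have hc : Tendsto s (𝓝 0) (𝓝 x₀) := by
      have := hsa.continuousAt.tendsto
      rwa [h0] at this
    exact hc.eventually (hVo.mem_nhds hxV)
  obtain ⟨R, hR, hall⟩ := Metric.eventually_nhds_iff_ball.mp
    (hsV.and (hsa.eventually_analyticAt.and (hWa.eventually_analyticAt.and hs)))
  obtain ⟨r, hr, hRr⟩ : ∃ r : ℝ, 0 < r ∧ R = 3 * r := ⟨R / 3, by positivity, by ring⟩
  have hrc : (r : ℂ) ≠ 0 := by exact_mod_cast hr.ne'
  have hnr : ‖(r : ℂ)‖ = r := by rw [Complex.norm_real, Real.norm_of_nonneg hr.le]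
  -- scaling
  have hball : ∀ p ∈ ball (0 : ℂ × ℂ) 3, (r : ℂ) • p ∈ ball (0 : ℂ × ℂ) R := by
    intro p hp
    rw [mem_ball_zero_iff] at hp ⊢
    rw [norm_smul, hnr, hRr]
    nlinarith
  have hscA : ∀ p : ℂ × ℂ, AnalyticAt ℂ (fun p : ℂ × ℂ => (r : ℂ) • p) p := fun p =>
    ((r : ℂ) • ContinuousLinearMap.id ℂ (ℂ × ℂ)).analyticAt p
  have hsan : ∀ p ∈ ball (0 : ℂ × ℂ) 3, AnalyticAt ℂ (fun p : ℂ × ℂ => s ((r : ℂ) • p)) p := by
    intro p hp
    have h1 := (hall _ (hball p hp)).2.1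
    exact AnalyticAt.fun_comp (g := s) (f := fun p : ℂ × ℂ => (r : ℂ) • p) h1 (hscA p)
  have hsm : ∀ p ∈ ball (0 : ℂ × ℂ) 3, s ((r : ℂ) • p) ∈ V ∩ q ⁻¹' ball (0 : ℂ × ℂ) R ∧
      (r : ℂ)⁻¹ • q (s ((r : ℂ) • p)) = p := by
    intro p hp
    obtain ⟨h1, -, -, -, h2, -⟩ := hall _ (hball p hp)
    refine ⟨⟨h1, ?_⟩, ?_⟩
    · rw [mem_preimage, h2]
      exact hball p hp
    · rw [h2, smul_smul, inv_mul_cancel₀ hrc, one_smul]
  have hDo : IsOpen (V ∩ q ⁻¹' ball (0 : ℂ × ℂ) R) := by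
    refine ContinuousOn.isOpen_inter_preimage ?_ hVo isOpen_ball
    intro x hx
    exact (hV x hx).2.1.continuousAt.continuousWithinAt
  have hqan : ∀ x ∈ V ∩ q ⁻¹' ball (0 : ℂ × ℂ) R, AnalyticAt ℂ (fun x => (r : ℂ)⁻¹ • q x) x :=
    fun x hx => AnalyticAt.fun_comp (g := fun p : ℂ × ℂ => (r : ℂ)⁻¹ • p) (f := q)
      (((r : ℂ)⁻¹ • ContinuousLinearMap.id ℂ (ℂ × ℂ)).analyticAt _) (hV x hx.1).2.1
  have hq0 : q x₀ = 0 := by
    have h1 := (hall 0 (mem_ball_self hR)).2.2.2.2.1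
    rwa [h0] at h1
  have hclose : ∀ ε : ℝ, 0 < ε → ∃ δ : ℝ, 0 < δ ∧ ∀ p ∈ closedBall (0 : ℂ × ℂ) 1, ∀ x : EN N,
      ‖x - s ((r : ℂ) • p)‖ ≤ δ * ‖s ((r : ℂ) • p)‖ →
      x ∈ V ∩ q ⁻¹' ball (0 : ℂ × ℂ) R ∧ ‖(r : ℂ)⁻¹ • q x - p‖ ≤ ε := by
    intro ε hε
    exact close_of_compact (s := fun p : ℂ × ℂ => s ((r : ℂ) • p)) (q := fun x => (r : ℂ)⁻¹ • q x) hDo
      (fun p hp => (hsan p hp).continuousAt.continuousWithinAt) hsm
      (fun x hx => (hqan x hx).continuousAt.continuousWithinAt) hε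
  refine ⟨{ inf := false
            b := b
            s := fun p => s ((r : ℂ) • p)
            q := fun x => (r : ℂ)⁻¹ • q x
            D := V ∩ q ⁻¹' ball (0 : ℂ × ℂ) R
            k := (r : ℂ) ^ (1 + b)
            w := fun p => (r : ℂ) ^ 2 * W ((r : ℂ) • p)
            b_le := hb
            b_inf := fun h => absurd h (by simp)
            k_ne := pow_ne_zero _ hrc
            isOpen_D := hDo
            s_an := fun p hp _ => hsan p hp
            s_mem := fun p hp _ => ⟨(hall _ (hball p hp)).2.2.2.1, (hsm p hp).1, (hsm p hp).2⟩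
            q_an := hqan
            q_mem := ?_
            u_eq := ?_
            w_an := ?_
            form := ?_
            nv_ne := ?_
            big := fun h => absurd h (by simp)
            close := ?_ }, rfl, rfl, fun x hx => (hV x hx.1).1, ⟨hxV, ?_⟩, ?_⟩
  · intro x hx hxS
    refine ⟨?_, fun h => absurd h (by simp), ?_⟩
    · have h1 := hx.2
      rw [mem_preimage, mem_ball_zero_iff, hRr] at h1
      rw [mem_ball_zero_iff, norm_smul, norm_inv, hnr, inv_mul_lt_iff₀ hr]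
      linarith
    · show s ((r : ℂ) • (r : ℂ)⁻¹ • q x) = x
      rw [smul_smul, mul_inv_cancel₀ hrc, one_smul]
      exact (hV x hx.1).2.2 hxS
  · intro p hp _
    have h1 := (hall _ (hball p hp)).2.2.2.2.2.1
    rw [h1]
    simp only [Prod.smul_fst, Prod.smul_snd, smul_eq_mul]
    rw [mul_pow, pow_add, pow_one]
    ring
  · intro p hp
    have h1 := (hall _ (hball p hp)).2.2.1
    exact analyticAt_const.mul
      (AnalyticAt.fun_comp (g := W) (f := fun p : ℂ × ℂ => (r : ℂ) • p) h1 (hscA p))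
  · intro p hp _
    have h1 := (hall _ (hball p hp)).2.2.2.2.2.2.1
    have h2 := (hall _ (hball p hp)).2.1
    have hfd : fderiv ℂ (fun p : ℂ × ℂ => s ((r : ℂ) • p)) p = (r : ℂ) • fderiv ℂ s ((r : ℂ) • p) := by
      have hd : HasFDerivAt (fun p : ℂ × ℂ => (r : ℂ) • p) ((r : ℂ) • ContinuousLinearMap.id ℂ (ℂ × ℂ)) p :=
        (hasFDerivAt_id p).const_smul (r : ℂ)
      have hc := (h2.differentiableAt.hasFDerivAt).comp p hd
      have hc2 := hc.fderiv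
      rw [Function.comp_def] at hc2
      rw [hc2]
      ext v <;> simp
    rw [hfd]
    simp only [Prod.smul_fst, Prod.smul_snd, smul_eq_mul] at h1
    rw [mul_smul ((r : ℂ) ^ 2), ← h1, smul_sub]
    simp only [ContinuousLinearMap.smul_apply, smul_smul]
    interval_cases b
    · congr 1
      · congr 1
        ring
      · congr 1
        push_cast
        ring
    · congr 1
      · congr 1
        ring
      · congr 1
        push_cast
        ring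
  · intro p hp _ hb1
    refine (hall _ (hball p hp)).2.2.2.2.2.2.2 fun h1 h2 => hb1 h1 ?_
    exact (smul_eq_zero.mp h2).resolve_left hrc
  · intro ε hε
    obtain ⟨δ, hδ, h1⟩ := hclose ε hε
    exact ⟨δ, hδ, fun p hp _ x _ _ hx => h1 p hp x hx⟩
  · rw [mem_preimage, hq0]
    exact mem_ball_self hR
  · show (r : ℂ)⁻¹ • q x₀ = 0
    rw [hq0, smul_zero]

end Pool.Agent.EG.TM
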