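import Pool.Agent.EG.TM.Trans
import Pool.Agent.EG.RS.Cell

/-!
# EG TM Mod: the model of a finite family of charts

The indices are the pairs `(m, false)` (the chart `m`) and `(m, true)` (the exchanged chart, for `b = 1`).  The points are the finite points `inl x` and the points at infinity
`inr (m, p.1)` of the charts `m` at infinity.

`bphi`: in the cell `exp t = k x y ^ b` (`RS.u_X`) and `yb' b h = y ^ b` (`b ≤ 1`), `a = 1`, so `phi = w x y ^ b / exp t = w / k` (`phi_eq`), and `w` is bounded on `ball 0 2`.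

`der`: `∂_h X = (- b x, y ^ b)` and `form`: `k (y ^ b ∂₂ s - b x ∂₁ s) = w nv`, so the derivative is `(w / k) nv`.
`eqv`: both sides are `inl` of the same point.
-/

set_option autoImplicit false

open Topology Filter Metric Set

namespace Pool.Agent.EG.TM

open Pool.Agent.H36.BP (EN)
open Pool.Agent.EG.RS (Model Atl Cen yb yb')
open Pool.Agent.EG.RSQ (Bphi)

variable {N : ℕ} {S : Set (EN N)} {u : EN N → ℂ} {nv : EN N → EN N} {κ : Type}

/-- the exchanged chart -/
noncomputable def Ch.sw (c : Ch S u nv) (hb : c.b = 1) : Ch S u nv := (exists_swap c hb).choose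

theorem Ch.sw_spec (c : Ch S u nv) (hb : c.b = 1) : (c.sw hb).inf = false ∧ (c.sw hb).b = 1 ∧ (∀ p, (c.sw hb).s p = c.s p.swap) ∧
    (∀ x, (c.sw hb).q x = (c.q x).swap) ∧ (c.sw hb).D = c.D ∧ (c.sw hb).k = c.k ∧ ∀ p, (c.sw hb).w p = -c.w p.swap :=
  (exists_swap c hb).choose_spec

/-- the indices: the charts and the exchanged charts -/
def Ix (F : Fam S u nv κ) : Type := {x : κ × Bool // x.2 = true → (F.c x.1).b = 1}

/-- the chart of an index -/
noncomputable def Fam.ch (F : Fam S u nv κ) (x : Ix F) : Ch S u nv :=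
  if hx : x.1.2 = true then (F.c x.1.1).sw (x.2 hx) else F.c x.1.1

open Classical in
/-- the parametrization with the points at infinity -/
noncomputable def Fam.pt (F : Fam S u nv κ) (x : Ix F) (p : ℂ × ℂ) : EN N ⊕ (κ × ℂ) :=
  if (F.ch x).inf = true ∧ p.2 = 0 then Sum.inr (x.1.1, p.1) else Sum.inl ((F.ch x).s p)

/-- the charts of the model -/
noncomputable def Fam.atl (F : Fam S u nv κ) : Atl (Ix F) (EN N ⊕ (κ × ℂ)) where
  s := F.pt
  a := fun _ => 1
  b := fun x => (F.ch x).b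
  k := fun x => (F.ch x).k
  w := fun x => (F.ch x).w

theorem Fam.finite_ix (F : Fam S u nv κ) : Finite (Ix F) := by
  have := F.fin
  exact Subtype.finite

theorem X_eq {F : Fam S u nv κ} {M : Model (Ix F) (EN N ⊕ (κ × ℂ))} (hM : M.toAtl = F.atl) (i : Ix F) (μ t h : ℂ) :
    M.X i μ t h = (μ * Complex.exp (t - (F.ch i).b * h), yb (F.ch i).b h) := by
  have h1 : M.X i μ t h = F.atl.X i μ t h := by rw [hM]
  rw [h1]
  simp [Atl.X, Fam.atl]

private theorem mod_a {F : Fam S u nv κ} {M : Model (Ix F) (EN N ⊕ (κ × ℂ))} (hM : M.toAtl = F.atl) (i : Ix F) : M.a i = 1 := by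
  have h1 : M.a i = F.atl.a i := by rw [hM]
  rw [h1]
  rfl

private theorem mod_k {F : Fam S u nv κ} {M : Model (Ix F) (EN N ⊕ (κ × ℂ))} (hM : M.toAtl = F.atl) (i : Ix F) : M.k i = (F.ch i).k := by
  have h1 : M.k i = F.atl.k i := by rw [hM]
  rw [h1]
  rfl

private theorem mod_b {F : Fam S u nv κ} {M : Model (Ix F) (EN N ⊕ (κ × ℂ))} (hM : M.toAtl = F.atl) (i : Ix F) : M.b i = (F.ch i).b := by
  have h1 : M.b i = F.atl.b i := by rw [hM]
  rw [h1]
  rfl

private theorem mod_w {F : Fam S u nv κ} {M : Model (Ix F) (EN N ⊕ (κ × ℂ))} (hM : M.toAtl = F.atl) (i : Ix F) : M.w i = (F.ch i).w := by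
  have h1 : M.w i = F.atl.w i := by rw [hM]
  rw [h1]
  rfl

private theorem mod_yb (b : ℕ) (hb : b ≤ 1) (h : ℂ) : yb' b h = yb b h ^ b := by
  interval_cases b
  · simp [yb']
  · simp [yb', yb]

theorem phi_eq {F : Fam S u nv κ} {M : Model (Ix F) (EN N ⊕ (κ × ℂ))} (hM : M.toAtl = F.atl) {i : Ix F} {μ t h : ℂ}
    (hμ : M.k i * μ ^ M.a i = 1) : M.phi i μ t h = (F.ch i).w (M.X i μ t h) / (F.ch i).k := by
  have hu := Pool.Agent.EG.RS.u_X M hμ t h
  unfold Atl.u at hu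
  unfold Atl.phi
  rw [mod_a hM, mod_k hM, mod_b hM, pow_one] at hu
  rw [mod_a hM, mod_w hM, mod_b hM, mod_yb _ (F.ch i).b_le, Nat.cast_one, div_one]
  have hk := (F.ch i).k_ne
  have h2 : (M.X i μ t h).2 = yb (F.ch i).b h := by rw [X_eq hM]
  rw [h2] at hu
  have he := Complex.exp_ne_zero t
  rw [div_eq_div_iff he hk, ← hu]
  ring

theorem bphi {F : Fam S u nv κ} {M : Model (Ix F) (EN N ⊕ (κ × ℂ))} (hM : M.toAtl = F.atl) : ∃ C₀ : ℝ, Bphi M C₀ := by
  have := F.finite_ix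
  choose C hC using fun i => M.w_bd i
  obtain ⟨B, hB⟩ := (Set.finite_range fun i => C i / ‖(F.ch i).k‖).bddAbove
  refine ⟨B, fun i μ t h hμ hX _ => ?_⟩
  rw [phi_eq hM hμ, norm_div]
  have h1 := hC i _ hX
  rw [mod_w hM] at h1
  exact (div_le_div_of_nonneg_right h1 (norm_nonneg _)).trans (hB ⟨i, rfl⟩)

private theorem mod_hasDerivAt (b : ℕ) (h : ℂ) : HasDerivAt (yb b) (yb' b h) h := by
  by_cases hb : b = 0
  · have h1 : yb b = fun h => h := by
      funext h
      rw [yb, if_pos hb]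
    rw [h1, yb', if_pos hb]
    exact hasDerivAt_id h
  · have h1 : yb b = Complex.exp := by
      funext h
      rw [yb, if_neg hb]
    rw [h1, yb', if_neg hb]
    exact Complex.hasDerivAt_exp h

theorem der {F : Fam S u nv κ} {M : Model (Ix F) (EN N ⊕ (κ × ℂ))} (hM : M.toAtl = F.atl) {i : Ix F} {μ t h : ℂ}
    (hμ : M.k i * μ ^ M.a i = 1) (hX : M.X i μ t h ∈ ball (0 : ℂ × ℂ) 3) (hf : (F.ch i).inf = true → (M.X i μ t h).2 ≠ 0) :
    HasDerivAt (fun h' => (F.ch i).s (M.X i μ t h')) (M.phi i μ t h • nv ((F.ch i).s (M.X i μ t h))) h := by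
  have hk := (F.ch i).k_ne
  have hX' : HasDerivAt (fun h' => M.X i μ t h') (-((F.ch i).b * (M.X i μ t h).1), (M.X i μ t h).2 ^ (F.ch i).b) h := by
    have h1 : HasDerivAt (fun h' : ℂ => μ * Complex.exp (t - (F.ch i).b * h')) (μ * (Complex.exp (t - (F.ch i).b * h) * (-((F.ch i).b * 1)))) h :=
      (((hasDerivAt_id h).const_mul ((F.ch i).b : ℂ)).const_sub t).cexp.const_mul μ
    have h2 := h1.prodMk (mod_hasDerivAt (F.ch i).b h)
    have h3 : (fun h' => M.X i μ t h') = fun h' => (μ * Complex.exp (t - (F.ch i).b * h'), yb (F.ch i).b h') := by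
      funext h'
      exact X_eq hM i μ t h'
    rw [h3]
    convert h2 using 1
    rw [X_eq hM, mod_yb _ (F.ch i).b_le]
    ext
    · simp only
      ring
    · rfl
  have hs := ((F.ch i).s_an _ hX hf).differentiableAt.hasFDerivAt
  have h1 := hs.comp_hasDerivAt h hX'
  refine h1.congr_deriv ?_
  have hform := (F.ch i).form _ hX hf
  have h2 : ((-((F.ch i).b * (M.X i μ t h).1), (M.X i μ t h).2 ^ (F.ch i).b) : ℂ × ℂ) =
      (-((F.ch i).b * (M.X i μ t h).1)) • ((1, 0) : ℂ × ℂ) + ((M.X i μ t h).2 ^ (F.ch i).b) • ((0, 1) : ℂ × ℂ) := by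
    ext <;> simp
  rw [h2, map_add, map_smul, map_smul, phi_eq hM hμ, div_eq_inv_mul, mul_smul, ← hform, smul_sub, smul_smul, smul_smul]
  have h3 : (F.ch i).k⁻¹ * ((F.ch i).k * (M.X i μ t h).2 ^ (F.ch i).b) = (M.X i μ t h).2 ^ (F.ch i).b := by
    field_simp
  have h4 : (F.ch i).k⁻¹ * ((F.ch i).k * (F.ch i).b * (M.X i μ t h).1) = (F.ch i).b * (M.X i μ t h).1 := by
    field_simp
  rw [h3, h4, neg_smul]
  abel

theorem eqv {F : Fam S u nv κ} {M : Model (Ix F) (EN N ⊕ (κ × ℂ))} (hM : M.toAtl = F.atl) {i j : Ix F} {p q : ℂ × ℂ}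
    (hp : (F.ch i).inf = true → p.2 ≠ 0) (hq : (F.ch j).inf = true → q.2 ≠ 0) (h : (F.ch i).s p = (F.ch j).s q) : M.s i p = M.s j q := by
  have h1 : M.s = F.pt := by
    have h2 : M.toAtl.s = F.atl.s := by rw [hM]
    exact h2
  rw [h1]
  unfold Fam.pt
  rw [if_neg (fun h2 => hp h2.1 h2.2), if_neg (fun h2 => hq h2.1 h2.2), h]

end Pool.Agent.EG.TM
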