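import Pool.Agent.EG.TM.Defs

/-!
# EG TM SelA: there are finitely many nodes

`Z = {x ∈ S | u x = 0 ∧ nv x = 0}`.  `node_finite`: `Z` is finite.  `h3` with `R = 0`: a point `x ∈ Z` with `R' < ‖x‖` is in the domain of a chart at infinity, `p = c.q x ∈ ball 0 3`, `p.2 ≠ 0`, `c.s p = x` (`q_mem`), `c.b = 0` (`b_inf`), so `nv x ≠ 0` (`nv_ne`): contradiction.
So `Z ⊆ closedBall 0 R'`, closed: compact.  For `x ∈ Z` the chart `c` of `h2` (`U = univ`) satisfies `Z ∩ c.D = {x}`: for `x' ∈ Z ∩ c.D` and `p = c.q x'`: `nv (c.s p) = nv x' = 0` implies `p = 0` (`nv_ne`), so `x' = c.s 0 = x`.  A finite subcover of `Z` by these open sets gives the claim.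

-/

set_option autoImplicit false

open Topology Filter Metric Set

namespace Pool.Agent.EG.TM

open Pool.Agent.H36.BP (EN)

variable {N : ℕ} {S : Set (EN N)} {u : EN N → ℂ} {nv : EN N → EN N}

theorem node_finite (hS : IsClosed S) (hu : Continuous u) (hnv : Continuous nv)
    (h2 : ∀ x ∈ S, u x = 0 → nv x = 0 → ∀ U ∈ 𝓝 x, ∃ c : Ch S u nv, c.inf = false ∧ c.b = 1 ∧ c.D ⊆ U ∧ x ∈ c.D ∧ c.q x = 0)
    (h3 : ∀ R : ℝ, ∃ (κ : Type) (c : κ → Ch S u nv), Finite κ ∧ (∀ i, (c i).inf = true ∧ ∀ x ∈ (c i).D, R < ‖x‖) ∧ (∀ i j, i ≠ j → Disjoint (c i).D (c j).D) ∧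
      ∃ R' ρ : ℝ, 0 < ρ ∧ ∀ x ∈ S, R' < ‖x‖ → ‖u x‖ < ρ → ∃ i, x ∈ (c i).D ∧ CenS ((c i).q x)) :
    {x | x ∈ S ∧ u x = 0 ∧ nv x = 0}.Finite := by
  obtain ⟨κ, c, -, hc1, -, R', ρ, hρ, hcov⟩ := h3 0
  have hZc : IsClosed {x | x ∈ S ∧ u x = 0 ∧ nv x = 0} := by
    have h4 : {x | x ∈ S ∧ u x = 0 ∧ nv x = 0} = S ∩ (u ⁻¹' {0} ∩ nv ⁻¹' {0}) := by
      ext x
      exact ⟨fun h => ⟨h.1, h.2.1, h.2.2⟩, fun h => ⟨h.1, h.2.1, h.2.2⟩⟩
    rw [h4]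
    exact hS.inter ((isClosed_singleton.preimage hu).inter (isClosed_singleton.preimage hnv))
  have hZb : {x | x ∈ S ∧ u x = 0 ∧ nv x = 0} ⊆ closedBall 0 R' := by
    intro x hx
    rw [mem_closedBall_zero_iff]
    by_contra hcon
    have hcon' : R' < ‖x‖ := not_le.mp hcon
    obtain ⟨i, hi, -⟩ := hcov x hx.1 hcon' (by rw [hx.2.1, norm_zero]; exact hρ)
    obtain ⟨hq1, hq2, hq3⟩ := (c i).q_mem x hi hx.1
    have hb := (c i).b_inf (hc1 i).1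
    have h5 := (c i).nv_ne _ hq1 hq2 (fun h => by omega)
    rw [hq3] at h5
    exact h5 hx.2.2
  have hK : IsCompact {x | x ∈ S ∧ u x = 0 ∧ nv x = 0} :=
    (isCompact_closedBall (0 : EN N) R').of_isClosed_subset hZc hZb
  have hiso : ∀ x, x ∈ {x | x ∈ S ∧ u x = 0 ∧ nv x = 0} → ∃ D : Set (EN N), D ∈ 𝓝 x ∧
      {x | x ∈ S ∧ u x = 0 ∧ nv x = 0} ∩ D ⊆ {x} := by
    intro x hx
    obtain ⟨c, -, -, -, hxD, hq0⟩ := h2 x hx.1 hx.2.1 hx.2.2 univ Filter.univ_mem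
    refine ⟨c.D, c.isOpen_D.mem_nhds hxD, ?_⟩
    rintro y ⟨hy, hyD⟩
    obtain ⟨hq1, hq2, hq3⟩ := c.q_mem y hyD hy.1
    have hp : c.q y = 0 := by
      by_contra hne
      have h5 := c.nv_ne _ hq1 hq2 (fun _ => hne)
      rw [hq3] at h5
      exact h5 hy.2.2
    have h4 := (c.q_mem x hxD hx.1).2.2
    rw [mem_singleton_iff, ← hq3, hp, ← hq0, h4]
  choose! D hD hDs using hiso
  obtain ⟨t, ht, htc⟩ := hK.elim_nhds_subcover D hD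
  refine t.finite_toSet.subset fun y hy => ?_
  obtain ⟨x, hx, hyx⟩ := mem_iUnion₂.1 (htc hy)
  have h6 : y = x := hDs x (ht x hx) ⟨hy, hyx⟩
  rw [h6]
  exact hx

end Pool.Agent.EG.TM
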