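import Pool.Agent.EG.TM.ChB

/-!
# EG TM Trans: the changes of charts are defined on balls of a uniform radius

`trans_compact`: the set is contained in `closedBall 0 1` (compact).  It is sequentially closed (use `IsCompact` = sequentially compact in `ℂ × ℂ`, `isCompact_iff_isSeqCompact`): let `x n` be in
the set, `x n → x`, `p n = c.q (d.s (x n)) ∈ closedBall 0 1`, and (subsequence) `p n → p`.  `c.s (p n) = d.s (x n)` (`tr_an`).
(1) `x` is finite for `d` (`d.inf = true → x.2 ≠ 0`) and `p` is finite for `c`: `c.s (p n) → c.s p`, `d.s (x n) → d.s x` (continuity), so `c.s p = d.s x`, `c.s p ∈ c.D` and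
`c.q (d.s x) = c.q (c.s p) = p` (`s_mem`): `x` is in the set.
(2) `x` is finite for `d`, `c.inf = true`, `p.2 = 0`: `big` for `c`: `c₁ ≤ ‖c.s (p n)‖ * ‖(p n).2‖`, so `‖d.s (x n)‖ = ‖c.s (p n)‖ → ∞`, but `d.s (x n) → d.s x`: contradiction.
(3) `d.inf = true`, `x.2 = 0`: `‖d.s (x n)‖ → ∞` (`big` for `d`).  If `c.inf = true` then `c.D` and `d.D` are disjoint and the set is empty (`d.s (x n) ∈ d.D` by `s_mem`).
Otherwise `c.s (p n) → c.s p`: contradiction.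

`trans_unif`: every point `x₀` of the compact set has a ball `ball x₀ r` in `ball 0 2` on which the conditions `(d.inf = true → y.2 ≠ 0) ∧ d.s y ∈ c.D ∧ ‖c.q (d.s y) - c.q (d.s x₀)‖ < 1 / 8` hold (open
conditions, `tr_an`).  `lebesgue_number_lemma_of_metric` gives `η` such that for all `x` in the set `ball x η` is contained in one of these balls; then
`‖c.q (d.s y) - c.q (d.s x)‖ < 1 / 8 + 1 / 8`.  (If the set is empty take `η = 1`.)
-/

set_option autoImplicit false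

open Topology Filter Metric Set

namespace Pool.Agent.EG.TM

open Pool.Agent.H36.BP (EN)

variable {N : ℕ} {S : Set (EN N)} {u : EN N → ℂ} {nv : EN N → EN N}

theorem trans_compact (c d : Ch S u nv) (h : c.inf = true → d.inf = true → Disjoint c.D d.D) :
    IsCompact {x : ℂ × ℂ | x ∈ closedBall (0 : ℂ × ℂ) 1 ∧ (d.inf = true → x.2 ≠ 0) ∧ d.s x ∈ c.D ∧ c.q (d.s x) ∈ closedBall (0 : ℂ × ℂ) 1} := by
  have h13 : ∀ x ∈ closedBall (0 : ℂ × ℂ) 1, x ∈ ball (0 : ℂ × ℂ) 3 := fun x hx => closedBall_subset_ball (by norm_num) hx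
  have hsc : ∀ (c : Ch S u nv) (p : ℂ × ℂ), p ∈ closedBall (0 : ℂ × ℂ) 1 → (c.inf = true → p.2 ≠ 0) → ContinuousAt c.s p :=
    fun c p hp hf => (c.s_an p (h13 p hp) hf).continuousAt
  have hblow : ∀ (c : Ch S u nv) (p : ℕ → ℂ × ℂ) (p₀ : ℂ × ℂ), (∀ n, p n ∈ closedBall (0 : ℂ × ℂ) 1) → (∀ n, c.inf = true → (p n).2 ≠ 0) →
      Tendsto p atTop (𝓝 p₀) → c.inf = true → p₀.2 = 0 → Tendsto (fun n => ‖c.s (p n)‖) atTop atTop := by
    intro c p p₀ hp hf hlim hc h0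
    obtain ⟨k, hk, hbig⟩ := c.big hc
    have h1 : Tendsto (fun n => ‖(p n).2‖) atTop (𝓝 0) := by
      have h2 := ((continuous_snd.tendsto p₀).comp hlim).norm
      rw [h0, norm_zero] at h2
      exact h2
    have h2 : Tendsto (fun n => k * ‖(p n).2‖⁻¹) atTop atTop := by
      refine Tendsto.const_mul_atTop hk ?_
      refine Tendsto.inv_tendsto_nhdsGT_zero ?_
      refine tendsto_nhdsWithin_iff.mpr ⟨h1, Eventually.of_forall fun n => ?_⟩
      exact norm_pos_iff.mpr (hf n hc)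
    refine tendsto_atTop_mono (fun n => ?_) h2
    have h3 : 0 < ‖(p n).2‖ := norm_pos_iff.mpr (hf n hc)
    have h4 := hbig (p n) (h13 _ (hp n)) (hf n hc)
    rw [← div_eq_mul_inv, div_le_iff₀ h3]
    exact h4
  rw [isCompact_iff_isSeqCompact]
  intro x hx
  have hK : IsCompact (closedBall (0 : ℂ × ℂ) 1 ×ˢ closedBall (0 : ℂ × ℂ) 1) :=
    (isCompact_closedBall _ _).prod (isCompact_closedBall _ _)
  obtain ⟨⟨x₀, p₀⟩, hmem, φ, hφ, hlim⟩ := hK.isSeqCompact (x := fun n => (x n, c.q (d.s (x n)))) (fun n => ⟨(hx n).1, (hx n).2.2.2⟩)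
  have hx₀ : x₀ ∈ closedBall (0 : ℂ × ℂ) 1 := hmem.1
  have hp₀ : p₀ ∈ closedBall (0 : ℂ × ℂ) 1 := hmem.2
  have hxl : Tendsto (fun n => x (φ n)) atTop (𝓝 x₀) := (continuous_fst.tendsto _).comp hlim
  have hpl : Tendsto (fun n => c.q (d.s (x (φ n)))) atTop (𝓝 p₀) := (continuous_snd.tendsto _).comp hlim
  have han := fun n => tr_an c d (h13 _ (hx n).1) (hx n).2.1 (hx n).2.2.1
  refine ⟨x₀, ?_, φ, hφ, hxl⟩
  by_cases hfx : d.inf = true → x₀.2 ≠ 0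
  · have hdx : Tendsto (fun n => d.s (x (φ n))) atTop (𝓝 (d.s x₀)) := (hsc d x₀ hx₀ hfx).tendsto.comp hxl
    by_cases hfp : c.inf = true → p₀.2 ≠ 0
    · have hcp : Tendsto (fun n => c.s (c.q (d.s (x (φ n))))) atTop (𝓝 (c.s p₀)) := (hsc c p₀ hp₀ hfp).tendsto.comp hpl
      have heq : (fun n => c.s (c.q (d.s (x (φ n))))) = fun n => d.s (x (φ n)) := by
        funext n
        exact (han (φ n)).2.2.2.1
      rw [heq] at hcp
      have h1 : c.s p₀ = d.s x₀ := tendsto_nhds_unique hcp hdx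
      have h2 := c.s_mem p₀ (h13 _ hp₀) hfp
      refine ⟨hx₀, hfx, ?_, ?_⟩
      · rw [← h1]
        exact h2.2.1
      · rw [← h1, h2.2.2]
        exact hp₀
    · push Not at hfp
      have h1 := hblow c (fun n => c.q (d.s (x (φ n)))) p₀ (fun n => (hx (φ n)).2.2.2) (fun n => (han (φ n)).2.2.1) hpl hfp.1 hfp.2
      have heq : (fun n => ‖c.s (c.q (d.s (x (φ n))))‖) = fun n => ‖d.s (x (φ n))‖ := by
        funext n
        rw [(han (φ n)).2.2.2.1]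
      rw [heq] at h1
      exact absurd hdx.norm (not_tendsto_nhds_of_tendsto_atTop h1 _)
  · push Not at hfx
    exfalso
    have h1 := hblow d (fun n => x (φ n)) x₀ (fun n => (hx (φ n)).1) (fun n => (hx (φ n)).2.1) hxl hfx.1 hfx.2
    by_cases hc : c.inf = true
    · have h2 := (h hc hfx.1).ne_of_mem (hx 0).2.2.1 (d.s_mem _ (h13 _ (hx 0).1) (hx 0).2.1).2.1
      exact h2 rfl
    · have hcp : Tendsto (fun n => c.s (c.q (d.s (x (φ n))))) atTop (𝓝 (c.s p₀)) :=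
        (hsc c p₀ hp₀ (fun h3 => absurd h3 hc)).tendsto.comp hpl
      have heq : (fun n => c.s (c.q (d.s (x (φ n))))) = fun n => d.s (x (φ n)) := by
        funext n
        exact (han (φ n)).2.2.2.1
      rw [heq] at hcp
      exact absurd hcp.norm (not_tendsto_nhds_of_tendsto_atTop h1 _)

theorem trans_unif (c d : Ch S u nv) (h : c.inf = true → d.inf = true → Disjoint c.D d.D) : ∃ η : ℝ, 0 < η ∧ η ≤ 1 / 4 ∧
    ∀ x ∈ closedBall (0 : ℂ × ℂ) 1, (d.inf = true → x.2 ≠ 0) → d.s x ∈ c.D → c.q (d.s x) ∈ closedBall (0 : ℂ × ℂ) 1 →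
      ∀ y ∈ ball x η, y ∈ ball (0 : ℂ × ℂ) 2 ∧ (d.inf = true → y.2 ≠ 0) ∧ d.s y ∈ c.D ∧ ‖c.q (d.s y) - c.q (d.s x)‖ < 1 / 4 := by
  have h13 : ∀ x ∈ closedBall (0 : ℂ × ℂ) 1, x ∈ ball (0 : ℂ × ℂ) 3 := fun x hx => closedBall_subset_ball (by norm_num) hx
  set K : Set (ℂ × ℂ) := {x : ℂ × ℂ | x ∈ closedBall (0 : ℂ × ℂ) 1 ∧ (d.inf = true → x.2 ≠ 0) ∧ d.s x ∈ c.D ∧ c.q (d.s x) ∈ closedBall (0 : ℂ × ℂ) 1} with hK
  have hKc : IsCompact K := trans_compact c d h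
  -- good neighbourhoods
  have hloc : ∀ x₀ : K, ∃ r : ℝ, 0 < r ∧ ∀ y ∈ ball (x₀ : ℂ × ℂ) r, y ∈ ball (0 : ℂ × ℂ) 2 ∧ (d.inf = true → y.2 ≠ 0) ∧ d.s y ∈ c.D ∧
      ‖c.q (d.s y) - c.q (d.s x₀)‖ < 1 / 8 := by
    rintro ⟨x₀, hx₀⟩
    have e1 : ∀ᶠ y in 𝓝 x₀, y ∈ ball (0 : ℂ × ℂ) 2 := isOpen_ball.mem_nhds (closedBall_subset_ball (by norm_num) hx₀.1)
    have e2 : ∀ᶠ y in 𝓝 x₀, d.inf = true → y.2 ≠ 0 := by
      by_cases hd : d.inf = true
      · filter_upwards [continuous_snd.continuousAt.eventually_ne (hx₀.2.1 hd)] with y hy _ using hy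
      · exact Eventually.of_forall fun y hd' => absurd hd' hd
    have e3 : ∀ᶠ y in 𝓝 x₀, d.s y ∈ c.D :=
      (d.s_an x₀ (h13 _ hx₀.1) hx₀.2.1).continuousAt.eventually (c.isOpen_D.mem_nhds hx₀.2.2.1)
    have e4 : ∀ᶠ y in 𝓝 x₀, ‖c.q (d.s y) - c.q (d.s x₀)‖ < 1 / 8 := by
      have h1 := (tr_an c d (h13 _ hx₀.1) hx₀.2.1 hx₀.2.2.1).1.continuousAt
      have h2 := Metric.continuousAt_iff'.mp h1 (1 / 8) (by norm_num)
      filter_upwards [h2] with y hy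
      rwa [dist_eq_norm] at hy
    obtain ⟨r, hr, hall⟩ := Metric.eventually_nhds_iff_ball.mp (((e1.and e2).and e3).and e4)
    exact ⟨r, hr, fun y hy => ⟨(hall y hy).1.1.1, (hall y hy).1.1.2, (hall y hy).1.2, (hall y hy).2⟩⟩
  choose r hr hall using hloc
  obtain ⟨η₀, hη₀, hleb⟩ := lebesgue_number_lemma_of_metric hKc (c := fun x₀ : K => ball (x₀ : ℂ × ℂ) (r x₀)) (fun _ => isOpen_ball)
    (fun x hx => mem_iUnion.mpr ⟨⟨x, hx⟩, mem_ball_self (hr ⟨x, hx⟩)⟩)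
  refine ⟨min η₀ (1 / 4), lt_min hη₀ (by norm_num), min_le_right _ _, fun x hx hf hD hq y hy => ?_⟩
  obtain ⟨x₀, hx₀⟩ := hleb x ⟨hx, hf, hD, hq⟩
  have hyb : y ∈ ball x η₀ := ball_subset_ball (min_le_left _ _) hy
  have h1 := hall x₀ y (hx₀ hyb)
  have h2 := hall x₀ x (hx₀ (mem_ball_self hη₀))
  refine ⟨h1.1, h1.2.1, h1.2.2.1, ?_⟩
  have h3 : c.q (d.s y) - c.q (d.s x) = (c.q (d.s y) - c.q (d.s x₀)) - (c.q (d.s x) - c.q (d.s x₀)) := by abel
  rw [h3]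
  have h4 := norm_sub_le (c.q (d.s y) - c.q (d.s x₀)) (c.q (d.s x) - c.q (d.s x₀))
  have h5 := h1.2.2.2
  have h6 := h2.2.2.2
  linarith

end Pool.Agent.EG.TM
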